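import Pool.Agent.H44.Tys.Str

/-!
# The case in which all relevant relations are doublings
-/

set_option linter.all false

namespace H44.Tys

open Module

variable {Λ : Type*} [AddCommGroup Λ] {ι : Type*} [Fintype ι]

/-- every element has a nonzero multiple in the span -/
def Full (Δ : Finset Λ) : Prop := ∀ x : Λ, ∃ n : ℤ, n ≠ 0 ∧ n • x ∈ Submodule.span ℤ (Δ : Set Λ)

lemma full_erase [DecidableEq Λ] {Δ : Finset Λ} (hΔ : Full Δ) {δ : Λ} (hδ : δ ∈ Δ) {n : ℤ}
    (hn : n ≠ 0) (h : n • δ ∈ Submodule.span ℤ ((Δ.erase δ : Finset Λ) : Set Λ)) :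
    Full (Δ.erase δ) := by
  intro x
  obtain ⟨k, hk, hx⟩ := hΔ x
  have h1 : (Δ : Set Λ) = insert δ ((Δ.erase δ : Finset Λ) : Set Λ) := by
    rw [← Finset.coe_insert, Finset.insert_erase hδ]
  rw [h1, Submodule.mem_span_insert] at hx
  obtain ⟨a, z, hz, hxz⟩ := hx
  refine ⟨n * k, mul_ne_zero hn hk, ?_⟩
  rw [mul_smul, hxz, smul_add, smul_smul, mul_comm n a, ← smul_smul]
  exact Submodule.add_mem _ (Submodule.smul_mem _ _ h) (Submodule.smul_mem _ _ hz)

/-- index bound for a full set of relations of degree one -/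
lemma order_bound [Module.Finite ℤ Λ] {e : ι → Λ}
    (hgen : Submodule.span ℤ (Set.range e) = ⊤) {t : ℕ} {c : ℝ} (hQ : Qp e t c)
    (R : Finset Λ) (hR : ∀ r ∈ R, ∃ a ∈ Wn e 1, ∃ b ∈ Wn e 1, a = b + r) (hfull : Full R) (x : Λ) :
    ∃ I : ℕ, 0 < I ∧ (I : ℝ) ≤ c ∧ I • x ∈ Submodule.span ℤ (R : Set Λ) := by
  classical
  obtain ⟨t', hQ'⟩ := Qp_more hQ R hR
  have hgen' : Submodule.span ℤ (Set.range fun i : ι =>
      Submodule.Quotient.mk (p := Submodule.span ℤ (R : Set Λ)) (e i)) = ⊤ := by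
    have h1 : (Set.range fun i : ι =>
        Submodule.Quotient.mk (p := Submodule.span ℤ (R : Set Λ)) (e i)) =
        (Submodule.mkQ (Submodule.span ℤ (R : Set Λ))) '' (Set.range e) := by
      ext y; simp
    rw [h1, ← Submodule.map_span, hgen, Submodule.map_top, Submodule.range_mkQ]
  have htors : ∀ y : Λ ⧸ Submodule.span ℤ (R : Set Λ), ∃ n : ℤ, n ≠ 0 ∧ n • y = 0 := by
    intro y
    obtain ⟨z, rfl⟩ := Submodule.Quotient.mk_surjective _ y
    obtain ⟨n, hn, hz⟩ := hfull z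
    refine ⟨n, hn, ?_⟩
    rw [← Submodule.Quotient.mk_smul, Submodule.Quotient.mk_eq_zero]
    exact hz
  set y : Λ ⧸ Submodule.span ℤ (R : Set Λ) := Submodule.Quotient.mk x with hy
  have hpos : 0 < addOrderOf y := by
    rw [addOrderOf_pos_iff, isOfFinAddOrder_iff_zsmul_eq_zero]
    exact htors y
  refine ⟨addOrderOf y, hpos, ?_, ?_⟩
  · have h1 := card_le_of_Qp hgen' hQ' htors
      ((Finset.range (addOrderOf y)).image (fun j : ℕ => j • y))
    rw [Finset.card_image_of_injOn, Finset.card_range] at h1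
    · exact h1
    · intro i hi j hj h
      have := nsmul_injOn_Iio_addOrderOf (x := y)
      exact this (by simpa using hi) (by simpa using hj) h
  · rw [← Submodule.Quotient.mk_eq_zero]
    exact addOrderOf_nsmul_eq_zero y

/-- the logarithmic size -/
noncomputable def lu (ev : AddMonoidAlgebra ℤ Λ →+* ℂ) : Λ →+ ℝ where
  toFun μ := Real.log ‖ev (AddMonoidAlgebra.single μ 1)‖
  map_zero' := by rw [← AddMonoidAlgebra.one_def, map_one, norm_one, Real.log_one]
  map_add' μ ν := by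
    have : ev (AddMonoidAlgebra.single (μ + ν) 1) =
        ev (AddMonoidAlgebra.single μ 1) * ev (AddMonoidAlgebra.single ν 1) := by
      rw [← map_mul, AddMonoidAlgebra.single_mul_single, one_mul]
    rw [this, norm_mul, Real.log_mul (norm_ne_zero_iff.mpr (Xe_ne ev μ))
      (norm_ne_zero_iff.mpr (Xe_ne ev ν))]

theorem allD_core [Module.Finite ℤ Λ] {e : ι → Λ}
    (hgen : Submodule.span ℤ (Set.range e) = ⊤) {t : ℕ} {c : ℝ} (hQ : Qp e t c)
    (u : Λ →+ ℝ) (s : ℝ) (hs : 0 ≤ s) (Δ0 : Finset Λ)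
    (hΔ0 : ∀ r ∈ Δ0, ∃ a ∈ Wn e 1, ∃ b ∈ Wn e 1, a = b + r) (hu : ∀ r ∈ Δ0, u r = s)
    (hfull : Full Δ0) (i : ι) : u (e i) ≤ (finrank ℤ Λ) * c * s := by
  classical
  have hc0 : 0 ≤ c := by
    have h1 := hQ.2 0
    have h2 : 0 ≤ Sm^[t] (Vn e) 0 := Smk_nonneg t (Vn_nonneg e) 0
    rw [zero_add, Nat.choose_self] at h1
    push_cast at h1
    linarith
  -- a minimal full subset
  obtain ⟨Δ, hΔmem, hΔmin⟩ := Finset.exists_min_image
    (Δ0.powerset.filter (fun Δ => Full Δ)) Finset.card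
    ⟨Δ0, Finset.mem_filter.mpr ⟨Finset.mem_powerset_self _, hfull⟩⟩
  rw [Finset.mem_filter, Finset.mem_powerset] at hΔmem
  obtain ⟨hΔ, hΔfull⟩ := hΔmem
  have hmin : ∀ δ ∈ Δ, ∀ n : ℤ, n • δ ∈ Submodule.span ℤ ((Δ.erase δ : Finset Λ) : Set Λ) →
      n = 0 := by
    intro δ hδ n hn
    by_contra hn0
    have h1 := full_erase hΔfull hδ hn0 hn
    have h2 := hΔmin (Δ.erase δ) (Finset.mem_filter.mpr
      ⟨Finset.mem_powerset.mpr ((Finset.erase_subset _ _).trans hΔ), h1⟩)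
    rw [Finset.card_erase_of_mem hδ] at h2
    have h3 : 0 < Δ.card := Finset.card_pos.mpr ⟨δ, hδ⟩
    omega
  have hsum_mem : ∀ (δ : Λ) (k : Λ → ℤ), ∑ δ' ∈ Δ.erase δ, k δ' • δ' ∈
      Submodule.span ℤ ((Δ.erase δ : Finset Λ) : Set Λ) := fun δ k =>
    Submodule.sum_mem _ fun δ' hδ' => Submodule.smul_mem _ _ (Submodule.subset_span hδ')
  -- independence
  have hind : ∀ k : Λ → ℤ, ∑ δ ∈ Δ, k δ • δ = 0 → ∀ δ ∈ Δ, k δ = 0 := by
    intro k hk δ hδ
    apply hmin δ hδ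
    have h1 : k δ • δ = -∑ δ' ∈ Δ.erase δ, k δ' • δ' := by
      rw [← Finset.add_sum_erase Δ (fun δ => k δ • δ) hδ] at hk
      exact eq_neg_of_add_eq_zero_left hk
    rw [h1]
    exact Submodule.neg_mem _ (hsum_mem δ k)
  have hcard : Δ.card ≤ finrank ℤ Λ := by
    have h1 : LinearIndependent ℤ (fun δ : Δ => (δ : Λ)) := by
      rw [Fintype.linearIndependent_iff]
      intro g hg δ
      have h2 := hind (fun x => if hx : x ∈ Δ then g ⟨x, hx⟩ else 0) (by
        rw [← hg, ← Finset.sum_coe_sort Δ]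
        refine Finset.sum_congr rfl fun x _ => ?_
        simp) δ δ.2
      simpa using h2
    have h3 := h1.fintype_card_le_finrank
    rwa [Fintype.card_coe] at h3
  -- coordinates of the generator
  obtain ⟨N, hN, hNx⟩ := hΔfull (e i)
  obtain ⟨k, hk⟩ : ∃ k : Λ → ℤ, N • e i = ∑ δ ∈ Δ, k δ • δ := by
    rw [Submodule.mem_span_finset] at hNx
    obtain ⟨k, -, hk⟩ := hNx
    exact ⟨k, hk.symm⟩
  -- bounds for the coordinates
  have hbound : ∀ δ ∈ Δ, |(k δ : ℝ)| ≤ c * |(N : ℝ)| := by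
    intro δ hδ
    by_cases hk0 : k δ = 0
    · rw [hk0]; simp; positivity
    have hsplit : ∑ δ' ∈ Δ, k δ' • δ' = k δ • δ + ∑ δ' ∈ Δ.erase δ, k δ' • δ' :=
      (Finset.add_sum_erase Δ (fun δ => k δ • δ) hδ).symm
    have hle : Submodule.span ℤ ((Δ.erase δ : Finset Λ) : Set Λ) ≤
        Submodule.span ℤ ((insert (e i) (Δ.erase δ) : Finset Λ) : Set Λ) := by
      apply Submodule.span_mono
      rw [Finset.coe_insert]
      exact Set.subset_insert _ _
    have hei : e i ∈ Submodule.span ℤ ((insert (e i) (Δ.erase δ) : Finset Λ) : Set Λ) :=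
      Submodule.subset_span (by simp)
    have hfull' : Full (insert (e i) (Δ.erase δ)) := by
      intro x
      obtain ⟨n, hn, hx⟩ := hΔfull x
      have h1 : (Δ : Set Λ) = insert δ ((Δ.erase δ : Finset Λ) : Set Λ) := by
        rw [← Finset.coe_insert, Finset.insert_erase hδ]
      rw [h1, Submodule.mem_span_insert] at hx
      obtain ⟨a, z, hz, hxz⟩ := hx
      refine ⟨k δ * n, mul_ne_zero hk0 hn, ?_⟩
      have h2 : (k δ * n) • x = a • (N • e i) - a • ∑ δ' ∈ Δ.erase δ, k δ' • δ' + k δ • z := by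
        rw [mul_smul, hxz, smul_add, hk, hsplit, smul_add, smul_comm (k δ) a]
        abel
      rw [h2]
      refine Submodule.add_mem _ (Submodule.sub_mem _ ?_ ?_) (Submodule.smul_mem _ _ (hle hz))
      · exact Submodule.smul_mem _ _ (Submodule.smul_mem _ _ hei)
      · exact Submodule.smul_mem _ _ (hle (hsum_mem δ k))
    obtain ⟨I, hI0, hIc, hI⟩ := order_bound hgen hQ (insert (e i) (Δ.erase δ)) (by
      intro r hr
      rw [Finset.mem_insert] at hr
      rcases hr with rfl | hr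
      · exact ⟨e i, gen_mem_Wn e i, 0, zero_mem_Wn e 1, by rw [zero_add]⟩
      · exact hΔ0 r (hΔ (Finset.mem_of_mem_erase hr))) hfull' δ
    rw [Finset.coe_insert, Submodule.mem_span_insert] at hI
    obtain ⟨b, z, hz, hIz⟩ := hI
    have h3 : ((I : ℤ) * N - b * k δ) • δ ∈
        Submodule.span ℤ ((Δ.erase δ : Finset Λ) : Set Λ) := by
      have h4 : ((I : ℤ) * N - b * k δ) • δ = b • ∑ δ' ∈ Δ.erase δ, k δ' • δ' + N • z := by
        have h5 : ((I : ℤ) * N) • δ = N • (b • e i) + N • z := by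
          rw [← smul_add, ← hIz, mul_comm, mul_smul, natCast_zsmul]
        rw [sub_smul, h5, smul_comm N b, hk, hsplit, smul_add, mul_smul]
        abel
      rw [h4]
      exact Submodule.add_mem _ (Submodule.smul_mem _ _ (hsum_mem δ k))
        (Submodule.smul_mem _ _ hz)
    have h4 := hmin δ hδ _ h3
    have h5 : (I : ℤ) * N = b * k δ := by linarith
    have hb : b ≠ 0 := by
      rintro rfl
      rw [zero_mul] at h5
      rcases mul_eq_zero.mp h5 with h6 | h6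
      · have : I = 0 := by exact_mod_cast h6
        omega
      · exact hN h6
    have h6 : (I : ℝ) * |(N : ℝ)| = |(b : ℝ)| * |(k δ : ℝ)| := by
      have h7 : (I : ℝ) * (N : ℝ) = (b : ℝ) * (k δ : ℝ) := by exact_mod_cast h5
      rw [← abs_mul, ← h7, abs_mul, Nat.abs_cast]
    have h7 : (1 : ℝ) ≤ |(b : ℝ)| := by exact_mod_cast Int.one_le_abs hb
    have h8 : |(k δ : ℝ)| ≤ |(b : ℝ)| * |(k δ : ℝ)| :=
      le_mul_of_one_le_left (abs_nonneg _) h7
    calc |(k δ : ℝ)| ≤ (I : ℝ) * |(N : ℝ)| := by rw [h6]; exact h8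
      _ ≤ c * |(N : ℝ)| := by gcongr
  -- conclusion
  have h1 : (N : ℝ) * u (e i) = ∑ δ ∈ Δ, (k δ : ℝ) * s := by
    have h2 := congrArg u hk
    rw [map_zsmul, map_sum, zsmul_eq_mul] at h2
    rw [h2]
    refine Finset.sum_congr rfl fun δ hδ => ?_
    rw [map_zsmul, zsmul_eq_mul, hu δ (hΔ hδ)]
  have h2 : |(N : ℝ)| * |u (e i)| ≤ Δ.card * (c * |(N : ℝ)| * s) := by
    rw [← abs_mul, h1]
    refine (Finset.abs_sum_le_sum_abs _ _).trans ?_
    rw [← nsmul_eq_mul]
    refine Finset.sum_le_card_nsmul _ _ _ fun δ hδ => ?_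
    rw [abs_mul, abs_of_nonneg hs]
    exact mul_le_mul_of_nonneg_right (hbound δ hδ) hs
  have hN' : (0 : ℝ) < |(N : ℝ)| := by
    rw [abs_pos]; exact_mod_cast hN
  have h3 : |u (e i)| ≤ Δ.card * (c * s) := by
    have h4 : |(N : ℝ)| * |u (e i)| ≤ |(N : ℝ)| * (Δ.card * (c * s)) := by
      calc |(N : ℝ)| * |u (e i)| ≤ Δ.card * (c * |(N : ℝ)| * s) := h2
        _ = _ := by ring
    exact le_of_mul_le_mul_left h4 hN'
  have h4 : (Δ.card : ℝ) ≤ finrank ℤ Λ := by exact_mod_cast hcard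
  have h5 : 0 ≤ c * s := mul_nonneg hc0 hs
  calc u (e i) ≤ |u (e i)| := le_abs_self _
    _ ≤ Δ.card * (c * s) := h3
    _ ≤ finrank ℤ Λ * (c * s) := by gcongr
    _ = _ := by ring

end H44.Tys
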