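import Mathlib

/-!
# Bezout identity with bounds for the degrees
-/

set_option linter.all false

namespace H44.Tys

open Polynomial

variable {F : Type*} [Field F]

/-- the span of the shifts -/
noncomputable def Us (D : ℕ) (S : Set F[X]) : Submodule F F[X] :=
  Submodule.span F {p | ∃ f ∈ S, ∃ i < D, p = f * X ^ i}

lemma Us_mono {D : ℕ} {S T : Set F[X]} (h : S ⊆ T) : Us D S ≤ Us D T := by
  apply Submodule.span_mono
  rintro _ ⟨f, hf, i, hi, rfl⟩
  exact ⟨f, h hf, i, hi, rfl⟩

lemma mul_mem_Us {D : ℕ} {S : Set F[X]} {f : F[X]} (hf : f ∈ S) {p : F[X]}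
    (hp : ∀ i, D ≤ i → p.coeff i = 0) : f * p ∈ Us D S := by
  have h1 : f * p = ∑ i ∈ p.support, p.coeff i • (f * X ^ i) := by
    conv_lhs => rw [p.as_sum_support]
    rw [Finset.mul_sum]
    refine Finset.sum_congr rfl fun i _ => ?_
    rw [← C_mul_X_pow_eq_monomial, smul_eq_C_mul]
    ring
  rw [h1]
  refine Submodule.sum_mem _ fun i hi => Submodule.smul_mem _ _ (Submodule.subset_span ?_)
  refine ⟨f, hf, i, ?_, rfl⟩
  by_contra h
  exact (mem_support_iff.mp hi) (hp i (by omega))

lemma coprime_split {g f p : F[X]} (hgf : IsCoprime g f) (hg : g ≠ 0) {D : ℕ}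
    (hgD : g.natDegree ≤ D) (hfD : f.natDegree ≤ D) (hp : ∀ i, D ≤ i → p.coeff i = 0) :
    ∃ α β : F[X], p = α * g + β * f ∧ (∀ i, D ≤ i → α.coeff i = 0) ∧
      (∀ i, D ≤ i → β.coeff i = 0) := by
  obtain ⟨u, v, huv⟩ := hgf
  let β := (p * v) % g
  let α := p * u + f * (p * v / g)
  have h1 : p = α * g + β * f := by
    have h2 : g * (p * v / g) + (p * v) % g = p * v := EuclideanDomain.div_add_mod _ _
    show p = (p * u + f * (p * v / g)) * g + (p * v % g) * f
    linear_combination p * (-huv) + f * (-h2)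
  have hβ : β.degree < g.degree := EuclideanDomain.mod_lt _ hg
  have hβD : ∀ i, D ≤ i → β.coeff i = 0 := by
    intro i hi
    apply coeff_eq_zero_of_degree_lt
    refine lt_of_lt_of_le hβ ?_
    rw [degree_eq_natDegree hg]
    exact_mod_cast hgD.trans hi
  refine ⟨α, β, h1, ?_, hβD⟩
  intro i hi
  by_contra hne
  have hα : α ≠ 0 := fun h => hne (by rw [h, coeff_zero])
  have hαd : D ≤ α.natDegree := hi.trans (le_natDegree_of_ne_zero hne)
  have h2 : α * g = p - β * f := by rw [h1]; ring
  have h3 : (α * g).coeff (α.natDegree + g.natDegree) ≠ 0 := by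
    rw [coeff_mul_degree_add_degree]
    exact mul_ne_zero (leadingCoeff_ne_zero.mpr hα) (leadingCoeff_ne_zero.mpr hg)
  apply h3
  rw [h2, coeff_sub, hp _ (by omega), zero_sub, neg_eq_zero]
  by_cases hβ0 : β = 0
  · rw [hβ0, zero_mul, coeff_zero]
  by_cases hf0 : f = 0
  · rw [hf0, mul_zero, coeff_zero]
  apply coeff_eq_zero_of_natDegree_lt
  have h4 : β.natDegree < g.natDegree := by
    rw [degree_eq_natDegree hg, degree_eq_natDegree hβ0] at hβ
    exact_mod_cast hβ
  calc (β * f).natDegree ≤ β.natDegree + f.natDegree := natDegree_mul_le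
    _ < α.natDegree + g.natDegree := by omega

lemma exists_gen (D : ℕ) (S : Finset F[X]) (hS : ∀ f ∈ S, f.natDegree ≤ D) :
    ∃ g : F[X], Ideal.span (S : Set F[X]) = Ideal.span {g} ∧ g.natDegree ≤ D ∧
      ∀ p : F[X], (∀ i, D ≤ i → p.coeff i = 0) → g * p ∈ Us D (S : Set F[X]) := by
  classical
  induction S using Finset.induction_on with
  | empty =>
    refine ⟨0, by simp, by simp, fun p _ => ?_⟩
    rw [zero_mul]; exact Submodule.zero_mem _
  | insert f S _ ih =>
    obtain ⟨g, hg1, hg2, hg3⟩ := ih fun f' hf' => hS f' (Finset.mem_insert_of_mem hf')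
    have hfD := hS f (Finset.mem_insert_self f S)
    have hspan : Ideal.span ((insert f S : Finset F[X]) : Set F[X]) = Ideal.span {f, g} := by
      rw [Finset.coe_insert, Ideal.span_insert, hg1, ← Ideal.span_insert]
    have hSsub : (S : Set F[X]) ⊆ ((insert f S : Finset F[X]) : Set F[X]) := by
      rw [Finset.coe_insert]; exact Set.subset_insert _ _
    have hfmem : f ∈ ((insert f S : Finset F[X]) : Set F[X]) := by simp
    by_cases hg0 : g = 0
    · refine ⟨f, ?_, hfD, fun p hp => mul_mem_Us hfmem hp⟩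
      rw [hspan, hg0]
      apply le_antisymm
      · rw [Ideal.span_le]
        rintro x (rfl | rfl)
        · exact Ideal.subset_span rfl
        · exact Ideal.zero_mem _
      · exact Ideal.span_mono (by simp)
    · let h := EuclideanDomain.gcd f g
      have hh : Ideal.span {h} = Ideal.span {f, g} := EuclideanDomain.span_gcd f g
      have hh0 : h ≠ 0 := fun h0 => hg0 (EuclideanDomain.gcd_eq_zero_iff.mp h0).2
      obtain ⟨g', hg'⟩ : h ∣ g := EuclideanDomain.gcd_dvd_right f g
      obtain ⟨f', hf'⟩ : h ∣ f := EuclideanDomain.gcd_dvd_left f g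
      have hg'0 : g' ≠ 0 := fun h0 => hg0 (by rw [hg', h0, mul_zero])
      have hdeg : h.natDegree + g'.natDegree = g.natDegree := by
        rw [hg', natDegree_mul hh0 hg'0]
      have hdegf : f'.natDegree ≤ D := by
        by_cases hf0 : f' = 0
        · rw [hf0]; simp
        · have : f.natDegree = h.natDegree + f'.natDegree := by
            conv_lhs => rw [hf']
            exact natDegree_mul hh0 hf0
          omega
      have hcop : IsCoprime g' f' := by
        have h1 : h ∈ Ideal.span {f, g} := by rw [← hh]; exact Ideal.subset_span rfl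
        obtain ⟨a, b, hab⟩ := Ideal.mem_span_pair.mp h1
        refine ⟨b, a, ?_⟩
        apply mul_left_cancel₀ hh0
        have h2 : a * (h * f') + b * (h * g') = h := by
          rw [← hf', ← hg']; exact hab
        linear_combination h2
      refine ⟨h, by rw [hspan, hh], by omega, fun p hp => ?_⟩
      obtain ⟨α, β, hp1, hα, hβ⟩ := coprime_split hcop hg'0 (by omega : g'.natDegree ≤ D) hdegf hp
      have h1 : h * p = g * α + f * β := by
        rw [hp1]
        conv_rhs => rw [hg', hf']
        ring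
      rw [h1]
      exact Submodule.add_mem _ (Us_mono hSsub (hg3 α hα)) (mul_mem_Us hfmem hβ)

/-- if the only common zero of the polynomials is zero then a power of the variable is a
combination of few shifts -/
theorem bez {Ω : Type*} [Field Ω] [IsAlgClosed Ω] [Algebra F Ω] {D : ℕ} (hD : 1 ≤ D)
    (S : Finset F[X]) (hS : ∀ f ∈ S, f.natDegree ≤ D)
    (h : ∀ ζ : Ω, (∀ f ∈ S, aeval ζ f = 0) → ζ = 0) :
    ∃ ν ≤ D, (X : F[X]) ^ ν ∈ Us D (S : Set F[X]) := by
  obtain ⟨g, hg1, hg2, hg3⟩ := exists_gen D S hS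
  have hroot : ∀ ζ : Ω, aeval ζ g = 0 → ζ = 0 := by
    intro ζ hζ
    apply h
    intro f hf
    have h1 : f ∈ Ideal.span {g} := by rw [← hg1]; exact Ideal.subset_span hf
    obtain ⟨q, hq⟩ := Ideal.mem_span_singleton.mp h1
    rw [hq, map_mul, hζ, zero_mul]
  have hg0 : g ≠ 0 := by
    rintro rfl
    exact one_ne_zero (hroot 1 (by simp))
  -- the polynomial is a monomial
  have hmap : g.map (algebraMap F Ω) = C (algebraMap F Ω g.leadingCoeff) * X ^ g.natDegree := by
    have hs := IsAlgClosed.splits (g.map (algebraMap F Ω))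
    have h1 := hs.eq_prod_roots
    have h2 : (g.map (algebraMap F Ω)).roots = Multiset.replicate g.natDegree 0 := by
      rw [Multiset.eq_replicate]
      refine ⟨?_, ?_⟩
      · rw [← Polynomial.Splits.natDegree_eq_card_roots hs, natDegree_map]
      · intro b hb
        apply hroot
        have hb' := (mem_roots (by
          rw [Ne, Polynomial.map_eq_zero]; exact hg0)).mp hb
        rw [IsRoot, eval_map_algebraMap] at hb'
        exact hb'
    rw [h2] at h1
    rw [h1]
    simp
  have hg : g = C g.leadingCoeff * X ^ g.natDegree := by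
    ext i
    have h1 := congrArg (fun p => p.coeff i) hmap
    simp only [coeff_map, coeff_C_mul, coeff_X_pow] at h1 ⊢
    split_ifs at h1 ⊢ with hi
    · rw [mul_one] at h1 ⊢
      exact (algebraMap F Ω).injective h1
    · rw [mul_zero] at h1 ⊢
      exact (algebraMap F Ω).injective (by rw [h1, map_zero])
  refine ⟨g.natDegree, hg2, ?_⟩
  have h1 := hg3 (C g.leadingCoeff⁻¹) (by
    intro i hi
    rw [coeff_C, if_neg (by omega)])
  have h2 : g * C g.leadingCoeff⁻¹ = X ^ g.natDegree := by
    conv_lhs => rw [hg]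
    have h3 : g.leadingCoeff * g.leadingCoeff⁻¹ = 1 :=
      mul_inv_cancel₀ (leadingCoeff_ne_zero.mpr hg0)
    rw [leadingCoeff_mul, leadingCoeff_C, leadingCoeff_X_pow, mul_one]
    rw [mul_comm, ← mul_assoc, ← C_mul, mul_comm g.leadingCoeff⁻¹, h3, C_1, one_mul]
  rw [h2] at h1
  exact h1

end H44.Tys
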