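import Pool.Agent.H44.Tys.JL

/-!
# A long chain of prime ideals below a point with algebraic coordinates
-/

set_option linter.all false

namespace H44.Tys

open Polynomial

variable {Λ : Type*} [AddCommGroup Λ]

/-- masking the first `j` coordinates -/
def mask (m j : ℕ) : (Fin m → ℤ) →+ (Fin m → ℤ) where
  toFun v l := if (l : ℕ) < j then 0 else v l
  map_zero' := by funext l; simp
  map_add' v w := by funext l; by_cases h : (l : ℕ) < j <;> simp [h]

lemma mask_apply (m j : ℕ) (v : Fin m → ℤ) (l : Fin m) :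
    mask m j v l = if (l : ℕ) < j then 0 else v l := rfl

lemma mask_mask (m j : ℕ) (v : Fin m → ℤ) : mask m (j + 1) (mask m j v) = mask m (j + 1) v := by
  funext l
  simp only [mask_apply]
  split_ifs <;> first | rfl | omega

noncomputable def θh {m : ℕ} (ev : AddMonoidAlgebra ℤ Λ →+* ℂ) (w : Λ →+ (Fin m → ℤ)) (j : ℕ) :
    AddMonoidAlgebra ℤ Λ →+* AddMonoidAlgebra ℂ (Fin m → ℤ) :=
  (AddMonoidAlgebra.lift ℤ (AddMonoidAlgebra ℂ (Fin m → ℤ)) Λ
    { toFun := fun x => AddMonoidAlgebra.single (mask m j (w x.toAdd))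
        (ev (AddMonoidAlgebra.single x.toAdd 1))
      map_one' := by
        simp only [toAdd_one, map_zero]
        rw [← AddMonoidAlgebra.one_def, map_one, AddMonoidAlgebra.one_def]
      map_mul' := by
        intro x y
        simp only [toAdd_mul, map_add]
        rw [AddMonoidAlgebra.single_mul_single, ← map_mul, AddMonoidAlgebra.single_mul_single,
          one_mul] }).toRingHom

lemma θh_single {m : ℕ} (ev : AddMonoidAlgebra ℤ Λ →+* ℂ) (w : Λ →+ (Fin m → ℤ)) (j : ℕ) (i : Λ)
    (c : ℤ) : θh ev w j (AddMonoidAlgebra.single i c) =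
      AddMonoidAlgebra.single (mask m j (w i)) (ev (AddMonoidAlgebra.single i c)) := by
  unfold θh
  show (AddMonoidAlgebra.lift ℤ (AddMonoidAlgebra ℂ (Fin m → ℤ)) Λ _)
    (AddMonoidAlgebra.single i c) = _
  rw [AddMonoidAlgebra.lift_single]
  simp only [MonoidHom.coe_mk, OneHom.coe_mk, toAdd_ofAdd]
  rw [AddMonoidAlgebra.smul_single]
  congr 1
  have : (AddMonoidAlgebra.single i c : AddMonoidAlgebra ℤ Λ) =
      c • AddMonoidAlgebra.single i (1 : ℤ) := by
    rw [AddMonoidAlgebra.smul_single]; simp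
  rw [this, map_zsmul]

lemma θh_eq {m : ℕ} (ev : AddMonoidAlgebra ℤ Λ →+* ℂ) (w : Λ →+ (Fin m → ℤ)) (j : ℕ)
    (f : AddMonoidAlgebra ℤ Λ) (v0 : Fin m → ℤ) (hv0 : ∀ μ ∈ f.coeff.support, mask m j (w μ) = v0) :
    θh ev w j f = AddMonoidAlgebra.single v0 (ev f) := by
  conv_lhs => rw [← AddMonoidAlgebra.sum_coeff_single f]
  conv_rhs => rw [← AddMonoidAlgebra.sum_coeff_single f]
  rw [Finsupp.sum, map_sum, map_sum]
  have h1 : ∀ s : Finset Λ, AddMonoidAlgebra.single v0
      (∑ x ∈ s, ev (AddMonoidAlgebra.single x (f.coeff x))) =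
      ∑ x ∈ s, AddMonoidAlgebra.single v0 (ev (AddMonoidAlgebra.single x (f.coeff x))) := by
    classical
    intro s
    induction s using Finset.induction_on with
    | empty => simp
    | insert a s ha ih => rw [Finset.sum_insert ha, Finset.sum_insert ha,
        AddMonoidAlgebra.single_add, ih]
  rw [h1]
  refine Finset.sum_congr rfl fun x hx => ?_
  rw [θh_single, hv0 x hx]

lemma θh_succ {m : ℕ} (ev : AddMonoidAlgebra ℤ Λ →+* ℂ) (w : Λ →+ (Fin m → ℤ)) (j : ℕ)
    (a : AddMonoidAlgebra ℤ Λ) :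
    θh ev w (j + 1) a = AddMonoidAlgebra.mapDomainRingHom ℂ (mask m (j + 1)) (θh ev w j a) := by
  have h : θh ev w (j + 1) =
      (AddMonoidAlgebra.mapDomainRingHom ℂ (mask m (j + 1))).comp (θh ev w j) := by
    refine AddMonoidAlgebra.ringHom_ext (fun c => ?_) (fun x => ?_)
    · rw [RingHom.comp_apply, θh_single, θh_single]
      simp only [map_zero]
      rw [AddMonoidAlgebra.mapDomainRingHom_apply, AddMonoidAlgebra.mapDomain_single, map_zero]
    · rw [RingHom.comp_apply, θh_single, θh_single,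
        AddMonoidAlgebra.mapDomainRingHom_apply, AddMonoidAlgebra.mapDomain_single, mask_mask]
  rw [h]; rfl

instance instPrimeθ {m : ℕ} (ev : AddMonoidAlgebra ℤ Λ →+* ℂ) (w : Λ →+ (Fin m → ℤ)) (j : ℕ) :
    (RingHom.ker (θh ev w j)).IsPrime := RingHom.ker_isPrime _

lemma ker_θh_last {m : ℕ} (ev : AddMonoidAlgebra ℤ Λ →+* ℂ) (w : Λ →+ (Fin m → ℤ)) :
    RingHom.ker (θh ev w m) = RingHom.ker ev := by
  ext a
  rw [RingHom.mem_ker, RingHom.mem_ker]
  rw [θh_eq ev w m a 0 (by
    intro μ _
    funext l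
    rw [mask_apply, if_pos l.2]; rfl)]
  rw [AddMonoidAlgebra.single_eq_zero]

lemma aeval_single {m : ℕ} (v : Fin m → ℤ) (x : ℂ) (P : ℤ[X]) :
    P.eval₂ (Int.castRingHom _) (AddMonoidAlgebra.single v x : AddMonoidAlgebra ℂ (Fin m → ℤ)) =
      ∑ i ∈ Finset.range (P.natDegree + 1),
        AddMonoidAlgebra.single (i • v) ((P.coeff i : ℂ) * x ^ i) := by
  rw [Polynomial.eval₂_eq_sum_range]
  refine Finset.sum_congr rfl fun i _ => ?_
  rw [AddMonoidAlgebra.single_pow]
  simp only [eq_intCast]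
  rw [← zsmul_eq_mul, AddMonoidAlgebra.smul_single, zsmul_eq_mul]

lemma ker_θh_lt {m : ℕ} (ev : AddMonoidAlgebra ℤ Λ →+* ℂ) (w : Λ →+ (Fin m → ℤ))
    (hw : Function.Surjective w) (halg : ∀ i : Λ, IsAlgebraic ℤ (ev (AddMonoidAlgebra.single i 1)))
    (j : ℕ) (hj : j < m) : RingHom.ker (θh ev w j) < RingHom.ker (θh ev w (j + 1)) := by
  rw [lt_iff_le_not_ge]
  constructor
  · intro a ha
    rw [RingHom.mem_ker] at ha ⊢
    rw [θh_succ, ha, map_zero]
  · intro hle
    obtain ⟨i, hi⟩ := hw (Pi.single ⟨j, hj⟩ 1)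
    obtain ⟨P, hP0, hP⟩ := halg i
    have hx0 : ev (AddMonoidAlgebra.single i 1) ≠ 0 := by
      intro h
      have h1 : ev (AddMonoidAlgebra.single i 1 * AddMonoidAlgebra.single (-i) 1) = 1 := by
        rw [AddMonoidAlgebra.single_mul_single, add_neg_cancel, one_mul,
          ← AddMonoidAlgebra.one_def, map_one]
      rw [map_mul, h, zero_mul] at h1
      exact zero_ne_one h1
    set x := ev (AddMonoidAlgebra.single i 1) with hx
    let a : AddMonoidAlgebra ℤ Λ := P.eval₂ (Int.castRingHom _) (AddMonoidAlgebra.single i 1)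
    have h1 : ∀ j', θh ev w j' a = P.eval₂ (Int.castRingHom _)
        (AddMonoidAlgebra.single (mask m j' (w i)) x) := by
      intro j'
      show θh ev w j' (P.eval₂ (Int.castRingHom _) (AddMonoidAlgebra.single i 1)) = _
      rw [hom_eval₂, θh_single]
      congr 1
      exact RingHom.ext_int _ _
    have h2 : a ∈ RingHom.ker (θh ev w (j + 1)) := by
      rw [RingHom.mem_ker, h1]
      have h3 : mask m (j + 1) (w i) = 0 := by
        funext l
        rw [mask_apply, hi]
        split_ifs with h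
        · rfl
        · rw [Pi.single_eq_of_ne]
          · rfl
          · rintro rfl
            simp at h
      rw [h3, aeval_single]
      have h4 : ∀ s : Finset ℕ, ∑ i ∈ s, AddMonoidAlgebra.single (i • (0 : Fin m → ℤ))
          ((P.coeff i : ℂ) * x ^ i) =
          AddMonoidAlgebra.single 0 (∑ i ∈ s, (P.coeff i : ℂ) * x ^ i) := by
        classical
        intro s
        induction s using Finset.induction_on with
        | empty => simp
        | insert b s hb ih => rw [Finset.sum_insert hb, Finset.sum_insert hb,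
            AddMonoidAlgebra.single_add, ih, smul_zero]
      rw [h4]
      rw [aeval_def, Polynomial.eval₂_eq_sum_range] at hP
      have h5 : ∑ i ∈ Finset.range (P.natDegree + 1), (P.coeff i : ℂ) * x ^ i = 0 := hP
      rw [h5, AddMonoidAlgebra.single_zero]
    have h3 := hle h2
    rw [RingHom.mem_ker, h1, aeval_single] at h3
    have h4 : mask m j (w i) = Pi.single ⟨j, hj⟩ 1 := by
      funext l
      rw [mask_apply, hi]
      split_ifs with h
      · rw [Pi.single_eq_of_ne]
        rintro rfl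
        simp at h
      · rfl
    rw [h4] at h3
    have h5 := congrArg (fun y : AddMonoidAlgebra ℂ (Fin m → ℤ) =>
      y.coeff (P.natDegree • Pi.single ⟨j, hj⟩ 1)) h3
    simp only [AddMonoidAlgebra.coeff_zero, Finsupp.coe_zero, Pi.zero_apply,
      AddMonoidAlgebra.coeff_sum, Finsupp.finset_sum_apply, AddMonoidAlgebra.coeff_single] at h5
    rw [Finset.sum_eq_single P.natDegree] at h5
    · rw [Finsupp.single_apply, if_pos rfl] at h5
      rcases mul_eq_zero.mp h5 with h6 | h6
      · have : P.coeff P.natDegree = 0 := by exact_mod_cast h6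
        exact (Polynomial.leadingCoeff_ne_zero.mpr hP0) this
      · exact pow_ne_zero _ hx0 h6
    · intro b _ hb
      rw [Finsupp.single_apply, if_neg]
      intro h6
      have h7 := congrFun h6 ⟨j, hj⟩
      simp at h7
      omega
    · intro h6
      exact absurd (Finset.mem_range.mpr (by omega)) h6

/-- the chain of prime ideals -/
theorem chain {m : ℕ} (ev : AddMonoidAlgebra ℤ Λ →+* ℂ) (w : Λ →+ (Fin m → ℤ))
    (hw : Function.Surjective w)
    (halg : ∀ i : Λ, IsAlgebraic ℤ (ev (AddMonoidAlgebra.single i 1))) :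
    ∃ p : LTSeries (PrimeSpectrum (AddMonoidAlgebra ℤ Λ)), p.length = m ∧
      p.last.asIdeal = RingHom.ker ev ∧
      ∀ f, ev f = 0 → (∃ v0, ∀ μ ∈ f.coeff.support, w μ = v0) → f ∈ p.head.asIdeal := by
  let p : LTSeries (PrimeSpectrum (AddMonoidAlgebra ℤ Λ)) :=
    { length := m
      toFun := fun j => ⟨RingHom.ker (θh ev w j), inferInstance⟩
      step := fun j => ker_θh_lt ev w hw halg j j.2 }
  refine ⟨p, rfl, ?_, ?_⟩
  · show RingHom.ker (θh ev w (Fin.last m : ℕ)) = _
    rw [Fin.val_last]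
    exact ker_θh_last ev w
  · rintro f hf ⟨v0, hv0⟩
    show f ∈ RingHom.ker (θh ev w ((0 : Fin (m + 1)) : ℕ))
    rw [RingHom.mem_ker, θh_eq ev w _ f (mask m _ v0) (fun μ hμ => by rw [hv0 μ hμ]), hf,
      AddMonoidAlgebra.single_zero]

end H44.Tys
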