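import Mathlib

/-!
# Systems of equations `x_i = 1`, `x_i + x_j = x_k`, `x_i * x_j = x_k`
-/

namespace H44.Tys

/-- The equations of the set `E_n` in the unknowns `x_0, …, x_{n-1}`:
`one i` stands for `x_i = 1`, `add i j k` for `x_i + x_j = x_k`, `mul i j k` for
`x_i * x_j = x_k`. -/
inductive Eqn (n : ℕ) : Type
  | one (i : Fin n) : Eqn n
  | add (i j k : Fin n) : Eqn n
  | mul (i j k : Fin n) : Eqn n

/-- The equation holds at the point `x` of `ℂⁿ`. -/
def Eqn.Holds {n : ℕ} (x : Fin n → ℂ) : Eqn n → Prop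
  | .one i => x i = 1
  | .add i j k => x i + x j = x k
  | .mul i j k => x i * x j = x k

/-- The solutions in `ℂⁿ` of a system of equations. -/
def Solutions {n : ℕ} (S : Set (Eqn n)) : Set (Fin n → ℂ) := {x | ∀ E ∈ S, E.Holds x}

end H44.Tys
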