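import Pool.Agent.H44.Tys.Wnd

/-!
# Ranks, the index bound and the asymptotic comparison
-/

set_option linter.all false

namespace H44.Tys

open Module Filter Topology

section asym

lemma tendsto_choose (j c : ℕ) :
    Tendsto (fun N : ℕ => (((N + c + j).choose j : ℕ) : ℝ) / (N : ℝ) ^ j) atTop
      (𝓝 (1 / (j.factorial : ℝ))) := by
  induction j with
  | zero => simp
  | succ j ih =>
    have h1 : Tendsto (fun N : ℕ => ((N : ℝ) + (c + j + 1 : ℝ)) / (N : ℝ)) atTop (𝓝 1) := by
      have h2 : Tendsto (fun N : ℕ => 1 + (c + j + 1 : ℝ) / (N : ℝ)) atTop (𝓝 (1 + 0)) :=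
        tendsto_const_nhds.add (tendsto_const_div_atTop_nhds_zero_nat _)
      rw [add_zero] at h2
      refine h2.congr' ?_
      filter_upwards [eventually_gt_atTop 0] with N hN
      have : (N : ℝ) ≠ 0 := by positivity
      field_simp
    have h3 := (ih.mul h1).mul_const (1 / (j + 1 : ℝ))
    have h4 : 1 / (j.factorial : ℝ) * 1 * (1 / (j + 1 : ℝ)) = 1 / ((j + 1).factorial : ℝ) := by
      rw [Nat.factorial_succ]; push_cast
      have : (j.factorial : ℝ) ≠ 0 := by positivity
      field_simp
    rw [h4] at h3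
    refine h3.congr' ?_
    filter_upwards [eventually_gt_atTop 0] with N hN
    have hN' : (N : ℝ) ≠ 0 := by positivity
    have h5 : ((N + c + (j + 1)).choose (j + 1) : ℝ) * (j + 1) =
        (N + c + j + 1) * (N + c + j).choose j := by
      have := Nat.add_one_mul_choose_eq (N + c + j) j
      rw [show N + c + (j + 1) = N + c + j + 1 by ring]
      exact_mod_cast this.symm
    have h6 : ((N + c + (j + 1)).choose (j + 1) : ℝ) =
        (N + c + j + 1) * (N + c + j).choose j / (j + 1) := by
      rw [← h5]; field_simp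
    rw [h6]
    field_simp
    ring

/-- comparison of leading coefficients -/
lemma asym (j : ℕ) (a b : ℝ) (c : ℕ) (g : ℕ → ℝ)
    (hg : Tendsto (fun N : ℕ => g N / (N : ℝ) ^ j) atTop (𝓝 0))
    (h : ∀ N : ℕ, a * (((N + j).choose j : ℕ) : ℝ) ≤ b * (((N + c + j).choose j : ℕ) : ℝ) + g N) :
    a ≤ b := by
  have h1 := (tendsto_choose j 0).const_mul a
  have h2 := ((tendsto_choose j c).const_mul b).add hg
  have h3 : a * (1 / (j.factorial : ℝ)) ≤ b * (1 / (j.factorial : ℝ)) + 0 := by
    refine le_of_tendsto_of_tendsto h1 h2 ?_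
    filter_upwards [eventually_gt_atTop 0] with N hN
    have hN' : (0 : ℝ) < (N : ℝ) ^ j := by positivity
    have h4 := h N
    rw [← mul_div_assoc, ← mul_div_assoc, ← add_div]
    simp only [add_zero]
    exact (div_le_div_iff_of_pos_right hN').mpr h4
  rw [add_zero] at h3
  have : (0 : ℝ) < 1 / (j.factorial : ℝ) := by positivity
  exact le_of_mul_le_mul_right h3 this

lemma asym_small (j : ℕ) (b : ℝ) (c : ℕ) :
    Tendsto (fun N : ℕ => (b * (((N + c + j).choose j : ℕ) : ℝ)) / (N : ℝ) ^ (j + 1)) atTop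
      (𝓝 0) := by
  have h1 := ((tendsto_choose j c).const_mul b).mul (tendsto_const_div_atTop_nhds_zero_nat (1 : ℝ))
  rw [mul_zero] at h1
  refine h1.congr' ?_
  filter_upwards [eventually_gt_atTop 0] with N hN
  have hN' : (N : ℝ) ≠ 0 := by positivity
  field_simp
  ring

end asym

lemma Smk_nonneg {f : ℕ → ℝ} (k : ℕ) (hf : ∀ N, 0 ≤ f N) (N : ℕ) : 0 ≤ Sm^[k] f N := by
  induction k generalizing f with
  | zero => exact hf N
  | succ k ih =>
    rw [Function.iterate_succ_apply]
    exact ih (fun N => Finset.sum_nonneg fun M _ => hf M)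

lemma Smk_shift {f g : ℕ → ℝ} (k c : ℕ) (hf : ∀ N, 0 ≤ f N) (hfg : ∀ N, g N ≤ f (N + c)) (N : ℕ) :
    Sm^[k] g N ≤ Sm^[k] f (N + c) := by
  induction k generalizing f g with
  | zero => exact hfg N
  | succ k ih =>
    rw [Function.iterate_succ_apply, Function.iterate_succ_apply]
    refine ih (fun N => Finset.sum_nonneg fun M _ => hf M) ?_
    intro N
    unfold Sm
    have h1 : ∑ M ∈ Finset.range (N + 1), f (M + c) ≤ ∑ M ∈ Finset.range (N + c + 1), f M := by
      have h2 : ∑ M ∈ Finset.range (N + 1), f (M + c) =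
          ∑ M ∈ (Finset.range (N + 1)).map (addRightEmbedding c), f M := by
        rw [Finset.sum_map]; rfl
      rw [h2]
      refine Finset.sum_le_sum_of_subset_of_nonneg ?_ fun M _ _ => hf M
      intro M hM
      rw [Finset.mem_map] at hM
      obtain ⟨a, ha, rfl⟩ := hM
      rw [Finset.mem_range] at ha ⊢
      simp only [addRightEmbedding_apply]
      omega
    exact (Finset.sum_le_sum fun M _ => hfg M).trans h1

variable {Λ : Type*} [AddCommGroup Λ] {Λ' : Type*} [AddCommGroup Λ'] {ι : Type*} [Fintype ι]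

lemma finrank_span_of_inf (r : Λ) (hr : ∀ n : ℕ, n ≠ 0 → n • r ≠ 0) :
    finrank ℤ (Submodule.span ℤ {r}) = 1 := by
  have hinj : Function.Injective (LinearMap.toSpanSingleton ℤ Λ r) := by
    rw [injective_iff_map_eq_zero]
    intro n hn
    rw [LinearMap.toSpanSingleton_apply] at hn
    by_contra hne
    apply hr n.natAbs (Int.natAbs_ne_zero.mpr hne)
    have : (n.natAbs : ℤ) • r = 0 := by
      rcases Int.natAbs_eq n with h | h
      · rw [← h]; exact hn
      · have : (n.natAbs : ℤ) = -n := by omega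
        rw [this, neg_smul, hn, neg_zero]
    rwa [natCast_zsmul] at this
  have h1 := LinearMap.finrank_range_of_inj hinj
  rw [LinearMap.range_toSpanSingleton] at h1
  rw [h1]; exact Module.finrank_self ℤ

lemma finrank_span_of_fin (r : Λ) (hr : ∃ n : ℕ, n ≠ 0 ∧ n • r = 0) :
    finrank ℤ (Submodule.span ℤ {r}) = 0 := by
  obtain ⟨n, hn, hnr⟩ := hr
  haveI : Module.Finite ℤ (Submodule.span ℤ {r}) := Module.Finite.span_singleton ℤ r
  rw [Module.finrank_eq_zero_iff]
  rintro ⟨x, hx⟩
  refine ⟨n, by exact_mod_cast hn, ?_⟩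
  apply Subtype.ext
  obtain ⟨c, rfl⟩ := Submodule.mem_span_singleton.mp hx
  show (n : ℤ) • (c • r) = 0
  rw [smul_comm, natCast_zsmul, hnr, smul_zero]

lemma rank_step [Module.Finite ℤ Λ] (q : Λ →ₗ[ℤ] Λ') (hq : Function.Surjective q) (r : Λ)
    (hker : LinearMap.ker q = Submodule.span ℤ {r}) :
    finrank ℤ Λ' + finrank ℤ (Submodule.span ℤ {r}) = finrank ℤ Λ := by
  have h1 := Submodule.finrank_quotient_add_finrank (LinearMap.ker q)
  have h2 : finrank ℤ (Λ ⧸ LinearMap.ker q) = finrank ℤ Λ' :=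
    (q.quotKerEquivOfSurjective hq).finrank_eq
  rw [h2, hker] at h1
  exact h1

/-- growth property of a finitely generated group with given generators -/
def Qp (e : ι → Λ) (t : ℕ) (c : ℝ) : Prop :=
  t + finrank ℤ Λ = Fintype.card ι ∧
    ∀ N, Sm^[t] (Vn e) N ≤ c * (((N + Fintype.card ι).choose (Fintype.card ι) : ℕ) : ℝ)

lemma Qp_deg1 [Module.Finite ℤ Λ] {e : ι → Λ} {t : ℕ} {c : ℝ} (h : Qp e t c)
    (q : Λ →ₗ[ℤ] Λ') (hq : Function.Surjective q) (r a b : Λ)
    (hker : LinearMap.ker q = Submodule.span ℤ {r}) (hab : a = b + r)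
    (ha : a ∈ Wn e 1) (hb : b ∈ Wn e 1) :
    ∃ t', Qp (fun i => q (e i)) t' c := by
  have hqr : q r = 0 := by
    have : r ∈ LinearMap.ker q := by rw [hker]; exact Submodule.mem_span_singleton_self r
    exact this
  have hrk := rank_step q hq r hker
  by_cases hr : ∀ n : ℕ, n ≠ 0 → n • r ≠ 0
  · refine ⟨t + 1, ?_, ?_⟩
    · rw [finrank_span_of_inf r hr] at hrk
      have := h.1
      omega
    · intro N
      rw [Function.iterate_succ_apply]
      refine (Smk_mono t (fun N => ?_) N).trans (h.2 N)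
      exact Sm_Vn_deg1 e q.toAddMonoidHom r a b hr hab hqr ha hb N
  · push Not at hr
    refine ⟨t, ?_, ?_⟩
    · rw [finrank_span_of_fin r hr] at hrk
      have := h.1
      omega
    · intro N
      refine (Smk_mono t (fun N => ?_) N).trans (h.2 N)
      exact Vn_map_le e q.toAddMonoidHom N

lemma Qp_deg2 [Module.Finite ℤ Λ] {e : ι → Λ} {t : ℕ} (h : Qp e t (2 ^ t))
    (q : Λ →ₗ[ℤ] Λ') (hq : Function.Surjective q) (r a b : Λ)
    (hker : LinearMap.ker q = Submodule.span ℤ {r}) (hab : a = b + r)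
    (ha : a ∈ Wn e 2) (hb : b ∈ Wn e 2) :
    ∃ t', Qp (fun i => q (e i)) t' (2 ^ t') := by
  have hqr : q r = 0 := by
    have : r ∈ LinearMap.ker q := by rw [hker]; exact Submodule.mem_span_singleton_self r
    exact this
  have hrk := rank_step q hq r hker
  by_cases hr : ∀ n : ℕ, n ≠ 0 → n • r ≠ 0
  · refine ⟨t + 1, ?_, ?_⟩
    · rw [finrank_span_of_inf r hr] at hrk
      have := h.1
      omega
    · intro N
      rw [Function.iterate_succ_apply]
      have h1 : Sm^[t] (Sm (Vn fun i => q (e i))) N ≤ Sm^[t] (fun N => 2 * Vn e N) N :=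
        Smk_mono t (fun N => Sm_Vn_deg2 e q.toAddMonoidHom r a b hr hab hqr ha hb N) N
      rw [Smk_smul] at h1
      have h2 := h.2 N
      rw [pow_succ]
      nlinarith
  · push Not at hr
    refine ⟨t, ?_, ?_⟩
    · rw [finrank_span_of_fin r hr] at hrk
      have := h.1
      omega
    · intro N
      refine (Smk_mono t (fun N => ?_) N).trans (h.2 N)
      exact Vn_map_le e q.toAddMonoidHom N

lemma ker_factor_insert (R : Set Λ) (r : Λ) :
    LinearMap.ker (Submodule.factor (Submodule.span_mono (R := ℤ) (Set.subset_insert r R))) =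
      Submodule.span ℤ {Submodule.Quotient.mk (p := Submodule.span ℤ R) r} := by
  ext x
  obtain ⟨y, rfl⟩ := Submodule.Quotient.mk_surjective _ x
  rw [LinearMap.mem_ker, Submodule.mem_span_singleton]
  constructor
  · intro h
    have h1 : y ∈ Submodule.span ℤ (insert r R) := by
      rw [← Submodule.Quotient.mk_eq_zero]; exact h
    obtain ⟨a, z, hz, rfl⟩ := Submodule.mem_span_insert.mp h1
    refine ⟨a, ?_⟩
    rw [Submodule.Quotient.mk_add, Submodule.Quotient.mk_smul]
    rw [(Submodule.Quotient.mk_eq_zero _).mpr hz, add_zero]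
  · rintro ⟨a, ha⟩
    rw [← ha, map_smul]
    have : (Submodule.factor (Submodule.span_mono (R := ℤ) (Set.subset_insert r R)))
        (Submodule.Quotient.mk r) = 0 := by
      show Submodule.Quotient.mk r = 0
      rw [Submodule.Quotient.mk_eq_zero]
      exact Submodule.subset_span (Set.mem_insert r R)
    rw [this, smul_zero]

/-- adding finitely many relations of degree at most two to the free group -/
theorem Qp_all [DecidableEq ι] (R : Finset (ι → ℤ))
    (hR : ∀ r ∈ R, ∃ a ∈ Wn (fun i : ι => (Pi.single i (1 : ℤ) : ι → ℤ)) 2,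
      ∃ b ∈ Wn (fun i : ι => (Pi.single i (1 : ℤ) : ι → ℤ)) 2, a = b + r) :
    ∃ t, Qp (fun i : ι => Submodule.Quotient.mk (p := Submodule.span ℤ (R : Set (ι → ℤ)))
      (Pi.single i (1 : ℤ))) t (2 ^ t) := by
  classical
  induction R using Finset.induction_on with
  | empty =>
    refine ⟨0, ?_, ?_⟩
    · have h1 : Submodule.span ℤ ((∅ : Finset (ι → ℤ)) : Set (ι → ℤ)) = ⊥ := by simp
      have h2 := Submodule.finrank_quotient_add_finrank
        (Submodule.span ℤ ((∅ : Finset (ι → ℤ)) : Set (ι → ℤ)))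
      have h3 : finrank ℤ (Submodule.span ℤ ((∅ : Finset (ι → ℤ)) : Set (ι → ℤ))) = 0 := by
        rw [h1]; exact finrank_bot ℤ _
      rw [h3, Module.finrank_fintype_fun_eq_card] at h2
      omega
    · intro N
      rw [pow_zero, one_mul]
      exact Vn_le_choose _ N
  | insert r R _ ih =>
    obtain ⟨t, ht⟩ := ih fun r' hr' => hR r' (Finset.mem_insert_of_mem hr')
    obtain ⟨a, ha, b, hb, hab⟩ := hR r (Finset.mem_insert_self r R)
    have hins : ((insert r R : Finset (ι → ℤ)) : Set (ι → ℤ)) = insert r (R : Set (ι → ℤ)) :=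
      Finset.coe_insert r R
    rw [hins]
    let mkq : (ι → ℤ) →+ ((ι → ℤ) ⧸ Submodule.span ℤ (R : Set (ι → ℤ))) :=
      (Submodule.mkQ (Submodule.span ℤ (R : Set (ι → ℤ)))).toAddMonoidHom
    have hm := Wn_map (fun i : ι => (Pi.single i (1 : ℤ) : ι → ℤ)) mkq 2
    exact Qp_deg2 ht (Submodule.factor (Submodule.span_mono (R := ℤ) (Set.subset_insert r _)))
      (Submodule.factor_surjective _) (Submodule.Quotient.mk r) (mkq a) (mkq b)
      (ker_factor_insert _ r) (by rw [hab, map_add]; rfl)
      (by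
        show mkq a ∈ Wn (fun i => mkq (Pi.single i 1)) 2
        rw [hm]; exact Finset.mem_image_of_mem _ ha)
      (by
        show mkq b ∈ Wn (fun i => mkq (Pi.single i 1)) 2
        rw [hm]; exact Finset.mem_image_of_mem _ hb)

/-- adding finitely many relations of degree one -/
theorem Qp_more [Module.Finite ℤ Λ] {e : ι → Λ} {t : ℕ} {c : ℝ} (h : Qp e t c)
    (R : Finset Λ) (hR : ∀ r ∈ R, ∃ a ∈ Wn e 1, ∃ b ∈ Wn e 1, a = b + r) :
    ∃ t', Qp (fun i : ι => Submodule.Quotient.mk (p := Submodule.span ℤ (R : Set Λ)) (e i))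
      t' c := by
  classical
  induction R using Finset.induction_on with
  | empty =>
    refine ⟨t, ?_, ?_⟩
    · have h1 : Submodule.span ℤ ((∅ : Finset Λ) : Set Λ) = ⊥ := by simp
      have h2 := Submodule.finrank_quotient_add_finrank
        (Submodule.span ℤ ((∅ : Finset Λ) : Set Λ))
      have h3 : finrank ℤ (Submodule.span ℤ ((∅ : Finset Λ) : Set Λ)) = 0 := by
        rw [h1]; exact finrank_bot ℤ _
      rw [h3] at h2
      have := h.1
      omega
    · intro N
      refine (Smk_mono t (fun N => ?_) N).trans (h.2 N)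
      exact Vn_map_le e
        (Submodule.mkQ (Submodule.span ℤ ((∅ : Finset Λ) : Set Λ))).toAddMonoidHom N
  | insert r R _ ih =>
    obtain ⟨t', ht⟩ := ih fun r' hr' => hR r' (Finset.mem_insert_of_mem hr')
    obtain ⟨a, ha, b, hb, hab⟩ := hR r (Finset.mem_insert_self r R)
    have hins : ((insert r R : Finset Λ) : Set Λ) = insert r (R : Set Λ) :=
      Finset.coe_insert r R
    rw [hins]
    let mkq : Λ →+ (Λ ⧸ Submodule.span ℤ (R : Set Λ)) :=
      (Submodule.mkQ (Submodule.span ℤ (R : Set Λ))).toAddMonoidHom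
    have hm := Wn_map e mkq 1
    exact Qp_deg1 ht (Submodule.factor (Submodule.span_mono (R := ℤ) (Set.subset_insert r _)))
      (Submodule.factor_surjective _) (Submodule.Quotient.mk r) (mkq a) (mkq b)
      (ker_factor_insert _ r) (by rw [hab, map_add]; rfl)
      (by
        show mkq a ∈ Wn (fun i => mkq (e i)) 1
        rw [hm]; exact Finset.mem_image_of_mem _ ha)
      (by
        show mkq b ∈ Wn (fun i => mkq (e i)) 1
        rw [hm]; exact Finset.mem_image_of_mem _ hb)

/-- translates of a finite set are in a window -/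
lemma exists_translate (e : ι → Λ) (hgen : Submodule.span ℤ (Set.range e) = ⊤) (F : Finset Λ) :
    ∃ (w : Λ) (N : ℕ), ∀ x ∈ F, x + w ∈ Wn e N := by
  classical
  have h1 : ∀ x : Λ, ∃ (w : Λ) (N : ℕ), w ∈ Wn e N ∧ x + w ∈ Wn e N := by
    intro x
    have hx : x ∈ Submodule.span ℤ (Set.range e) := by rw [hgen]; trivial
    induction hx using Submodule.span_induction with
    | mem y hy =>
      obtain ⟨i, rfl⟩ := hy
      exact ⟨0, 1, zero_mem_Wn e 1, by rw [add_zero]; exact gen_mem_Wn e i⟩
    | zero => exact ⟨0, 0, zero_mem_Wn e 0, by rw [add_zero]; exact zero_mem_Wn e 0⟩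
    | add y z _ _ hy hz =>
      obtain ⟨w, N, h1, h2⟩ := hy
      obtain ⟨w', N', h3, h4⟩ := hz
      refine ⟨w + w', N + N', add_mem_Wn h1 h3, ?_⟩
      have : y + z + (w + w') = (y + w) + (z + w') := by abel
      rw [this]
      exact add_mem_Wn h2 h4
    | smul c y _ hy =>
      obtain ⟨w, N, h1, h2⟩ := hy
      have hmul : ∀ (n : ℕ) (z : Λ), z ∈ Wn e N → n • z ∈ Wn e (n * N) := by
        intro n z hz
        induction n with
        | zero => simpa using zero_mem_Wn e 0
        | succ n ih =>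
          rw [succ_nsmul, Nat.succ_mul]
          exact add_mem_Wn ih hz
      rcases Int.natAbs_eq c with h | h
      · refine ⟨c.natAbs • w, c.natAbs * N, hmul _ _ h1, ?_⟩
        have : c • y + c.natAbs • w = c.natAbs • (y + w) := by
          rw [smul_add]
          congr 1
          conv_lhs => rw [h]
          rw [natCast_zsmul]
        rw [this]
        exact hmul _ _ h2
      · refine ⟨c.natAbs • (y + w), c.natAbs * N, hmul _ _ h2, ?_⟩
        have h5 : c • y = -(c.natAbs • y) := by
          conv_lhs => rw [h]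
          rw [neg_smul, natCast_zsmul]
        have : c • y + c.natAbs • (y + w) = c.natAbs • w := by
          rw [smul_add, h5]
          abel
        rw [this]
        exact hmul _ _ h1
  induction F using Finset.induction_on with
  | empty => exact ⟨0, 0, by simp⟩
  | insert x F _ ih =>
    obtain ⟨w, N, h⟩ := ih
    obtain ⟨w', N', hw', hx⟩ := h1 (x + w)
    refine ⟨w + w', N + N', ?_⟩
    intro y hy
    rw [Finset.mem_insert] at hy
    rcases hy with rfl | hy
    · rw [← add_assoc]; exact Wn_mono e (by omega) hx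
    · rw [← add_assoc]; exact add_mem_Wn (h y hy) hw'

/-- the index bound -/
theorem card_le_of_Qp [Module.Finite ℤ Λ] {e : ι → Λ}
    (hgen : Submodule.span ℤ (Set.range e) = ⊤) {t : ℕ} {c : ℝ} (h : Qp e t c)
    (htors : ∀ x : Λ, ∃ n : ℤ, n ≠ 0 ∧ n • x = 0) (F : Finset Λ) : (F.card : ℝ) ≤ c := by
  classical
  have h0 : finrank ℤ Λ = 0 := Module.finrank_eq_zero_iff.mpr htors
  have ht : t = Fintype.card ι := by have := h.1; omega
  obtain ⟨w, N1, hw⟩ := exists_translate e hgen F
  have h1 : ∀ N, (F.card : ℝ) * (((N + 0).choose 0 : ℕ) : ℝ) ≤ Vn e (N + N1) := by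
    intro N
    rw [Nat.choose_zero_right, Nat.cast_one, mul_one]
    unfold Vn
    have h2 : F.image (· + w) ⊆ Wn e (N + N1) := by
      intro y hy
      obtain ⟨x, hx, rfl⟩ := Finset.mem_image.mp hy
      exact Wn_mono e (by omega) (hw x hx)
    have h3 := Finset.card_le_card h2
    rw [Finset.card_image_of_injective _ (add_left_injective w)] at h3
    exact_mod_cast h3
  have h2 : ∀ N, (F.card : ℝ) * (((N + Fintype.card ι).choose (Fintype.card ι) : ℕ) : ℝ) ≤
      c * (((N + N1 + Fintype.card ι).choose (Fintype.card ι) : ℕ) : ℝ) + 0 := by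
    intro N
    have h3 := Smk_shift (f := Vn e)
      (g := fun N => (F.card : ℝ) * (((N + 0).choose 0 : ℕ) : ℝ)) (Fintype.card ι) N1
      (Vn_nonneg e) h1 N
    rw [Smk_smul, Smk_choose] at h3
    have h4 := h.2 (N + N1)
    rw [ht] at h4
    rw [zero_add] at h3
    linarith
  exact asym (Fintype.card ι) _ _ N1 (fun _ => 0) (by simp) h2

end H44.Tys
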