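import Mathlib

/-!
# Windows of sums of generators in a finitely generated abelian group, and their cardinalities
-/

set_option linter.all false

namespace H44.Tys

variable {Λ : Type*} [AddCommGroup Λ] {Λ' : Type*} [AddCommGroup Λ'] {ι : Type*} [Fintype ι]

open Classical in
/-- sums of at most `N` generators -/
noncomputable def Wn (e : ι → Λ) : ℕ → Finset Λ
  | 0 => {0}
  | N + 1 => ((Finset.univ : Finset (Option ι)) ×ˢ Wn e N).image (fun p => p.1.elim 0 e + p.2)

lemma mem_Wn_zero {e : ι → Λ} {w : Λ} : w ∈ Wn e 0 ↔ w = 0 := by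
  classical
  unfold Wn; simp

lemma mem_Wn_succ {e : ι → Λ} {N : ℕ} {w : Λ} :
    w ∈ Wn e (N + 1) ↔ ∃ (o : Option ι) (v : Λ), v ∈ Wn e N ∧ w = o.elim 0 e + v := by
  classical
  conv_lhs => unfold Wn
  simp only [Finset.mem_image, Finset.mem_product, Finset.mem_univ, true_and, Prod.exists]
  constructor
  · rintro ⟨o, v, hv, rfl⟩; exact ⟨o, v, hv, rfl⟩
  · rintro ⟨o, v, hv, rfl⟩; exact ⟨o, v, hv, rfl⟩

lemma Wn_subset_succ (e : ι → Λ) (N : ℕ) : Wn e N ⊆ Wn e (N + 1) := by
  intro w hw
  rw [mem_Wn_succ]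
  exact ⟨none, w, hw, by simp⟩

lemma Wn_mono (e : ι → Λ) {M N : ℕ} (h : M ≤ N) : Wn e M ⊆ Wn e N := by
  induction N, h using Nat.le_induction with
  | base => exact subset_rfl
  | succ n _ ih => exact ih.trans (Wn_subset_succ e n)

lemma zero_mem_Wn (e : ι → Λ) (N : ℕ) : (0 : Λ) ∈ Wn e N :=
  Wn_mono e (Nat.zero_le N) (mem_Wn_zero.mpr rfl)

lemma add_mem_Wn {e : ι → Λ} {M N : ℕ} {a b : Λ} (ha : a ∈ Wn e M) (hb : b ∈ Wn e N) :
    a + b ∈ Wn e (M + N) := by
  induction M generalizing a with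
  | zero =>
    rw [mem_Wn_zero] at ha
    subst ha
    simpa using hb
  | succ M ih =>
    rw [mem_Wn_succ] at ha
    obtain ⟨o, v, hv, rfl⟩ := ha
    rw [show M + 1 + N = (M + N) + 1 by ring, mem_Wn_succ]
    exact ⟨o, v + b, ih hv, by abel⟩

lemma gen_mem_Wn (e : ι → Λ) (i : ι) : e i ∈ Wn e 1 := by
  rw [show (1 : ℕ) = 0 + 1 by rfl, mem_Wn_succ]
  exact ⟨some i, 0, mem_Wn_zero.mpr rfl, by simp⟩

lemma gen_add_mem_Wn (e : ι → Λ) (i : ι) {N : ℕ} {b : Λ} (hb : b ∈ Wn e N) :
    e i + b ∈ Wn e (N + 1) := by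
  rw [mem_Wn_succ]; exact ⟨some i, b, hb, rfl⟩

lemma nsmul_mem_Wn (e : ι → Λ) (i : ι) (j N : ℕ) (h : j ≤ N) : j • e i ∈ Wn e N := by
  apply Wn_mono e h
  induction j with
  | zero => simpa using zero_mem_Wn e 0
  | succ j ih =>
    rw [succ_nsmul, add_comm (j • e i) (e i)]
    exact gen_add_mem_Wn e i (ih (by omega))

open Classical in
lemma Wn_map (e : ι → Λ) (q : Λ →+ Λ') (N : ℕ) :
    Wn (fun i => q (e i)) N = (Wn e N).image q := by
  induction N with
  | zero => ext w; rw [mem_Wn_zero]; simp [mem_Wn_zero, eq_comm]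
  | succ N ih =>
    ext w
    rw [mem_Wn_succ, Finset.mem_image]
    constructor
    · rintro ⟨o, v, hv, rfl⟩
      rw [ih, Finset.mem_image] at hv
      obtain ⟨v', hv', rfl⟩ := hv
      refine ⟨o.elim 0 e + v', mem_Wn_succ.mpr ⟨o, v', hv', rfl⟩, ?_⟩
      cases o <;> simp
    · rintro ⟨w', hw', rfl⟩
      obtain ⟨o, v, hv, rfl⟩ := mem_Wn_succ.mp hw'
      refine ⟨o, q v, ?_, ?_⟩
      · rw [ih]; exact Finset.mem_image_of_mem _ hv
      · cases o <;> simp

lemma card_Wn_le (e : ι → Λ) (N : ℕ) :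
    (Wn e N).card ≤ (N + Fintype.card ι).choose (Fintype.card ι) := by
  classical
  have h : ∀ N, Wn e N ⊆ (Finset.univ : Finset (Sym (Option ι) N)).image
      (fun s : Sym (Option ι) N => ((s.1).map (fun o => o.elim 0 e)).sum) := by
    intro N
    induction N with
    | zero =>
      intro w hw
      rw [mem_Wn_zero] at hw
      subst hw
      rw [Finset.mem_image]
      refine ⟨⟨0, by simp⟩, Finset.mem_univ _, ?_⟩
      simp
    | succ N ih =>
      intro w hw
      obtain ⟨o, v, hv, rfl⟩ := mem_Wn_succ.mp hw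
      have h1 := ih hv
      rw [Finset.mem_image] at h1 ⊢
      obtain ⟨s, -, rfl⟩ := h1
      refine ⟨o ::ₛ s, Finset.mem_univ _, ?_⟩
      show (((o ::ₛ s : Sym (Option ι) (N + 1)) : Multiset (Option ι)).map _).sum = _
      rw [Sym.coe_cons, Multiset.map_cons, Multiset.sum_cons]
      rfl
  refine (Finset.card_le_card (h N)).trans (Finset.card_image_le.trans ?_)
  rw [Finset.card_univ, Sym.card_sym_eq_choose, Fintype.card_option]
  rw [show Fintype.card ι + 1 + N - 1 = N + Fintype.card ι by omega, Nat.choose_symm_add]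

/-- partial sums -/
noncomputable def Sm (f : ℕ → ℝ) : ℕ → ℝ := fun N => ∑ M ∈ Finset.range (N + 1), f M

lemma Sm_zero (f : ℕ → ℝ) : Sm f 0 = f 0 := by simp [Sm]

lemma Sm_succ (f : ℕ → ℝ) (N : ℕ) : Sm f (N + 1) = Sm f N + f (N + 1) := by
  unfold Sm
  rw [Finset.sum_range_succ]

lemma Sm_mono {f g : ℕ → ℝ} (h : ∀ N, f N ≤ g N) (N : ℕ) : Sm f N ≤ Sm g N :=
  Finset.sum_le_sum fun M _ => h M

lemma Smk_mono {f g : ℕ → ℝ} (k : ℕ) (h : ∀ N, f N ≤ g N) (N : ℕ) : Sm^[k] f N ≤ Sm^[k] g N := by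
  induction k generalizing f g with
  | zero => exact h N
  | succ k ih =>
    rw [Function.iterate_succ_apply, Function.iterate_succ_apply]
    exact ih (fun N => Sm_mono h N)

lemma Sm_smul (c : ℝ) (f : ℕ → ℝ) : Sm (fun N => c * f N) = fun N => c * Sm f N := by
  funext N; unfold Sm; rw [Finset.mul_sum]

lemma Smk_smul (k : ℕ) (c : ℝ) (f : ℕ → ℝ) :
    Sm^[k] (fun N => c * f N) = fun N => c * Sm^[k] f N := by
  induction k generalizing f with
  | zero => rfl
  | succ k ih =>
    rw [Function.iterate_succ_apply, Sm_smul, ih]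
    funext N
    rw [Function.iterate_succ_apply]

lemma Sm_add (f g : ℕ → ℝ) : Sm (fun N => f N + g N) = fun N => Sm f N + Sm g N := by
  funext N; unfold Sm; rw [Finset.sum_add_distrib]

lemma Smk_add (k : ℕ) (f g : ℕ → ℝ) :
    Sm^[k] (fun N => f N + g N) = fun N => Sm^[k] f N + Sm^[k] g N := by
  induction k generalizing f g with
  | zero => rfl
  | succ k ih =>
    rw [Function.iterate_succ_apply, Sm_add, ih]
    funext N
    rw [Function.iterate_succ_apply, Function.iterate_succ_apply]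

lemma Sm_choose (j : ℕ) :
    Sm (fun N => (((N + j).choose j : ℕ) : ℝ)) = fun N => (((N + (j + 1)).choose (j + 1) : ℕ) : ℝ) := by
  funext N
  induction N with
  | zero => simp [Sm]
  | succ N ih =>
    rw [Sm_succ, ih]
    have : (N + 1 + (j + 1)).choose (j + 1) = (N + (j + 1)).choose (j + 1) + (N + 1 + j).choose j := by
      rw [show N + 1 + (j + 1) = (N + 1 + j) + 1 by ring, Nat.choose_succ_succ]
      rw [show N + (j + 1) = N + 1 + j by ring]
      ring
    rw [this]; push_cast; ring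

lemma Smk_choose (k j : ℕ) :
    Sm^[k] (fun N => (((N + j).choose j : ℕ) : ℝ)) =
      fun N => (((N + (j + k)).choose (j + k) : ℕ) : ℝ) := by
  induction k generalizing j with
  | zero => rfl
  | succ k ih =>
    rw [Function.iterate_succ_apply, Sm_choose, ih]
    funext N
    rw [show j + 1 + k = j + (k + 1) by ring]

/-- cardinality of the window -/
noncomputable def Vn (e : ι → Λ) (N : ℕ) : ℝ := ((Wn e N).card : ℝ)

lemma Vn_nonneg (e : ι → Λ) (N : ℕ) : 0 ≤ Vn e N := Nat.cast_nonneg _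

lemma Vn_mono (e : ι → Λ) {M N : ℕ} (h : M ≤ N) : Vn e M ≤ Vn e N := by
  unfold Vn
  exact_mod_cast Finset.card_le_card (Wn_mono e h)

lemma Vn_map_le (e : ι → Λ) (q : Λ →+ Λ') (N : ℕ) : Vn (fun i => q (e i)) N ≤ Vn e N := by
  classical
  unfold Vn
  rw [Wn_map]
  exact_mod_cast Finset.card_image_le

lemma Vn_le_choose (e : ι → Λ) (N : ℕ) :
    Vn e N ≤ (((N + Fintype.card ι).choose (Fintype.card ι) : ℕ) : ℝ) := by
  unfold Vn
  exact_mod_cast card_Wn_le e N

/-- counting lemma -/
lemma card_image_add_le [DecidableEq Λ] [DecidableEq Λ'] (q : Λ →+ Λ') (r a b : Λ)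
    (hr : ∀ n : ℕ, n ≠ 0 → n • r ≠ 0) (hab : a = b + r) (hq : q r = 0)
    (A W : Finset Λ) (hA : ∀ x ∈ A, x + a ∈ W ∧ x + b ∈ W) :
    (W.image q).card + A.card ≤ W.card := by
  have hW : W.card = ∑ κ ∈ W.image q, (W.filter (fun w => q w = κ)).card :=
    Finset.card_eq_sum_card_fiberwise fun x hx => Finset.mem_image_of_mem _ hx
  have hAc : A.card = ∑ κ ∈ W.image q, (A.filter (fun w => q w + q b = κ)).card := by
    refine Finset.card_eq_sum_card_fiberwise (f := fun w => q w + q b) fun x hx => ?_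
    show q x + q b ∈ (W.image q : Set Λ')
    rw [Finset.mem_coe, ← map_add]
    exact Finset.mem_image_of_mem _ (hA x hx).2
  rw [hW, hAc]
  have h1 : (W.image q).card = ∑ κ ∈ W.image q, 1 := by simp
  rw [h1, ← Finset.sum_add_distrib]
  refine Finset.sum_le_sum fun κ hκ => ?_
  set F := A.filter (fun w => q w + q b = κ) with hF
  rcases Finset.eq_empty_or_nonempty F with h0 | ⟨x0, hx0⟩
  · rw [h0, Finset.card_empty, add_zero]
    obtain ⟨w, hw, rfl⟩ := Finset.mem_image.mp hκ
    exact Finset.card_pos.mpr ⟨w, Finset.mem_filter.mpr ⟨hw, rfl⟩⟩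
  · have hsub : F.image (· + b) ∪ F.image (· + a) ⊆ W.filter (fun w => q w = κ) := by
      intro w hw
      rw [Finset.mem_union, Finset.mem_image, Finset.mem_image] at hw
      rw [Finset.mem_filter]
      rcases hw with ⟨x, hx, rfl⟩ | ⟨x, hx, rfl⟩
      · rw [hF, Finset.mem_filter] at hx
        exact ⟨(hA x hx.1).2, by rw [map_add]; exact hx.2⟩
      · rw [hF, Finset.mem_filter] at hx
        refine ⟨(hA x hx.1).1, ?_⟩
        rw [map_add, hab, map_add, hq, add_zero]; exact hx.2
    have hinj : (F.image (· + b)).card = F.card :=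
      Finset.card_image_of_injective _ (add_left_injective b)
    by_contra hcon
    push Not at hcon
    have h2 := Finset.card_le_card hsub
    have h3 : F.image (· + b) = F.image (· + b) ∪ F.image (· + a) :=
      Finset.eq_of_subset_of_card_le Finset.subset_union_left (by omega)
    have h4 : ∀ x ∈ F, x + r ∈ F := by
      intro x hx
      have : x + a ∈ F.image (· + b) := by
        rw [h3]
        exact Finset.mem_union_right _ (Finset.mem_image_of_mem _ hx)
      obtain ⟨y, hy, hyx⟩ := Finset.mem_image.mp this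
      have : y = x + r := by
        have h5 : y + b = x + r + b := by
          rw [hyx, hab]; abel
        exact add_right_cancel h5
      rwa [← this]
    have h5 : ∀ n : ℕ, x0 + n • r ∈ F := by
      intro n
      induction n with
      | zero => simpa using hx0
      | succ n ih => rw [succ_nsmul, ← add_assoc]; exact h4 _ ih
    have h6 : Function.Injective (fun n : ℕ => x0 + n • r) := by
      intro m n hmn
      simp only at hmn
      have h7 : m • r = n • r := add_left_cancel hmn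
      rcases lt_trichotomy m n with h | h | h
      · exfalso
        apply hr (n - m) (by omega)
        rw [sub_nsmul _ (le_of_lt h), h7, add_neg_cancel]
      · exact h
      · exfalso
        apply hr (m - n) (by omega)
        rw [sub_nsmul _ (le_of_lt h), h7, add_neg_cancel]
    exact Set.not_injOn_infinite_finite_image Set.infinite_univ
      ((Finset.finite_toSet F).subset (by rintro _ ⟨n, -, rfl⟩; exact h5 n)) h6.injOn

/-- quotient by a relation of degree at most two -/
lemma Sm_Vn_deg2 (e : ι → Λ) (q : Λ →+ Λ') (r a b : Λ)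
    (hr : ∀ n : ℕ, n ≠ 0 → n • r ≠ 0) (hab : a = b + r) (hq : q r = 0)
    (ha : a ∈ Wn e 2) (hb : b ∈ Wn e 2) (N : ℕ) :
    Sm (Vn (fun i => q (e i))) N ≤ 2 * Vn e N := by
  classical
  have key : ∀ N, Vn (fun i => q (e i)) (N + 2) + Vn e N ≤ Vn e (N + 2) := by
    intro N
    have := card_image_add_le q r a b hr hab hq (Wn e N) (Wn e (N + 2))
      (fun x hx => ⟨add_mem_Wn hx ha, add_mem_Wn hx hb⟩)
    unfold Vn
    rw [Wn_map]
    exact_mod_cast this
  have h1 : ∀ N, Sm (Vn (fun i => q (e i))) (N + 1) ≤ Vn e (N + 1) + Vn e N := by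
    intro N
    induction N with
    | zero =>
      rw [Sm_succ, Sm_zero]
      have h2 := Vn_map_le e q 0
      have h3 := Vn_map_le e q (0 + 1)
      linarith
    | succ N ih =>
      rw [Sm_succ]
      have := key N
      linarith
  rcases N with _ | N
  · rw [Sm_zero]
    have h2 := Vn_map_le e q 0
    have h3 := Vn_nonneg e 0
    linarith
  · have h2 := h1 N
    have h3 := Vn_mono e (Nat.le_succ N)
    linarith

/-- quotient by a relation of degree one -/
lemma Sm_Vn_deg1 (e : ι → Λ) (q : Λ →+ Λ') (r a b : Λ)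
    (hr : ∀ n : ℕ, n ≠ 0 → n • r ≠ 0) (hab : a = b + r) (hq : q r = 0)
    (ha : a ∈ Wn e 1) (hb : b ∈ Wn e 1) (N : ℕ) :
    Sm (Vn (fun i => q (e i))) N ≤ Vn e N := by
  classical
  have key : ∀ N, Vn (fun i => q (e i)) (N + 1) + Vn e N ≤ Vn e (N + 1) := by
    intro N
    have := card_image_add_le q r a b hr hab hq (Wn e N) (Wn e (N + 1))
      (fun x hx => ⟨add_mem_Wn hx ha, add_mem_Wn hx hb⟩)
    unfold Vn
    rw [Wn_map]
    exact_mod_cast this
  induction N with
  | zero => rw [Sm_zero]; exact Vn_map_le e q 0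
  | succ N ih =>
    rw [Sm_succ]
    have := key N
    linarith

end H44.Tys
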