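import Pool.Agent.H44.Tys.Step2
import Pool.Agent.H44.Tys.Wnd

/-!
# Lower bound for the covolume of the lattice of relations between powers of a number
-/

set_option linter.all false

namespace H44.Tys

open Module

lemma landau (p : Polynomial ℂ) (z : ℂ) (hz : p.eval z = 0) (hlead : 1 ≤ ‖p.leadingCoeff‖) :
    ‖z‖ ^ 2 ≤ ∑ i ∈ Finset.range (p.natDegree + 1), ‖p.coeff i‖ ^ 2 := by
  obtain ⟨q, hq⟩ := Polynomial.dvd_iff_isRoot.mpr (show p.IsRoot z from hz)
  have h1 : p.mahlerMeasure = max 1 ‖z‖ * q.mahlerMeasure := by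
    conv_lhs => rw [hq]
    rw [Polynomial.mahlerMeasure_mul, Polynomial.mahlerMeasure_X_sub_C]
  have h2 : 1 ≤ q.mahlerMeasure := by
    refine le_trans ?_ (Polynomial.leadingCoeff_le_mahlerMeasure q)
    have : p.leadingCoeff = q.leadingCoeff := by
      conv_lhs => rw [hq]
      rw [Polynomial.leadingCoeff_mul, Polynomial.leadingCoeff_X_sub_C, one_mul]
    rwa [← this]
  have h3 : ‖z‖ ≤ p.mahlerMeasure := by
    rw [h1]
    have : ‖z‖ ≤ max 1 ‖z‖ := le_max_right _ _
    nlinarith [norm_nonneg z, le_max_left 1 ‖z‖]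
  have h4 := h3.trans (Polynomial.mahlerMeasure_le_sqrt_sum_sq_norm_coeff p)
  have h5 : ‖z‖ ^ 2 ≤ ∑ i ∈ p.support, ‖p.coeff i‖ ^ 2 := by
    have h6 : 0 ≤ ∑ i ∈ p.support, ‖p.coeff i‖ ^ 2 := Finset.sum_nonneg fun _ _ => sq_nonneg _
    calc ‖z‖ ^ 2 ≤ (√(∑ i ∈ p.support, ‖p.coeff i‖ ^ 2)) ^ 2 := by
          gcongr
      _ = _ := Real.sq_sqrt h6
  refine h5.trans (Finset.sum_le_sum_of_subset_of_nonneg ?_ fun _ _ _ => sq_nonneg _)
  intro i hi
  rw [Finset.mem_range]
  have := Polynomial.le_natDegree_of_mem_supp i hi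
  omega

variable {Λ : Type*} [AddCommGroup Λ]

/-- one more vector in the window -/
theorem low_step (I : Ideal (AddMonoidAlgebra ℤ Λ)) {W1 W : Finset Λ} (top : Λ)
    (htop : top ∉ W1) (hW : ∀ i, i ∈ W ↔ i = top ∨ i ∈ W1)
    (v0 : AddMonoidAlgebra ℤ Λ) (hv0 : v0 ∈ Lt I W) (hv0t : v0.coeff top ≠ 0)
    (E : AddMonoidAlgebra ℝ Λ →ₗ[ℝ] ℂ) (hE : ∀ a ∈ I, E (toR a) = 0) (B : ℝ)
    (hB : ∀ u : AddMonoidAlgebra ℝ Λ, (∀ i ∉ W, u.coeff i = 0) → 1 ≤ |u.coeff top| → E u = 0 →
      B ≤ ‖u‖ ^ 2) :
    cv I W1 * B ≤ cv I W := by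
  classical
  have hsub : W1 ⊆ W := fun i hi => (hW i).mpr (Or.inr hi)
  -- the generator of the ideal of the top coefficients
  let T : Submodule ℤ ℤ :=
    { carrier := {c | ∃ v ∈ Lt I W, v.coeff top = c}
      add_mem' := by
        rintro _ _ ⟨v, hv, rfl⟩ ⟨w, hw, rfl⟩
        exact ⟨v + w, Submodule.add_mem _ hv hw, by simp⟩
      zero_mem' := ⟨0, Submodule.zero_mem _, by simp⟩
      smul_mem' := by
        rintro c _ ⟨v, hv, rfl⟩
        exact ⟨c • v, Submodule.smul_mem _ c hv, AddMonoidAlgebra.coeff_smul_apply _ _ _⟩ }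
  obtain ⟨g, hg⟩ := (IsPrincipalIdealRing.principal (T : Ideal ℤ)).principal
  have hgT : g ∈ T := by rw [hg]; exact Submodule.mem_span_singleton_self g
  obtain ⟨b, hb, hbt⟩ := hgT
  have hg0 : g ≠ 0 := by
    intro h
    have h1 : v0.coeff top ∈ T := ⟨v0, hv0, rfl⟩
    rw [hg, h, Submodule.mem_span_singleton] at h1
    obtain ⟨a, ha⟩ := h1
    rw [smul_zero] at ha
    exact hv0t ha.symm
  have hle : Lt I W1 ≤ Lt I W := fun a ha => ⟨ha.1, Sp_mono hsub ha.2⟩
  have hzero : ∀ a ∈ Lt I W1, a.coeff top = 0 := fun a ha => ha.2 top htop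
  let fam : Fin (rk I W1) ⊕ Unit → Lt I W :=
    Sum.elim (fun i => ⟨bas I W1 i, hle (bas_mem I W1 i)⟩) (fun _ => ⟨b, hb⟩)
  have hli : LinearIndependent ℤ fam := by
    rw [Fintype.linearIndependent_iff]
    intro c hc
    rw [Fintype.sum_sum_type] at hc
    have hc' : ∑ i, c (Sum.inl i) • bas I W1 i + c (Sum.inr ()) • b = 0 := by
      have := congrArg (fun y : Lt I W => (y : AddMonoidAlgebra ℤ Λ)) hc
      simp only [Submodule.coe_add, Submodule.coe_sum, Submodule.coe_smul,
        Submodule.coe_zero, Finset.univ_unique, Finset.sum_singleton] at this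
      exact this
    have h1 : c (Sum.inr ()) * g = 0 := by
      have h2 := congrArg (fun y : AddMonoidAlgebra ℤ Λ => y.coeff top) hc'
      simp only [AddMonoidAlgebra.coeff_add, Finsupp.add_apply, AddMonoidAlgebra.coeff_smul_apply,
        AddMonoidAlgebra.coeff_zero, Finsupp.coe_zero, Pi.zero_apply] at h2
      have h3 : (∑ i, c (Sum.inl i) • bas I W1 i).coeff top = 0 :=
        hzero _ (Submodule.sum_mem _ fun i _ => Submodule.smul_mem _ _ (bas_mem I W1 i))
      rw [h3, hbt, zero_add, smul_eq_mul] at h2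
      exact h2
    have h2 : c (Sum.inr ()) = 0 := (mul_eq_zero.mp h1).resolve_right hg0
    rw [h2, zero_smul, add_zero] at hc'
    have h3 := Fintype.linearIndependent_iff.mp (bas_li I W1) (fun i => c (Sum.inl i)) hc'
    rintro (i | ⟨⟩)
    · exact h3 i
    · exact h2
  have hsp : ⊤ ≤ Submodule.span ℤ (Set.range fam) := by
    rintro ⟨v, hv⟩ -
    have h1 : v.coeff top ∈ T := ⟨v, hv, rfl⟩
    rw [hg, Submodule.mem_span_singleton] at h1
    obtain ⟨k, hk⟩ := h1
    have h2 : v - k • b ∈ Lt I W1 := by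
      refine ⟨I.sub_mem hv.1 (Submodule.smul_mem (I.restrictScalars ℤ) k hb.1), ?_⟩
      intro i hi
      by_cases hit : i = top
      · subst hit
        rw [AddMonoidAlgebra.coeff_sub, Finsupp.sub_apply, AddMonoidAlgebra.coeff_smul_apply,
          hbt, hk, sub_self]
      · have h3 : i ∉ W := by rw [hW]; tauto
        exact (Submodule.sub_mem _ hv.2 (Submodule.smul_mem _ k hb.2)) i h3
    have h3 := bas_span I W1 h2
    have h4 : ∀ x ∈ Submodule.span ℤ (Set.range (bas I W1)), ∀ hx : x ∈ Lt I W,
        (⟨x, hx⟩ : Lt I W) ∈ Submodule.span ℤ (Set.range fam) := by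
      intro x hx hx'
      rw [Submodule.mem_span_range_iff_exists_fun] at hx
      obtain ⟨c, rfl⟩ := hx
      have h5 : (⟨∑ i, c i • bas I W1 i, hx'⟩ : Lt I W) = ∑ i, c i • fam (Sum.inl i) := by
        apply Subtype.ext
        rw [Submodule.coe_sum]
        rfl
      rw [h5]
      exact Submodule.sum_mem _ fun i _ =>
        Submodule.smul_mem _ _ (Submodule.subset_span ⟨Sum.inl i, rfl⟩)
    have h5 : (⟨v, hv⟩ : Lt I W) = ⟨v - k • b, hle h2⟩ + k • fam (Sum.inr ()) := by
      apply Subtype.ext
      show v = (v - k • b) + k • b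
      abel
    rw [h5]
    exact Submodule.add_mem _ (h4 _ h3 _)
      (Submodule.smul_mem _ _ (Submodule.subset_span ⟨Sum.inr (), rfl⟩))
  let bb := Basis.mk hli hsp
  have h1 : GZ (fun s => (bb s : AddMonoidAlgebra ℤ Λ)) = cv I W := cov_eq (Lt I W) bb
  have h2 : (fun s => toR (bb s : AddMonoidAlgebra ℤ Λ)) =
      Sum.elim (fun i => toR (bas I W1 i)) (fun _ : Unit => toR b) := by
    funext s
    have : bb s = fam s := by rw [Basis.mk_apply]
    rw [this]
    rcases s with i | k <;> rfl
  unfold GZ at h1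
  rw [h2, G_sum, G_unique (fun _ : Unit => orth ℝ (fun i => toR (bas I W1 i)) (toR b))] at h1
  rw [← h1]
  have h9 : cv I W1 = G ℝ (fun i => toR (bas I W1 i)) := rfl
  rw [h9]
  refine mul_le_mul_of_nonneg_left ?_ (G_nonneg _)
  set p : Fin (rk I W1) → AddMonoidAlgebra ℝ Λ := fun i => toR (bas I W1 i) with hp
  -- the properties of the orthogonal component
  let U : Submodule ℝ (AddMonoidAlgebra ℝ Λ) :=
    { carrier := {u | (∀ i ∉ W1, u.coeff i = 0) ∧ E u = 0}
      add_mem' := by
        rintro a c ⟨ha, ha'⟩ ⟨hc, hc'⟩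
        refine ⟨fun i hi => ?_, ?_⟩
        · rw [AddMonoidAlgebra.coeff_add, Finsupp.add_apply, ha i hi, hc i hi, add_zero]
        · rw [map_add, ha', hc', add_zero]
      zero_mem' := ⟨fun i _ => by simp, map_zero _⟩
      smul_mem' := by
        rintro c a ⟨ha, ha'⟩
        refine ⟨fun i hi => ?_, ?_⟩
        · rw [AddMonoidAlgebra.coeff_smul_apply, ha i hi, smul_zero]
        · rw [map_smul, ha', smul_zero] }
  have hU : Submodule.span ℝ (Set.range p) ≤ U := by
    rw [Submodule.span_le]
    rintro _ ⟨i, rfl⟩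
    refine ⟨fun j hj => ?_, hE _ (bas_mem I W1 i).1⟩
    rw [hp]
    simp only [toR_coeff]
    rw [(bas_mem I W1 i).2 j hj, Int.cast_zero]
  have h3 := hU (orth_sub_mem (𝕜 := ℝ) p (toR b))
  obtain ⟨h4, h5⟩ := h3
  show B ≤ ‖orth ℝ p (toR b)‖ ^ 2
  apply hB
  · intro i hi
    have h6 := h4 i (fun h => hi (hsub h))
    rw [AddMonoidAlgebra.coeff_sub, Finsupp.sub_apply, toR_coeff, hb.2 i hi, Int.cast_zero,
      zero_sub, neg_eq_zero] at h6
    exact h6
  · have h6 := h4 top htop
    rw [AddMonoidAlgebra.coeff_sub, Finsupp.sub_apply, toR_coeff, hbt, sub_eq_zero] at h6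
    rw [← h6]
    exact_mod_cast Int.one_le_abs hg0
  · rw [map_sub, hE _ hb.1, zero_sub, neg_eq_zero] at h5
    exact h5

/-- evaluation of the real group ring at a point -/
noncomputable def evR (ev : AddMonoidAlgebra ℤ Λ →+* ℂ) : AddMonoidAlgebra ℝ Λ →ₗ[ℝ] ℂ where
  toFun a := a.coeff.sum fun i c => (c : ℂ) * ev (AddMonoidAlgebra.single i 1)
  map_add' a b := by
    rw [AddMonoidAlgebra.coeff_add, Finsupp.sum_add_index']
    · intro i; simp
    · intro i x y; push_cast; ring
  map_smul' c a := by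
    rw [AddMonoidAlgebra.coeff_smul, Finsupp.sum_smul_index' (by intro i; simp), Finsupp.smul_sum]
    refine Finsupp.sum_congr fun i _ => ?_
    simp only [smul_eq_mul, RingHom.id_apply, Complex.real_smul]
    push_cast; ring

lemma evR_toR (ev : AddMonoidAlgebra ℤ Λ →+* ℂ) (a : AddMonoidAlgebra ℤ Λ) :
    evR ev (toR a) = ev a := by
  show (toR a).coeff.sum (fun i c => (c : ℂ) * ev (AddMonoidAlgebra.single i 1)) = ev a
  conv_rhs => rw [← AddMonoidAlgebra.sum_coeff_single a]
  rw [Finsupp.sum, Finsupp.sum, map_sum, supp_toR]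
  refine Finset.sum_congr rfl fun i _ => ?_
  rw [toR_coeff]
  have : (AddMonoidAlgebra.single i (a.coeff i) : AddMonoidAlgebra ℤ Λ) =
      (a.coeff i) • AddMonoidAlgebra.single i (1 : ℤ) := by
    rw [AddMonoidAlgebra.smul_single]; simp
  rw [this, map_zsmul]
  simp

/-- the window of the powers -/
noncomputable def Tw [DecidableEq Λ] (ε : Λ) (N : ℕ) : Finset Λ :=
  (Finset.range N).image (fun j : ℕ => j • ε)

theorem low_powers [DecidableEq Λ] (ev : AddMonoidAlgebra ℤ Λ →+* ℂ) (ε : Λ)
    (hinf : ∀ i j : ℕ, i • ε = j • ε → i = j)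
    (P : Polynomial ℤ) (hP0 : P ≠ 0)
    (hP : P.eval₂ (Int.castRingHom ℂ) (ev (AddMonoidAlgebra.single ε 1)) = 0) (N : ℕ) :
    (‖ev (AddMonoidAlgebra.single ε 1)‖ ^ 2) ^ N ≤ cv (RingHom.ker ev) (Tw ε (N + P.natDegree)) := by
  set z := ev (AddMonoidAlgebra.single ε 1) with hz
  set d := P.natDegree with hd
  have hpow : ∀ j : ℕ, (AddMonoidAlgebra.single (j • ε) (1 : ℤ) : AddMonoidAlgebra ℤ Λ) =
      AddMonoidAlgebra.single ε 1 ^ j := by
    intro j
    rw [AddMonoidAlgebra.single_pow, one_pow]
  have hevj : ∀ j : ℕ, ev (AddMonoidAlgebra.single (j • ε) 1) = z ^ j := by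
    intro j; rw [hpow, map_pow]
  induction N with
  | zero => rw [pow_zero]; exact one_le_cv _ _
  | succ N ih =>
    have hdisj : (N + d) • ε ∉ Tw ε (N + d) := by
      unfold Tw
      rw [Finset.mem_image]
      rintro ⟨j, hj, hjj⟩
      have := hinf _ _ hjj
      rw [Finset.mem_range] at hj
      omega
    -- a vector with nonzero top coefficient
    let v0 : AddMonoidAlgebra ℤ Λ :=
      ∑ j ∈ Finset.range (d + 1), P.coeff j • AddMonoidAlgebra.single ((N + j) • ε) (1 : ℤ)
    have hv0c : ∀ i, v0.coeff i =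
        ∑ j ∈ Finset.range (d + 1), if (N + j) • ε = i then P.coeff j else 0 := by
      intro i
      show (∑ j ∈ Finset.range (d + 1), P.coeff j •
        AddMonoidAlgebra.single ((N + j) • ε) (1 : ℤ) : AddMonoidAlgebra ℤ Λ).coeff i = _
      rw [AddMonoidAlgebra.coeff_sum, Finsupp.finset_sum_apply]
      refine Finset.sum_congr rfl fun j _ => ?_
      rw [AddMonoidAlgebra.coeff_smul_apply, AddMonoidAlgebra.coeff_single, Finsupp.single_apply]
      split_ifs <;> simp
    have h := low_step (RingHom.ker ev) (W1 := Tw ε (N + d)) (W := Tw ε (N + 1 + d))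
      ((N + d) • ε) hdisj (by
        intro i
        unfold Tw
        rw [show N + 1 + d = (N + d) + 1 by ring, Finset.range_add_one, Finset.image_insert,
          Finset.mem_insert])
      v0 (by
        refine ⟨?_, ?_⟩
        · show v0 ∈ RingHom.ker ev
          rw [RingHom.mem_ker]
          show ev (∑ j ∈ Finset.range (d + 1), P.coeff j •
            AddMonoidAlgebra.single ((N + j) • ε) (1 : ℤ)) = 0
          rw [map_sum]
          have h1 : ∀ j ∈ Finset.range (d + 1),
              ev (P.coeff j • AddMonoidAlgebra.single ((N + j) • ε) (1 : ℤ)) =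
              z ^ N * ((P.coeff j : ℂ) * z ^ j) := by
            intro j _
            rw [map_zsmul, hevj, pow_add, zsmul_eq_mul]; ring
          rw [Finset.sum_congr rfl h1, ← Finset.mul_sum]
          rw [Polynomial.eval₂_eq_sum_range] at hP
          have : ∑ i ∈ Finset.range (d + 1), ((P.coeff i : ℤ) : ℂ) * z ^ i = 0 := hP
          rw [this, mul_zero]
        · intro i hi
          rw [hv0c]
          refine Finset.sum_eq_zero fun j hj => ?_
          rw [if_neg]
          rintro rfl
          apply hi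
          unfold Tw
          rw [Finset.mem_image]
          rw [Finset.mem_range] at hj
          exact ⟨N + j, Finset.mem_range.mpr (by omega), rfl⟩)
      (by
        rw [hv0c, Finset.sum_eq_single d]
        · rw [if_pos rfl]
          exact Polynomial.leadingCoeff_ne_zero.mpr hP0
        · intro j _ hj
          rw [if_neg]
          intro h
          have := hinf _ _ h
          omega
        · intro h
          exact absurd (Finset.mem_range.mpr (by omega)) h)
      (evR ev) (by
        intro a ha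
        rw [evR_toR]; exact ha)
      (‖z‖ ^ 2) (by
        intro u hu hut hEu
        -- the polynomial of `u`
        let p : Polynomial ℂ := ∑ j ∈ Finset.range (N + 1 + d),
          Polynomial.monomial j ((u.coeff (j • ε) : ℝ) : ℂ)
        have hpc : ∀ j, p.coeff j = if j < N + 1 + d then ((u.coeff (j • ε) : ℝ) : ℂ) else 0 := by
          intro j
          show (∑ j ∈ Finset.range (N + 1 + d),
            Polynomial.monomial j ((u.coeff (j • ε) : ℝ) : ℂ)).coeff j = _
          rw [Polynomial.finset_sum_coeff]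
          simp_rw [Polynomial.coeff_monomial]
          rw [Finset.sum_ite_eq']
          simp [Finset.mem_range]
        have hsupp : u.coeff.support ⊆ Tw ε (N + 1 + d) := by
          intro i hi
          by_contra h
          exact (Finsupp.mem_support_iff.mp hi) (hu i h)
        have hinj : Set.InjOn (fun j : ℕ => j • ε) (Finset.range (N + 1 + d) : Set ℕ) :=
          fun i _ j _ h => hinf i j h
        have hpe : p.eval z = 0 := by
          have h1 : evR ev u = ∑ i ∈ Tw ε (N + 1 + d),
              (u.coeff i : ℂ) * ev (AddMonoidAlgebra.single i 1) := by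
            show u.coeff.sum (fun i c => (c : ℂ) * ev (AddMonoidAlgebra.single i 1)) = _
            exact Finsupp.sum_of_support_subset _ hsupp
              (fun i c => (c : ℂ) * ev (AddMonoidAlgebra.single i 1)) (fun i _ => by simp)
          rw [hEu] at h1
          unfold Tw at h1
          rw [Finset.sum_image hinj] at h1
          show (∑ j ∈ Finset.range (N + 1 + d),
            Polynomial.monomial j ((u.coeff (j • ε) : ℝ) : ℂ)).eval z = 0
          rw [Polynomial.eval_finset_sum, h1]
          refine Finset.sum_congr rfl fun j _ => ?_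
          rw [Polynomial.eval_monomial, hevj]
        have hdeg : p.natDegree = N + d := by
          apply Polynomial.natDegree_eq_of_le_of_coeff_ne_zero
          · rw [Polynomial.natDegree_le_iff_coeff_eq_zero]
            intro j hj
            rw [hpc, if_neg (by omega)]
          · rw [hpc, if_pos (by omega)]
            intro h0
            rw [Complex.ofReal_eq_zero] at h0
            rw [h0, abs_zero] at hut
            linarith
        have h1 := landau p z hpe (by
          rw [Polynomial.leadingCoeff, hdeg, hpc, if_pos (by omega), Complex.norm_real]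
          exact hut)
        refine h1.trans ?_
        rw [norm_sq_eq u _ hsupp]
        unfold Tw
        rw [Finset.sum_image hinj, hdeg, show N + d + 1 = N + 1 + d by ring]
        apply le_of_eq
        refine Finset.sum_congr rfl fun j hj => ?_
        rw [Finset.mem_range] at hj
        rw [hpc, if_pos hj, Complex.norm_real, Real.norm_eq_abs, sq_abs])
    rw [pow_succ]
    refine le_trans ?_ h
    exact mul_le_mul_of_nonneg_right ih (sq_nonneg _)

end H44.Tys
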