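import Pool.Agent.H44.Tys.Gen
import Pool.Agent.H44.Tys.Low
import Pool.Agent.H44.Tys.Idx
import Pool.Agent.H44.Tys.Chain

/-!
# The dense theorem
-/

set_option linter.all false

namespace H44.Tys

open Module

variable {Λ : Type*} [AddCommGroup Λ] {ι : Type*} [Fintype ι]

/-- corank in the window -/
noncomputable def Hn (e : ι → Λ) (I : Ideal (AddMonoidAlgebra ℤ Λ)) (N : ℕ) : ℝ :=
  Vn e N - rk I (Wn e N)

/-- logarithm of the covolume in the window -/
noncomputable def hn (e : ι → Λ) (I : Ideal (AddMonoidAlgebra ℤ Λ)) (N : ℕ) : ℝ :=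
  Real.log (cv I (Wn e N))

lemma Hn_nonneg (e : ι → Λ) (I : Ideal (AddMonoidAlgebra ℤ Λ)) (N : ℕ) : 0 ≤ Hn e I N := by
  have := rk_le I (Wn e N)
  unfold Hn Vn
  rw [sub_nonneg]
  exact_mod_cast this

lemma hn_nonneg (e : ι → Λ) (I : Ideal (AddMonoidAlgebra ℤ Λ)) (N : ℕ) : 0 ≤ hn e I N :=
  Real.log_nonneg (one_le_cv _ _)

lemma window_zero (e : ι → Λ) (J : Ideal (AddMonoidAlgebra ℤ Λ))
    (hJ : ∀ n : ℤ, (n : AddMonoidAlgebra ℤ Λ) ∈ J → n = 0) :
    Hn e J 0 = 1 ∧ hn e J 0 = 0 := by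
  classical
  have hbot : Lt J (Wn e 0) = ⊥ := by
    rw [eq_bot_iff]
    rintro a ⟨ha, ha'⟩
    have h1 : a = ((a.coeff 0 : ℤ) : AddMonoidAlgebra ℤ Λ) := by
      ext i
      have h2 : ((a.coeff 0 : ℤ) : AddMonoidAlgebra ℤ Λ) = AddMonoidAlgebra.single 0 (a.coeff 0) := by
        rw [← mul_one ((a.coeff 0 : ℤ) : AddMonoidAlgebra ℤ Λ), ← zsmul_eq_mul,
          AddMonoidAlgebra.one_def, AddMonoidAlgebra.smul_single]
        simp
      rw [h2, AddMonoidAlgebra.coeff_single, Finsupp.single_apply]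
      split_ifs with h
      · rw [h]
      · exact ha' i (fun h3 => h (mem_Wn_zero.mp h3).symm)
    have h2 : a.coeff 0 = 0 := hJ _ (by rw [← h1]; exact ha)
    rw [Submodule.mem_bot, h1, h2, Int.cast_zero]
  have hrk : rk J (Wn e 0) = 0 := by
    unfold rk
    rw [hbot]
    exact finrank_bot ℤ _
  constructor
  · unfold Hn Vn
    rw [hrk]
    have : (Wn e 0).card = 1 := by
      rw [Finset.card_eq_one]
      exact ⟨0, by ext w; rw [mem_Wn_zero, Finset.mem_singleton]⟩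
    rw [this]; simp
  · have h1 : cv J (Wn e 0) ≤ 1 := by
      have h2 := cov_le (ι := Fin 0) (Lt J (Wn e 0)) (fun i => i.elim0) (fun i => i.elim0)
        (by rw [Fintype.card_fin]; exact hrk.symm)
        (linearIndependent_empty_type)
      refine h2.trans ?_
      unfold GZ
      rw [G_empty]
    have h2 := one_le_cv J (Wn e 0)
    unfold hn
    rw [le_antisymm h1 h2, Real.log_one]

/-- the growth of the invariants of an ideal reached after `k` steps -/
def Good (B : ℝ) (e : ι → Λ) (I : Ideal (AddMonoidAlgebra ℤ Λ)) (k : ℕ) : Prop :=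
  ∃ C' : ℝ, 0 ≤ C' ∧ ∀ N, Sm^[k] (Hn e I) N ≤ Vn e N ∧
    Sm^[k] (hn e I) N ≤ (Real.log B + ((k : ℝ) - 1) * Real.log 9) * Sm (Vn e) N + C' * Vn e N

lemma good_one {B : ℝ} (hB : 1 ≤ B) (e : ι → Λ) (J : Ideal (AddMonoidAlgebra ℤ Λ))
    (hJ : ∀ n : ℤ, (n : AddMonoidAlgebra ℤ Λ) ∈ J → n = 0)
    {f : AddMonoidAlgebra ℤ Λ} (hf : f ∈ J) (hfW : f.coeff.support ⊆ Wn e 1)
    (hnz : ∀ a, f * a = 0 → a = 0) (hl2 : l2 f ≤ B) : Good B e J 1 := by
  obtain ⟨C, hC1, hC⟩ := short_windows e J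
  have hstep : ∀ N, Hn e J (N + 1) ≤ Vn e (N + 1) - Vn e N ∧
      hn e J (N + 1) ≤ Real.log B * Vn e N +
        Real.log C * (Vn e (N + 1) - Hn e J (N + 1) - Vn e N) := by
    intro N
    have h := first_step hf hnz (W' := Wn e N) (W := Wn e (N + 1))
      (fun i hi j hj => by
        rw [add_comm N 1]; exact add_mem_Wn (hfW hi) hj)
      (by linarith) (hC (N + 1))
    have h1 : ((Wn e N).card : ℝ) ≤ rk J (Wn e (N + 1)) := by exact_mod_cast h.1
    constructor
    · unfold Hn Vn at *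
      linarith
    · have hl20 : 0 ≤ l2 f := sq_nonneg _
      have h2 : cv J (Wn e (N + 1)) ≤ B ^ (Wn e N).card * C ^ (rk J (Wn e (N + 1)) - (Wn e N).card) := by
        refine h.2.trans ?_
        gcongr
      have h3 := Real.log_le_log (lt_of_lt_of_le one_pos (one_le_cv J (Wn e (N + 1)))) h2
      rw [Real.log_mul (by positivity) (by positivity), Real.log_pow, Real.log_pow,
        Nat.cast_sub h.1] at h3
      unfold hn Hn Vn
      linarith
  obtain ⟨hH0, hh0⟩ := window_zero e J hJ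
  have hV0 : 1 ≤ Vn e 0 := by
    have := Hn_nonneg e J 0
    have h1 : Hn e J 0 ≤ Vn e 0 := by
      unfold Hn
      have : (0 : ℝ) ≤ rk J (Wn e 0) := Nat.cast_nonneg _
      linarith
    linarith
  have hlB : 0 ≤ Real.log B := Real.log_nonneg hB
  have hlC : 0 ≤ Real.log C := Real.log_nonneg hC1
  have key : ∀ N, Sm (Hn e J) N ≤ Vn e N ∧
      Sm (hn e J) N ≤ Real.log B * (Sm (Vn e) N - Vn e N) + Real.log C * (Vn e N - Sm (Hn e J) N) := by
    intro N
    induction N with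
    | zero =>
      rw [Sm_zero, Sm_zero, Sm_zero, hH0, hh0]
      refine ⟨hV0, ?_⟩
      have : 0 ≤ Real.log C * (Vn e 0 - 1) := mul_nonneg hlC (by linarith)
      linarith
    | succ N ih =>
      obtain ⟨h1, h2⟩ := hstep N
      rw [Sm_succ, Sm_succ, Sm_succ]
      constructor
      · linarith [ih.1]
      · nlinarith [ih.2]
  refine ⟨Real.log C, hlC, fun N => ?_⟩
  have h1 := key N
  have h2 : 0 ≤ Sm (Hn e J) N := Smk_nonneg 1 (Hn_nonneg e J) N
  have h3 := Vn_nonneg e N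
  refine ⟨h1.1, h1.2.trans ?_⟩
  push_cast
  have h4 : 0 ≤ Real.log B * Vn e N := mul_nonneg hlB h3
  have h5 : 0 ≤ Real.log C * Sm (Hn e J) N := mul_nonneg hlC h2
  nlinarith

lemma good_step {B : ℝ} (e : ι → Λ) (I J : Ideal (AddMonoidAlgebra ℤ Λ))
    (hI : Sat I) (hI0 : ∀ n : ℤ, (n : AddMonoidAlgebra ℤ Λ) ∈ I → n = 0) (hIJ : I ≤ J)
    (hJ : ∀ n : ℤ, (n : AddMonoidAlgebra ℤ Λ) ∈ J → n = 0)
    {f : AddMonoidAlgebra ℤ Λ} (hf : f ∈ J) (hfW : f.coeff.support ⊆ Wn e 1)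
    (hnz : ∀ a, f * a ∈ I → a ∈ I) (hl1 : l1 f ≤ 3) {k : ℕ} (hG : Good B e I k) :
    Good B e J (k + 1) := by
  obtain ⟨C, hC1, hC⟩ := short_windows e J
  have hstep : ∀ N, Hn e J (N + 1) ≤ Hn e I (N + 1) - Hn e I N ∧
      hn e J (N + 1) ≤ hn e I (N + 1) - hn e I N + Real.log 9 * Hn e I N +
        Real.log C * (Hn e I (N + 1) - Hn e I N - Hn e J (N + 1)) := by
    intro N
    have h := step hI hIJ hf hnz (W' := Wn e N) (W := Wn e (N + 1))
      (fun i hi j hj => by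
        rw [add_comm N 1]; exact add_mem_Wn (hfW hi) hj)
      (by linarith) (hC (N + 1))
    have hr := rk_le I (Wn e N)
    have h1 : (rk I (Wn e (N + 1)) : ℝ) + ((Wn e N).card - rk I (Wn e N)) ≤
        rk J (Wn e (N + 1)) := by
      have := h.1
      rw [← Nat.cast_sub hr]
      exact_mod_cast this
    constructor
    · unfold Hn Vn at *
      linarith
    · have hl10 : 0 ≤ l1 f := l1_nonneg f
      have h9 : l1 f ^ 2 ≤ 9 := by nlinarith
      have hcI : 0 < cv I (Wn e (N + 1)) := lt_of_lt_of_le one_pos (one_le_cv _ _)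
      have hcI' : 0 < cv I (Wn e N) := lt_of_lt_of_le one_pos (one_le_cv _ _)
      have hcJ : 0 < cv J (Wn e (N + 1)) := lt_of_lt_of_le one_pos (one_le_cv _ _)
      have h2 : cv J (Wn e (N + 1)) * cv I (Wn e N) ≤
          cv I (Wn e (N + 1)) * 9 ^ ((Wn e N).card - rk I (Wn e N)) *
            C ^ (rk J (Wn e (N + 1)) - (rk I (Wn e (N + 1)) + ((Wn e N).card - rk I (Wn e N)))) := by
        refine h.2.trans ?_
        gcongr
      have h3 := Real.log_le_log (mul_pos hcJ hcI') h2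
      rw [Real.log_mul hcJ.ne' hcI'.ne', Real.log_mul (by positivity) (by positivity),
        Real.log_mul hcI.ne' (by positivity), Real.log_pow, Real.log_pow,
        Nat.cast_sub h.1, Nat.cast_add, Nat.cast_sub hr] at h3
      unfold hn Hn Vn
      linarith
  obtain ⟨hH0, hh0⟩ := window_zero e J hJ
  obtain ⟨hH0', hh0'⟩ := window_zero e I hI0
  have hlC : 0 ≤ Real.log C := Real.log_nonneg hC1
  have hl9 : 0 ≤ Real.log 9 := Real.log_nonneg (by norm_num)
  have key : ∀ N, Sm (Hn e J) N ≤ Hn e I N ∧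
      Sm (hn e J) N ≤ hn e I N + Real.log 9 * (Sm (Hn e I) N - Hn e I N) +
        Real.log C * (Hn e I N - Sm (Hn e J) N) := by
    intro N
    induction N with
    | zero =>
      rw [Sm_zero, Sm_zero, Sm_zero, hH0, hh0, hH0', hh0']
      constructor <;> simp
    | succ N ih =>
      obtain ⟨h1, h2⟩ := hstep N
      rw [Sm_succ, Sm_succ, Sm_succ]
      constructor
      · linarith [ih.1]
      · nlinarith [ih.2]
  have key1 : ∀ N, Sm (Hn e J) N ≤ Hn e I N := fun N => (key N).1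
  have key2 : ∀ N, Sm (hn e J) N ≤
      hn e I N + (Real.log 9 * Sm (Hn e I) N + Real.log C * Hn e I N) := by
    intro N
    refine (key N).2.trans ?_
    have h2 : 0 ≤ Sm (Hn e J) N := Smk_nonneg 1 (Hn_nonneg e J) N
    have h3 := Hn_nonneg e I N
    have h4 : 0 ≤ Real.log 9 * Hn e I N := mul_nonneg hl9 h3
    have h5 : 0 ≤ Real.log C * Sm (Hn e J) N := mul_nonneg hlC h2
    nlinarith
  obtain ⟨C', hC'0, hC'⟩ := hG
  refine ⟨C' + Real.log C, by positivity, fun N => ⟨?_, ?_⟩⟩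
  · rw [Function.iterate_succ_apply]
    exact (Smk_mono k key1 N).trans (hC' N).1
  · rw [Function.iterate_succ_apply]
    refine (Smk_mono k key2 N).trans ?_
    rw [Smk_add, Smk_add, Smk_smul, Smk_smul]
    have h1 := (hC' N).2
    have h2 := (hC' N).1
    have h3 : Sm^[k] (Sm (Hn e I)) N ≤ Sm (Vn e) N := by
      rw [← Function.iterate_succ_apply, Function.iterate_succ_apply']
      exact Sm_mono (fun N => (hC' N).1) N
    have h4 : Real.log 9 * Sm^[k] (Sm (Hn e I)) N ≤ Real.log 9 * Sm (Vn e) N :=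
      mul_le_mul_of_nonneg_left h3 hl9
    have h5 : Real.log C * Sm^[k] (Hn e I) N ≤ Real.log C * Vn e N :=
      mul_le_mul_of_nonneg_left h2 hlC
    push_cast
    nlinarith

lemma sat_of_prime (I : Ideal (AddMonoidAlgebra ℤ Λ)) [hI : I.IsPrime]
    (hI0 : ∀ n : ℤ, (n : AddMonoidAlgebra ℤ Λ) ∈ I → n = 0) : Sat I := by
  intro n a hn ha
  rw [zsmul_eq_mul] at ha
  rcases hI.mem_or_mem ha with h | h
  · exact absurd (hI0 n h) hn
  · exact h

/-- the main induction -/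
lemma exists_good {B : ℝ} (hB : 1 ≤ B) [AddMonoid.FG Λ] (e : ι → Λ)
    (𝓕 : Set (AddMonoidAlgebra ℤ Λ)) (h𝓕 : ∀ f ∈ 𝓕, f.coeff.support ⊆ Wn e 1 ∧ l1 f ≤ 3)
    (ev : AddMonoidAlgebra ℤ Λ →+* ℂ) (hev : ∀ f ∈ 𝓕, ev f = 0)
    (hfin : {ψ : AddMonoidAlgebra ℤ Λ →+* ℂ | ∀ f ∈ 𝓕, ψ f = 0}.Finite)
    {m : ℕ} (hm1 : 1 ≤ m) (w : Λ →+ (Fin m → ℤ)) (hw : Function.Surjective w)
    (halg : ∀ i : Λ, IsAlgebraic ℤ (ev (AddMonoidAlgebra.single i 1)))
    {f1 : AddMonoidAlgebra ℤ Λ} (hf1 : f1 ∈ 𝓕) (hnz : ∀ a, f1 * a = 0 → a = 0) (hl2 : l2 f1 ≤ B) :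
    ∃ k, m ≤ k ∧ Good B e (RingHom.ker ev) k := by
  haveI : Algebra.FiniteType ℤ (AddMonoidAlgebra ℤ Λ) := AddMonoidAlgebra.finiteType_of_fg ℤ Λ
  haveI : IsNoetherianRing (AddMonoidAlgebra ℤ Λ) :=
    Algebra.FiniteType.isNoetherianRing ℤ (AddMonoidAlgebra ℤ Λ)
  have hker0 : ∀ n : ℤ, (n : AddMonoidAlgebra ℤ Λ) ∈ RingHom.ker ev → n = 0 := by
    intro n hn
    rw [RingHom.mem_ker, map_intCast] at hn
    exact_mod_cast hn
  -- the property
  let P : PrimeSpectrum (AddMonoidAlgebra ℤ Λ) → Prop := fun 𝔭 =>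
    ∃ k, Good B e 𝔭.asIdeal k ∧ ∃ p : LTSeries (PrimeSpectrum (AddMonoidAlgebra ℤ Λ)),
      p.head = 𝔭 ∧ p.last.asIdeal = RingHom.ker ev ∧ m ≤ k + p.length
  have hser : ∀ p : LTSeries (PrimeSpectrum (AddMonoidAlgebra ℤ Λ)),
      p.last.asIdeal = RingHom.ker ev → ∀ i, (p i).asIdeal ≤ RingHom.ker ev := by
    intro p hp i
    rw [← hp]
    exact LTSeries.monotone p (Fin.le_last i)
  -- the start
  obtain ⟨𝔭1, h𝔭1⟩ : ∃ 𝔭, P 𝔭 := by
    obtain ⟨p, hpl, hplast, -⟩ := chain ev w hw halg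
    obtain ⟨q, hq1, hq2, hq3, hq4⟩ := PrimeSpectrum.exist_ltSeries_mem_one_of_mem_last p
      (x := f1) (by rw [hplast]; exact hev f1 hf1)
    have hqlast : q.last.asIdeal = RingHom.ker ev := by rw [← hq4]; exact hplast
    have hql : q.length ≠ 0 := by omega
    refine ⟨q.toFun 1, 1, ?_, q.tail hql, ?_, ?_, ?_⟩
    · exact good_one hB e _ (fun n hn => hker0 n (hser q hqlast 1 hn)) hq1 (h𝓕 f1 hf1).1 hnz hl2
    · exact RelSeries.head_tail q hql
    · rw [RelSeries.last_tail]; exact hqlast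
    · rw [RelSeries.tail_length]; omega
  -- a maximal one
  obtain ⟨𝔭, h𝔭, hmax⟩ : ∃ 𝔭, P 𝔭 ∧ ∀ 𝔮, P 𝔮 → ¬ 𝔭 < 𝔮 := by
    have hwf : WellFounded ((· > ·) : PrimeSpectrum (AddMonoidAlgebra ℤ Λ) →
        PrimeSpectrum (AddMonoidAlgebra ℤ Λ) → Prop) := by
      have h1 : WellFounded ((· > ·) : Ideal (AddMonoidAlgebra ℤ Λ) → _ → Prop) :=
        wellFounded_gt
      exact Subrelation.wf (r := InvImage (· > ·) PrimeSpectrum.asIdeal)
        (fun {a b} h => h) (InvImage.wf _ h1)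
    obtain ⟨𝔭, h1, h2⟩ := hwf.has_min {𝔭 | P 𝔭} ⟨𝔭1, h𝔭1⟩
    exact ⟨𝔭, h1, fun 𝔮 h𝔮 => h2 𝔮 h𝔮⟩
  obtain ⟨k, hGood, p, hhead, hlast, hlen⟩ := h𝔭
  have hple : 𝔭.asIdeal ≤ RingHom.ker ev := by
    rw [← hhead]; exact hser p hlast 0
  have h𝔭0 : ∀ n : ℤ, (n : AddMonoidAlgebra ℤ Λ) ∈ 𝔭.asIdeal → n = 0 :=
    fun n hn => hker0 n (hple hn)
  haveI := 𝔭.isPrime
  have hall : ∀ f ∈ 𝓕, f ∈ 𝔭.asIdeal := by
    intro f hf
    by_contra hcon
    obtain ⟨q, hq1, hq2, hq3, hq4⟩ := PrimeSpectrum.exist_ltSeries_mem_one_of_mem_last p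
      (x := f) (by rw [hlast]; exact hev f hf)
    have hqlast : q.last.asIdeal = RingHom.ker ev := by rw [← hq4]; exact hlast
    have hql : q.length ≠ 0 := by
      intro h0
      have h1 : q.head = q.last := by
        show q.toFun 0 = q.toFun (Fin.last _)
        congr 1
        ext
        rw [Fin.val_last, h0]; rfl
      apply hcon
      rw [← hhead, hq3, h1, hqlast]
      exact hev f hf
    have hlt : q.head < (q.tail hql).head := by
      rw [RelSeries.head_tail]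
      show q.toFun 0 < q.toFun 1
      refine LTSeries.strictMono q ?_
      rw [Fin.lt_def]
      have : ((1 : Fin (q.length + 1)) : ℕ) = 1 := by
        rw [Fin.val_one']
        exact Nat.mod_eq_of_lt (by omega)
      rw [this]; simp
    have h1' : (q.tail hql).head = q.toFun 1 := RelSeries.head_tail q hql
    rw [h1'] at hlt
    rw [← hq3, hhead] at hlt
    refine hmax (q.toFun 1) ⟨k + 1, ?_, q.tail hql, h1', ?_, ?_⟩ hlt
    · refine good_step e 𝔭.asIdeal _ (sat_of_prime _ h𝔭0) h𝔭0 (le_of_lt hlt)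
        (fun n hn => hker0 n (hser q hqlast 1 hn)) hq1 (h𝓕 f hf).1 ?_ (h𝓕 f hf).2 hGood
      intro a ha
      exact (𝔭.isPrime.mem_or_mem ha).resolve_left hcon
    · rw [RelSeries.last_tail]; exact hqlast
    · rw [RelSeries.tail_length]; omega
  have heq : 𝔭.asIdeal = RingHom.ker ev := by
    refine prime_eq_ker 𝔭.asIdeal ev hple (hfin.subset ?_)
    intro ψ hψ f hf
    exact hψ (hall f hf)
  have hlen0 : p.length = 0 := by
    by_contra h0
    have h1 : p.head < p.last := by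
      show p.toFun 0 < p.toFun (Fin.last _)
      refine LTSeries.strictMono p ?_
      rw [Fin.lt_def, Fin.val_last]
      show 0 < p.length
      omega
    have h2 : p.head = p.last := by
      apply PrimeSpectrum.ext
      rw [hhead, hlast, heq]
    exact absurd h2 h1.ne
  refine ⟨k, by omega, ?_⟩
  rw [← heq]; exact hGood

lemma alg_coord [AddMonoid.FG Λ] (𝓕 : Set (AddMonoidAlgebra ℤ Λ))
    (ev : AddMonoidAlgebra ℤ Λ →+* ℂ) (hev : ∀ f ∈ 𝓕, ev f = 0)
    (hfin : {ψ : AddMonoidAlgebra ℤ Λ →+* ℂ | ∀ f ∈ 𝓕, ψ f = 0}.Finite)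
    (a : AddMonoidAlgebra ℤ Λ) : IsAlgebraic ℤ (ev a) := by
  haveI : (RingHom.ker ev).IsPrime := RingHom.ker_isPrime ev
  have h1 := prime_alg (RingHom.ker ev) (by
    intro n hn
    rw [RingHom.mem_ker, map_intCast] at hn
    exact_mod_cast hn) (hfin.subset (by
      intro ψ hψ f hf
      exact hψ (hev f hf))) a
  obtain ⟨P, hP0, hP⟩ := h1
  refine ⟨P, hP0, ?_⟩
  have h2 : (Ideal.Quotient.mk (RingHom.ker ev)) (P.eval₂ (Int.castRingHom _) a) = 0 := by
    rw [Polynomial.hom_eval₂]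
    rw [Polynomial.aeval_def] at hP
    have h3 : (Ideal.Quotient.mk (RingHom.ker ev)).comp (Int.castRingHom _) =
      algebraMap ℤ (AddMonoidAlgebra ℤ Λ ⧸ RingHom.ker ev) := RingHom.ext_int _ _
    rw [h3]; exact hP
  rw [Ideal.Quotient.eq_zero_iff_mem, RingHom.mem_ker, Polynomial.hom_eval₂] at h2
  rw [Polynomial.aeval_def]
  have h3 : ev.comp (Int.castRingHom _) = algebraMap ℤ ℂ := RingHom.ext_int _ _
  rw [← h3]; exact h2

/-- **the dense theorem** -/
theorem dense {B : ℝ} (hB : 1 ≤ B) [AddMonoid.FG Λ] (e : ι → Λ)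
    (𝓕 : Set (AddMonoidAlgebra ℤ Λ)) (h𝓕 : ∀ f ∈ 𝓕, f.coeff.support ⊆ Wn e 1 ∧ l1 f ≤ 3)
    (ev : AddMonoidAlgebra ℤ Λ →+* ℂ) (hev : ∀ f ∈ 𝓕, ev f = 0)
    (hfin : {ψ : AddMonoidAlgebra ℤ Λ →+* ℂ | ∀ f ∈ 𝓕, ψ f = 0}.Finite)
    {m : ℕ} (hm1 : 1 ≤ m) (w : Λ →+ (Fin m → ℤ)) (hw : Function.Surjective w)
    {t : ℕ} {c : ℝ} (hrank : finrank ℤ Λ = m) (hQ : Qp e t c)
    {f1 : AddMonoidAlgebra ℤ Λ} (hf1 : f1 ∈ 𝓕) (hnz : ∀ a, f1 * a = 0 → a = 0) (hl2 : l2 f1 ≤ B)
    (i : ι) : 2 * Real.log ‖ev (AddMonoidAlgebra.single (e i) 1)‖ ≤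
      c * (Real.log B + ((m : ℝ) - 1) * Real.log 9) := by
  classical
  have halg := alg_coord 𝓕 ev hev hfin
  obtain ⟨k, hmk, C', hC'0, hC'⟩ := exists_good hB e 𝓕 h𝓕 ev hev hfin hm1 w hw
    (fun i => halg _) hf1 hnz hl2
  set x := ev (AddMonoidAlgebra.single (e i) 1) with hx
  set n := Fintype.card ι with hndef
  set K := Real.log B + ((m : ℝ) - 1) * Real.log 9 with hK
  have hlB : 0 ≤ Real.log B := Real.log_nonneg hB
  have hl9 : 0 ≤ Real.log 9 := Real.log_nonneg (by norm_num)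
  have hm1' : (1 : ℝ) ≤ m := by exact_mod_cast hm1
  have hK0 : 0 ≤ K := by
    rw [hK]
    have : 0 ≤ ((m : ℝ) - 1) * Real.log 9 := mul_nonneg (by linarith) hl9
    linarith
  have hc0 : 0 ≤ c := by
    have h1 := hQ.2 0
    have h2 : 0 ≤ Sm^[t] (Vn e) 0 := Smk_nonneg t (Vn_nonneg e) 0
    rw [zero_add, Nat.choose_self] at h1
    push_cast at h1
    linarith
  by_cases hx1 : ‖x‖ ≤ 1
  · have h1 : Real.log ‖x‖ ≤ 0 := Real.log_nonpos (norm_nonneg _) hx1
    have h2 : 0 ≤ c * K := mul_nonneg hc0 hK0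
    linarith
  push Not at hx1
  have hinf : ∀ i1 j1 : ℕ, i1 • e i = j1 • e i → i1 = j1 := by
    intro i1 j1 h
    have hpow : ∀ j : ℕ, ev (AddMonoidAlgebra.single (j • e i) 1) = x ^ j := by
      intro j
      rw [hx, ← map_pow, AddMonoidAlgebra.single_pow, one_pow]
    have h1 : x ^ i1 = x ^ j1 := by rw [← hpow, ← hpow, h]
    have h2 : ‖x‖ ^ i1 = ‖x‖ ^ j1 := by rw [← norm_pow, ← norm_pow, h1]
    exact pow_right_injective₀ (by linarith) (ne_of_gt hx1) h2
  obtain ⟨P, hP0, hP⟩ := halg (AddMonoidAlgebra.single (e i) 1)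
  rw [Polynomial.aeval_def] at hP
  have hP' : P.eval₂ (Int.castRingHom ℂ) x = 0 := by
    have h3 : Int.castRingHom ℂ = algebraMap ℤ ℂ := RingHom.ext_int _ _
    rw [h3]; exact hP
  set d := P.natDegree + 1 with hd
  have hlow : ∀ N, 2 * Real.log ‖x‖ * (((N + 1).choose 1 : ℕ) : ℝ) ≤
      hn e (RingHom.ker ev) (N + d) := by
    intro N
    have h1 := low_powers ev (e i) hinf P hP0 hP' (N + 1)
    have h2 : Tw (e i) (N + 1 + P.natDegree) ⊆ Wn e (N + d) := by
      intro y hy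
      unfold Tw at hy
      rw [Finset.mem_image] at hy
      obtain ⟨j, hj, rfl⟩ := hy
      rw [Finset.mem_range] at hj
      exact nsmul_mem_Wn e i j _ (by omega)
    have h3 := h1.trans (cv_mono (RingHom.ker ev) h2)
    have h4 := Real.log_le_log (by positivity) h3
    rw [Real.log_pow, Real.log_pow] at h4
    rw [Nat.choose_one_right]
    unfold hn
    push_cast at h4 ⊢
    linarith
  have ht : t + m = n := by
    have := hQ.1
    rw [hrank] at this
    exact this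
  -- apply the partial sums
  have hS : ∀ N, 2 * Real.log ‖x‖ * (((N + (1 + (t + k))).choose (1 + (t + k)) : ℕ) : ℝ) ≤
      (Real.log B + ((k : ℝ) - 1) * Real.log 9) *
        (c * (((N + d + (n + 1)).choose (n + 1) : ℕ) : ℝ)) +
      C' * (c * (((N + d + n).choose n : ℕ) : ℝ)) := by
    intro N
    have h1 := Smk_shift (t + k) d (hn_nonneg e (RingHom.ker ev)) hlow N
    rw [Smk_smul, Smk_choose] at h1
    refine h1.trans ?_
    rw [Function.iterate_add_apply]
    have h2 : Sm^[t] (Sm^[k] (hn e (RingHom.ker ev))) (N + d) ≤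
        Sm^[t] (fun N => (Real.log B + ((k : ℝ) - 1) * Real.log 9) * Sm (Vn e) N + C' * Vn e N)
          (N + d) := Smk_mono t (fun N => (hC' N).2) _
    refine h2.trans ?_
    rw [Smk_add, Smk_smul, Smk_smul]
    have h3 : Sm^[t] (Vn e) (N + d) ≤ c * (((N + d + n).choose n : ℕ) : ℝ) := hQ.2 _
    have h4 : Sm^[t] (Sm (Vn e)) (N + d) ≤ c * (((N + d + (n + 1)).choose (n + 1) : ℕ) : ℝ) := by
      rw [← Function.iterate_succ_apply, Function.iterate_succ_apply']
      have h5 := Sm_mono hQ.2 (N + d)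
      rw [Sm_smul, Sm_choose] at h5
      exact h5
    have hk1 : (1 : ℝ) ≤ k := by
      have : 1 ≤ k := le_trans hm1 hmk
      exact_mod_cast this
    have h6 : 0 ≤ Real.log B + ((k : ℝ) - 1) * Real.log 9 := by
      have : 0 ≤ ((k : ℝ) - 1) * Real.log 9 := mul_nonneg (by linarith) hl9
      linarith
    have h7 := mul_le_mul_of_nonneg_left h4 h6
    have h8 := mul_le_mul_of_nonneg_left h3 hC'0
    linarith
  have hsmall : Filter.Tendsto (fun N : ℕ => (C' * (c * (((N + d + n).choose n : ℕ) : ℝ))) /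
      (N : ℝ) ^ (n + 1)) Filter.atTop (nhds 0) := by
    have := asym_small n (C' * c) d
    refine this.congr fun N => ?_
    ring
  rcases Nat.eq_or_lt_of_le hmk with hk | hk
  · -- the case `k = m`
    refine asym (n + 1) (2 * Real.log ‖x‖) (c * K) d _ hsmall ?_
    intro N
    have h1 := hS N
    rw [← hk, show 1 + (t + m) = n + 1 by omega] at h1
    rw [hK]
    linarith
  · -- the case `k > m`
    exfalso
    have hlog : 0 < Real.log ‖x‖ := Real.log_pos hx1
    have h0 : 2 * Real.log ‖x‖ ≤ 0 := by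
      refine asym (n + 2) (2 * Real.log ‖x‖) 0 0 (fun N =>
        ((Real.log B + ((k : ℝ) - 1) * Real.log 9) * c) *
          (((N + d + (n + 1)).choose (n + 1) : ℕ) : ℝ) +
        C' * (c * (((N + d + n).choose n : ℕ) : ℝ))) ?_ ?_
      · have h1 := asym_small (n + 1) ((Real.log B + ((k : ℝ) - 1) * Real.log 9) * c) d
        have h2 : Filter.Tendsto (fun N : ℕ => (C' * (c * (((N + d + n).choose n : ℕ) : ℝ))) /
            (N : ℝ) ^ (n + 2)) Filter.atTop (nhds 0) := by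
          have h3 := hsmall.mul (tendsto_const_div_atTop_nhds_zero_nat (1 : ℝ))
          rw [mul_zero] at h3
          refine h3.congr' ?_
          filter_upwards [Filter.eventually_gt_atTop 0] with N hN
          have : (N : ℝ) ≠ 0 := by positivity
          field_simp
          ring
        have h3 := h1.add h2
        rw [add_zero] at h3
        refine h3.congr fun N => ?_
        rw [← add_div]
      · intro N
        rw [zero_mul, zero_add]
        have h1 := hS N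
        have h2 : (((N + (n + 2)).choose (n + 2) : ℕ) : ℝ) ≤
            (((N + (1 + (t + k))).choose (1 + (t + k)) : ℕ) : ℝ) := by
          have h3 : (N + (n + 2)).choose (n + 2) = (N + (n + 2)).choose N := by
            rw [Nat.choose_symm_add]
          have h4 : (N + (1 + (t + k))).choose (1 + (t + k)) = (N + (1 + (t + k))).choose N := by
            rw [Nat.choose_symm_add]
          rw [h3, h4]
          exact_mod_cast Nat.choose_le_choose N (by omega)
        have h3 : 0 ≤ 2 * Real.log ‖x‖ := by linarith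
        have h4 := mul_le_mul_of_nonneg_left h2 h3
        linarith
    linarith

end H44.Tys
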