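import Pool.Agent.H44.Tys.Step2
import Pool.Agent.H44.Tys.Wnd

/-!
# The lattices of an ideal in the windows are generated by vectors of bounded length
-/

set_option linter.all false

namespace H44.Tys

open Module

variable {Λ : Type*} [AddCommGroup Λ] {ι : Type*} [Fintype ι]

noncomputable def ψh (e : ι → Λ) :
    MvPolynomial (Option ι) ℤ →+* Polynomial (AddMonoidAlgebra ℤ Λ) :=
  MvPolynomial.eval₂Hom (Int.castRingHom _)
    (fun o => Polynomial.C (AddMonoidAlgebra.single (o.elim 0 e) 1) * Polynomial.X)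

lemma ψh_X (e : ι → Λ) (o : Option ι) :
    ψh e (MvPolynomial.X o) =
      Polynomial.C (AddMonoidAlgebra.single (o.elim 0 e) 1) * Polynomial.X := by
  unfold ψh; simp

lemma coeff_ψh_X_mul (e : ι → Λ) (o : Option ι) (F : MvPolynomial (Option ι) ℤ) (N : ℕ) :
    (ψh e (MvPolynomial.X o * F)).coeff (N + 1) =
      AddMonoidAlgebra.single (o.elim 0 e) 1 * (ψh e F).coeff N := by
  rw [map_mul, ψh_X, mul_assoc, Polynomial.coeff_C_mul, Polynomial.coeff_X_mul]

lemma coeff_ψh_X_mul_zero (e : ι → Λ) (o : Option ι) (F : MvPolynomial (Option ι) ℤ) :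
    (ψh e (MvPolynomial.X o * F)).coeff 0 = 0 := by
  rw [map_mul, ψh_X, mul_assoc, Polynomial.coeff_C_mul, Polynomial.mul_coeff_zero,
    Polynomial.coeff_X_zero, zero_mul, mul_zero]

lemma single_mul_mem_Sp (e : ι → Λ) (o : Option ι) {N : ℕ} {v : AddMonoidAlgebra ℤ Λ}
    (hv : v ∈ Sp (Wn e N)) : AddMonoidAlgebra.single (o.elim 0 e) 1 * v ∈ Sp (Wn e (N + 1)) := by
  intro i hi
  rw [coeff_single_mul, one_mul]
  apply hv
  intro h
  apply hi
  rw [mem_Wn_succ]
  exact ⟨o, _, h, by abel⟩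

lemma coeff_ψh_mem_Sp (e : ι → Λ) (F : MvPolynomial (Option ι) ℤ) (N : ℕ) :
    (ψh e F).coeff N ∈ Sp (Wn e N) := by
  classical
  induction F using MvPolynomial.induction_on generalizing N with
  | C a =>
    have h1 : ψh e (MvPolynomial.C a) = Polynomial.C (a : AddMonoidAlgebra ℤ Λ) := by
      unfold ψh; simp
    rw [h1, Polynomial.coeff_C]
    split_ifs with h
    · subst h
      intro i hi
      rw [mem_Wn_zero] at hi
      have h2 : (a : AddMonoidAlgebra ℤ Λ) = AddMonoidAlgebra.single 0 a := by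
        rw [← mul_one (a : AddMonoidAlgebra ℤ Λ), ← zsmul_eq_mul, AddMonoidAlgebra.one_def,
          AddMonoidAlgebra.smul_single]
        simp
      rw [h2, AddMonoidAlgebra.coeff_single, Finsupp.single_apply, if_neg (Ne.symm hi)]
    · exact Submodule.zero_mem _
  | add p q hp hq =>
    rw [map_add, Polynomial.coeff_add]
    exact Submodule.add_mem _ (hp N) (hq N)
  | mul_X p o hp =>
    rw [mul_comm]
    rcases N with _ | N
    · rw [coeff_ψh_X_mul_zero]; exact Submodule.zero_mem _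
    · rw [coeff_ψh_X_mul]
      exact single_mul_mem_Sp e o (hp N)

lemma exists_ψh_single (e : ι → Λ) (N : ℕ) (w : Λ) (hw : w ∈ Wn e N) :
    ∃ F, ψh e F = Polynomial.C (AddMonoidAlgebra.single w 1) * Polynomial.X ^ N := by
  induction N generalizing w with
  | zero =>
    rw [mem_Wn_zero] at hw
    subst hw
    refine ⟨1, ?_⟩
    rw [map_one, pow_zero, mul_one, ← AddMonoidAlgebra.one_def, Polynomial.C_1]
  | succ N ih =>
    obtain ⟨o, v, hv, rfl⟩ := mem_Wn_succ.mp hw
    obtain ⟨F, hF⟩ := ih v hv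
    refine ⟨MvPolynomial.X o * F, ?_⟩
    rw [map_mul, ψh_X, hF]
    have : (AddMonoidAlgebra.single (o.elim 0 e + v) (1 : ℤ) : AddMonoidAlgebra ℤ Λ) =
        AddMonoidAlgebra.single (o.elim 0 e) 1 * AddMonoidAlgebra.single v 1 := by
      rw [AddMonoidAlgebra.single_mul_single, one_mul]
    rw [this, Polynomial.C_mul]
    ring

lemma exists_ψh (e : ι → Λ) (N : ℕ) (v : AddMonoidAlgebra ℤ Λ) (hv : v ∈ Sp (Wn e N)) :
    ∃ F, ψh e F = Polynomial.C v * Polynomial.X ^ N := by
  classical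
  have h1 : v = ∑ w ∈ v.coeff.support, v.coeff w • AddMonoidAlgebra.single w (1 : ℤ) := by
    conv_lhs => rw [← AddMonoidAlgebra.sum_coeff_single v]
    rw [Finsupp.sum]
    refine Finset.sum_congr rfl fun w _ => ?_
    rw [AddMonoidAlgebra.smul_single, smul_eq_mul, mul_one]
  have h2 : ∀ w, ∃ F, w ∈ v.coeff.support →
      ψh e F = Polynomial.C (AddMonoidAlgebra.single w 1) * Polynomial.X ^ N := by
    intro w
    by_cases hw : w ∈ v.coeff.support
    · obtain ⟨F, hF⟩ := exists_ψh_single e N w (by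
        by_contra h
        exact (Finsupp.mem_support_iff.mp hw) (hv w h))
      exact ⟨F, fun _ => hF⟩
    · exact ⟨0, fun h => absurd h hw⟩
  choose F hF using h2
  refine ⟨∑ w ∈ v.coeff.support, v.coeff w • F w, ?_⟩
  rw [map_sum]
  conv_rhs => rw [h1]
  rw [map_sum, Finset.sum_mul]
  refine Finset.sum_congr rfl fun w hw => ?_
  rw [map_zsmul, hF w hw, map_zsmul, smul_mul_assoc]

theorem short_windows (e : ι → Λ) (J : Ideal (AddMonoidAlgebra ℤ Λ)) :
    ∃ C : ℝ, 1 ≤ C ∧ ∀ N, Short J (Wn e N) C := by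
  classical
  let Jh : Ideal (MvPolynomial (Option ι) ℤ) := (J.map Polynomial.C).comap (ψh e)
  obtain ⟨T, hT⟩ : ∃ T : Finset (MvPolynomial (Option ι) ℤ), Ideal.span (T : Set _) = Jh :=
    (isNoetherianRing_iff_ideal_fg _).mp inferInstance Jh
  have hJh : ∀ F, F ∈ Jh ↔ ∀ N, (ψh e F).coeff N ∈ J := by
    intro F
    show ψh e F ∈ J.map Polynomial.C ↔ _
    rw [Ideal.mem_map_C_iff]
  let C : ℝ := 1 + ∑ t ∈ T, ∑ n ∈ Finset.range ((ψh e t).natDegree + 1),
    ‖toR ((ψh e t).coeff n)‖ ^ 2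
  have hsum0 : ∀ t : MvPolynomial (Option ι) ℤ,
      0 ≤ ∑ n ∈ Finset.range ((ψh e t).natDegree + 1), ‖toR ((ψh e t).coeff n)‖ ^ 2 :=
    fun t => Finset.sum_nonneg fun _ _ => sq_nonneg _
  have hC : ∀ t ∈ T, ∀ n, ‖toR ((ψh e t).coeff n)‖ ^ 2 ≤ C := by
    intro t ht n
    have h1 : ∑ n ∈ Finset.range ((ψh e t).natDegree + 1), ‖toR ((ψh e t).coeff n)‖ ^ 2 ≤
        ∑ t ∈ T, ∑ n ∈ Finset.range ((ψh e t).natDegree + 1), ‖toR ((ψh e t).coeff n)‖ ^ 2 :=
      Finset.single_le_sum (f := fun t => ∑ n ∈ Finset.range ((ψh e t).natDegree + 1),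
        ‖toR ((ψh e t).coeff n)‖ ^ 2) (fun t _ => hsum0 t) ht
    by_cases hn : n ≤ (ψh e t).natDegree
    · have h2 : ‖toR ((ψh e t).coeff n)‖ ^ 2 ≤
          ∑ n ∈ Finset.range ((ψh e t).natDegree + 1), ‖toR ((ψh e t).coeff n)‖ ^ 2 :=
        Finset.single_le_sum (f := fun n => ‖toR ((ψh e t).coeff n)‖ ^ 2)
          (fun n _ => sq_nonneg _) (Finset.mem_range.mpr (by omega))
      show _ ≤ 1 + _
      linarith
    · rw [Polynomial.coeff_eq_zero_of_natDegree_lt (by omega), map_zero]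
      have h3 := hsum0 t
      show _ ≤ 1 + _
      simp only [norm_zero]
      linarith
  refine ⟨C, ?_, ?_⟩
  · have : 0 ≤ ∑ t ∈ T, ∑ n ∈ Finset.range ((ψh e t).natDegree + 1),
      ‖toR ((ψh e t).coeff n)‖ ^ 2 := Finset.sum_nonneg fun t _ => hsum0 t
    show 1 ≤ 1 + _
    linarith
  -- the main induction
  let Sset : ℕ → Set (AddMonoidAlgebra ℤ Λ) :=
    fun N => {v | v ∈ Lt J (Wn e N) ∧ ‖toR v‖ ^ 2 ≤ C}
  let P : MvPolynomial (Option ι) ℤ → Prop :=
    fun F => ∀ N, (ψh e F).coeff N ∈ Submodule.span ℤ (Sset N)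
  have hPX : ∀ F o, P F → P (MvPolynomial.X o * F) := by
    intro F o hF N
    rcases N with _ | N
    · rw [coeff_ψh_X_mul_zero]; exact Submodule.zero_mem _
    · rw [coeff_ψh_X_mul]
      have h1 := hF N
      generalize (ψh e F).coeff N = x at h1
      induction h1 using Submodule.span_induction with
      | mem v hv =>
        obtain ⟨⟨hvJ, hvW⟩, hvC⟩ := hv
        apply Submodule.subset_span
        refine ⟨⟨J.mul_mem_left _ hvJ, single_mul_mem_Sp e o hvW⟩, ?_⟩
        rw [map_mul, toR_single, norm_single_mul]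
        simpa using hvC
      | zero => rw [mul_zero]; exact Submodule.zero_mem _
      | add p q _ _ hp hq => rw [mul_add]; exact Submodule.add_mem _ hp hq
      | smul c p _ hp => rw [mul_smul_comm]; exact Submodule.smul_mem _ _ hp
  have hPsmul : ∀ G F, P F → P (G * F) := by
    intro G
    induction G using MvPolynomial.induction_on with
    | C a =>
      intro F hF N
      have h1 : ψh e (MvPolynomial.C a * F) = Polynomial.C (a : AddMonoidAlgebra ℤ Λ) * ψh e F := by
        rw [map_mul]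
        congr 1
        unfold ψh; simp
      rw [h1, Polynomial.coeff_C_mul, ← zsmul_eq_mul]
      exact Submodule.smul_mem _ _ (hF N)
    | add p q hp hq =>
      intro F hF N
      rw [add_mul, map_add, Polynomial.coeff_add]
      exact Submodule.add_mem _ (hp F hF N) (hq F hF N)
    | mul_X p o hp =>
      intro F hF
      rw [mul_assoc]
      exact hp _ (hPX F o hF)
  have hPall : ∀ F ∈ Jh, P F := by
    intro F hF
    rw [← hT] at hF
    induction hF using Submodule.span_induction with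
    | mem t ht =>
      intro N
      apply Submodule.subset_span
      refine ⟨⟨?_, coeff_ψh_mem_Sp e t N⟩, hC t ht N⟩
      have : t ∈ Jh := by rw [← hT]; exact Ideal.subset_span ht
      exact (hJh t).mp this N
    | zero => intro N; rw [map_zero, Polynomial.coeff_zero]; exact Submodule.zero_mem _
    | add p q _ _ hp hq =>
      intro N
      rw [map_add, Polynomial.coeff_add]
      exact Submodule.add_mem _ (hp N) (hq N)
    | smul G F _ hF => exact hPsmul G F hF
  intro N v hv
  obtain ⟨F, hF⟩ := exists_ψh e N v hv.2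
  have h1 : F ∈ Jh := by
    rw [hJh]
    intro M
    rw [hF, Polynomial.coeff_C_mul, Polynomial.coeff_X_pow]
    split_ifs
    · rw [mul_one]; exact hv.1
    · rw [mul_zero]; exact J.zero_mem
  have h2 := hPall F h1 N
  rw [hF, Polynomial.coeff_C_mul, Polynomial.coeff_X_pow, if_pos rfl, mul_one] at h2
  exact h2

end H44.Tys
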