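import Pool.Agent.H44.Tys.Vol

/-!
# Roots of determinants of polynomial matrices
-/

set_option linter.all false

namespace H44.Tys

open Polynomial Real MeasureTheory Set

lemma hadamard {κ : Type*} [Fintype κ] [DecidableEq κ] (A : Matrix κ κ ℂ) :
    ‖A.det‖ ^ 2 ≤ ∏ k, ∑ c, ‖A k c‖ ^ 2 := by
  have h := G_matrix (𝕜 := ℂ) A (fun j => EuclideanSpace.single j (1 : ℂ))
  have h1 : G ℂ (fun j : κ => EuclideanSpace.single j (1 : ℂ)) = 1 := by
    unfold G
    have : Matrix.gram ℂ (fun j : κ => EuclideanSpace.single j (1 : ℂ)) = 1 := by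
      ext i j
      rw [Matrix.gram_apply, EuclideanSpace.inner_single_left]
      simp [Matrix.one_apply, Pi.single_apply]
    rw [this, Matrix.det_one, norm_one]
  rw [h1, mul_one] at h
  rw [← h]
  refine (G_le_prod _).trans (le_of_eq ?_)
  refine Finset.prod_congr rfl fun k _ => ?_
  have h2 : ∑ j, A k j • EuclideanSpace.single j (1 : ℂ) = WithLp.toLp 2 (A k) := by
    ext c
    simp [Pi.single_apply]
  rw [h2, EuclideanSpace.norm_sq_eq]

lemma sum_coeff_avg (p : ℂ[X]) : ∑ i ∈ p.support, ‖p.coeff i‖ ^ 2 =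
    (2 * π)⁻¹ * ∫ θ in (0 : ℝ)..(2 * π), ‖p.eval (circleMap 0 1 θ)‖ ^ 2 := by
  rw [Polynomial.sum_sq_norm_coeff_eq_circleAverage]
  rfl

/-- the Mahler measure of a determinant -/
theorem mahler_det {κ : Type*} [Fintype κ] [DecidableEq κ] (A : Matrix κ κ ℂ[X])
    (hD : A.det ≠ 0) :
    A.det.mahlerMeasure ^ 2 ≤ ∏ k, ∑ c, ∑ i ∈ (A k c).support, ‖(A k c).coeff i‖ ^ 2 := by
  set D := A.det with hDdef
  -- row norms
  let s : κ → ℝ := fun k => ∑ c, ∑ i ∈ (A k c).support, ‖(A k c).coeff i‖ ^ 2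
  let F : κ → ℝ → ℝ := fun k θ => ∑ c, ‖(A k c).eval (circleMap 0 1 θ)‖ ^ 2
  have hs : ∀ k, 0 < s k := by
    intro k
    have h0 : ∃ c, A k c ≠ 0 := by
      by_contra hcon
      push Not at hcon
      exact hD (Matrix.det_eq_zero_of_row_eq_zero k hcon)
    obtain ⟨c, hc⟩ := h0
    have h1 : 0 < ∑ i ∈ (A k c).support, ‖(A k c).coeff i‖ ^ 2 := by
      refine Finset.sum_pos (fun i hi => ?_) (Polynomial.nonempty_support_iff.mpr hc)
      have : (A k c).coeff i ≠ 0 := Polynomial.mem_support_iff.mp hi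
      positivity
    have h2 : ∀ c' ∈ Finset.univ, 0 ≤ ∑ i ∈ (A k c').support, ‖(A k c').coeff i‖ ^ 2 :=
      fun c' _ => Finset.sum_nonneg fun _ _ => sq_nonneg _
    exact lt_of_lt_of_le h1 (Finset.single_le_sum h2 (Finset.mem_univ c))
  have hFcont : ∀ k, Continuous (F k) := by
    intro k
    show Continuous fun θ => ∑ c, ‖(A k c).eval (circleMap 0 1 θ)‖ ^ 2
    fun_prop
  have hFint : ∀ k, (2 * π)⁻¹ * ∫ θ in (0 : ℝ)..(2 * π), F k θ = s k := by
    intro k
    show (2 * π)⁻¹ * ∫ θ in (0 : ℝ)..(2 * π), ∑ c, ‖(A k c).eval (circleMap 0 1 θ)‖ ^ 2 = _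
    rw [intervalIntegral.integral_finset_sum, Finset.mul_sum]
    · exact Finset.sum_congr rfl fun c _ => (sum_coeff_avg (A k c)).symm
    · intro c _
      apply Continuous.intervalIntegrable
      fun_prop
  -- pointwise inequality
  have hpt : ∀ θ : ℝ, D.eval (circleMap 0 1 θ) ≠ 0 →
      2 * log ‖D.eval (circleMap 0 1 θ)‖ ≤ ∑ k, (log (s k) + (F k θ / s k - 1)) := by
    intro θ hθ
    have h1 : D.eval (circleMap 0 1 θ) =
        (A.map (fun p => p.eval (circleMap 0 1 θ))).det := by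
      rw [hDdef]
      exact RingHom.map_det (Polynomial.evalRingHom (circleMap 0 1 θ)) A
    have h2 : ‖D.eval (circleMap 0 1 θ)‖ ^ 2 ≤ ∏ k, F k θ := by
      rw [h1]
      exact hadamard _
    have h3 : 0 < ‖D.eval (circleMap 0 1 θ)‖ := norm_pos_iff.mpr hθ
    have h4 : 0 < ∏ k, F k θ := lt_of_lt_of_le (by positivity) h2
    have hFnn : ∀ k, 0 ≤ F k θ := fun k => Finset.sum_nonneg fun _ _ => sq_nonneg _
    have hFpos : ∀ k, 0 < F k θ := by
      intro k
      refine lt_of_le_of_ne (hFnn k) fun h => ?_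
      rw [Finset.prod_eq_zero (Finset.mem_univ k) h.symm] at h4
      exact lt_irrefl _ h4
    have h5 : 2 * log ‖D.eval (circleMap 0 1 θ)‖ ≤ ∑ k, log (F k θ) := by
      have h6 := log_le_log (by positivity) h2
      rw [log_pow, log_prod (fun k _ => (hFpos k).ne')] at h6
      exact_mod_cast h6
    refine h5.trans (Finset.sum_le_sum fun k _ => ?_)
    have h6 := log_le_sub_one_of_pos (div_pos (hFpos k) (hs k))
    rw [log_div (hFpos k).ne' (hs k).ne'] at h6
    linarith
  have hae : ∀ᵐ (θ : ℝ) ∂volume.restrict (uIoc 0 (2 * π)), D.eval (circleMap 0 1 θ) ≠ 0 := by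
    rw [ae_restrict_iff' measurableSet_uIoc]
    refine Set.Finite.measure_zero ?_ _
    simp only [ne_eq, compl_ofPred, Classical.not_imp, Decidable.not_not]
    refine Finite.of_finite_image (f := circleMap 0 1) (D.roots.finite_toSet.subset ?_) ?_
    · rintro z ⟨θ, ⟨_, heval⟩, rfl⟩
      exact (mem_roots hD).mpr heval
    · grw [ofPred_and, inter_subset_left]
      exact injOn_circleMap_of_abs_sub_le one_ne_zero (by simp [abs_of_pos pi_pos])
  have hint1 : IntervalIntegrable (fun θ : ℝ => 2 * log ‖D.eval (circleMap 0 1 θ)‖) volume 0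
      (2 * π) := (D.intervalIntegrable_mahlerMeasure).const_mul 2
  have hint2 : IntervalIntegrable (fun θ : ℝ => ∑ k, (log (s k) + (F k θ / s k - 1))) volume 0
      (2 * π) := by
    apply Continuous.intervalIntegrable
    refine continuous_finset_sum _ fun k _ => ?_
    have := hFcont k
    fun_prop
  have h2pi : (0 : ℝ) ≤ 2 * π := by positivity
  have hmono : ∫ θ in (0 : ℝ)..(2 * π), 2 * log ‖D.eval (circleMap 0 1 θ)‖ ≤
      ∫ θ in (0 : ℝ)..(2 * π), ∑ k, (log (s k) + (F k θ / s k - 1)) := by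
    rw [intervalIntegral.integral_of_le h2pi, intervalIntegral.integral_of_le h2pi]
    rw [uIoc_of_le h2pi] at hae
    refine MeasureTheory.integral_mono_ae hint1.1 hint2.1 ?_
    filter_upwards [hae] with θ hθ
    exact hpt θ hθ
  rw [intervalIntegral.integral_const_mul] at hmono
  have hR : (2 * π)⁻¹ * ∫ θ in (0 : ℝ)..(2 * π), ∑ k, (log (s k) + (F k θ / s k - 1)) =
      ∑ k, log (s k) := by
    rw [intervalIntegral.integral_finset_sum, Finset.mul_sum]
    · refine Finset.sum_congr rfl fun k _ => ?_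
      have hc := hFcont k
      have hi1 : IntervalIntegrable (fun θ : ℝ => F k θ / s k) volume 0 (2 * π) := by
        apply Continuous.intervalIntegrable; fun_prop
      have hi2 : IntervalIntegrable (fun θ : ℝ => F k θ / s k - 1) volume 0 (2 * π) := by
        apply Continuous.intervalIntegrable; fun_prop
      rw [intervalIntegral.integral_add (intervalIntegrable_const) hi2,
        intervalIntegral.integral_sub hi1 (intervalIntegrable_const),
        intervalIntegral.integral_div]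
      simp only [intervalIntegral.integral_const, smul_eq_mul, sub_zero, mul_one]
      have h1 := hFint k
      have hs' := (hs k).ne'
      have hp : (2 * π) ≠ 0 := by positivity
      have h2 : ∫ θ in (0 : ℝ)..(2 * π), F k θ = 2 * π * s k := by
        rw [← h1]; field_simp
      rw [h2]
      field_simp
      ring
    · intro k _
      have hc := hFcont k
      apply Continuous.intervalIntegrable
      fun_prop
  have hlog : 2 * log D.mahlerMeasure ≤ ∑ k, log (s k) := by
    rw [← Polynomial.logMahlerMeasure_eq_log_MahlerMeasure, Polynomial.logMahlerMeasure_def]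
    show 2 * ((2 * π)⁻¹ * ∫ θ in (0 : ℝ)..(2 * π), log ‖D.eval (circleMap 0 1 θ)‖) ≤ _
    rw [← hR]
    have hp : 0 ≤ (2 * π)⁻¹ := by positivity
    have := mul_le_mul_of_nonneg_left hmono hp
    linarith
  have hM : 0 < D.mahlerMeasure := Polynomial.mahlerMeasure_pos_of_ne_zero hD
  have h6 : log (D.mahlerMeasure ^ 2) ≤ log (∏ k, s k) := by
    rw [log_pow, log_prod (fun k _ => (hs k).ne')]
    exact_mod_cast hlog
  exact (log_le_log_iff (by positivity) (Finset.prod_pos fun k _ => hs k)).mp h6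

/-- the bound for the roots -/
theorem root_det {κ : Type*} [Fintype κ] [DecidableEq κ] (A : Matrix κ κ ℂ[X])
    (hD : A.det ≠ 0) (hlead : 1 ≤ ‖A.det.leadingCoeff‖) (z : ℂ) (hz : A.det.eval z = 0) :
    ‖z‖ ^ 2 ≤ ∏ k, ∑ c, ∑ i ∈ (A k c).support, ‖(A k c).coeff i‖ ^ 2 := by
  refine le_trans ?_ (mahler_det A hD)
  obtain ⟨q, hq⟩ := Polynomial.dvd_iff_isRoot.mpr (show A.det.IsRoot z from hz)
  have h1 : A.det.mahlerMeasure = max 1 ‖z‖ * q.mahlerMeasure := by
    conv_lhs => rw [hq]
    rw [Polynomial.mahlerMeasure_mul, Polynomial.mahlerMeasure_X_sub_C]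
  have h2 : 1 ≤ q.mahlerMeasure := by
    refine le_trans ?_ (Polynomial.leadingCoeff_le_mahlerMeasure q)
    have : A.det.leadingCoeff = q.leadingCoeff := by
      conv_lhs => rw [hq]
      rw [Polynomial.leadingCoeff_mul, Polynomial.leadingCoeff_X_sub_C, one_mul]
    rwa [← this]
  have h3 : ‖z‖ ≤ A.det.mahlerMeasure := by
    rw [h1]
    have : ‖z‖ ≤ max 1 ‖z‖ := le_max_right _ _
    nlinarith [norm_nonneg z, le_max_left 1 ‖z‖]
  gcongr

end H44.Tys
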