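import Mathlib

/-!
# A finitely generated domain with finitely many complex points is algebraic
-/

set_option linter.all false

namespace H44.Tys

open Polynomial

/-- Zariski's lemma -/
theorem exists_alg_hom (C : Type*) [CommRing C] [Nontrivial C] [Algebra ℚ C]
    [Algebra.FiniteType ℚ C] : ∃ l : C →+* ℂ, ∀ c, IsAlgebraic ℤ (l c) := by
  obtain ⟨M, hM⟩ := Ideal.exists_maximal C
  letI : Field (C ⧸ M) := Ideal.Quotient.field M
  haveI : Algebra.FiniteType ℚ (C ⧸ M) :=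
    Algebra.FiniteType.of_surjective (Ideal.Quotient.mkₐ ℚ M) Ideal.Quotient.mk_surjective
  haveI : Module.Finite ℚ (C ⧸ M) := finite_of_finite_type_of_isJacobsonRing ℚ (C ⧸ M)
  haveI : Algebra.IsAlgebraic ℚ (C ⧸ M) := Algebra.IsAlgebraic.of_finite ℚ (C ⧸ M)
  let l : (C ⧸ M) →ₐ[ℚ] ℂ := IsAlgClosed.lift
  refine ⟨l.toRingHom.comp (Ideal.Quotient.mk M), fun c => ?_⟩
  have h1 : IsAlgebraic ℚ (l ((Ideal.Quotient.mk M) c)) := by
    have : IsAlgebraic ℚ ((Ideal.Quotient.mk M) c) := Algebra.IsAlgebraic.isAlgebraic _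
    exact this.algHom l
  exact (IsFractionRing.isAlgebraic_iff ℤ ℚ ℂ).mpr h1

/-- a finitely generated domain of characteristic zero with finitely many homomorphisms to `ℂ`
is algebraic over the integers -/
theorem algebraic_of_finite_homs (B : Type*) [CommRing B] [IsDomain B] [CharZero B]
    [Algebra.FiniteType ℤ B] (hfin : Finite (B →+* ℂ)) (b : B) : IsAlgebraic ℤ b := by
  classical
  by_contra htr
  have hinj : ∀ p : ℤ[X], aeval b p = 0 → p = 0 := by
    intro p hp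
    by_contra h
    exact htr ⟨p, h, hp⟩
  haveI := Fintype.ofFinite (B →+* ℂ)
  have hch : ∀ φ : B →+* ℂ, ∃ p : ℤ[X], p ≠ 0 ∧ (IsAlgebraic ℤ (φ b) → φ (aeval b p) = 0) := by
    intro φ
    by_cases h : IsAlgebraic ℤ (φ b)
    · obtain ⟨p, hp0, hp⟩ := h
      refine ⟨p, hp0, fun _ => ?_⟩
      rw [aeval_def, hom_eval₂]
      rw [aeval_def] at hp
      have h3 : φ.comp (algebraMap ℤ B) = algebraMap ℤ ℂ := RingHom.ext_int _ _
      rw [h3]; exact hp
    · exact ⟨1, one_ne_zero, fun h' => absurd h' h⟩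
  choose p hp0 hp using hch
  let g : B := ∏ φ : B →+* ℂ, aeval b (p φ)
  have hg : g ≠ 0 := Finset.prod_ne_zero_iff.mpr fun φ _ h => hp0 φ (hinj _ h)
  let K := FractionRing B
  haveI : CharZero K := by
    have : Function.Injective (algebraMap B K) := IsFractionRing.injective B K
    exact charZero_of_injective_algebraMap this
  obtain ⟨S, hS⟩ : ∃ S : Finset B, Algebra.adjoin ℤ (S : Set B) = ⊤ :=
    (Algebra.FiniteType.out : (⊤ : Subalgebra ℤ B).FG)
  let S' : Finset K := insert (algebraMap B K g)⁻¹ (S.image (algebraMap B K))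
  let C : Subalgebra ℚ K := Algebra.adjoin ℚ (S' : Set K)
  have hCfg : C.FG := Subalgebra.fg_adjoin_finset S'
  haveI : Algebra.FiniteType ℚ C := (Subalgebra.fg_iff_finiteType C).mp hCfg
  -- the map from `B`
  have hmem : ∀ x : B, algebraMap B K x ∈ C := by
    intro x
    have hx : x ∈ Algebra.adjoin ℤ (S : Set B) := by rw [hS]; trivial
    induction hx using Algebra.adjoin_induction with
    | mem y hy =>
      apply Algebra.subset_adjoin
      rw [Finset.mem_coe, Finset.mem_insert]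
      exact Or.inr (Finset.mem_image_of_mem _ hy)
    | algebraMap n =>
      have : algebraMap B K (algebraMap ℤ B n) = (n : K) := by simp
      rw [this]
      exact C.intCast_mem n
    | add y z _ _ hy hz => rw [map_add]; exact C.add_mem hy hz
    | mul y z _ _ hy hz => rw [map_mul]; exact C.mul_mem hy hz
  let j : B →+* C := (algebraMap B K).codRestrict C.toSubring (fun x => hmem x)
  have hgu : IsUnit (j g) := by
    have hinvmem : (algebraMap B K g)⁻¹ ∈ C := by
      apply Algebra.subset_adjoin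
      rw [Finset.mem_coe, Finset.mem_insert]
      exact Or.inl rfl
    refine IsUnit.of_mul_eq_one ⟨(algebraMap B K g)⁻¹, hinvmem⟩ ?_
    apply Subtype.ext
    show algebraMap B K g * (algebraMap B K g)⁻¹ = 1
    refine mul_inv_cancel₀ ?_
    rw [Ne, IsFractionRing.to_map_eq_zero_iff]
    exact hg
  obtain ⟨l, hl⟩ := exists_alg_hom C
  let ψ : B →+* ℂ := l.comp j
  have halg : IsAlgebraic ℤ (ψ b) := hl (j b)
  have h2 : ψ g = 0 := by
    show ψ (∏ φ : B →+* ℂ, aeval b (p φ)) = 0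
    rw [map_prod]
    exact Finset.prod_eq_zero (Finset.mem_univ ψ) (hp ψ halg)
  have h3 : IsUnit (ψ g) := by
    have : IsUnit (l (j g)) := hgu.map _
    exact this
  rw [h2] at h3
  exact not_isUnit_zero h3

/-- in an algebraic domain of characteristic zero every homomorphism to `ℂ` is injective -/
theorem injective_of_algebraic {B : Type*} [CommRing B] [IsDomain B]
    (halg : ∀ b : B, IsAlgebraic ℤ b) (φ : B →+* ℂ) (b : B) (hb : φ b = 0) : b = 0 := by
  by_contra h0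
  obtain ⟨q, hq0, hq⟩ := (halg b).exists_nonzero_coeff_and_aeval_eq_zero
    (mem_nonZeroDivisors_of_ne_zero h0)
  have h1 : φ (aeval b q) = 0 := by rw [hq, map_zero]
  rw [aeval_def, hom_eval₂, hb, eval₂_at_zero] at h1
  apply hq0
  have : (q.coeff 0 : ℂ) = 0 := by simpa using h1
  exact_mod_cast this

variable {Λ : Type*} [AddCommGroup Λ]

lemma finType_int [AddMonoid.FG Λ] :
    @Algebra.FiniteType ℤ (AddMonoidAlgebra ℤ Λ) _ _ (Ring.toIntAlgebra _) := by
  have h := AddMonoidAlgebra.finiteType_of_fg ℤ Λ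
  have h1 : (Ring.toIntAlgebra (AddMonoidAlgebra ℤ Λ)) = AddMonoidAlgebra.algebra := by
    apply Algebra.algebra_ext
    intro n
    exact RingHom.congr_fun (RingHom.ext_int _ _) n
  rw [h1]; exact h

/-- the version for prime ideals of an integral group ring -/
theorem prime_alg [AddMonoid.FG Λ] (𝔭 : Ideal (AddMonoidAlgebra ℤ Λ)) [h𝔭 : 𝔭.IsPrime]
    (hchar : ∀ n : ℤ, (n : AddMonoidAlgebra ℤ Λ) ∈ 𝔭 → n = 0)
    (hfin : {ψ : AddMonoidAlgebra ℤ Λ →+* ℂ | 𝔭 ≤ RingHom.ker ψ}.Finite) (a : AddMonoidAlgebra ℤ Λ) :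
    IsAlgebraic ℤ (Ideal.Quotient.mk 𝔭 a) := by
  haveI := finType_int (Λ := Λ)
  haveI h0 : @Algebra.FiniteType ℤ (AddMonoidAlgebra ℤ Λ ⧸ 𝔭) _ _ (Ring.toIntAlgebra _) := by
    have h1 : Function.Surjective (Ideal.Quotient.mk 𝔭).toIntAlgHom :=
      Ideal.Quotient.mk_surjective
    exact Algebra.FiniteType.of_surjective _ h1
  haveI : CharZero (AddMonoidAlgebra ℤ Λ ⧸ 𝔭) := by
    constructor
    intro m n hmn
    have h1 : (Ideal.Quotient.mk 𝔭) (((m : ℤ) - (n : ℤ) : ℤ) : AddMonoidAlgebra ℤ Λ) = 0 := by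
      simp only [Int.cast_sub, Int.cast_natCast, map_sub, map_natCast]
      rw [hmn, sub_self]
    rw [Ideal.Quotient.eq_zero_iff_mem] at h1
    have := hchar _ h1
    omega
  have hf : Finite ((AddMonoidAlgebra ℤ Λ ⧸ 𝔭) →+* ℂ) := by
    haveI := hfin.to_subtype
    let f : ((AddMonoidAlgebra ℤ Λ ⧸ 𝔭) →+* ℂ) →
        {ψ : AddMonoidAlgebra ℤ Λ →+* ℂ | 𝔭 ≤ RingHom.ker ψ} :=
      fun φ => ⟨φ.comp (Ideal.Quotient.mk 𝔭), by
        intro x hx
        rw [RingHom.mem_ker, RingHom.comp_apply, Ideal.Quotient.eq_zero_iff_mem.mpr hx, map_zero]⟩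
    refine Finite.of_injective f ?_
    intro φ φ' h
    have h1 : φ.comp (Ideal.Quotient.mk 𝔭) = φ'.comp (Ideal.Quotient.mk 𝔭) :=
      congrArg Subtype.val h
    exact Ideal.Quotient.ringHom_ext h1
  have h2 := @algebraic_of_finite_homs (AddMonoidAlgebra ℤ Λ ⧸ 𝔭) _ _ _ h0 hf
    (Ideal.Quotient.mk 𝔭 a)
  exact h2

/-- a prime ideal with finitely many complex points below the kernel of an evaluation is equal
to it -/
theorem prime_eq_ker [AddMonoid.FG Λ] (𝔭 : Ideal (AddMonoidAlgebra ℤ Λ)) [h𝔭 : 𝔭.IsPrime]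
    (ev : AddMonoidAlgebra ℤ Λ →+* ℂ) (hle : 𝔭 ≤ RingHom.ker ev)
    (hfin : {ψ : AddMonoidAlgebra ℤ Λ →+* ℂ | 𝔭 ≤ RingHom.ker ψ}.Finite) : 𝔭 = RingHom.ker ev := by
  have hchar : ∀ n : ℤ, (n : AddMonoidAlgebra ℤ Λ) ∈ 𝔭 → n = 0 := by
    intro n hn
    have := hle hn
    rw [RingHom.mem_ker, map_intCast] at this
    exact_mod_cast this
  have halg : ∀ b : AddMonoidAlgebra ℤ Λ ⧸ 𝔭, IsAlgebraic ℤ b := by
    intro b
    obtain ⟨a, rfl⟩ := Ideal.Quotient.mk_surjective b
    exact prime_alg 𝔭 hchar hfin a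
  refine le_antisymm hle ?_
  intro a ha
  have h1 := injective_of_algebraic halg (Ideal.Quotient.lift 𝔭 ev (fun a ha => RingHom.mem_ker.mp (hle ha)))
    (Ideal.Quotient.mk 𝔭 a) (by rw [Ideal.Quotient.lift_mk]; exact ha)
  exact Ideal.Quotient.eq_zero_iff_mem.mp h1

end H44.Tys
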