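import Pool.Agent.H44.Tys.Had

/-!
# A root bound for degenerate specialisations of polynomial matrices
-/

set_option linter.all false

namespace H44.Tys

open Polynomial Module

/-- squared norm of a vector of integer polynomials -/
noncomputable def nrm {cols : Type*} [Fintype cols] (u : cols → ℤ[X]) : ℝ :=
  ∑ κ, ∑ i ∈ (u κ).support, ((u κ).coeff i : ℝ) ^ 2

noncomputable abbrev castC : ℤ[X] →+* ℂ[X] := mapRingHom (Int.castRingHom ℂ)

noncomputable abbrev castF : ℤ[X] →+* FractionRing ℂ[X] :=
  (algebraMap ℂ[X] (FractionRing ℂ[X])).comp castC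

lemma castC_injective : Function.Injective castC :=
  Polynomial.map_injective _ (RingHom.injective_int _)

lemma castF_injective : Function.Injective castF :=
  (IsFractionRing.injective ℂ[X] (FractionRing ℂ[X])).comp castC_injective

theorem root_bound {cols ρ : Type*} [Fintype cols] [DecidableEq cols] [DecidableEq ρ]
    (r : ρ → cols → ℤ[X]) (S0 : Finset ρ)
    (hS0 : LinearIndepOn (FractionRing ℂ[X]) (fun a κ => castF (r a κ)) (S0 : Set ρ))
    (h3 : ∀ a ∈ S0, nrm (r a) ≤ 3) (h5 : ∀ a, nrm (r a) ≤ 5)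
    (y0 : ℂ) (ξ : cols → ℂ) (hr : ∀ a, ∑ κ, (castC (r a κ)).eval y0 * ξ κ = 0)
    (v : cols → ℂ[X]) (hv0 : ∑ κ, (v κ).eval y0 * ξ κ ≠ 0)
    (hvspan : (fun κ => algebraMap ℂ[X] (FractionRing ℂ[X]) (v κ)) ∈
      Submodule.span (FractionRing ℂ[X]) (Set.range (fun a κ => castF (r a κ)))) :
    S0.card ≤ Fintype.card cols ∧
      ‖y0‖ ^ 2 ≤ 3 ^ S0.card * 5 ^ (Fintype.card cols - S0.card) := by
  classical
  set F := FractionRing ℂ[X] with hF
  let all : ρ ⊕ cols → cols → ℤ[X] := Sum.elim r (fun c => Pi.single c 1)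
  let w : ρ ⊕ cols → cols → F := fun x κ => castF (all x κ)
  have hw : LinearIndepOn F w (Sum.inl '' (S0 : Set ρ)) := by
    apply LinearIndepOn.image_of_comp
    exact hS0
  obtain ⟨b1, hb1t, hb1s, hb1span, hb1li⟩ := exists_linearIndepOn_extension hw
    (Set.image_subset_range Sum.inl (S0 : Set ρ))
  obtain ⟨b2, -, hb12, hb2span, hb2li⟩ := exists_linearIndepOn_extension hb1li
    (Set.subset_univ b1)
  have hwinr : ∀ c : cols, w (Sum.inr c) = Pi.single c 1 := by
    intro c
    funext κ
    show castF ((Pi.single c (1 : ℤ[X]) : cols → ℤ[X]) κ) = (Pi.single c (1 : F) : cols → F) κ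
    by_cases h : κ = c
    · subst h
      rw [Pi.single_eq_same, Pi.single_eq_same, map_one]
    · rw [Pi.single_eq_of_ne h, Pi.single_eq_of_ne h, map_zero]
  have htop : ⊤ ≤ Submodule.span F (Set.range fun x : b2 => w x) := by
    rw [← (Pi.basisFun F cols).span_eq, Submodule.span_le]
    rintro _ ⟨c, rfl⟩
    have h1 : w (Sum.inr c) ∈ Submodule.span F (w '' b2) := hb2span ⟨Sum.inr c, trivial, rfl⟩
    rw [hwinr] at h1
    rw [Pi.basisFun_apply]
    have h2 : w '' b2 = Set.range fun x : b2 => w x := by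
      ext y; simp
    rw [← h2]; exact h1
  let bas2 : Basis b2 F (cols → F) := Basis.mk hb2li.linearIndependent htop
  haveI : Finite b2 := Module.Finite.finite_basis bas2
  haveI : Fintype b2 := Fintype.ofFinite b2
  have hcard : Fintype.card b2 = Fintype.card cols := by
    rw [← Module.finrank_eq_card_basis bas2, Module.finrank_fintype_fun_eq_card]
  let e : cols ≃ b2 := Fintype.equivOfCardEq hcard.symm
  let A : Matrix cols cols ℤ[X] := fun κ => all (e κ)
  let AC : Matrix cols cols ℂ[X] := A.map castC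
  let AF : Matrix cols cols F := AC.map (algebraMap ℂ[X] F)
  have hAF : ∀ κ, AF κ = w (e κ) := fun κ => rfl
  have hli : LinearIndependent F AF.row := by
    have := hb2li.linearIndependent.comp e e.injective
    exact this
  have hAFdet : AF.det ≠ 0 := by
    have h1 := Matrix.linearIndependent_rows_iff_isUnit.mp hli
    exact ((Matrix.isUnit_iff_isUnit_det AF).mp h1).ne_zero
  have hACF : AF.det = algebraMap ℂ[X] F AC.det := by
    rw [RingHom.map_det]; rfl
  have hACdet : AC.det ≠ 0 := by
    intro h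
    apply hAFdet
    rw [hACF, h, map_zero]
  have hACA : AC.det = castC A.det := by
    rw [RingHom.map_det]; rfl
  have hAdet : A.det ≠ 0 := by
    intro h
    apply hACdet
    rw [hACA, h, map_zero]
  -- the members of the first part
  have hb1mem : ∀ x ∈ b1, ∃ a, x = Sum.inl a := by
    intro x hx
    obtain ⟨a, ha⟩ := hb1t hx
    exact ⟨a, ha.symm⟩
  -- the root
  have hroot : AC.det.eval y0 = 0 := by
    -- coordinates of `v`
    have h1 : (fun κ => algebraMap ℂ[X] F (v κ)) ∈ Submodule.span F (w '' b1) := by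
      refine Submodule.span_le.mpr ?_ hvspan
      rintro _ ⟨a, rfl⟩
      exact hb1span ⟨Sum.inl a, ⟨a, rfl⟩, rfl⟩
    rw [Finsupp.mem_span_image_iff_linearCombination] at h1
    obtain ⟨l, hl, hlv⟩ := h1
    let c : cols → F := fun κ => l (e κ)
    have hc : Matrix.vecMul c AF = fun κ => algebraMap ℂ[X] F (v κ) := by
      rw [Matrix.vecMul_eq_sum, ← hlv, Finsupp.linearCombination_apply, Finsupp.sum]
      have h2 : ∑ κ, c κ • AF κ = ∑ x : b2, l x • w x :=
        Fintype.sum_equiv e _ _ fun κ => rfl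
      rw [h2]
      have h3 : ∑ x : b2, l x • w x = ∑ x ∈ b2.toFinset, l x • w x := by
        rw [← Finset.sum_coe_sort b2.toFinset]
        refine Fintype.sum_equiv (Equiv.subtypeEquivRight (by simp)) _ _ fun x => rfl
      rw [h3]
      symm
      refine Finset.sum_subset ?_ ?_
      · intro x hx
        rw [Set.mem_toFinset]
        exact hb12 (hl hx)
      · intro x _ hx
        rw [Finsupp.notMem_support_iff.mp hx, zero_smul]
    let n : cols → ℂ[X] := Matrix.vecMul v AC.adjugate
    have hn1 : ∀ κ, ((e κ : b2) : ρ ⊕ cols) ∉ b1 → n κ = 0 := by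
      intro κ hκ
      have h2 : (fun κ => algebraMap ℂ[X] F (n κ)) = AF.det • c := by
        have h3 : (fun κ => algebraMap ℂ[X] F (n κ)) =
            Matrix.vecMul (fun κ => algebraMap ℂ[X] F (v κ)) AF.adjugate := by
          funext κ
          show algebraMap ℂ[X] F (Matrix.vecMul v AC.adjugate κ) = _
          rw [RingHom.map_vecMul]
          have hadj : AC.adjugate.map (algebraMap ℂ[X] F) = AF.adjugate :=
            RingHom.map_adjugate (algebraMap ℂ[X] F) AC
          rw [hadj]
          rfl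
        rw [h3, ← hc, Matrix.vecMul_vecMul, Matrix.mul_adjugate, Matrix.vecMul_smul,
          Matrix.vecMul_one]
      have h4 := congrFun h2 κ
      have h5 : c κ = 0 := by
        show l (e κ) = 0
        by_contra h6
        exact hκ (hl (Finsupp.mem_support_iff.mpr h6))
      rw [Pi.smul_apply, h5, smul_zero] at h4
      exact (IsFractionRing.injective ℂ[X] F) (by rw [h4, map_zero])
    have hn2 : Matrix.vecMul n AC = AC.det • v := by
      show Matrix.vecMul (Matrix.vecMul v AC.adjugate) AC = _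
      rw [Matrix.vecMul_vecMul, Matrix.adjugate_mul, Matrix.vecMul_smul, Matrix.vecMul_one]
    have hn3 : ∑ κ, ((AC.det • v) κ).eval y0 * ξ κ = AC.det.eval y0 * ∑ κ, (v κ).eval y0 * ξ κ := by
      rw [Finset.mul_sum]
      refine Finset.sum_congr rfl fun κ _ => ?_
      rw [Pi.smul_apply, smul_eq_mul, eval_mul]; ring
    have hn4 : ∑ κ, ((Matrix.vecMul n AC) κ).eval y0 * ξ κ = 0 := by
      have h2 : ∀ κ, ((Matrix.vecMul n AC) κ).eval y0 * ξ κ =
          ∑ κ', (n κ').eval y0 * ((AC κ' κ).eval y0 * ξ κ) := by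
        intro κ
        rw [Matrix.vecMul, dotProduct, eval_finset_sum, Finset.sum_mul]
        refine Finset.sum_congr rfl fun κ' _ => ?_
        rw [eval_mul]; ring
      rw [Finset.sum_congr rfl fun κ _ => h2 κ, Finset.sum_comm]
      refine Finset.sum_eq_zero fun κ' _ => ?_
      rw [← Finset.mul_sum]
      by_cases hκ : ((e κ' : b2) : ρ ⊕ cols) ∈ b1
      · obtain ⟨a, ha⟩ := hb1mem _ hκ
        have h3 : ∀ κ, AC κ' κ = castC (r a κ) := by
          intro κ
          show castC (all (e κ') κ) = _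
          rw [ha]; rfl
        simp only [h3]
        rw [hr a, mul_zero]
      · rw [hn1 κ' hκ, eval_zero, zero_mul]
    rw [hn2, hn3] at hn4
    exact (mul_eq_zero.mp hn4).resolve_right hv0
  -- the leading coefficient
  have hlead : 1 ≤ ‖AC.det.leadingCoeff‖ := by
    rw [hACA]
    have h1 : (castC A.det).leadingCoeff = ((A.det.leadingCoeff : ℤ) : ℂ) := by
      show (A.det.map (Int.castRingHom ℂ)).leadingCoeff = _
      rw [Polynomial.leadingCoeff_map_of_injective (RingHom.injective_int _)]
      rfl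
    rw [h1, Complex.norm_intCast]
    exact_mod_cast Int.one_le_abs (leadingCoeff_ne_zero.mpr hAdet)
  have hmain := root_det AC hACdet hlead y0 hroot
  -- the norms
  have hnrm : ∀ κ, ∑ c, ∑ i ∈ (AC κ c).support, ‖(AC κ c).coeff i‖ ^ 2 = nrm (all (e κ)) := by
    intro κ
    unfold nrm
    refine Finset.sum_congr rfl fun c _ => ?_
    have h1 : AC κ c = (all (e κ) c).map (Int.castRingHom ℂ) := rfl
    rw [h1, Polynomial.support_map_of_injective _ (RingHom.injective_int _)]
    refine Finset.sum_congr rfl fun i _ => ?_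
    rw [coeff_map, eq_intCast, Complex.norm_intCast, sq_abs]
  have hinr : ∀ c : cols, nrm (all (Sum.inr c)) ≤ 5 := by
    intro c
    unfold nrm
    have h1 : ∀ κ : cols, ∑ i ∈ (all (Sum.inr c) κ).support, ((all (Sum.inr c) κ).coeff i : ℝ) ^ 2 =
        if κ = c then 1 else 0 := by
      intro κ
      show ∑ i ∈ ((Pi.single c (1 : ℤ[X]) : cols → ℤ[X]) κ).support,
        (((Pi.single c (1 : ℤ[X]) : cols → ℤ[X]) κ).coeff i : ℝ) ^ 2 = _
      by_cases h : κ = c
      · subst h
        rw [Pi.single_eq_same, if_pos rfl]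
        rw [show (1 : ℤ[X]) = C 1 from rfl, Polynomial.support_C one_ne_zero]
        simp
      · rw [Pi.single_eq_of_ne h, if_neg h]
        simp
    rw [Finset.sum_congr rfl fun κ _ => h1 κ]
    simp
  have hnn : ∀ u : cols → ℤ[X], 0 ≤ nrm u := fun u =>
    Finset.sum_nonneg fun _ _ => Finset.sum_nonneg fun _ _ => sq_nonneg _
  have hsub : (S0.image Sum.inl : Finset (ρ ⊕ cols)) ⊆ b2.toFinset := by
    intro x hx
    obtain ⟨a, ha, rfl⟩ := Finset.mem_image.mp hx
    rw [Set.mem_toFinset]
    exact hb12 (hb1s ⟨a, ha, rfl⟩)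
  have hcard2 : b2.toFinset.card = Fintype.card cols := by
    rw [Set.toFinset_card]; exact hcard
  have hcard0 : (S0.image Sum.inl : Finset (ρ ⊕ cols)).card = S0.card :=
    Finset.card_image_of_injective _ Sum.inl_injective
  have hle : S0.card ≤ Fintype.card cols := by
    rw [← hcard2, ← hcard0]
    exact Finset.card_le_card hsub
  refine ⟨hle, hmain.trans ?_⟩
  rw [Finset.prod_congr rfl fun κ _ => hnrm κ]
  have h7 : ∏ κ, nrm (all (e κ)) = ∏ x ∈ b2.toFinset, nrm (all x) := by
    have h8 : ∏ κ, nrm (all (e κ)) = ∏ x : b2, nrm (all x) :=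
      Fintype.prod_equiv e _ _ fun κ => rfl
    rw [h8, ← Finset.prod_coe_sort b2.toFinset]
    exact Fintype.prod_equiv (Equiv.subtypeEquivRight (by simp)) _ _ fun x => rfl
  rw [h7]
  have h9 : ∏ x ∈ b2.toFinset, nrm (all x) ≤
      ∏ x ∈ b2.toFinset, (if x ∈ (S0.image Sum.inl : Finset (ρ ⊕ cols)) then (3 : ℝ) else 5) := by
    refine Finset.prod_le_prod (fun x _ => hnn _) fun x _ => ?_
    split_ifs with h
    · obtain ⟨a, ha, rfl⟩ := Finset.mem_image.mp h
      exact h3 a ha
    · rcases x with a | c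
      · exact h5 a
      · exact hinr c
  refine h9.trans (le_of_eq ?_)
  rw [Finset.prod_ite, Finset.prod_const, Finset.prod_const]
  have h10 : (b2.toFinset.filter (· ∈ (S0.image Sum.inl : Finset (ρ ⊕ cols)))).card = S0.card := by
    rw [← hcard0]
    congr 1
    ext x
    rw [Finset.mem_filter]
    exact ⟨fun h => h.2, fun h => ⟨hsub h, h⟩⟩
  have h11 : (b2.toFinset.filter (· ∉ (S0.image Sum.inl : Finset (ρ ⊕ cols)))).card =
      Fintype.card cols - S0.card := by
    have := Finset.card_filter_add_card_filter_not (s := b2.toFinset)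
      (· ∈ (S0.image Sum.inl : Finset (ρ ⊕ cols)))
    rw [h10, hcard2] at this
    omega
  rw [h10, h11]

end H44.Tys
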