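import Pool.Agent.H44.Tys.Space

/-!
# Integer vectors and lattices in the group ring
-/

set_option linter.all false

namespace H44.Tys

open Module

variable {Λ : Type*} [AddCommGroup Λ]

noncomputable def toR : AddMonoidAlgebra ℤ Λ →+* AddMonoidAlgebra ℝ Λ :=
  AddMonoidAlgebra.mapRingHom Λ (Int.castRingHom ℝ)

@[simp] lemma toR_coeff (a : AddMonoidAlgebra ℤ Λ) (i : Λ) :
    (toR a).coeff i = (a.coeff i : ℝ) := by
  simp [toR]

lemma toR_injective : Function.Injective (toR : AddMonoidAlgebra ℤ Λ → AddMonoidAlgebra ℝ Λ) := by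
  intro a b h
  ext i
  have : (toR a).coeff i = (toR b).coeff i := by rw [h]
  simpa using this

lemma toR_zsmul (c : ℤ) (a : AddMonoidAlgebra ℤ Λ) : toR (c • a) = (c : ℝ) • toR a := by
  ext i
  rw [toR_coeff, AddMonoidAlgebra.coeff_smul_apply, AddMonoidAlgebra.coeff_smul_apply, toR_coeff]
  simp

def ipZ (a b : AddMonoidAlgebra ℤ Λ) : ℤ := a.coeff.sum fun i r => r * b.coeff i

lemma supp_toR (a : AddMonoidAlgebra ℤ Λ) : (toR a).coeff.support = a.coeff.support := by
  ext i; simp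

lemma inner_toR (a b : AddMonoidAlgebra ℤ Λ) :
    (inner ℝ (toR a) (toR b) : ℝ) = (ipZ a b : ℝ) := by
  rw [inner_eq_sum _ _ a.coeff.support (by rw [supp_toR]), ipZ, Finsupp.sum]
  push_cast
  simp

section fam

variable {ι κ : Type*} [Fintype ι] [DecidableEq ι] [Fintype κ] [DecidableEq κ]

/-- Gram determinant of an integer family -/
noncomputable def GZ (v : ι → AddMonoidAlgebra ℤ Λ) : ℝ := G ℝ (fun i => toR (v i))

lemma GZ_eq (v : ι → AddMonoidAlgebra ℤ Λ) :
    GZ v = |((Matrix.of fun i j => ipZ (v i) (v j)).det : ℝ)| := by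
  unfold GZ G
  rw [Real.norm_eq_abs]
  congr 1
  have : Matrix.gram ℝ (fun i => toR (v i)) =
      (Matrix.of fun i j => ipZ (v i) (v j)).map (Int.castRingHom ℝ) := by
    ext i j
    simp [Matrix.gram_apply, inner_toR]
  rw [this, ← RingHom.mapMatrix_apply, ← RingHom.map_det]
  simp

lemma det_ne_zero_of_linInd (v : ι → AddMonoidAlgebra ℤ Λ) (h : LinearIndependent ℤ v) :
    (Matrix.of fun i j => ipZ (v i) (v j)).det ≠ 0 := by
  intro h0
  obtain ⟨c, hc0, hc⟩ := Matrix.exists_mulVec_eq_zero_iff.mpr h0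
  have h1 : ∀ i, ∑ j, ipZ (v i) (v j) * c j = 0 := by
    intro i
    have := congrFun hc i
    simpa [Matrix.mulVec, dotProduct] using this
  have h2 : ‖∑ j, (c j : ℝ) • toR (v j)‖ ^ 2 = 0 := by
    rw [← real_inner_self_eq_norm_sq, sum_inner]
    refine Finset.sum_eq_zero fun i _ => ?_
    rw [inner_smul_left, inner_sum]
    have h3 : ∑ j, (inner ℝ (toR (v i)) ((c j : ℝ) • toR (v j)) : ℝ) = 0 := by
      have h4 : ∀ j, (inner ℝ (toR (v i)) ((c j : ℝ) • toR (v j)) : ℝ) =
          ((ipZ (v i) (v j) * c j : ℤ) : ℝ) := by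
        intro j
        rw [inner_smul_right, inner_toR]; push_cast; ring
      rw [Finset.sum_congr rfl fun j _ => h4 j, ← Int.cast_sum, h1 i, Int.cast_zero]
    rw [h3, mul_zero]
  have h3 : ∑ j, (c j : ℝ) • toR (v j) = 0 := by
    rwa [sq_eq_zero_iff, norm_eq_zero] at h2
  have h4 : toR (∑ j, c j • v j) = 0 := by
    rw [map_sum, ← h3]
    exact Finset.sum_congr rfl fun j _ => toR_zsmul _ _
  have h5 : ∑ j, c j • v j = 0 := toR_injective (by rw [h4, map_zero])
  rw [Fintype.linearIndependent_iff] at h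
  exact hc0 (funext fun j => h c h5 j)

lemma one_le_GZ (v : ι → AddMonoidAlgebra ℤ Λ) (h : LinearIndependent ℤ v) : 1 ≤ GZ v := by
  rw [GZ_eq]
  have h1 := det_ne_zero_of_linInd v h
  have : (1 : ℤ) ≤ |(Matrix.of fun i j => ipZ (v i) (v j)).det| := Int.one_le_abs h1
  exact_mod_cast this

lemma linInd_real (v : ι → AddMonoidAlgebra ℤ Λ) (h : LinearIndependent ℤ v) :
    LinearIndependent ℝ (fun i => toR (v i)) := by
  rw [← G_pos_iff]
  exact lt_of_lt_of_le one_pos (one_le_GZ v h)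

lemma linInd_int (v : ι → AddMonoidAlgebra ℤ Λ) (h : LinearIndependent ℝ (fun i => toR (v i))) :
    LinearIndependent ℤ v := by
  rw [Fintype.linearIndependent_iff] at h ⊢
  intro c hc i
  have h1 : ∑ j, (c j : ℝ) • toR (v j) = 0 := by
    have : toR (∑ j, c j • v j) = 0 := by rw [hc, map_zero]
    rw [← this, map_sum]
    exact Finset.sum_congr rfl fun j _ => (toR_zsmul _ _).symm
  have := h (fun j => (c j : ℝ)) h1 i
  exact_mod_cast this

lemma GZ_reindex (e : κ ≃ ι) (v : ι → AddMonoidAlgebra ℤ Λ) : GZ (v ∘ e) = GZ v :=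
  G_reindex (𝕜 := ℝ) e (fun i => toR (v i))

/-- a basis of a lattice has the least Gram determinant -/
lemma GZ_basis_le {L : Submodule ℤ (AddMonoidAlgebra ℤ Λ)} (b : Basis κ ℤ L) (v : ι → L)
    (hcard : Fintype.card ι = Fintype.card κ) (hv : LinearIndependent ℤ v) :
    GZ (fun k => (b k : AddMonoidAlgebra ℤ Λ)) ≤ GZ (fun i => (v i : AddMonoidAlgebra ℤ Λ)) := by
  let e : κ ≃ ι := (Fintype.equivOfCardEq hcard).symm
  have h0 : GZ (fun i => (v i : AddMonoidAlgebra ℤ Λ)) =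
      GZ (fun k => (v (e k) : AddMonoidAlgebra ℤ Λ)) := (GZ_reindex e _).symm
  rw [h0]
  let A : Matrix κ κ ℤ := Matrix.of fun k l => b.repr (v (e k)) l
  have hA : ∀ k, toR (v (e k) : AddMonoidAlgebra ℤ Λ) =
      ∑ l, ((A.map (Int.castRingHom ℝ)) k l) • toR (b l : AddMonoidAlgebra ℤ Λ) := by
    intro k
    have h1 := b.sum_repr (v (e k))
    have h2 : (v (e k) : AddMonoidAlgebra ℤ Λ) =
        ∑ l, (b.repr (v (e k)) l) • (b l : AddMonoidAlgebra ℤ Λ) := by
      conv_lhs => rw [← h1]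
      push_cast
      rfl
    rw [h2, map_sum]
    refine Finset.sum_congr rfl fun l _ => ?_
    rw [toR_zsmul]
    simp [A]
  have h1 : GZ (fun k => (v (e k) : AddMonoidAlgebra ℤ Λ)) =
      ‖(A.map (Int.castRingHom ℝ)).det‖ ^ 2 * GZ (fun k => (b k : AddMonoidAlgebra ℤ Λ)) := by
    unfold GZ
    rw [← G_matrix]
    congr 1
    funext k
    exact hA k
  have hv' : LinearIndependent ℤ (fun k => (v (e k) : AddMonoidAlgebra ℤ Λ)) := by
    have := (hv.comp e e.injective).map' L.subtype (Submodule.ker_subtype L)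
    exact this
  have hpos : GZ (fun k => (v (e k) : AddMonoidAlgebra ℤ Λ)) ≠ 0 := by
    have := one_le_GZ _ hv'
    positivity
  have hdet : (A.map (Int.castRingHom ℝ)).det = (A.det : ℝ) := by
    rw [← RingHom.mapMatrix_apply, ← RingHom.map_det]; simp
  have hdet0 : A.det ≠ 0 := by
    intro h
    rw [h1, hdet, h] at hpos
    simp at hpos
  have h3 : (1 : ℝ) ≤ ‖(A.map (Int.castRingHom ℝ)).det‖ ^ 2 := by
    rw [hdet, Real.norm_eq_abs]
    have : (1 : ℤ) ≤ |A.det| := Int.one_le_abs hdet0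
    have h4 : (1 : ℝ) ≤ |(A.det : ℝ)| := by exact_mod_cast this
    nlinarith
  rw [h1]
  have := G_nonneg (𝕜 := ℝ) (fun k => toR (b k : AddMonoidAlgebra ℤ Λ))
  have h5 : 0 ≤ GZ (fun k => (b k : AddMonoidAlgebra ℤ Λ)) := this
  nlinarith

end fam

/-- squared covolume of a lattice of finite rank -/
noncomputable def cov (L : Submodule ℤ (AddMonoidAlgebra ℤ Λ)) [Module.Finite ℤ L] : ℝ :=
  GZ (fun i : Fin (finrank ℤ L) => (Module.finBasis ℤ L i : AddMonoidAlgebra ℤ Λ))

lemma cov_eq {κ : Type*} [Fintype κ] [DecidableEq κ] (L : Submodule ℤ (AddMonoidAlgebra ℤ Λ))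
    [Module.Finite ℤ L] (b : Basis κ ℤ L) :
    GZ (fun k => (b k : AddMonoidAlgebra ℤ Λ)) = cov L := by
  have hc : Fintype.card (Fin (finrank ℤ L)) = Fintype.card κ := by
    rw [Fintype.card_fin, finrank_eq_card_basis b]
  apply le_antisymm
  · exact GZ_basis_le b _ hc (Module.finBasis ℤ L).linearIndependent
  · exact GZ_basis_le (Module.finBasis ℤ L) _ hc.symm b.linearIndependent

lemma cov_le {ι : Type*} [Fintype ι] [DecidableEq ι] (L : Submodule ℤ (AddMonoidAlgebra ℤ Λ))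
    [Module.Finite ℤ L] (v : ι → AddMonoidAlgebra ℤ Λ) (hvL : ∀ i, v i ∈ L)
    (hcard : Fintype.card ι = finrank ℤ L) (hv : LinearIndependent ℤ v) :
    cov L ≤ GZ v := by
  have h : LinearIndependent ℤ (fun i => (⟨v i, hvL i⟩ : L)) := by
    apply LinearIndependent.of_comp L.subtype
    exact hv
  have := GZ_basis_le (Module.finBasis ℤ L) (fun i => (⟨v i, hvL i⟩ : L))
    (by rw [hcard, Fintype.card_fin]) h
  exact this

lemma one_le_cov (L : Submodule ℤ (AddMonoidAlgebra ℤ Λ)) [Module.Finite ℤ L] : 1 ≤ cov L := by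
  apply one_le_GZ
  exact (Module.finBasis ℤ L).linearIndependent.map' L.subtype (Submodule.ker_subtype L)

end H44.Tys
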