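import Mathlib

/-!
# Nonzerodivisors of group rings
-/

set_option linter.all false

namespace H44.Tys

variable {Λ : Type*} [AddCommGroup Λ]

lemma coeff_mul_eq {k : Type*} [CommRing k] (a b : AddMonoidAlgebra k Λ) (i : Λ) :
    (a * b).coeff i = ∑ μ ∈ a.coeff.support, a.coeff μ * b.coeff (i - μ) := by
  classical
  conv_lhs => rw [← AddMonoidAlgebra.sum_coeff_single a]
  rw [Finsupp.sum, Finset.sum_mul, AddMonoidAlgebra.coeff_sum, Finsupp.finset_sum_apply]
  refine Finset.sum_congr rfl fun μ _ => ?_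
  apply AddMonoidAlgebra.coeff_single_mul_eq_mul_coeff
  intro m' _
  constructor
  · rintro rfl; abel
  · rintro rfl; abel

/-- an element with a unique leading monomial is not a zero divisor -/
theorem nzd {k : Type*} [CommRing k] [IsDomain k] (f : AddMonoidAlgebra k Λ) (h : Λ →+ ℤ) (μ0 : Λ)
    (hμ0 : μ0 ∈ f.coeff.support) (hlt : ∀ μ ∈ f.coeff.support, μ ≠ μ0 → h μ < h μ0)
    (a : AddMonoidAlgebra k Λ) (hfa : f * a = 0) : a = 0 := by
  classical
  by_contra ha
  have hne : a.coeff.support.Nonempty := by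
    rw [Finset.nonempty_iff_ne_empty]
    intro h0
    apply ha
    ext i
    have : i ∉ a.coeff.support := by rw [h0]; simp
    simpa using this
  obtain ⟨ν, hν, hmax⟩ := Finset.exists_max_image a.coeff.support h hne
  have h1 : (f * a).coeff (μ0 + ν) = f.coeff μ0 * a.coeff ν := by
    rw [coeff_mul_eq, Finset.sum_eq_single μ0]
    · rw [add_sub_cancel_left]
    · intro μ hμ hne'
      have h2 := hlt μ hμ hne'
      have h3 : μ0 + ν - μ ∉ a.coeff.support := by
        intro h4
        have h5 := hmax _ h4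
        rw [map_sub, map_add] at h5
        omega
      rw [Finsupp.notMem_support_iff.mp h3, mul_zero]
    · intro h2; exact absurd hμ0 h2
  rw [hfa, AddMonoidAlgebra.coeff_zero, Finsupp.coe_zero, Pi.zero_apply] at h1
  rcases mul_eq_zero.mp h1.symm with h2 | h2
  · exact (Finsupp.mem_support_iff.mp hμ0) h2
  · exact (Finsupp.mem_support_iff.mp hν) h2

/-- a homomorphism which is not constant on at most three monomials, or its negative, has a
unique maximum -/
theorem exists_unique_max (s : Finset Λ) (hs : s.card ≤ 3) (h : Λ →+ ℤ)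
    (hne : ∃ μ ∈ s, ∃ ν ∈ s, h μ ≠ h ν) :
    ∃ (h' : Λ →+ ℤ) (μ0 : Λ), μ0 ∈ s ∧ ∀ μ ∈ s, μ ≠ μ0 → h' μ < h' μ0 := by
  classical
  obtain ⟨μ, hμ, ν, hν, hμν⟩ := hne
  obtain ⟨p, hp, hpmax⟩ := Finset.exists_max_image s h ⟨μ, hμ⟩
  obtain ⟨q, hq, hqmin⟩ := Finset.exists_min_image s h ⟨μ, hμ⟩
  have hpq : h q < h p := by
    have h1 := hpmax μ hμ
    have h2 := hpmax ν hν
    have h3 := hqmin μ hμ
    have h4 := hqmin ν hν
    rcases lt_or_gt_of_ne hμν with h5 | h5 <;> omega
  by_cases h1 : ∀ μ ∈ s, μ ≠ p → h μ < h p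
  · exact ⟨h, p, hp, h1⟩
  by_cases h2 : ∀ μ ∈ s, μ ≠ q → h q < h μ
  · refine ⟨-h, q, hq, fun μ hμ hμq => ?_⟩
    have := h2 μ hμ hμq
    simp only [AddMonoidHom.neg_apply]
    omega
  exfalso
  push Not at h1 h2
  obtain ⟨p', hp', hpp', hple⟩ := h1
  obtain ⟨q', hq', hqq', hqle⟩ := h2
  have e1 : h p' = h p := le_antisymm (hpmax p' hp') hple
  have e2 : h q' = h q := le_antisymm hqle (hqmin q' hq')
  have hsub : ({p, p', q, q'} : Finset Λ) ⊆ s := by
    intro x hx
    simp only [Finset.mem_insert, Finset.mem_singleton] at hx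
    rcases hx with rfl | rfl | rfl | rfl <;> assumption
  have hc : ({p, p', q, q'} : Finset Λ).card = 4 := by
    rw [Finset.card_insert_of_notMem, Finset.card_insert_of_notMem,
      Finset.card_insert_of_notMem, Finset.card_singleton]
    · rw [Finset.mem_singleton]; exact fun h => hqq' h.symm
    · simp only [Finset.mem_insert, Finset.mem_singleton, not_or]
      constructor
      · rintro rfl; omega
      · rintro rfl; omega
    · simp only [Finset.mem_insert, Finset.mem_singleton, not_or]
      refine ⟨fun h => hpp' h.symm, ?_, ?_⟩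
      · rintro rfl; omega
      · rintro rfl; omega
  have := Finset.card_le_card hsub
  omega

end H44.Tys
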