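import Pool.Agent.H44.Tys.AllD

/-!
# Application of the thin theorem
-/

set_option linter.all false

namespace H44.Tys

open Module

variable {Λ : Type*} [AddCommGroup Λ] {ι : Type*} [Fintype ι]

/-- a relation which is not homogeneous for all gradings -/
def Rel (f : AddMonoidAlgebra ℤ Λ) : Prop :=
  ∃ h : Λ →+ ℤ, ∃ μ ∈ f.coeff.support, ∃ ν ∈ f.coeff.support, h μ ≠ h ν

lemma card_quot [Module.Finite ℤ Λ] {e : ι → Λ}
    (hgen : Submodule.span ℤ (Set.range e) = ⊤) {t : ℕ} {c : ℝ} (hQ : Qp e t c)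
    (R : Finset Λ) (hR : ∀ r ∈ R, ∃ a ∈ Wn e 1, ∃ b ∈ Wn e 1, a = b + r) (hfull : Full R)
    (F : Finset (Λ ⧸ Submodule.span ℤ (R : Set Λ))) : (F.card : ℝ) ≤ c := by
  classical
  obtain ⟨t', hQ'⟩ := Qp_more hQ R hR
  have hgen' : Submodule.span ℤ (Set.range fun i : ι =>
      Submodule.Quotient.mk (p := Submodule.span ℤ (R : Set Λ)) (e i)) = ⊤ := by
    have h1 : (Set.range fun i : ι =>
        Submodule.Quotient.mk (p := Submodule.span ℤ (R : Set Λ)) (e i)) =
        (Submodule.mkQ (Submodule.span ℤ (R : Set Λ))) '' (Set.range e) := by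
      ext y; simp
    rw [h1, ← Submodule.map_span, hgen, Submodule.map_top, Submodule.range_mkQ]
  have htors : ∀ y : Λ ⧸ Submodule.span ℤ (R : Set Λ), ∃ n : ℤ, n ≠ 0 ∧ n • y = 0 := by
    intro y
    obtain ⟨z, rfl⟩ := Submodule.Quotient.mk_surjective _ y
    obtain ⟨n, hn, hz⟩ := hfull z
    refine ⟨n, hn, ?_⟩
    rw [← Submodule.Quotient.mk_smul, Submodule.Quotient.mk_eq_zero]
    exact hz
  exact card_le_of_Qp hgen' hQ' htors F

/-- adapted coordinates -/
lemma adapt {G : Type*} [AddCommGroup G] [Fintype G] (φ : Λ ≃+ (Fin 2 → ℤ) × G) (x : Λ)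
    (hx : (φ x).1 ≠ 0) : ∃ (φ' : Λ ≃+ ℤ × ℤ × G) (k0 : ℕ) (g0 : G), 0 < k0 ∧
      φ' x = ((k0 : ℤ), 0, g0) := by
  set v := (φ x).1 with hv
  have hg : 0 < Int.gcd (v 0) (v 1) := by
    rw [Int.gcd_pos_iff]
    by_contra hcon
    push Not at hcon
    apply hx
    funext l
    fin_cases l
    · exact hcon.1
    · exact hcon.2
  obtain ⟨a, ha⟩ := Int.gcd_dvd_left (v 0) (v 1)
  obtain ⟨b, hb⟩ := Int.gcd_dvd_right (v 0) (v 1)
  set g := Int.gcd (v 0) (v 1) with hgdef
  have hbez := Int.gcd_eq_gcd_ab (v 0) (v 1)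
  set u := Int.gcdA (v 0) (v 1)
  set w := Int.gcdB (v 0) (v 1)
  have h1 : a * u + b * w = 1 := by
    have h2 : (g : ℤ) * (a * u + b * w) = g * 1 := by
      calc (g : ℤ) * (a * u + b * w) = (g * a) * u + (g * b) * w := by ring
        _ = v 0 * u + v 1 * w := by rw [← ha, ← hb]
        _ = g * 1 := by rw [← hbez, mul_one]
    have h3 : (g : ℤ) ≠ 0 := by exact_mod_cast hg.ne'
    exact mul_left_cancel₀ h3 h2
  let E : (Fin 2 → ℤ) × G ≃+ ℤ × ℤ × G :=
    { toFun := fun y => (u * y.1 0 + w * y.1 1, -b * y.1 0 + a * y.1 1, y.2)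
      invFun := fun z => (![a * z.1 - w * z.2.1, b * z.1 + u * z.2.1], z.2.2)
      left_inv := by
        rintro ⟨y, g'⟩
        refine Prod.ext ?_ rfl
        funext l
        fin_cases l
        · simp only [Fin.zero_eta, Matrix.cons_val_zero]
          linear_combination y 0 * h1
        · simp only [Fin.mk_one, Matrix.cons_val_one, Matrix.cons_val_fin_one]
          linear_combination y 1 * h1
      right_inv := by
        rintro ⟨y, z, g'⟩
        refine Prod.ext ?_ (Prod.ext ?_ rfl)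
        · simp only [Matrix.cons_val_zero, Matrix.cons_val_one, Matrix.cons_val_fin_one]
          linear_combination y * h1
        · simp only [Matrix.cons_val_zero, Matrix.cons_val_one, Matrix.cons_val_fin_one]
          linear_combination z * h1
      map_add' := by
        rintro ⟨y, g1⟩ ⟨z, g2⟩
        refine Prod.ext ?_ (Prod.ext ?_ rfl)
        · simp only [Prod.mk_add_mk, Pi.add_apply]; ring
        · simp only [Prod.mk_add_mk, Pi.add_apply]; ring }
  refine ⟨φ.trans E, g, (φ x).2, hg, ?_⟩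
  show (u * (φ x).1 0 + w * (φ x).1 1, -b * (φ x).1 0 + a * (φ x).1 1, (φ x).2) = _
  rw [← hv]
  refine Prod.ext ?_ (Prod.ext ?_ rfl)
  · simp only
    rw [ha, hb]
    linear_combination (g : ℤ) * h1
  · simp only
    rw [ha, hb]; ring

theorem thin_app [Module.Finite ℤ Λ] (e : ι → Λ)
    (hgen : Submodule.span ℤ (Set.range e) = ⊤)
    (𝓕 : Finset (AddMonoidAlgebra ℤ Λ))
    (hsupp : ∀ f ∈ 𝓕, ∀ μ ∈ f.coeff.support, ∃ a, μ = e a)
    (hne : ∀ f ∈ 𝓕, f.coeff.support.Nonempty) (h5 : ∀ f ∈ 𝓕, l2 f ≤ 5)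
    (ev : AddMonoidAlgebra ℤ Λ →+* ℂ) (hev : ∀ f ∈ 𝓕, ev f = 0)
    (hfin : {ψ : AddMonoidAlgebra ℤ Λ →+* ℂ | ∀ f ∈ 𝓕, ψ f = 0}.Finite)
    {t : ℕ} (hQ : Qp e t (2 ^ t)) (fT : AddMonoidAlgebra ℤ Λ) (hfT : fT ∈ 𝓕)
    (hnz : ∀ a : AddMonoidAlgebra ℂ Λ, Th.toC fT * a = 0 → a = 0) (h3 : l2 fT ≤ 3)
    {G : Type} [AddCommGroup G] [Fintype G] (φ0 : Λ ≃+ (Fin 2 → ℤ) × G) (i : ι) :
    2 * Real.log ‖ev (AddMonoidAlgebra.single (e i) 1)‖ ≤ 2 ^ t * Real.log 15 := by
  classical
  have hl15 : 0 ≤ Real.log 15 := Real.log_nonneg (by norm_num)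
  by_cases hx1 : ‖ev (AddMonoidAlgebra.single (e i) 1)‖ ≤ 1
  · have h1 : Real.log ‖ev (AddMonoidAlgebra.single (e i) 1)‖ ≤ 0 :=
      Real.log_nonpos (norm_nonneg _) hx1
    have h2 : (0 : ℝ) ≤ 2 ^ t * Real.log 15 := by positivity
    linarith
  push Not at hx1
  have hcG : 0 < Fintype.card G := Fintype.card_pos_iff.mpr ⟨0⟩
  have hnt : (φ0 (e i)).1 ≠ 0 := by
    intro h0
    have h1 : Fintype.card G • e i = 0 := by
      apply φ0.injective
      rw [map_nsmul, map_zero]
      refine Prod.ext ?_ ?_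
      · rw [Prod.smul_fst, h0, smul_zero]; rfl
      · rw [Prod.smul_snd]; exact card_nsmul_eq_zero
    rw [norm_torsion ev (e i) _ hcG.ne' h1] at hx1
    exact lt_irrefl _ hx1
  obtain ⟨φ, k0, g0, hk0, hφi⟩ := adapt φ0 (e i) hnt
  -- widths
  let yc : Λ → ℤ := fun μ => (φ μ).1
  let zc : Λ → ℤ := fun μ => (φ μ).2.1
  have hmin : ∀ f : 𝓕, ∃ μy ∈ f.1.coeff.support, ∀ μ ∈ f.1.coeff.support, yc μy ≤ yc μ :=
    fun f => Finset.exists_min_image _ _ (hne f.1 f.2)
  have hminz : ∀ f : 𝓕, ∃ μz ∈ f.1.coeff.support, ∀ μ ∈ f.1.coeff.support, zc μz ≤ zc μ :=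
    fun f => Finset.exists_min_image _ _ (hne f.1 f.2)
  have hmaxz : ∀ f : 𝓕, ∃ μz ∈ f.1.coeff.support, ∀ μ ∈ f.1.coeff.support, zc μ ≤ zc μz :=
    fun f => Finset.exists_max_image _ _ (hne f.1 f.2)
  choose μy hμy1 hμy2 using hmin
  choose μz hμz1 hμz2 using hminz
  choose μZ hμZ1 hμZ2 using hmaxz
  let d : 𝓕 → ℕ := fun f => (zc (μZ f) - zc (μz f)).toNat
  have hdz : ∀ f, (d f : ℤ) = zc (μZ f) - zc (μz f) := by
    intro f
    have := hμz2 f (μZ f) (hμZ1 f)
    show ((zc (μZ f) - zc (μz f)).toNat : ℤ) = _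
    omega
  obtain ⟨fD, -, hfD⟩ := Finset.exists_max_image (Finset.univ : Finset 𝓕) d
    ⟨⟨fT, hfT⟩, Finset.mem_univ _⟩
  have hD1 : 1 ≤ d fD := by
    by_contra hcon
    have hd0 : ∀ f, d f = 0 := by
      intro f
      have := hfD f (Finset.mem_univ f)
      omega
    let hz : Λ →+ ℤ := ((AddMonoidHom.fst ℤ G).comp (AddMonoidHom.snd ℤ (ℤ × G))).comp
      φ.toAddMonoidHom
    have h1 := no_twist (𝓕 : Set _) ev hev hfin hz (by
      intro f hf μ hμ ν hν
      have h2 := hdz ⟨f, hf⟩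
      rw [hd0] at h2
      have h3 := hμz2 ⟨f, hf⟩ μ hμ
      have h4 := hμz2 ⟨f, hf⟩ ν hν
      have h5 := hμZ2 ⟨f, hf⟩ μ hμ
      have h6 := hμZ2 ⟨f, hf⟩ ν hν
      show zc μ = zc ν
      push_cast at h2
      omega) (φ.symm (0, 1, 0))
    have h2 : hz (φ.symm (0, 1, 0)) = 1 := by
      show (φ (φ.symm (0, 1, 0))).2.1 = 1
      rw [φ.apply_symm_apply]
    rw [h2] at h1
    exact one_ne_zero h1
  -- the shifted relations
  let sh : 𝓕 → Λ := fun f => φ.symm (yc (μy f), zc (μz f), 0)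
  let F : 𝓕 → AddMonoidAlgebra ℤ Λ := fun f => AddMonoidAlgebra.single (-sh f) 1 * f.1
  have hFc : ∀ f μ, (F f).coeff μ = f.1.coeff (μ + sh f) := by
    intro f μ
    show (AddMonoidAlgebra.single (-sh f) 1 * f.1).coeff μ = _
    rw [coeff_single_mul, one_mul, sub_neg_eq_add]
  have hFs : ∀ f μ, μ ∈ (F f).coeff.support → μ + sh f ∈ f.1.coeff.support := by
    intro f μ hμ
    rw [Finsupp.mem_support_iff, hFc] at hμ
    exact Finsupp.mem_support_iff.mpr hμ
  have hφsh : ∀ f, φ (sh f) = (yc (μy f), zc (μz f), 0) := fun f => φ.apply_symm_apply _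
  let T : Th Λ G 𝓕 :=
    { φ := φ
      f := F
      d := d
      D := d fD
      hD := hD1
      hd := fun j => hfD j (Finset.mem_univ j)
      hy := by
        intro j μ hμ
        have h1 := hμy2 j _ (hFs j μ hμ)
        have h2 : yc (μ + sh j) = (φ μ).1 + yc (μy j) := by
          show (φ (μ + sh j)).1 = _
          rw [map_add, hφsh]; rfl
        omega
      hz := by
        intro j μ hμ
        have h1 := hμz2 j _ (hFs j μ hμ)
        have h3 := hμZ2 j _ (hFs j μ hμ)
        have h2 : zc (μ + sh j) = (φ μ).2.1 + zc (μz j) := by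
          show (φ (μ + sh j)).2.1 = _
          rw [map_add, hφsh]; rfl
        have h4 := hdz j
        constructor <;> omega
      ev := ev
      hev := by
        intro j
        show ev (AddMonoidAlgebra.single (-sh j) 1 * j.1) = 0
        rw [map_mul, hev j.1 j.2, mul_zero]
      hfin := by
        refine hfin.subset ?_
        intro ψ hψ f hf
        have h1 : ψ (AddMonoidAlgebra.single (-sh ⟨f, hf⟩) 1 * f) = 0 := hψ ⟨f, hf⟩
        rw [map_mul] at h1
        exact (mul_eq_zero.mp h1).resolve_left (Xe_ne ψ _) }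
  have hl2F : ∀ f, l2 (F f) = l2 f.1 := by
    intro f
    unfold l2
    show ‖toR (AddMonoidAlgebra.single (-sh f) 1 * f.1)‖ ^ 2 = _
    rw [map_mul, toR_single, norm_single_mul]
    simp
  haveI : AddGroup.FG Λ := Module.Finite.iff_addGroup_fg.mp inferInstance
  haveI : AddMonoid.FG Λ := AddGroup.fg_iff_addMonoid_fg.mp inferInstance
  have hmain := T.thin_core ⟨fT, hfT⟩ (by
    intro a ha
    have h1 : Th.toC (F ⟨fT, hfT⟩) =
        AddMonoidAlgebra.single (-sh ⟨fT, hfT⟩) 1 * Th.toC fT := by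
      show Th.toC (AddMonoidAlgebra.single (-sh ⟨fT, hfT⟩) 1 * fT) = _
      rw [map_mul]
      congr 1
      simp [Th.toC]
    have h2 : Th.toC (F ⟨fT, hfT⟩) * a = 0 := ha
    rw [h1, mul_assoc] at h2
    have h3 := congrArg (fun y => AddMonoidAlgebra.single (sh ⟨fT, hfT⟩) (1 : ℂ) * y) h2
    simp only [mul_zero] at h3
    rw [← mul_assoc, AddMonoidAlgebra.single_mul_single, add_neg_cancel, one_mul,
      ← AddMonoidAlgebra.one_def, one_mul] at h3
    exact hnz a h3) (by
      show l2 (F ⟨fT, hfT⟩) ≤ 3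
      rw [hl2F]; exact h3) (by
      intro j
      show l2 (F j) ≤ 5
      rw [hl2F]; exact h5 _ j.2)
  -- the index bound
  have hidx : ((k0 * (d fD) * Fintype.card G : ℕ) : ℝ) ≤ 2 ^ t := by
    obtain ⟨δ, hδ⟩ : ∃ δ, δ = μZ fD - μz fD := ⟨_, rfl⟩
    obtain ⟨a1, ha1⟩ := hsupp fD.1 fD.2 _ (hμZ1 fD)
    obtain ⟨b1, hb1⟩ := hsupp fD.1 fD.2 _ (hμz1 fD)
    have hφδ : (φ δ).2.1 = d fD := by
      rw [hdz, hδ, map_sub]; rfl
    have hfull : Full ({e i, δ} : Finset Λ) := by
      intro x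
      refine ⟨(Fintype.card G * k0 * d fD : ℕ), by
        have : 0 < Fintype.card G * k0 * d fD := by positivity
        exact_mod_cast this.ne', ?_⟩
      have h1 : ((Fintype.card G * k0 * d fD : ℕ) : ℤ) • x =
          ((Fintype.card G : ℤ) * ((d fD : ℤ) * (φ x).1 - (φ x).2.1 * (φ δ).1)) • e i +
          ((Fintype.card G : ℤ) * k0 * (φ x).2.1) • δ := by
        apply φ.injective
        rw [map_add, map_zsmul, map_zsmul, map_zsmul, hφi]
        refine Prod.ext ?_ (Prod.ext ?_ ?_)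
        · simp only [Prod.smul_fst, Prod.fst_add, smul_eq_mul]
          push_cast; ring
        · simp only [Prod.smul_fst, Prod.smul_snd, Prod.fst_add, Prod.snd_add, smul_eq_mul,
            mul_zero, zero_add]
          rw [hφδ]
          push_cast; ring
        · simp only [Prod.smul_snd, Prod.snd_add]
          have h2 : ∀ g : G, (Fintype.card G : ℤ) • g = 0 := by
            intro g; rw [natCast_zsmul]; exact card_nsmul_eq_zero
          have h3 : ∀ (n : ℤ) (g : G), ((Fintype.card G : ℤ) * n) • g = 0 := by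
            intro n g; rw [mul_comm, mul_smul, h2, smul_zero]
          have h4 : ((Fintype.card G * k0 * d fD : ℕ) : ℤ) =
              (Fintype.card G : ℤ) * (k0 * d fD) := by push_cast; ring
          rw [h4, h3, h3, mul_assoc, h3, add_zero]
      rw [h1]
      exact Submodule.add_mem _
        (Submodule.smul_mem _ _ (Submodule.subset_span (by simp)))
        (Submodule.smul_mem _ _ (Submodule.subset_span (by simp)))
    have h1 := card_quot hgen hQ ({e i, δ} : Finset Λ) (by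
      intro r hr
      rw [Finset.mem_insert, Finset.mem_singleton] at hr
      rcases hr with rfl | rfl
      · exact ⟨e i, gen_mem_Wn e i, 0, zero_mem_Wn e 1, by rw [zero_add]⟩
      · refine ⟨e a1, gen_mem_Wn e a1, e b1, gen_mem_Wn e b1, ?_⟩
        rw [hδ, ← ha1, ← hb1]; abel) hfull
      ((Finset.range k0 ×ˢ (Finset.range (d fD) ×ˢ (Finset.univ : Finset G))).image
        (fun p => Submodule.Quotient.mk (φ.symm ((p.1 : ℤ), (p.2.1 : ℤ), p.2.2))))
    rw [Finset.card_image_of_injOn] at h1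
    · rw [Finset.card_product, Finset.card_product, Finset.card_range, Finset.card_range,
        ← mul_assoc] at h1
      exact h1
    · rintro ⟨p, q, g⟩ hp ⟨p', q', g'⟩ hp' h
      simp only [Finset.coe_product, Set.mem_prod, Finset.mem_coe, Finset.mem_range] at hp hp'
      simp only at h
      rw [Submodule.Quotient.eq, Finset.coe_insert, Finset.coe_singleton,
        Submodule.mem_span_pair] at h
      obtain ⟨s, r, hsr⟩ := h
      have h2 := congrArg φ hsr
      rw [map_add, map_zsmul, map_zsmul, map_sub, φ.apply_symm_apply, φ.apply_symm_apply,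
        hφi] at h2
      have e1 := congrArg Prod.fst h2
      have e2 := congrArg (fun x => x.2.1) h2
      have e3 := congrArg (fun x => x.2.2) h2
      simp only [Prod.smul_fst, Prod.smul_snd, Prod.fst_add, Prod.snd_add, smul_eq_mul,
        Prod.fst_sub, Prod.snd_sub, mul_zero, zero_add] at e1 e2 e3
      rw [hφδ] at e2
      have hr0 : r = 0 := by
        by_contra hr0
        have h3 : (d fD : ℤ) ≤ |r * (d fD : ℤ)| := by
          rw [abs_mul, Nat.abs_cast]
          have := Int.one_le_abs hr0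
          nlinarith
        rw [e2] at h3
        have h4 : |(q : ℤ) - q'| < d fD := by
          rw [abs_lt]; constructor <;> omega
        omega
      rw [hr0, zero_mul, add_zero] at e1
      rw [hr0, zero_mul] at e2
      have hs0 : s = 0 := by
        by_contra hs0
        have h3 : (k0 : ℤ) ≤ |s * (k0 : ℤ)| := by
          rw [abs_mul, Nat.abs_cast]
          have := Int.one_le_abs hs0
          nlinarith
        rw [e1] at h3
        have h4 : |(p : ℤ) - p'| < k0 := by
          rw [abs_lt]; constructor <;> omega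
        omega
      rw [hs0, zero_mul] at e1
      rw [hr0, hs0, zero_smul, zero_smul, add_zero] at e3
      have hp1 : p = p' := by omega
      have hq1 : q = q' := by omega
      have hg1 : g = g' := (sub_eq_zero.mp e3.symm)
      rw [hp1, hq1, hg1]
  -- conclusion
  have hxi : ‖ev (AddMonoidAlgebra.single (e i) 1)‖ = ‖T.y0‖ ^ k0 := by
    have h1 : e i = k0 • T.pt 1 0 0 + T.pt 0 0 g0 := by
      rw [T.nsmul_pt, T.pt_add]
      apply φ.injective
      rw [hφi]
      show _ = φ (T.pt _ _ _)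
      rw [show φ (T.pt ((k0 : ℤ) * 1 + 0) ((k0 : ℤ) * 0 + 0) (k0 • (0 : G) + g0)) =
        ((k0 : ℤ) * 1 + 0, (k0 : ℤ) * 0 + 0, k0 • (0 : G) + g0) from T.φ_pt _ _ _]
      simp
    have h2 : ev (AddMonoidAlgebra.single (e i) 1) =
        T.y0 ^ k0 * ev (AddMonoidAlgebra.single (T.pt 0 0 g0) 1) := by
      conv_lhs => rw [h1]
      have h3 : (AddMonoidAlgebra.single (k0 • T.pt 1 0 0 + T.pt 0 0 g0) (1 : ℤ) :
          AddMonoidAlgebra ℤ Λ) = (AddMonoidAlgebra.single (T.pt 1 0 0) 1) ^ k0 *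
          AddMonoidAlgebra.single (T.pt 0 0 g0) 1 := by
        rw [AddMonoidAlgebra.single_pow, AddMonoidAlgebra.single_mul_single, one_pow, one_mul]
      rw [h3, map_mul, map_pow]
      rfl
    have h3 : ‖ev (AddMonoidAlgebra.single (T.pt 0 0 g0) 1)‖ = 1 := by
      refine norm_torsion ev _ (Fintype.card G) hcG.ne' ?_
      rw [T.nsmul_pt, card_nsmul_eq_zero, mul_zero]
      exact map_zero φ.symm
    rw [h2, norm_mul, norm_pow, h3, mul_one]
  have h6 : ‖ev (AddMonoidAlgebra.single (e i) 1)‖ ^ 2 ≤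
      15 ^ (k0 * (d fD) * Fintype.card G) := by
    rw [hxi, ← pow_mul, mul_comm k0 2, pow_mul]
    calc (‖T.y0‖ ^ 2) ^ k0 ≤ (15 ^ (T.D * Fintype.card G)) ^ k0 := by gcongr
      _ = _ := by
        rw [← pow_mul]
        congr 1
        show d fD * Fintype.card G * k0 = _
        ring
  have hpos : 0 < ‖ev (AddMonoidAlgebra.single (e i) 1)‖ := by linarith
  have h7 := Real.log_le_log (by positivity) h6
  rw [Real.log_pow, Real.log_pow] at h7
  push_cast at h7 hidx
  calc 2 * Real.log ‖ev (AddMonoidAlgebra.single (e i) 1)‖ ≤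
      ((k0 : ℝ) * (d fD) * Fintype.card G) * Real.log 15 := h7
    _ ≤ 2 ^ t * Real.log 15 := by gcongr

end H44.Tys
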