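import Pool.Agent.H44.Tys.Dense
import Pool.Agent.H44.Tys.ThinApp

/-!
# The bound for the data attached to a solution
-/

set_option linter.all false

namespace H44.Tys

open Module

variable {Λ : Type*} [AddCommGroup Λ] {ι : Type*} [Fintype ι]

lemma l1_eq_sum (f : AddMonoidAlgebra ℤ Λ) (s : Finset Λ) (hs : f.coeff.support ⊆ s) :
    l1 f = ∑ i ∈ s, |(f.coeff i : ℝ)| := by
  unfold l1
  refine Finset.sum_subset hs fun i _ hi => ?_
  rw [Finsupp.notMem_support_iff.mp hi]; simp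

lemma l2_eq_sum (f : AddMonoidAlgebra ℤ Λ) (s : Finset Λ) (hs : f.coeff.support ⊆ s) :
    l2 f = ∑ i ∈ s, (f.coeff i : ℝ) ^ 2 := by
  unfold l2
  rw [norm_sq_eq (toR f) s (by rw [supp_toR]; exact hs)]
  exact Finset.sum_congr rfl fun i _ => by rw [toR_coeff]

/-- `x_a + x_b = x_c` with three different monomials -/
def IsT (e : ι → Λ) (f : AddMonoidAlgebra ℤ Λ) : Prop :=
  ∃ a b c : ι, e a ≠ e b ∧ e a ≠ e c ∧ e b ≠ e c ∧
    f = AddMonoidAlgebra.single (e a) 1 + AddMonoidAlgebra.single (e b) 1 -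
      AddMonoidAlgebra.single (e c) 1

/-- `2 x_a = x_c` -/
def IsD (e : ι → Λ) (f : AddMonoidAlgebra ℤ Λ) : Prop :=
  ∃ a c : ι, e a ≠ e c ∧
    f = AddMonoidAlgebra.single (e a) 2 - AddMonoidAlgebra.single (e c) 1

/-- `x_a + x_b = 0` -/
def IsP (e : ι → Λ) (f : AddMonoidAlgebra ℤ Λ) : Prop :=
  ∃ a b : ι, e a ≠ e b ∧
    f = AddMonoidAlgebra.single (e a) 1 + AddMonoidAlgebra.single (e b) 1

/-- common facts -/
structure Facts (e : ι → Λ) (f : AddMonoidAlgebra ℤ Λ) : Prop where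
  supp : ∀ μ ∈ f.coeff.support, ∃ a, μ = e a
  card : f.coeff.support.card ≤ 3
  ne : f.coeff.support.Nonempty
  l1 : l1 f ≤ 3
  l2 : l2 f ≤ 5

lemma facts_T {e : ι → Λ} {f : AddMonoidAlgebra ℤ Λ} (h : IsT e f) :
    Facts e f ∧ l2 f ≤ 3 := by
  classical
  obtain ⟨a, b, c, hab, hac, hbc, rfl⟩ := h
  have hco : ∀ i, (AddMonoidAlgebra.single (e a) (1 : ℤ) + AddMonoidAlgebra.single (e b) 1 -
      AddMonoidAlgebra.single (e c) 1).coeff i =
      (if e a = i then 1 else 0) + (if e b = i then 1 else 0) - (if e c = i then 1 else 0) := by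
    intro i
    rw [AddMonoidAlgebra.coeff_sub, Finsupp.sub_apply, AddMonoidAlgebra.coeff_add,
      Finsupp.add_apply, AddMonoidAlgebra.coeff_single, AddMonoidAlgebra.coeff_single,
      AddMonoidAlgebra.coeff_single, Finsupp.single_apply, Finsupp.single_apply,
      Finsupp.single_apply]
  set f := AddMonoidAlgebra.single (e a) (1 : ℤ) + AddMonoidAlgebra.single (e b) 1 -
      AddMonoidAlgebra.single (e c) 1 with hf
  have hsub : f.coeff.support ⊆ {e a, e b, e c} := by
    intro i hi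
    rw [Finsupp.mem_support_iff, hco] at hi
    simp only [Finset.mem_insert, Finset.mem_singleton]
    by_contra hcon
    push Not at hcon
    rw [if_neg (Ne.symm hcon.1), if_neg (Ne.symm hcon.2.1), if_neg (Ne.symm hcon.2.2)] at hi
    exact hi rfl
  have h1 : e a ∉ ({e b, e c} : Finset Λ) := by simp [hab, hac]
  have h2 : e b ∉ ({e c} : Finset Λ) := by simp [hbc]
  have ha : f.coeff (e a) = 1 := by
    rw [hco, if_pos rfl, if_neg (Ne.symm hab), if_neg (Ne.symm hac)]; rfl
  have hb : f.coeff (e b) = 1 := by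
    rw [hco, if_neg hab, if_pos rfl, if_neg (Ne.symm hbc)]; rfl
  have hc : f.coeff (e c) = -1 := by
    rw [hco, if_neg hac, if_neg hbc, if_pos rfl]; rfl
  have hl2 : l2 f = 3 := by
    rw [l2_eq_sum f _ hsub, Finset.sum_insert h1, Finset.sum_insert h2, Finset.sum_singleton,
      ha, hb, hc]
    norm_num
  have hl1 : l1 f = 3 := by
    rw [l1_eq_sum f _ hsub, Finset.sum_insert h1, Finset.sum_insert h2, Finset.sum_singleton,
      ha, hb, hc]
    norm_num
  refine ⟨⟨?_, ?_, ?_, by rw [hl1], by rw [hl2]; norm_num⟩, by rw [hl2]⟩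
  · intro μ hμ
    have := hsub hμ
    simp only [Finset.mem_insert, Finset.mem_singleton] at this
    rcases this with h | h | h
    · exact ⟨a, h⟩
    · exact ⟨b, h⟩
    · exact ⟨c, h⟩
  · refine (Finset.card_le_card hsub).trans ?_
    exact Finset.card_le_three
  · exact ⟨e a, Finsupp.mem_support_iff.mpr (by rw [ha]; norm_num)⟩

lemma facts_D {e : ι → Λ} {f : AddMonoidAlgebra ℤ Λ} (h : IsD e f) : Facts e f := by
  classical
  obtain ⟨a, c, hac, rfl⟩ := h
  have hco : ∀ i, (AddMonoidAlgebra.single (e a) (2 : ℤ) -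
      AddMonoidAlgebra.single (e c) 1).coeff i =
      (if e a = i then 2 else 0) - (if e c = i then 1 else 0) := by
    intro i
    rw [AddMonoidAlgebra.coeff_sub, Finsupp.sub_apply,
      AddMonoidAlgebra.coeff_single, AddMonoidAlgebra.coeff_single, Finsupp.single_apply,
      Finsupp.single_apply]
  set f := AddMonoidAlgebra.single (e a) (2 : ℤ) - AddMonoidAlgebra.single (e c) 1 with hf
  have hsub : f.coeff.support ⊆ {e a, e c} := by
    intro i hi
    rw [Finsupp.mem_support_iff, hco] at hi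
    simp only [Finset.mem_insert, Finset.mem_singleton]
    by_contra hcon
    push Not at hcon
    rw [if_neg (Ne.symm hcon.1), if_neg (Ne.symm hcon.2)] at hi
    exact hi rfl
  have h1 : e a ∉ ({e c} : Finset Λ) := by simp [hac]
  have ha : f.coeff (e a) = 2 := by
    rw [hco, if_pos rfl, if_neg (Ne.symm hac)]; rfl
  have hc : f.coeff (e c) = -1 := by
    rw [hco, if_neg hac, if_pos rfl]; rfl
  have hl2 : l2 f = 5 := by
    rw [l2_eq_sum f _ hsub, Finset.sum_insert h1, Finset.sum_singleton, ha, hc]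
    norm_num
  have hl1 : l1 f = 3 := by
    rw [l1_eq_sum f _ hsub, Finset.sum_insert h1, Finset.sum_singleton, ha, hc]
    norm_num
  refine ⟨?_, ?_, ?_, by rw [hl1], by rw [hl2]⟩
  · intro μ hμ
    have := hsub hμ
    simp only [Finset.mem_insert, Finset.mem_singleton] at this
    rcases this with h | h
    · exact ⟨a, h⟩
    · exact ⟨c, h⟩
  · exact (Finset.card_le_card hsub).trans (Finset.card_le_two.trans (by norm_num))
  · exact ⟨e a, Finsupp.mem_support_iff.mpr (by rw [ha]; norm_num)⟩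

lemma supp_D {e : ι → Λ} {a c : ι} {μ : Λ} (hμ : μ ∈ (AddMonoidAlgebra.single (e a) (2 : ℤ) -
      AddMonoidAlgebra.single (e c) 1 : AddMonoidAlgebra ℤ Λ).coeff.support) :
    μ = e a ∨ μ = e c := by
  classical
  rw [Finsupp.mem_support_iff, AddMonoidAlgebra.coeff_sub, Finsupp.sub_apply,
      AddMonoidAlgebra.coeff_single, AddMonoidAlgebra.coeff_single, Finsupp.single_apply,
      Finsupp.single_apply] at hμ
  by_contra hcon
  push Not at hcon
  rw [if_neg (Ne.symm hcon.1), if_neg (Ne.symm hcon.2)] at hμ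
  exact hμ rfl

lemma facts_P {e : ι → Λ} {f : AddMonoidAlgebra ℤ Λ} (h : IsP e f) : Facts e f := by
  classical
  obtain ⟨a, c, hac, rfl⟩ := h
  have hco : ∀ i, (AddMonoidAlgebra.single (e a) (1 : ℤ) +
      AddMonoidAlgebra.single (e c) 1).coeff i =
      (if e a = i then 1 else 0) + (if e c = i then 1 else 0) := by
    intro i
    rw [AddMonoidAlgebra.coeff_add, Finsupp.add_apply,
      AddMonoidAlgebra.coeff_single, AddMonoidAlgebra.coeff_single, Finsupp.single_apply,
      Finsupp.single_apply]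
  set f := AddMonoidAlgebra.single (e a) (1 : ℤ) + AddMonoidAlgebra.single (e c) 1 with hf
  have hsub : f.coeff.support ⊆ {e a, e c} := by
    intro i hi
    rw [Finsupp.mem_support_iff, hco] at hi
    simp only [Finset.mem_insert, Finset.mem_singleton]
    by_contra hcon
    push Not at hcon
    rw [if_neg (Ne.symm hcon.1), if_neg (Ne.symm hcon.2)] at hi
    exact hi rfl
  have h1 : e a ∉ ({e c} : Finset Λ) := by simp [hac]
  have ha : f.coeff (e a) = 1 := by
    rw [hco, if_pos rfl, if_neg (Ne.symm hac)]; rfl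
  have hc : f.coeff (e c) = 1 := by
    rw [hco, if_neg hac, if_pos rfl]; rfl
  have hl2 : l2 f = 2 := by
    rw [l2_eq_sum f _ hsub, Finset.sum_insert h1, Finset.sum_singleton, ha, hc]
    norm_num
  have hl1 : l1 f = 2 := by
    rw [l1_eq_sum f _ hsub, Finset.sum_insert h1, Finset.sum_singleton, ha, hc]
    norm_num
  refine ⟨?_, ?_, ?_, by rw [hl1]; norm_num, by rw [hl2]; norm_num⟩
  · intro μ hμ
    have := hsub hμ
    simp only [Finset.mem_insert, Finset.mem_singleton] at this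
    rcases this with h | h
    · exact ⟨a, h⟩
    · exact ⟨c, h⟩
  · exact (Finset.card_le_card hsub).trans (Finset.card_le_two.trans (by norm_num))
  · exact ⟨e a, Finsupp.mem_support_iff.mpr (by rw [ha]; norm_num)⟩

lemma nzd_int {f : AddMonoidAlgebra ℤ Λ} (hcard : f.coeff.support.card ≤ 3) (hrel : Rel f)
    (a : AddMonoidAlgebra ℤ Λ) (h : f * a = 0) : a = 0 := by
  obtain ⟨h0, hne⟩ := hrel
  obtain ⟨h', μ0, hμ0, hlt⟩ := exists_unique_max f.coeff.support hcard h0 hne
  exact nzd f h' μ0 hμ0 hlt a h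

lemma nzd_complex {f : AddMonoidAlgebra ℤ Λ} (hcard : f.coeff.support.card ≤ 3) (hrel : Rel f)
    (a : AddMonoidAlgebra ℂ Λ) (h : Th.toC f * a = 0) : a = 0 := by
  obtain ⟨h0, hne⟩ := hrel
  obtain ⟨h', μ0, hμ0, hlt⟩ := exists_unique_max f.coeff.support hcard h0 hne
  have hs : ∀ μ, μ ∈ (Th.toC f).coeff.support ↔ μ ∈ f.coeff.support := by
    intro μ
    rw [Finsupp.mem_support_iff, Finsupp.mem_support_iff, Th.toC_coeff]
    simp
  exact nzd (Th.toC f) h' μ0 ((hs μ0).mpr hμ0) (fun μ hμ => hlt μ ((hs μ).mp hμ)) a h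

/-- all relevant relations are doublings -/
theorem bound_allD [Module.Finite ℤ Λ] (e : ι → Λ)
    (hgen : Submodule.span ℤ (Set.range e) = ⊤)
    (𝓕 : Finset (AddMonoidAlgebra ℤ Λ)) (hD : ∀ f ∈ 𝓕, Rel f → IsD e f)
    (ev : AddMonoidAlgebra ℤ Λ →+* ℂ) (hev : ∀ f ∈ 𝓕, ev f = 0)
    (hfin : {ψ : AddMonoidAlgebra ℤ Λ →+* ℂ | ∀ f ∈ 𝓕, ψ f = 0}.Finite)
    {t : ℕ} (hQ : Qp e t (2 ^ t)) (i : ι) :
    2 * Real.log ‖ev (AddMonoidAlgebra.single (e i) 1)‖ ≤ 2 ^ (Fintype.card ι) * Real.log 2 := by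
  classical
  have hl2 : 0 ≤ Real.log 2 := Real.log_nonneg (by norm_num)
  let Δ0 : Finset Λ := ((Finset.univ : Finset (ι × ι)).filter (fun p =>
    (AddMonoidAlgebra.single (e p.1) (2 : ℤ) - AddMonoidAlgebra.single (e p.2) 1) ∈ 𝓕)).image
      (fun p => e p.2 - e p.1)
  have hΔ : ∀ r ∈ Δ0, ∃ a c : ι, (AddMonoidAlgebra.single (e a) (2 : ℤ) -
      AddMonoidAlgebra.single (e c) 1) ∈ 𝓕 ∧ r = e c - e a := by
    intro r hr
    obtain ⟨p, hp, rfl⟩ := Finset.mem_image.mp hr
    exact ⟨p.1, p.2, (Finset.mem_filter.mp hp).2, rfl⟩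
  have h1 := allD_core hgen hQ (lu ev) (Real.log 2) hl2 Δ0
    (by
      intro r hr
      obtain ⟨a, c, -, rfl⟩ := hΔ r hr
      exact ⟨e c, gen_mem_Wn e c, e a, gen_mem_Wn e a, by abel⟩)
    (by
      intro r hr
      obtain ⟨a, c, hf, rfl⟩ := hΔ r hr
      have h2 := hev _ hf
      have h3 : (AddMonoidAlgebra.single (e a) (2 : ℤ) : AddMonoidAlgebra ℤ Λ) =
          (2 : ℤ) • AddMonoidAlgebra.single (e a) (1 : ℤ) := by
        rw [AddMonoidAlgebra.smul_single]; simp
      rw [map_sub, h3, map_zsmul, sub_eq_zero, zsmul_eq_mul] at h2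
      rw [map_sub]
      show Real.log ‖ev (AddMonoidAlgebra.single (e c) 1)‖ -
        Real.log ‖ev (AddMonoidAlgebra.single (e a) 1)‖ = Real.log 2
      rw [← h2, norm_mul]
      have h4 := norm_ne_zero_iff.mpr (Xe_ne ev (e a))
      have h5 : ‖(((2 : ℤ)) : ℂ)‖ = 2 := by
        rw [Complex.norm_intCast]; norm_num
      rw [h5, Real.log_mul (by norm_num) h4]
      ring)
    (by
      -- fullness
      intro x
      by_contra hcon
      push Not at hcon
      haveI : AddGroup.FG (Λ ⧸ Submodule.span ℤ (Δ0 : Set Λ)) :=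
        Module.Finite.iff_addGroup_fg.mp inferInstance
      obtain ⟨h, y, hy⟩ := exists_hom (Λ := Λ ⧸ Submodule.span ℤ (Δ0 : Set Λ))
        ⟨Submodule.Quotient.mk x, fun n hn h0 => by
          rw [← Submodule.Quotient.mk_smul, Submodule.Quotient.mk_eq_zero] at h0
          exact hcon n hn h0⟩
      obtain ⟨z, rfl⟩ := Submodule.Quotient.mk_surjective _ y
      let h' : Λ →+ ℤ := h.comp (Submodule.mkQ (Submodule.span ℤ (Δ0 : Set Λ))).toAddMonoidHom
      apply hy
      refine no_twist (𝓕 : Set _) ev hev hfin h' ?_ z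
      intro f hf μ hμ ν hν
      by_cases hrel : Rel f
      · obtain ⟨a, c, hac, rfl⟩ := hD f hf hrel
        have h2 : h' (e c) = h' (e a) := by
          have h3 : e c - e a ∈ Submodule.span ℤ (Δ0 : Set Λ) := by
            apply Submodule.subset_span
            rw [Finset.mem_coe]
            exact Finset.mem_image.mpr ⟨(a, c), Finset.mem_filter.mpr
              ⟨Finset.mem_univ _, hf⟩, rfl⟩
          have h4 : h' (e c - e a) = 0 := by
            show h (Submodule.Quotient.mk (e c - e a)) = 0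
            rw [(Submodule.Quotient.mk_eq_zero _).mpr h3, map_zero]
          rw [map_sub, sub_eq_zero] at h4
          exact h4
        rcases supp_D hμ with rfl | rfl <;> rcases supp_D hν with rfl | rfl
        · rfl
        · exact h2.symm
        · exact h2
        · rfl
      · by_contra hne
        exact hrel ⟨h', μ, hμ, ν, hν, hne⟩) i
  have h2 : (lu ev) (e i) = Real.log ‖ev (AddMonoidAlgebra.single (e i) 1)‖ := rfl
  rw [h2] at h1
  have h3 := hQ.1
  set m := finrank ℤ Λ with hm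
  have h4 : (2 : ℝ) * (m * 2 ^ t) ≤ 2 ^ (Fintype.card ι) := by
    rw [← h3]
    have h5 : 2 * m ≤ 2 ^ m := by
      rcases m with _ | m
      · simp
      · rw [pow_succ, mul_comm]
        have := Nat.lt_two_pow_self (n := m)
        omega
    have h6 : 2 * (m * 2 ^ t) ≤ 2 ^ (t + m) := by
      rw [pow_add, ← mul_assoc, mul_comm (2 ^ t)]
      exact Nat.mul_le_mul_right _ h5
    exact_mod_cast h6
  calc 2 * Real.log ‖ev (AddMonoidAlgebra.single (e i) 1)‖ ≤
      2 * (m * 2 ^ t * Real.log 2) := by linarith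
    _ = (2 * (m * 2 ^ t)) * Real.log 2 := by ring
    _ ≤ _ := by gcongr

lemma num1 (m : ℕ) (hm : 1 ≤ m) (hm2 : m ≠ 2) : 3 * 9 ^ (m - 1) ≤ 2 ^ (2 ^ m) := by
  have key : ∀ k, 3 * 9 ^ (k + 2) ≤ 2 ^ (2 ^ (k + 3)) := by
    intro k
    induction k with
    | zero => norm_num
    | succ k ih =>
      have h1 : 2 ^ (2 ^ (k + 1 + 3)) = 2 ^ (2 ^ (k + 3)) * 2 ^ (2 ^ (k + 3)) := by
        rw [← pow_add]; congr 1; ring
      have h2 : 9 ≤ 2 ^ (2 ^ (k + 3)) := by
        have h3 : 4 ≤ 2 ^ (k + 3) := by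
          calc 4 = 2 ^ 2 := by norm_num
            _ ≤ 2 ^ (k + 3) := Nat.pow_le_pow_right (by norm_num) (by omega)
        calc 9 ≤ 2 ^ 4 := by norm_num
          _ ≤ _ := Nat.pow_le_pow_right (by norm_num) h3
      calc 3 * 9 ^ (k + 1 + 2) = (3 * 9 ^ (k + 2)) * 9 := by ring
        _ ≤ 2 ^ (2 ^ (k + 3)) * 2 ^ (2 ^ (k + 3)) := Nat.mul_le_mul ih h2
        _ = _ := h1.symm
  rcases m with _ | _ | _ | m
  · omega
  · norm_num
  · omega
  · exact key m

lemma num2 (m : ℕ) (hm : 1 ≤ m) : 5 * 9 ^ (m - 1) ≤ 2 ^ (2 ^ (m + 1)) := by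
  obtain ⟨k, rfl⟩ : ∃ k, m = k + 1 := ⟨m - 1, by omega⟩
  rw [Nat.add_sub_cancel]
  induction k with
  | zero => norm_num
  | succ k ih =>
    have h1 : 2 ^ (2 ^ (k + 1 + 1 + 1)) = 2 ^ (2 ^ (k + 1 + 1)) * 2 ^ (2 ^ (k + 1 + 1)) := by
      rw [← pow_add]; congr 1; ring
    have h2 : 9 ≤ 2 ^ (2 ^ (k + 1 + 1)) := by
      have h3 : 4 ≤ 2 ^ (k + 1 + 1) := by
        calc 4 = 2 ^ 2 := by norm_num
          _ ≤ 2 ^ (k + 1 + 1) := Nat.pow_le_pow_right (by norm_num) (by omega)
      calc 9 ≤ 2 ^ 4 := by norm_num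
        _ ≤ _ := Nat.pow_le_pow_right (by norm_num) h3
    calc 5 * 9 ^ (k + 1) = (5 * 9 ^ k) * 9 := by ring
      _ ≤ 2 ^ (2 ^ (k + 1 + 1)) * 2 ^ (2 ^ (k + 1 + 1)) := Nat.mul_le_mul (ih (by omega)) h2
      _ = _ := h1.symm

/-- the bound with zero coordinates present -/
theorem bound_weak [Module.Finite ℤ Λ] (e : ι → Λ)
    (hgen : Submodule.span ℤ (Set.range e) = ⊤)
    (𝓕 : Finset (AddMonoidAlgebra ℤ Λ)) (h𝓕 : ∀ f ∈ 𝓕, IsT e f ∨ IsD e f ∨ IsP e f)
    (ev : AddMonoidAlgebra ℤ Λ →+* ℂ) (hev : ∀ f ∈ 𝓕, ev f = 0)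
    (hfin : {ψ : AddMonoidAlgebra ℤ Λ →+* ℂ | ∀ f ∈ 𝓕, ψ f = 0}.Finite)
    {t : ℕ} (hQ : Qp e t (2 ^ t)) (i : ι) :
    Real.log ‖ev (AddMonoidAlgebra.single (e i) 1)‖ ≤ 2 ^ (Fintype.card ι) * Real.log 2 := by
  classical
  have hl2 : 0 ≤ Real.log 2 := Real.log_nonneg (by norm_num)
  have hfacts : ∀ f ∈ 𝓕, Facts e f := by
    intro f hf
    rcases h𝓕 f hf with h | h | h
    · exact (facts_T h).1
    · exact facts_D h
    · exact facts_P h
  by_cases hrel : ∃ f ∈ 𝓕, Rel f
  · obtain ⟨f1, hf1, hr1⟩ := hrel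
    haveI : AddGroup.FG Λ := Module.Finite.iff_addGroup_fg.mp inferInstance
    haveI : AddMonoid.FG Λ := AddGroup.fg_iff_addMonoid_fg.mp inferInstance
    obtain ⟨m, G, _, _, ⟨φ⟩⟩ := str Λ
    have hrank := rank_of_equiv φ
    have hm1 : 1 ≤ m := by
      by_contra hm
      have hm0 : m = 0 := by omega
      subst hm0
      obtain ⟨h, μ, -, ν, -, hne⟩ := hr1
      have h0 : ∀ x, h x = 0 := by
        intro x
        have h1 : Fintype.card G • x = 0 := by
          apply φ.injective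
          rw [map_nsmul, map_zero]
          refine Prod.ext (Subsingleton.elim _ _) ?_
          rw [Prod.smul_snd]; exact card_nsmul_eq_zero
        have h2 : Fintype.card G • h x = 0 := by rw [← map_nsmul, h1, map_zero]
        have h3 : 0 < Fintype.card G := Fintype.card_pos_iff.mpr ⟨0⟩
        rw [nsmul_eq_mul] at h2
        rcases mul_eq_zero.mp h2 with h4 | h4
        · exact absurd h4 (by exact_mod_cast h3.ne')
        · exact h4
      exact hne (by rw [h0, h0])
    have h1 := dense (B := 5) (by norm_num) e (𝓕 : Set _)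
      (fun f hf => ⟨fun μ hμ => by
        obtain ⟨a, rfl⟩ := (hfacts f hf).supp μ hμ
        exact gen_mem_Wn e a, (hfacts f hf).l1⟩) ev hev hfin hm1
      ((AddMonoidHom.fst (Fin m → ℤ) G).comp φ.toAddMonoidHom) (surj_of_equiv φ) hrank hQ hf1
      (nzd_int (hfacts f1 hf1).card hr1) (hfacts f1 hf1).l2 i
    have ht : t + m = Fintype.card ι := by
      have := hQ.1
      rw [hrank] at this
      exact this
    have h2 : Real.log 5 + ((m : ℝ) - 1) * Real.log 9 ≤ 2 ^ (m + 1) * Real.log 2 := by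
      have h3 : (5 : ℝ) * 9 ^ (m - 1) ≤ 2 ^ (2 ^ (m + 1)) := by exact_mod_cast num2 m hm1
      have h4 := Real.log_le_log (by positivity) h3
      rw [Real.log_mul (by norm_num) (by positivity), Real.log_pow, Real.log_pow,
        Nat.cast_sub hm1] at h4
      push_cast at h4
      exact h4
    have h3 : (2 : ℝ) ^ t * (Real.log 5 + ((m : ℝ) - 1) * Real.log 9) ≤
        2 * (2 ^ (Fintype.card ι) * Real.log 2) := by
      calc (2 : ℝ) ^ t * (Real.log 5 + ((m : ℝ) - 1) * Real.log 9) ≤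
          2 ^ t * (2 ^ (m + 1) * Real.log 2) := by gcongr
        _ = 2 * (2 ^ (t + m) * Real.log 2) := by rw [pow_add]; ring
        _ = _ := by rw [ht]
    linarith
  · push Not at hrel
    have h1 := bound_allD e hgen 𝓕 (fun f hf h => absurd h (hrel f hf)) ev hev hfin hQ i
    have h2 : (0 : ℝ) ≤ 2 ^ (Fintype.card ι) * Real.log 2 := by positivity
    linarith

/-- the bound when all coordinates are nonzero -/
theorem bound_strong [Module.Finite ℤ Λ] (e : ι → Λ)
    (hgen : Submodule.span ℤ (Set.range e) = ⊤)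
    (𝓕 : Finset (AddMonoidAlgebra ℤ Λ)) (h𝓕 : ∀ f ∈ 𝓕, IsT e f ∨ IsD e f)
    (ev : AddMonoidAlgebra ℤ Λ →+* ℂ) (hev : ∀ f ∈ 𝓕, ev f = 0)
    (hfin : {ψ : AddMonoidAlgebra ℤ Λ →+* ℂ | ∀ f ∈ 𝓕, ψ f = 0}.Finite)
    {t : ℕ} (hQ : Qp e t (2 ^ t)) (i : ι) :
    2 * Real.log ‖ev (AddMonoidAlgebra.single (e i) 1)‖ ≤ 2 ^ (Fintype.card ι) * Real.log 2 := by
  classical
  have hl2 : 0 ≤ Real.log 2 := Real.log_nonneg (by norm_num)
  have hfacts : ∀ f ∈ 𝓕, Facts e f := by
    intro f hf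
    rcases h𝓕 f hf with h | h
    · exact (facts_T h).1
    · exact facts_D h
  by_cases hrel : ∃ f ∈ 𝓕, Rel f ∧ IsT e f
  · obtain ⟨f1, hf1, hr1, hT1⟩ := hrel
    haveI : AddGroup.FG Λ := Module.Finite.iff_addGroup_fg.mp inferInstance
    haveI : AddMonoid.FG Λ := AddGroup.fg_iff_addMonoid_fg.mp inferInstance
    obtain ⟨m, G, _, _, ⟨φ⟩⟩ := str Λ
    have hrank := rank_of_equiv φ
    have hm1 : 1 ≤ m := by
      by_contra hm
      have hm0 : m = 0 := by omega
      subst hm0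
      obtain ⟨h, μ, -, ν, -, hne⟩ := hr1
      have h0 : ∀ x, h x = 0 := by
        intro x
        have h1 : Fintype.card G • x = 0 := by
          apply φ.injective
          rw [map_nsmul, map_zero]
          refine Prod.ext (Subsingleton.elim _ _) ?_
          rw [Prod.smul_snd]; exact card_nsmul_eq_zero
        have h2 : Fintype.card G • h x = 0 := by rw [← map_nsmul, h1, map_zero]
        have h3 : 0 < Fintype.card G := Fintype.card_pos_iff.mpr ⟨0⟩
        rw [nsmul_eq_mul] at h2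
        rcases mul_eq_zero.mp h2 with h4 | h4
        · exact absurd h4 (by exact_mod_cast h3.ne')
        · exact h4
      exact hne (by rw [h0, h0])
    have ht : t + m = Fintype.card ι := by
      have := hQ.1
      rw [hrank] at this
      exact this
    by_cases hm2 : m = 2
    · subst hm2
      have h1 := thin_app e hgen 𝓕 (fun f hf => (hfacts f hf).supp)
        (fun f hf => (hfacts f hf).ne) (fun f hf => (hfacts f hf).l2) ev hev hfin hQ f1 hf1
        (nzd_complex (hfacts f1 hf1).card hr1) (facts_T hT1).2 φ i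
      have h2 : Real.log 15 ≤ 4 * Real.log 2 := by
        have h3 : Real.log 15 ≤ Real.log (2 ^ 4) := Real.log_le_log (by norm_num) (by norm_num)
        rw [Real.log_pow] at h3
        push_cast at h3
        exact h3
      calc 2 * Real.log ‖ev (AddMonoidAlgebra.single (e i) 1)‖ ≤ 2 ^ t * Real.log 15 := h1
        _ ≤ 2 ^ t * (4 * Real.log 2) := by gcongr
        _ = 2 ^ (t + 2) * Real.log 2 := by rw [pow_add]; ring
        _ = _ := by rw [ht]
    · have h1 := dense (B := 3) (by norm_num) e (𝓕 : Set _)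
        (fun f hf => ⟨fun μ hμ => by
          obtain ⟨a, rfl⟩ := (hfacts f hf).supp μ hμ
          exact gen_mem_Wn e a, (hfacts f hf).l1⟩) ev hev hfin hm1
        ((AddMonoidHom.fst (Fin m → ℤ) G).comp φ.toAddMonoidHom) (surj_of_equiv φ) hrank hQ hf1
        (nzd_int (hfacts f1 hf1).card hr1) (facts_T hT1).2 i
      have h2 : Real.log 3 + ((m : ℝ) - 1) * Real.log 9 ≤ 2 ^ m * Real.log 2 := by
        have h3 : (3 : ℝ) * 9 ^ (m - 1) ≤ 2 ^ (2 ^ m) := by exact_mod_cast num1 m hm1 hm2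
        have h4 := Real.log_le_log (by positivity) h3
        rw [Real.log_mul (by norm_num) (by positivity), Real.log_pow, Real.log_pow,
          Nat.cast_sub hm1] at h4
        push_cast at h4
        exact h4
      calc 2 * Real.log ‖ev (AddMonoidAlgebra.single (e i) 1)‖ ≤
          2 ^ t * (Real.log 3 + ((m : ℝ) - 1) * Real.log 9) := h1
        _ ≤ 2 ^ t * (2 ^ m * Real.log 2) := by gcongr
        _ = 2 ^ (t + m) * Real.log 2 := by rw [pow_add]; ring
        _ = _ := by rw [ht]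
  · push Not at hrel
    refine bound_allD e hgen 𝓕 (fun f hf h => ?_) ev hev hfin hQ i
    rcases h𝓕 f hf with hT | hD
    · exact absurd hT (hrel f hf h)
    · exact hD

end H44.Tys
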