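import Pool.Agent.H44.Tys.Defs
import Pool.Agent.H44.Tys.Sys

/-!
# Reduction of a system of equations to its group ring data
-/

set_option linter.all false

namespace H44.Tys

open Module

/-- the monoid homomorphism of a homomorphism to the units -/
noncomputable def unitMon {Λ : Type*} [AddCommGroup Λ] (L : Λ →+ Additive ℂˣ) :
    Multiplicative Λ →* ℂ where
  toFun y := ((L y.toAdd).toMul : ℂˣ)
  map_one' := by rw [toAdd_one, map_zero]; rfl
  map_mul' y z := by
    rw [toAdd_mul, map_add, toMul_add, Units.val_mul]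

lemma hom_ext_gen {Λ ι : Type*} [AddCommGroup Λ] (e : ι → Λ)
    (hgen : Submodule.span ℤ (Set.range e) = ⊤) (ψ ψ' : AddMonoidAlgebra ℤ Λ →+* ℂ)
    (h : ∀ i, ψ (AddMonoidAlgebra.single (e i) 1) = ψ' (AddMonoidAlgebra.single (e i) 1)) :
    ψ = ψ' := by
  have hadd : ∀ (φ : AddMonoidAlgebra ℤ Λ →+* ℂ) (a b : Λ), φ (AddMonoidAlgebra.single (a + b) 1) =
      φ (AddMonoidAlgebra.single a 1) * φ (AddMonoidAlgebra.single b 1) := by
    intro φ a b
    rw [← map_mul, AddMonoidAlgebra.single_mul_single, one_mul]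
  have hzero : ∀ (φ : AddMonoidAlgebra ℤ Λ →+* ℂ), φ (AddMonoidAlgebra.single 0 1) = 1 := by
    intro φ
    rw [← AddMonoidAlgebra.one_def, map_one]
  have hneg : ∀ x : Λ, ψ (AddMonoidAlgebra.single x 1) = ψ' (AddMonoidAlgebra.single x 1) →
      ψ (AddMonoidAlgebra.single (-x) 1) = ψ' (AddMonoidAlgebra.single (-x) 1) := by
    intro x hx
    have h1 := hadd ψ x (-x)
    have h2 := hadd ψ' x (-x)
    rw [add_neg_cancel, hzero] at h1 h2
    have h3 : ψ' (AddMonoidAlgebra.single x 1) ≠ 0 := Xe_ne ψ' x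
    apply mul_left_cancel₀ h3
    rw [← h2, ← hx, ← h1]
  have hnsmul : ∀ (x : Λ) (n : ℕ), ψ (AddMonoidAlgebra.single x 1) =
      ψ' (AddMonoidAlgebra.single x 1) →
      ψ (AddMonoidAlgebra.single (n • x) 1) = ψ' (AddMonoidAlgebra.single (n • x) 1) := by
    intro x n hx
    induction n with
    | zero => rw [zero_nsmul, hzero, hzero]
    | succ n ih => rw [succ_nsmul, hadd, hadd, ih, hx]
  have hall : ∀ x : Λ, ψ (AddMonoidAlgebra.single x 1) = ψ' (AddMonoidAlgebra.single x 1) := by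
    intro x
    have hx : x ∈ Submodule.span ℤ (Set.range e) := by rw [hgen]; trivial
    induction hx using Submodule.span_induction with
    | mem y hy => obtain ⟨i, rfl⟩ := hy; exact h i
    | zero => rw [hzero, hzero]
    | add y z _ _ hy hz => rw [hadd, hadd, hy, hz]
    | smul c y _ hy =>
      rcases Int.natAbs_eq c with hc | hc
      · rw [hc, natCast_zsmul]; exact hnsmul y _ hy
      · rw [hc, neg_smul, natCast_zsmul]; exact hneg _ (hnsmul y _ hy)
  apply AddMonoidAlgebra.ringHom_ext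
  · intro c
    have h1 : (AddMonoidAlgebra.single 0 c : AddMonoidAlgebra ℤ Λ) = (c : AddMonoidAlgebra ℤ Λ) := by
      rw [← mul_one (c : AddMonoidAlgebra ℤ Λ), ← zsmul_eq_mul, AddMonoidAlgebra.one_def,
        AddMonoidAlgebra.smul_single]
      simp
    rw [h1, map_intCast, map_intCast]
  · intro x; exact hall x

section red

variable {n : ℕ} (S : Set (Eqn n)) (x : Fin n → ℂ)

open Classical in
/-- the multiplicative relations of a system at a point -/
noncomputable def relRows : Finset ({i // x i ≠ 0} → ℤ) :=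
  ((Finset.univ : Finset {i // x i ≠ 0}).filter (fun i => Eqn.one i.1 ∈ S)).image
    (fun i => Pi.single i (1 : ℤ)) ∪
  (((Finset.univ : Finset ({i // x i ≠ 0} × {i // x i ≠ 0} × {i // x i ≠ 0})).filter
    (fun p => Eqn.mul p.1.1 p.2.1.1 p.2.2.1 ∈ S)).image
    (fun p => Pi.single p.1 (1 : ℤ) + Pi.single p.2.1 1 - Pi.single p.2.2 1) ∪
  ((Finset.univ : Finset ({i // x i ≠ 0} × {i // x i ≠ 0})).filter
    (fun p => ∃ z, x z = 0 ∧ (Eqn.add p.1.1 z p.2.1 ∈ S ∨ Eqn.add z p.1.1 p.2.1 ∈ S))).image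
    (fun p => Pi.single p.1 (1 : ℤ) - Pi.single p.2 1))

/-- the grading group of a system at a point -/
abbrev Lam : Type := ({i // x i ≠ 0} → ℤ) ⧸ Submodule.span ℤ (relRows S x : Set ({i // x i ≠ 0} → ℤ))

open Classical in
/-- its generators -/
noncomputable def eg (i : {i // x i ≠ 0}) : Lam S x :=
  Submodule.Quotient.mk (Pi.single i (1 : ℤ))

open Classical in
lemma eg_gen : Submodule.span ℤ (Set.range (eg S x)) = ⊤ := by
  have h1 : Set.range (eg S x) = (Submodule.mkQ (Submodule.span ℤ (relRows S x : Set ({i // x i ≠ 0} → ℤ)))) ''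
      (Set.range fun i : {i // x i ≠ 0} => (Pi.single i (1 : ℤ) : {i // x i ≠ 0} → ℤ)) := by
    ext y
    simp only [Set.mem_range, Set.mem_image, exists_exists_eq_and]
    rfl
  have h2 : Submodule.span ℤ (Set.range fun i : {i // x i ≠ 0} =>
      (Pi.single i (1 : ℤ) : {i // x i ≠ 0} → ℤ)) = ⊤ := by
    have := (Pi.basisFun ℤ {i // x i ≠ 0}).span_eq
    rw [← this]
    congr 1
    ext y
    simp [Pi.basisFun_apply]
  rw [h1, ← Submodule.map_span, h2, Submodule.map_top, Submodule.range_mkQ]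

lemma eg_Qp : ∃ t, Qp (eg S x) t (2 ^ t) := by
  classical
  refine Qp_all (relRows S x) ?_
  intro r hr
  have hg : ∀ i : {i // x i ≠ 0}, (Pi.single i (1 : ℤ) : {i // x i ≠ 0} → ℤ) ∈
      Wn (fun i : {i // x i ≠ 0} => (Pi.single i (1 : ℤ) : {i // x i ≠ 0} → ℤ)) 1 :=
    fun i => gen_mem_Wn _ i
  unfold relRows at hr
  rw [Finset.mem_union, Finset.mem_union, Finset.mem_image, Finset.mem_image,
    Finset.mem_image] at hr
  rcases hr with ⟨i, -, hi⟩ | ⟨p, -, hp⟩ | ⟨p, -, hp⟩
  · refine ⟨Pi.single i 1, Wn_mono _ (by norm_num) (hg i), 0, zero_mem_Wn _ _, ?_⟩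
    rw [zero_add, ← hi]
  · refine ⟨Pi.single p.1 1 + Pi.single p.2.1 1, add_mem_Wn (hg _) (hg _),
      Pi.single p.2.2 1, Wn_mono _ (by norm_num) (hg _), ?_⟩
    rw [← hp]
    have : ∀ a b c : {i // x i ≠ 0} → ℤ, a + b = c + (a + b - c) := fun a b c => by abel
    convert this _ _ _
  · refine ⟨Pi.single p.1 1, Wn_mono _ (by norm_num) (hg _),
      Pi.single p.2 1, Wn_mono _ (by norm_num) (hg _), ?_⟩
    rw [← hp]
    have : ∀ a c : {i // x i ≠ 0} → ℤ, a = c + (a - c) := fun a c => by abel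
    convert this _ _

lemma eg_one (i : {i // x i ≠ 0}) (h : Eqn.one i.1 ∈ S) : eg S x i = 0 := by
  classical
  unfold eg
  rw [Submodule.Quotient.mk_eq_zero]
  apply Submodule.subset_span
  rw [Finset.mem_coe]
  unfold relRows
  rw [Finset.mem_union]
  left
  exact Finset.mem_image.mpr ⟨i, Finset.mem_filter.mpr ⟨Finset.mem_univ _, h⟩, rfl⟩

lemma eg_mul (i j k : {i // x i ≠ 0}) (h : Eqn.mul i.1 j.1 k.1 ∈ S) :
    eg S x i + eg S x j = eg S x k := by
  classical
  rw [← sub_eq_zero]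
  unfold eg
  rw [← Submodule.Quotient.mk_add, ← Submodule.Quotient.mk_sub, Submodule.Quotient.mk_eq_zero]
  apply Submodule.subset_span
  rw [Finset.mem_coe]
  unfold relRows
  rw [Finset.mem_union, Finset.mem_union]
  right; left
  exact Finset.mem_image.mpr ⟨(i, j, k), Finset.mem_filter.mpr ⟨Finset.mem_univ _, h⟩, rfl⟩

lemma eg_add (i k : {i // x i ≠ 0}) (z : Fin n) (hz : x z = 0)
    (h : Eqn.add i.1 z k.1 ∈ S ∨ Eqn.add z i.1 k.1 ∈ S) : eg S x i = eg S x k := by
  classical
  rw [← sub_eq_zero]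
  unfold eg
  rw [← Submodule.Quotient.mk_sub, Submodule.Quotient.mk_eq_zero]
  apply Submodule.subset_span
  rw [Finset.mem_coe]
  unfold relRows
  rw [Finset.mem_union, Finset.mem_union]
  right; right
  exact Finset.mem_image.mpr ⟨(i, k), Finset.mem_filter.mpr ⟨Finset.mem_univ _, z, hz, h⟩, rfl⟩

/-- the solution gives a homomorphism to the units -/
lemma exists_ev (hx : x ∈ Solutions S) : ∃ ev : AddMonoidAlgebra ℤ (Lam S x) →+* ℂ,
    ∀ i, ev (AddMonoidAlgebra.single (eg S x i) 1) = x i.1 := by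
  classical
  let u : {i // x i ≠ 0} → Additive ℂˣ := fun i => Additive.ofMul (Units.mk0 (x i.1) i.2)
  let L0 : ({i // x i ≠ 0} → ℤ) →ₗ[ℤ] Additive ℂˣ := Fintype.linearCombination ℤ u
  have hL0 : ∀ i, L0 (Pi.single i 1) = u i := by
    intro i
    show Fintype.linearCombination ℤ u (Pi.single i 1) = u i
    rw [Fintype.linearCombination_apply_single, one_smul]
  have hker : Submodule.span ℤ (relRows S x : Set ({i // x i ≠ 0} → ℤ)) ≤ LinearMap.ker L0 := by
    rw [Submodule.span_le]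
    intro r hr
    rw [Finset.mem_coe] at hr
    show L0 r = 0
    unfold relRows at hr
    rw [Finset.mem_union, Finset.mem_union, Finset.mem_image, Finset.mem_image,
      Finset.mem_image] at hr
    rcases hr with ⟨i, hi, rfl⟩ | ⟨p, hp, rfl⟩ | ⟨p, hp, rfl⟩
    · have h1 : x i.1 = 1 := hx _ (Finset.mem_filter.mp hi).2
      have h2 : L0 (Pi.single i 1) = 0 := by
        rw [hL0]
        apply Additive.toMul.injective
        apply Units.ext
        exact h1
      convert h2
    · have h1 : x p.1.1 * x p.2.1.1 = x p.2.2.1 := hx _ (Finset.mem_filter.mp hp).2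
      have h2 : L0 (Pi.single p.1 1 + Pi.single p.2.1 1 - Pi.single p.2.2 1) = 0 := by
        rw [map_sub, map_add, hL0, hL0, hL0, sub_eq_zero]
        apply Additive.toMul.injective
        apply Units.ext
        exact h1
      convert h2
    · obtain ⟨z, hz, h | h⟩ := (Finset.mem_filter.mp hp).2
      · have h1 : x p.1.1 + x z = x p.2.1 := hx _ h
        have h2 : L0 (Pi.single p.1 1 - Pi.single p.2 1) = 0 := by
          rw [map_sub, hL0, hL0, sub_eq_zero]
          apply Additive.toMul.injective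
          apply Units.ext
          rw [hz, add_zero] at h1
          exact h1
        convert h2
      · have h1 : x z + x p.1.1 = x p.2.1 := hx _ h
        have h2 : L0 (Pi.single p.1 1 - Pi.single p.2 1) = 0 := by
          rw [map_sub, hL0, hL0, sub_eq_zero]
          apply Additive.toMul.injective
          apply Units.ext
          rw [hz, zero_add] at h1
          exact h1
        convert h2
  let L : Lam S x →ₗ[ℤ] Additive ℂˣ := Submodule.liftQ _ L0 hker
  refine ⟨liftZ (unitMon L.toAddMonoidHom), fun i => ?_⟩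
  rw [liftZ_single]
  show (((L (eg S x i)).toMul : ℂˣ) : ℂ) = x i.1
  have h1 : L (eg S x i) = u i := by
    show Submodule.liftQ _ L0 hker (Submodule.Quotient.mk (Pi.single i 1)) = u i
    rw [Submodule.liftQ_apply]
    exact hL0 i
  rw [h1]
  rfl

open Classical in
/-- the additive relations -/
noncomputable def relF : Finset (AddMonoidAlgebra ℤ (Lam S x)) :=
  (((Finset.univ : Finset ({i // x i ≠ 0} × {i // x i ≠ 0} × {i // x i ≠ 0})).filter
    (fun p => Eqn.add p.1.1 p.2.1.1 p.2.2.1 ∈ S)).image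
    (fun p => AddMonoidAlgebra.single (eg S x p.1) (1 : ℤ) +
      AddMonoidAlgebra.single (eg S x p.2.1) 1 - AddMonoidAlgebra.single (eg S x p.2.2) 1)) ∪
  ((Finset.univ : Finset ({i // x i ≠ 0} × {i // x i ≠ 0})).filter
    (fun p => ∃ z, x z = 0 ∧ Eqn.add p.1.1 p.2.1 z ∈ S)).image
    (fun p => AddMonoidAlgebra.single (eg S x p.1) (1 : ℤ) +
      AddMonoidAlgebra.single (eg S x p.2) 1)

lemma mem_relF1 (i j k : {i // x i ≠ 0}) (h : Eqn.add i.1 j.1 k.1 ∈ S) :
    AddMonoidAlgebra.single (eg S x i) (1 : ℤ) + AddMonoidAlgebra.single (eg S x j) 1 -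
      AddMonoidAlgebra.single (eg S x k) 1 ∈ relF S x := by
  classical
  unfold relF
  rw [Finset.mem_union]
  left
  exact Finset.mem_image.mpr ⟨(i, j, k), Finset.mem_filter.mpr ⟨Finset.mem_univ _, h⟩, rfl⟩

lemma mem_relF2 (i j : {i // x i ≠ 0}) (z : Fin n) (hz : x z = 0) (h : Eqn.add i.1 j.1 z ∈ S) :
    AddMonoidAlgebra.single (eg S x i) (1 : ℤ) + AddMonoidAlgebra.single (eg S x j) 1 ∈
      relF S x := by
  classical
  unfold relF
  rw [Finset.mem_union]
  right
  exact Finset.mem_image.mpr ⟨(i, j), Finset.mem_filter.mpr ⟨Finset.mem_univ _, z, hz, h⟩, rfl⟩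

lemma relF_cases {f : AddMonoidAlgebra ℤ (Lam S x)} (hf : f ∈ relF S x) :
    (∃ i j k : {i // x i ≠ 0}, Eqn.add i.1 j.1 k.1 ∈ S ∧
      f = AddMonoidAlgebra.single (eg S x i) (1 : ℤ) + AddMonoidAlgebra.single (eg S x j) 1 -
        AddMonoidAlgebra.single (eg S x k) 1) ∨
    (∃ (i j : {i // x i ≠ 0}) (z : Fin n), x z = 0 ∧ Eqn.add i.1 j.1 z ∈ S ∧
      f = AddMonoidAlgebra.single (eg S x i) (1 : ℤ) + AddMonoidAlgebra.single (eg S x j) 1) := by
  classical
  unfold relF at hf
  rw [Finset.mem_union, Finset.mem_image, Finset.mem_image] at hf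
  rcases hf with ⟨p, hp, rfl⟩ | ⟨p, hp, rfl⟩
  · exact Or.inl ⟨p.1, p.2.1, p.2.2, (Finset.mem_filter.mp hp).2, rfl⟩
  · obtain ⟨z, hz, h⟩ := (Finset.mem_filter.mp hp).2
    exact Or.inr ⟨p.1, p.2, z, hz, h, rfl⟩

/-- finiteness of the points -/
lemma fin_points (hx : x ∈ Solutions S) (hfin : (Solutions S).Finite) :
    {ψ : AddMonoidAlgebra ℤ (Lam S x) →+* ℂ | ∀ f ∈ relF S x, ψ f = 0}.Finite := by
  classical
  let sol : (AddMonoidAlgebra ℤ (Lam S x) →+* ℂ) → (Fin n → ℂ) := fun ψ i =>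
    if h : x i ≠ 0 then ψ (AddMonoidAlgebra.single (eg S x ⟨i, h⟩) 1) else 0
  have hsolI : ∀ ψ (i : {i // x i ≠ 0}), sol ψ i.1 = ψ (AddMonoidAlgebra.single (eg S x i) 1) := by
    intro ψ i
    show (if h : x i.1 ≠ 0 then ψ (AddMonoidAlgebra.single (eg S x ⟨i.1, h⟩) 1) else 0) = _
    rw [dif_pos i.2]
  have hsol0 : ∀ ψ (i : Fin n), x i = 0 → sol ψ i = 0 := by
    intro ψ i hi
    show (if h : x i ≠ 0 then ψ (AddMonoidAlgebra.single (eg S x ⟨i, h⟩) 1) else 0) = _
    rw [dif_neg (not_not.mpr hi)]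
  refine Set.Finite.of_finite_image (f := sol) (hfin.subset ?_) ?_
  · rintro _ ⟨ψ, hψ, rfl⟩ E hE
    have hxE := hx E hE
    rcases E with i | ⟨i, j, k⟩ | ⟨i, j, k⟩
    · show sol ψ i = 1
      have h1 : x i = 1 := hxE
      have h2 : x i ≠ 0 := by rw [h1]; exact one_ne_zero
      have h3 := hsolI ψ ⟨i, h2⟩
      rw [eg_one S x ⟨i, h2⟩ hE, ← AddMonoidAlgebra.one_def, map_one] at h3
      exact h3
    · show sol ψ i + sol ψ j = sol ψ k
      have h1 : x i + x j = x k := hxE
      by_cases hi : x i = 0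
      · by_cases hj : x j = 0
        · have hk : x k = 0 := by rw [← h1, hi, hj, add_zero]
          rw [hsol0 ψ i hi, hsol0 ψ j hj, hsol0 ψ k hk, add_zero]
        · have hk : x k ≠ 0 := by rw [← h1, hi, zero_add]; exact hj
          have h2 := eg_add S x ⟨j, hj⟩ ⟨k, hk⟩ i hi (Or.inr hE)
          have h3 := hsolI ψ ⟨j, hj⟩
          have h4 := hsolI ψ ⟨k, hk⟩
          rw [h2, ← h4] at h3
          rw [hsol0 ψ i hi, zero_add]
          exact h3
      · by_cases hj : x j = 0
        · have hk : x k ≠ 0 := by rw [← h1, hj, add_zero]; exact hi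
          have h2 := eg_add S x ⟨i, hi⟩ ⟨k, hk⟩ j hj (Or.inl hE)
          have h3 := hsolI ψ ⟨i, hi⟩
          have h4 := hsolI ψ ⟨k, hk⟩
          rw [h2, ← h4] at h3
          rw [hsol0 ψ j hj, add_zero]
          exact h3
        · by_cases hk : x k = 0
          · have h2 := hψ _ (mem_relF2 S x ⟨i, hi⟩ ⟨j, hj⟩ k hk hE)
            rw [map_add, ← hsolI, ← hsolI] at h2
            rw [hsol0 ψ k hk]
            exact h2
          · have h2 := hψ _ (mem_relF1 S x ⟨i, hi⟩ ⟨j, hj⟩ ⟨k, hk⟩ hE)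
            rw [map_sub, map_add, ← hsolI, ← hsolI, ← hsolI, sub_eq_zero] at h2
            exact h2
    · show sol ψ i * sol ψ j = sol ψ k
      have h1 : x i * x j = x k := hxE
      by_cases hk : x k = 0
      · rw [hsol0 ψ k hk]
        rw [hk] at h1
        rcases mul_eq_zero.mp h1 with h | h
        · rw [hsol0 ψ i h, zero_mul]
        · rw [hsol0 ψ j h, mul_zero]
      · have hi : x i ≠ 0 := by
          intro h; apply hk; rw [← h1, h, zero_mul]
        have hj : x j ≠ 0 := by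
          intro h; apply hk; rw [← h1, h, mul_zero]
        have h2 := eg_mul S x ⟨i, hi⟩ ⟨j, hj⟩ ⟨k, hk⟩ hE
        have h3 : ψ (AddMonoidAlgebra.single (eg S x ⟨i, hi⟩) 1) *
            ψ (AddMonoidAlgebra.single (eg S x ⟨j, hj⟩) 1) =
            ψ (AddMonoidAlgebra.single (eg S x ⟨k, hk⟩) 1) := by
          rw [← map_mul, AddMonoidAlgebra.single_mul_single, one_mul, h2]
        rw [← hsolI, ← hsolI, ← hsolI] at h3
        exact h3
  · intro ψ _ ψ' _ h
    refine hom_ext_gen (eg S x) (eg_gen S x) ψ ψ' fun i => ?_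
    rw [← hsolI, ← hsolI, h]

end red

/-- **the bound** -/
theorem main_bound {n : ℕ} (S : Set (Eqn n)) (hfin : (Solutions S).Finite)
    (x : Fin n → ℂ) (hx : x ∈ Solutions S) (i : Fin n) : ‖x i‖ ≤ 2 ^ 2 ^ (n - 1) := by
  classical
  by_cases hi : x i = 0
  · rw [hi, norm_zero]; positivity
  have hn : 1 ≤ n := by
    have := i.2
    omega
  obtain ⟨t, hQ⟩ := eg_Qp S x
  obtain ⟨ev, hevx⟩ := exists_ev S x hx
  have hfinψ := fin_points S x hx hfin
  have hev : ∀ f ∈ relF S x, ev f = 0 := by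
    intro f hf
    rcases relF_cases S x hf with ⟨i, j, k, hE, rfl⟩ | ⟨i, j, z, hz, hE, rfl⟩
    · have h1 : x i.1 + x j.1 = x k.1 := hx _ hE
      rw [map_sub, map_add, hevx, hevx, hevx, h1, sub_self]
    · have h1 : x i.1 + x j.1 = x z := hx _ hE
      rw [map_add, hevx, hevx, h1, hz]
  have hTD : ∀ i j k : {i // x i ≠ 0}, Eqn.add i.1 j.1 k.1 ∈ S →
      IsT (eg S x) (AddMonoidAlgebra.single (eg S x i) (1 : ℤ) +
        AddMonoidAlgebra.single (eg S x j) 1 - AddMonoidAlgebra.single (eg S x k) 1) ∨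
      IsD (eg S x) (AddMonoidAlgebra.single (eg S x i) (1 : ℤ) +
        AddMonoidAlgebra.single (eg S x j) 1 - AddMonoidAlgebra.single (eg S x k) 1) := by
    intro i j k hE
    have h1 : x i.1 + x j.1 = x k.1 := hx _ hE
    have hik : eg S x i ≠ eg S x k := by
      intro h
      have h2 : x i.1 = x k.1 := by rw [← hevx, ← hevx, h]
      rw [h2] at h1
      exact j.2 (by simpa using h1)
    have hjk : eg S x j ≠ eg S x k := by
      intro h
      have h2 : x j.1 = x k.1 := by rw [← hevx, ← hevx, h]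
      rw [h2] at h1
      exact i.2 (by simpa using h1)
    by_cases hij : eg S x i = eg S x j
    · right
      refine ⟨i, k, hik, ?_⟩
      rw [← hij, ← AddMonoidAlgebra.single_add]
      norm_num
    · left
      exact ⟨i, j, k, hij, hik, hjk, rfl⟩
  haveI : Module.Finite ℤ (Lam S x) := inferInstance
  have hcard : Fintype.card {i // x i ≠ 0} ≤ n := by
    have := Fintype.card_subtype_le (fun i : Fin n => x i ≠ 0)
    rwa [Fintype.card_fin] at this
  have hpos : 0 < ‖x i‖ := norm_pos_iff.mpr hi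
  have hl2 : 0 ≤ Real.log 2 := Real.log_nonneg (by norm_num)
  have hlog : Real.log ‖x i‖ ≤ 2 ^ (n - 1) * Real.log 2 := by
    by_cases hall : ∀ j, x j ≠ 0
    · have h1 := bound_strong (eg S x) (eg_gen S x) (relF S x) (by
        intro f hf
        rcases relF_cases S x hf with ⟨i, j, k, hE, rfl⟩ | ⟨i, j, z, hz, hE, rfl⟩
        · exact hTD i j k hE
        · exact absurd hz (hall z)) ev hev hfinψ hQ ⟨i, hi⟩
      rw [hevx] at h1
      have h2 : (2 : ℝ) ^ (Fintype.card {i // x i ≠ 0}) ≤ 2 * 2 ^ (n - 1) := by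
        rw [← pow_succ', Nat.sub_add_cancel hn]
        exact pow_le_pow_right₀ (by norm_num) hcard
      have h3 := mul_le_mul_of_nonneg_right h2 hl2
      linarith
    · push Not at hall
      obtain ⟨z, hz⟩ := hall
      have h1 := bound_weak (eg S x) (eg_gen S x) (relF S x) (by
        intro f hf
        rcases relF_cases S x hf with ⟨i, j, k, hE, rfl⟩ | ⟨i, j, z, hz, hE, rfl⟩
        · rcases hTD i j k hE with h | h
          · exact Or.inl h
          · exact Or.inr (Or.inl h)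
        · refine Or.inr (Or.inr ⟨i, j, ?_, rfl⟩)
          intro h
          have h1 : x i.1 + x j.1 = x z := hx _ hE
          have h2 : x i.1 = x j.1 := by rw [← hevx, ← hevx, h]
          rw [hz, ← h2] at h1
          have h3 : 2 * x i.1 = 0 := by linear_combination h1
          exact i.2 ((mul_eq_zero.mp h3).resolve_left two_ne_zero)) ev hev hfinψ hQ ⟨i, hi⟩
      rw [hevx] at h1
      have hlt : Fintype.card {i // x i ≠ 0} < n := by
        have := Fintype.card_subtype_lt (p := fun i : Fin n => x i ≠ 0) (x := z)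
          (not_not.mpr hz)
        rwa [Fintype.card_fin] at this
      have h2 : (2 : ℝ) ^ (Fintype.card {i // x i ≠ 0}) ≤ 2 ^ (n - 1) :=
        pow_le_pow_right₀ (by norm_num) (by omega)
      have h3 := mul_le_mul_of_nonneg_right h2 hl2
      linarith
  have h1 : Real.log ‖x i‖ ≤ Real.log (2 ^ 2 ^ (n - 1)) := by
    rw [Real.log_pow]
    push_cast
    exact hlog
  exact (Real.log_le_log_iff hpos (by positivity)).mp h1

end H44.Tys
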