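import Pool.Agent.H44.Tys.Vol

/-!
# The real group algebra as an inner product space, integer vectors
-/

set_option linter.all false

namespace H44.Tys

open Module

variable {Λ : Type*}

/-- the standard inner product on finitely supported functions -/
noncomputable def ipCore (Λ : Type*) : InnerProductSpace.Core ℝ (AddMonoidAlgebra ℝ Λ) where
  inner a b := a.coeff.sum fun i r => r * b.coeff i
  conj_inner_symm a b := by
    classical
    simp only [conj_trivial]
    rw [Finsupp.sum_of_support_subset a.coeff (s := a.coeff.support ∪ b.coeff.support)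
      Finset.subset_union_left _ (by simp),
      Finsupp.sum_of_support_subset b.coeff (s := a.coeff.support ∪ b.coeff.support)
      Finset.subset_union_right _ (by simp)]
    exact Finset.sum_congr rfl fun i _ => mul_comm _ _
  re_inner_nonneg a := by
    simp only [RCLike.re_to_real]
    exact Finset.sum_nonneg fun i _ => mul_self_nonneg _
  add_left a b c := by
    rw [AddMonoidAlgebra.coeff_add, Finsupp.sum_add_index' (by simp) (by intros; ring)]
  smul_left a b r := by
    rw [AddMonoidAlgebra.coeff_smul, Finsupp.sum_smul_index (by simp)]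
    simp only [conj_trivial, Finsupp.sum, Finset.mul_sum, mul_assoc]
  definite a ha := by
    have h : ∀ i ∈ a.coeff.support, a.coeff i * a.coeff i = 0 := by
      refine (Finset.sum_eq_zero_iff_of_nonneg fun i _ => mul_self_nonneg _).mp ha
    ext i
    by_contra hi
    have := h i (by simpa using hi)
    simp at this
    exact hi this

noncomputable instance instNACG (Λ : Type*) : NormedAddCommGroup (AddMonoidAlgebra ℝ Λ) :=
  (ipCore Λ).toNormedAddCommGroup

noncomputable instance instIPS (Λ : Type*) : InnerProductSpace ℝ (AddMonoidAlgebra ℝ Λ) :=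
  InnerProductSpace.ofCore (ipCore Λ).toCore

lemma inner_def (a b : AddMonoidAlgebra ℝ Λ) :
    (inner ℝ a b : ℝ) = a.coeff.sum fun i r => r * b.coeff i := rfl

lemma inner_eq_sum (a b : AddMonoidAlgebra ℝ Λ) (s : Finset Λ) (hs : a.coeff.support ⊆ s) :
    (inner ℝ a b : ℝ) = ∑ i ∈ s, a.coeff i * b.coeff i := by
  rw [inner_def, Finsupp.sum_of_support_subset a.coeff hs _ (by simp)]

lemma norm_sq_eq (a : AddMonoidAlgebra ℝ Λ) (s : Finset Λ) (hs : a.coeff.support ⊆ s) :
    ‖a‖ ^ 2 = ∑ i ∈ s, a.coeff i ^ 2 := by
  rw [← real_inner_self_eq_norm_sq, inner_eq_sum a a s hs]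
  exact Finset.sum_congr rfl fun i _ => (sq _).symm

end H44.Tys
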