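import Pool.Agent.H44.Tys.Win

/-!
# Multiplication operators, complements, and the basic covolume inequalities
-/

set_option linter.all false

namespace H44.Tys

open Module

variable {Λ : Type*} [AddCommGroup Λ]

/-! ### multiplication -/

lemma coeff_single_mul {R : Type*} [Semiring R] (m i : Λ) (r : R) (x : AddMonoidAlgebra R Λ) :
    (AddMonoidAlgebra.single m r * x).coeff i = r * x.coeff (i - m) := by
  apply AddMonoidAlgebra.coeff_single_mul_eq_mul_coeff
  intro m' _
  constructor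
  · rintro rfl; abel
  · rintro rfl; abel

lemma norm_single_mul (m : Λ) (r : ℝ) (x : AddMonoidAlgebra ℝ Λ) :
    ‖AddMonoidAlgebra.single m r * x‖ = |r| * ‖x‖ := by
  classical
  have h1 : ‖AddMonoidAlgebra.single m r * x‖ ^ 2 = (|r| * ‖x‖) ^ 2 := by
    rw [norm_sq_eq _ (x.coeff.support.map (Equiv.addLeft m).toEmbedding), mul_pow,
      norm_sq_eq x _ subset_rfl, Finset.sum_map, Finset.mul_sum]
    · refine Finset.sum_congr rfl fun j _ => ?_
      rw [coeff_single_mul]
      simp [mul_pow]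
    · intro j hj
      rw [Finsupp.mem_support_iff, coeff_single_mul] at hj
      simp only [Finset.mem_map_equiv, Finsupp.mem_support_iff]
      intro h0
      apply hj
      have : (Equiv.addLeft m).symm j = j - m := by simp [Equiv.addLeft, sub_eq_neg_add]
      rw [this] at h0
      rw [h0, mul_zero]
  have h2 : 0 ≤ |r| * ‖x‖ := by positivity
  nlinarith [norm_nonneg (AddMonoidAlgebra.single m r * x), sq_nonneg
    (‖AddMonoidAlgebra.single m r * x‖ + |r| * ‖x‖), (sq_eq_sq₀ (norm_nonneg _) h2).mp h1]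

/-- the `ℓ¹` norm -/
noncomputable def l1 (f : AddMonoidAlgebra ℤ Λ) : ℝ := ∑ i ∈ f.coeff.support, |(f.coeff i : ℝ)|

lemma l1_nonneg (f : AddMonoidAlgebra ℤ Λ) : 0 ≤ l1 f :=
  Finset.sum_nonneg fun _ _ => abs_nonneg _

lemma norm_mul_le_l1 (f : AddMonoidAlgebra ℤ Λ) (x : AddMonoidAlgebra ℝ Λ) :
    ‖toR f * x‖ ≤ l1 f * ‖x‖ := by
  have h : toR f = ∑ i ∈ f.coeff.support, AddMonoidAlgebra.single i (f.coeff i : ℝ) := by
    have := AddMonoidAlgebra.sum_coeff_single (toR f)
    rw [← this, Finsupp.sum, supp_toR]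
    simp
  rw [h, Finset.sum_mul]
  refine (norm_sum_le _ _).trans ?_
  rw [l1, Finset.sum_mul]
  refine Finset.sum_le_sum fun i _ => ?_
  rw [norm_single_mul]

/-! ### saturated ideals and complements -/

/-- an ideal of the integral group ring with torsion-free quotient -/
def Sat (I : Ideal (AddMonoidAlgebra ℤ Λ)) : Prop :=
  ∀ (n : ℤ) (a : AddMonoidAlgebra ℤ Λ), n ≠ 0 → n • a ∈ I → a ∈ I

/-- rank of the lattice -/
noncomputable def rk (I : Ideal (AddMonoidAlgebra ℤ Λ)) (W : Finset Λ) : ℕ := finrank ℤ (Lt I W)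

/-- a distinguished basis of the lattice -/
noncomputable def bas (I : Ideal (AddMonoidAlgebra ℤ Λ)) (W : Finset Λ) :
    Fin (rk I W) → AddMonoidAlgebra ℤ Λ := fun i => (Module.finBasis ℤ (Lt I W) i : _)

lemma bas_mem (I : Ideal (AddMonoidAlgebra ℤ Λ)) (W : Finset Λ) (i) : bas I W i ∈ Lt I W :=
  (Module.finBasis ℤ (Lt I W) i).2

lemma bas_li (I : Ideal (AddMonoidAlgebra ℤ Λ)) (W : Finset Λ) : LinearIndependent ℤ (bas I W) :=
  (Module.finBasis ℤ (Lt I W)).linearIndependent.map' (Lt I W).subtype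
    (Submodule.ker_subtype (Lt I W))

lemma bas_span (I : Ideal (AddMonoidAlgebra ℤ Λ)) (W : Finset Λ) :
    Lt I W ≤ Submodule.span ℤ (Set.range (bas I W)) := by
  intro x hx
  have h1 := (Module.finBasis ℤ (Lt I W)).sum_repr ⟨x, hx⟩
  have h2 : x = ∑ l, ((Module.finBasis ℤ (Lt I W)).repr ⟨x, hx⟩ l) • bas I W l := by
    have := congrArg (fun y : Lt I W => (y : AddMonoidAlgebra ℤ Λ)) h1
    push_cast at this
    exact this.symm
  rw [h2]
  exact Submodule.sum_mem _ fun l _ =>
    Submodule.smul_mem _ _ (Submodule.subset_span ⟨l, rfl⟩)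

/-- squared covolume of the lattice of an ideal in a window -/
noncomputable def cv (I : Ideal (AddMonoidAlgebra ℤ Λ)) (W : Finset Λ) : ℝ := cov (Lt I W)

lemma cv_eq_bas (I : Ideal (AddMonoidAlgebra ℤ Λ)) (W : Finset Λ) : cv I W = GZ (bas I W) := rfl

lemma one_le_cv (I : Ideal (AddMonoidAlgebra ℤ Λ)) (W : Finset Λ) : 1 ≤ cv I W := one_le_cov _

lemma exists_complement (I : Ideal (AddMonoidAlgebra ℤ Λ)) (hI : Sat I) (W : Finset Λ) :
    ∃ (m : ℕ) (q : Fin m → AddMonoidAlgebra ℤ Λ), (∀ k, q k ∈ Sp W) ∧ rk I W + m = W.card ∧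
      GZ (Sum.elim (bas I W) q) = 1 ∧
      (∀ c : Fin m → ℤ, ∑ k, c k • q k ∈ I → c = 0) := by
  let P : Submodule ℤ (Sp W) := (Lt I W).comap (Sp W).subtype
  have hle : Lt I W ≤ Sp W := inf_le_right
  let e : P ≃ₗ[ℤ] Lt I W := Submodule.comapSubtypeEquivOfLe hle
  let bP : Basis (Fin (rk I W)) ℤ P := (Module.finBasis ℤ (Lt I W)).map e.symm
  haveI : Module.IsTorsionFree ℤ ((Sp W) ⧸ P) := by
    apply Module.IsTorsionFree.of_smul_eq_zero
    intro n x hx
    by_contra hcon
    push Not at hcon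
    obtain ⟨hn, hx0⟩ := hcon
    obtain ⟨y, rfl⟩ := Submodule.Quotient.mk_surjective P x
    apply hx0
    rw [Submodule.Quotient.mk_eq_zero]
    rw [← Submodule.Quotient.mk_smul, Submodule.Quotient.mk_eq_zero] at hx
    refine ⟨hI n _ hn ?_, y.2⟩
    exact hx.1
  haveI : Module.Finite ℤ ((Sp W) ⧸ P) := inferInstance
  let bQ := Module.finBasis ℤ ((Sp W) ⧸ P)
  let B := Module.Basis.sumQuot bP bQ
  refine ⟨finrank ℤ ((Sp W) ⧸ P), fun k => (B (Sum.inr k) : AddMonoidAlgebra ℤ Λ),
    fun k => (B (Sum.inr k)).2, ?_, ?_, ?_⟩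
  · have h1 := finrank_eq_card_basis B
    rw [finrank_Sp, Fintype.card_sum, Fintype.card_fin, Fintype.card_fin] at h1
    exact h1.symm
  · have h1 := cov_eq (Sp W) B
    rw [cov_Sp] at h1
    rw [← h1]
    congr 1
    funext s
    rcases s with i | k
    · show bas I W i = ((B (Sum.inl i) : Sp W) : AddMonoidAlgebra ℤ Λ)
      rw [Module.Basis.sumQuot_inl]
      rfl
    · rfl
  · intro c hc
    have h1 : ∑ k, c k • B (Sum.inr k) ∈ P := by
      refine ⟨?_, (∑ k, c k • B (Sum.inr k)).2⟩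
      show ((∑ k, c k • B (Sum.inr k) : Sp W) : AddMonoidAlgebra ℤ Λ) ∈ I
      rw [Submodule.coe_sum]
      exact hc
    have h2 : ∑ k, c k • bQ k = 0 := by
      rw [← Submodule.Quotient.mk_eq_zero P] at h1
      rw [← h1, ← Submodule.mkQ_apply, map_sum]
      refine Finset.sum_congr rfl fun k _ => ?_
      rw [map_smul, Submodule.mkQ_apply, Module.Basis.sumQuot_inr]
    have h3 := Fintype.linearIndependent_iff.mp bQ.linearIndependent c h2
    exact funext h3

/-- short generation of a lattice -/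
def Short (I : Ideal (AddMonoidAlgebra ℤ Λ)) (W : Finset Λ) (C : ℝ) : Prop :=
  Lt I W ≤ Submodule.span ℤ {v | v ∈ Lt I W ∧ ‖toR v‖ ^ 2 ≤ C}

lemma rk_le (I : Ideal (AddMonoidAlgebra ℤ Λ)) (W : Finset Λ) : rk I W ≤ W.card := by
  rw [← finrank_Sp W]
  have hle : Lt I W ≤ Sp W := inf_le_right
  exact LinearMap.finrank_le_finrank_of_injective (Submodule.inclusion_injective hle)

/-- the main step -/
theorem step {I J : Ideal (AddMonoidAlgebra ℤ Λ)} (hI : Sat I) (hIJ : I ≤ J)
    {f : AddMonoidAlgebra ℤ Λ} (hf : f ∈ J) (hnz : ∀ a, f * a ∈ I → a ∈ I)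
    {W' W : Finset Λ} (hW : ∀ i ∈ f.coeff.support, ∀ j ∈ W', i + j ∈ W)
    {C : ℝ} (hC0 : 0 ≤ C) (hC : Short J W C) :
    rk I W + (W'.card - rk I W') ≤ rk J W ∧
    cv J W * cv I W' ≤ cv I W * (l1 f ^ 2) ^ (W'.card - rk I W') *
      C ^ (rk J W - (rk I W + (W'.card - rk I W'))) := by
  obtain ⟨m, q, hq, hm, hG, hqi⟩ := exists_complement I hI W'
  have hm' : W'.card - rk I W' = m := by omega
  rw [hm']
  have hmulSp : ∀ a ∈ Sp W', f * a ∈ Sp W := by
    classical
    intro a ha i hi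
    rw [AddMonoidAlgebra.coeff_mul]
    refine Finset.sum_eq_zero fun j hj => ?_
    refine Finset.sum_eq_zero fun k hk => ?_
    simp only
    rw [if_neg]
    rintro rfl
    exact hi (hW j hj k (by
      by_contra h
      exact (Finsupp.mem_support_iff.mp hk) (ha k h)))
  let v : Fin (rk I W) ⊕ Fin m → AddMonoidAlgebra ℤ Λ := Sum.elim (bas I W) (fun k => f * q k)
  have hvJ : ∀ s, v s ∈ Lt J W := by
    rintro (i | k)
    · exact ⟨hIJ (bas_mem I W i).1, (bas_mem I W i).2⟩
    · exact ⟨J.mul_mem_right _ hf, hmulSp _ (hq k)⟩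
  have hv : LinearIndependent ℤ v := by
    rw [Fintype.linearIndependent_iff]
    intro c hc
    rw [Fintype.sum_sum_type] at hc
    simp only [v, Sum.elim_inl, Sum.elim_inr] at hc
    have h1 : f * ∑ k, c (Sum.inr k) • q k ∈ I := by
      have h2 : f * ∑ k, c (Sum.inr k) • q k = - ∑ i, c (Sum.inl i) • bas I W i := by
        rw [Finset.mul_sum]
        have : ∑ k, f * (c (Sum.inr k) • q k) = ∑ k, c (Sum.inr k) • (f * q k) :=
          Finset.sum_congr rfl fun k _ => mul_smul_comm _ _ _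
        rw [this]
        exact eq_neg_of_add_eq_zero_right hc
      rw [h2]
      refine I.neg_mem (Submodule.sum_mem _ fun i _ => ?_)
      exact zsmul_mem (bas_mem I W i).1 _
    have h3 := hqi _ (hnz _ h1)
    have h4 : ∀ k, c (Sum.inr k) = 0 := fun k => congrFun h3 k
    have h5 : ∑ i, c (Sum.inl i) • bas I W i = 0 := by
      simpa [h4] using hc
    have h6 := Fintype.linearIndependent_iff.mp (bas_li I W) _ h5
    rintro (i | k)
    · exact h6 i
    · exact h4 k
  have hext := cov_le_extend (Lt J W) v hvJ hv {v | v ∈ Lt J W ∧ ‖toR v‖ ^ 2 ≤ C}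
    (fun x hx => hx.1) hC C (fun x hx => hx.2) hC0
  rw [Fintype.card_sum, Fintype.card_fin, Fintype.card_fin] at hext
  refine ⟨hext.1, ?_⟩
  have hrel : GZ v * cv I W' ≤ cv I W * (l1 f ^ 2) ^ m := by
    have h1 := G_rel_contract (𝕜 := ℝ) (fun i => toR (bas I W' i)) (fun i => toR (bas I W i))
      (fun k => toR (q k)) (LinearMap.mulLeft ℝ (toR f)) (l1_nonneg f)
      (fun u => by simpa using norm_mul_le_l1 f u) (fun i => ?_)
    · rw [Fintype.card_fin] at h1
      have e1 : Sum.elim (fun i => toR (bas I W i))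
          (fun k => (LinearMap.mulLeft ℝ (toR f)) (toR (q k))) = fun s => toR (v s) := by
        funext s
        rcases s with i | k
        · rfl
        · simp [v]
      have e2 : Sum.elim (fun i => toR (bas I W' i)) (fun k => toR (q k)) =
          fun s => toR (Sum.elim (bas I W') q s) := by
        funext s
        rcases s with i | k <;> rfl
      rw [e1, e2] at h1
      have hG' : G ℝ (fun s => toR (Sum.elim (bas I W') q s)) = 1 := hG
      rw [hG', mul_one] at h1
      have : cv I W * (l1 f ^ 2) ^ m = (l1 f ^ 2) ^ m * cv I W := mul_comm _ _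
      rw [this]
      exact h1
    · have h2 : f * bas I W' i ∈ Lt I W :=
        ⟨I.mul_mem_left _ (bas_mem I W' i).1, hmulSp _ (bas_mem I W' i).2⟩
      have h3 := toR_mem_span (bas_span I W) (Submodule.span ℝ (Set.range fun i => toR (bas I W i)))
        (by rintro _ ⟨l, rfl⟩; exact Submodule.subset_span ⟨l, rfl⟩) _ h2
      simpa using h3
  have hcI : 0 ≤ cv I W' := zero_le_one.trans (one_le_cv _ _)
  calc cv J W * cv I W' ≤ (GZ v * C ^ (finrank ℤ (Lt J W) - (rk I W + m))) * cv I W' := by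
        gcongr; exact hext.2
    _ = (GZ v * cv I W') * C ^ (finrank ℤ (Lt J W) - (rk I W + m)) := by ring
    _ ≤ (cv I W * (l1 f ^ 2) ^ m) * C ^ (finrank ℤ (Lt J W) - (rk I W + m)) := by
        gcongr
    _ = _ := rfl

end H44.Tys
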