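import Pool.Agent.H44.Tys.Step

/-!
# First step (Hadamard) and monotonicity in the window
-/

set_option linter.all false

namespace H44.Tys

open Module

variable {Λ : Type*} [AddCommGroup Λ]

lemma toR_single (i : Λ) (c : ℤ) :
    toR (AddMonoidAlgebra.single i c) = AddMonoidAlgebra.single i (c : ℝ) := by
  simp [toR]

/-- squared `ℓ²` norm -/
noncomputable def l2 (f : AddMonoidAlgebra ℤ Λ) : ℝ := ‖toR f‖ ^ 2

lemma l2_mul_single (f : AddMonoidAlgebra ℤ Λ) (i : Λ) :
    ‖toR (f * AddMonoidAlgebra.single i 1)‖ ^ 2 = l2 f := by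
  rw [mul_comm, map_mul, toR_single, norm_single_mul]
  simp [l2]

/-- the first step -/
theorem first_step {J : Ideal (AddMonoidAlgebra ℤ Λ)}
    {f : AddMonoidAlgebra ℤ Λ} (hf : f ∈ J) (hnz : ∀ a, f * a = 0 → a = 0)
    {W' W : Finset Λ} (hW : ∀ i ∈ f.coeff.support, ∀ j ∈ W', i + j ∈ W)
    {C : ℝ} (hC0 : 0 ≤ C) (hC : Short J W C) :
    W'.card ≤ rk J W ∧ cv J W ≤ (l2 f) ^ W'.card * C ^ (rk J W - W'.card) := by
  classical
  have hmulSp : ∀ a ∈ Sp W', f * a ∈ Sp W := by
    intro a ha i hi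
    rw [AddMonoidAlgebra.coeff_mul]
    refine Finset.sum_eq_zero fun j hj => ?_
    refine Finset.sum_eq_zero fun k hk => ?_
    simp only
    rw [if_neg]
    rintro rfl
    exact hi (hW j hj k (by
      by_contra h
      exact (Finsupp.mem_support_iff.mp hk) (ha k h)))
  let v : W' → AddMonoidAlgebra ℤ Λ := fun i => f * AddMonoidAlgebra.single (i : Λ) 1
  have hvJ : ∀ s, v s ∈ Lt J W := by
    intro s
    refine ⟨J.mul_mem_right _ hf, hmulSp _ ?_⟩
    intro i hi
    rw [AddMonoidAlgebra.coeff_single, Finsupp.single_apply, if_neg]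
    rintro rfl
    exact hi s.2
  have hv : LinearIndependent ℤ v := by
    rw [Fintype.linearIndependent_iff]
    intro c hc
    have h1 : f * ∑ k : W', c k • AddMonoidAlgebra.single (k : Λ) (1 : ℤ) = 0 := by
      rw [Finset.mul_sum, ← hc]
      exact Finset.sum_congr rfl fun k _ => mul_smul_comm _ _ _
    have h2 := hnz _ h1
    have h3 : ∑ k : W', c k • spBasis W' k = 0 := by
      apply Subtype.ext
      rw [Submodule.coe_sum]
      simp only [Submodule.coe_smul, Submodule.coe_zero, spBasis_apply]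
      exact h2
    exact Fintype.linearIndependent_iff.mp (spBasis W').linearIndependent c h3
  have hext := cov_le_extend (Lt J W) v hvJ hv {v | v ∈ Lt J W ∧ ‖toR v‖ ^ 2 ≤ C}
    (fun x hx => hx.1) hC C (fun x hx => hx.2) hC0
  rw [Fintype.card_coe] at hext
  refine ⟨hext.1, hext.2.trans ?_⟩
  have h1 : GZ v ≤ (l2 f) ^ W'.card := by
    unfold GZ
    refine (G_le_prod _).trans ?_
    have : ∀ k : W', ‖toR (v k)‖ ^ 2 = l2 f := fun k => l2_mul_single f _
    rw [Finset.prod_congr rfl fun k _ => this k]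
    simp
  have : 0 ≤ C ^ (finrank ℤ (Lt J W) - W'.card) := by positivity
  exact mul_le_mul_of_nonneg_right h1 this

open Classical in
/-- restriction to the complement of a finite set -/
noncomputable def cutR (W : Finset Λ) : AddMonoidAlgebra ℝ Λ →ₗ[ℝ] AddMonoidAlgebra ℝ Λ where
  toFun a := .ofCoeff (a.coeff.filter (· ∉ W))
  map_add' a b := by
    rw [AddMonoidAlgebra.coeff_add, Finsupp.filter_add]; rfl
  map_smul' c a := by
    rw [AddMonoidAlgebra.coeff_smul, Finsupp.filter_smul]; rfl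

open Classical in
/-- integral version of `cutR` -/
noncomputable def cutZ (W : Finset Λ) : AddMonoidAlgebra ℤ Λ →ₗ[ℤ] AddMonoidAlgebra ℤ Λ where
  toFun a := .ofCoeff (a.coeff.filter (· ∉ W))
  map_add' a b := by
    rw [AddMonoidAlgebra.coeff_add, Finsupp.filter_add]; rfl
  map_smul' c a := by
    rw [AddMonoidAlgebra.coeff_smul, Finsupp.filter_smul]; rfl

lemma cutR_coeff_of (W : Finset Λ) (a : AddMonoidAlgebra ℝ Λ) (i : Λ) (hi : i ∉ W) :
    (cutR W a).coeff i = a.coeff i := by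
  classical
  show (a.coeff.filter (· ∉ W)) i = _
  rw [Finsupp.filter_apply, if_pos hi]

lemma cutR_coeff_in (W : Finset Λ) (a : AddMonoidAlgebra ℝ Λ) (i : Λ) (hi : i ∈ W) :
    (cutR W a).coeff i = 0 := by
  classical
  show (a.coeff.filter (· ∉ W)) i = _
  rw [Finsupp.filter_apply, if_neg (not_not.mpr hi)]

lemma cutZ_coeff_of (W : Finset Λ) (a : AddMonoidAlgebra ℤ Λ) (i : Λ) (hi : i ∉ W) :
    (cutZ W a).coeff i = a.coeff i := by
  classical
  show (a.coeff.filter (· ∉ W)) i = _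
  rw [Finsupp.filter_apply, if_pos hi]

lemma cutZ_coeff_in (W : Finset Λ) (a : AddMonoidAlgebra ℤ Λ) (i : Λ) (hi : i ∈ W) :
    (cutZ W a).coeff i = 0 := by
  classical
  show (a.coeff.filter (· ∉ W)) i = _
  rw [Finsupp.filter_apply, if_neg (not_not.mpr hi)]

lemma cutR_toR (W : Finset Λ) (a : AddMonoidAlgebra ℤ Λ) : cutR W (toR a) = toR (cutZ W a) := by
  classical
  ext i
  by_cases hi : i ∈ W
  · rw [cutR_coeff_in W _ i hi, toR_coeff, cutZ_coeff_in W _ i hi]; simp
  · rw [cutR_coeff_of W _ i hi, toR_coeff, toR_coeff, cutZ_coeff_of W _ i hi]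

lemma norm_cutR_le (W : Finset Λ) (a : AddMonoidAlgebra ℝ Λ) : ‖cutR W a‖ ≤ ‖a‖ := by
  classical
  have hsub : (cutR W a).coeff.support ⊆ a.coeff.support := by
    intro i hi
    rw [Finsupp.mem_support_iff] at hi ⊢
    intro h
    apply hi
    by_cases hW : i ∈ W
    · exact cutR_coeff_in W a i hW
    · rw [cutR_coeff_of W a i hW, h]
  have h1 : ‖cutR W a‖ ^ 2 ≤ ‖a‖ ^ 2 := by
    rw [norm_sq_eq (cutR W a) a.coeff.support hsub, norm_sq_eq a a.coeff.support subset_rfl]
    refine Finset.sum_le_sum fun i _ => ?_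
    by_cases hW : i ∈ W
    · rw [cutR_coeff_in W a i hW]
      have := sq_nonneg (a.coeff i)
      simpa using this
    · rw [cutR_coeff_of W a i hW]
  exact (sq_le_sq₀ (norm_nonneg _) (norm_nonneg _)).mp h1

lemma cutZ_eq_zero (W : Finset Λ) {a : AddMonoidAlgebra ℤ Λ} : cutZ W a = 0 ↔ a ∈ Sp W := by
  classical
  constructor
  · intro h i hi
    have : (cutZ W a).coeff i = 0 := by rw [h]; simp
    rw [cutZ_coeff_of W a i hi] at this
    exact this
  · intro h
    ext i
    by_cases hi : i ∈ W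
    · rw [cutZ_coeff_in W a i hi]; simp
    · rw [cutZ_coeff_of W a i hi, h i hi]; simp

/-- monotonicity of the covolume in the window -/
theorem cv_mono (I : Ideal (AddMonoidAlgebra ℤ Λ)) {W1 W : Finset Λ} (h : W1 ⊆ W) :
    cv I W1 ≤ cv I W := by
  let P : Submodule ℤ (Lt I W) := (Lt I W1).comap (Lt I W).subtype
  have hle : Lt I W1 ≤ Lt I W := fun a ha => ⟨ha.1, Sp_mono h ha.2⟩
  let e : P ≃ₗ[ℤ] Lt I W1 := Submodule.comapSubtypeEquivOfLe hle
  let bP : Basis (Fin (rk I W1)) ℤ P := (Module.finBasis ℤ (Lt I W1)).map e.symm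
  haveI : Module.IsTorsionFree ℤ ((Lt I W) ⧸ P) := by
    apply Module.IsTorsionFree.of_smul_eq_zero
    intro n x hx
    by_contra hcon
    push Not at hcon
    obtain ⟨hn, hx0⟩ := hcon
    obtain ⟨y, rfl⟩ := Submodule.Quotient.mk_surjective P x
    apply hx0
    rw [Submodule.Quotient.mk_eq_zero]
    rw [← Submodule.Quotient.mk_smul, Submodule.Quotient.mk_eq_zero] at hx
    refine ⟨y.2.1, ?_⟩
    intro i hi
    have h1 := hx.2 i hi
    have h2 : n * (y : AddMonoidAlgebra ℤ Λ).coeff i = 0 := by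
      rw [← smul_eq_mul, ← AddMonoidAlgebra.coeff_smul_apply]
      exact h1
    rcases mul_eq_zero.mp h2 with h3 | h3
    · exact absurd h3 hn
    · exact h3
  haveI : Module.Finite ℤ ((Lt I W) ⧸ P) := inferInstance
  let bQ := Module.finBasis ℤ ((Lt I W) ⧸ P)
  let B := Module.Basis.sumQuot bP bQ
  have h1 : GZ (fun s => (B s : AddMonoidAlgebra ℤ Λ)) = cv I W := cov_eq (Lt I W) B
  have h2 : (fun s => toR (B s : AddMonoidAlgebra ℤ Λ)) =
      Sum.elim (fun i => toR (bas I W1 i))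
        (fun k => toR (B (Sum.inr k) : AddMonoidAlgebra ℤ Λ)) := by
    funext s
    rcases s with i | k
    · show toR ((B (Sum.inl i) : Lt I W) : AddMonoidAlgebra ℤ Λ) = toR (bas I W1 i)
      rw [Module.Basis.sumQuot_inl]
      rfl
    · rfl
  have h3 := G_sum_ge (𝕜 := ℝ) (fun i => toR (bas I W1 i))
    (fun k => toR (B (Sum.inr k) : AddMonoidAlgebra ℤ Λ)) (cutR W1) (norm_cutR_le W1)
    (fun i => by
      rw [cutR_toR, (cutZ_eq_zero W1).mpr (bas_mem I W1 i).2, map_zero])
  rw [← h2] at h3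
  have h4 : G ℝ (fun s => toR (B s : AddMonoidAlgebra ℤ Λ)) = cv I W := h1
  rw [h4] at h3
  have h5 : (fun k => cutR W1 (toR (B (Sum.inr k) : AddMonoidAlgebra ℤ Λ))) =
      fun k => toR (cutZ W1 (B (Sum.inr k) : AddMonoidAlgebra ℤ Λ)) := by
    funext k; exact cutR_toR _ _
  rw [h5] at h3
  have h6 : LinearIndependent ℤ (fun k => cutZ W1 (B (Sum.inr k) : AddMonoidAlgebra ℤ Λ)) := by
    rw [Fintype.linearIndependent_iff]
    intro c hc
    have h7 : (∑ k, c k • B (Sum.inr k)) ∈ P := by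
      refine ⟨(∑ k, c k • B (Sum.inr k)).2.1, ?_⟩
      refine (cutZ_eq_zero W1).mp ?_
      simp only [Submodule.subtype_apply, Submodule.coe_sum, Submodule.coe_smul, map_sum, map_smul]
      exact hc
    have h8 : ∑ k, c k • bQ k = 0 := by
      rw [← Submodule.Quotient.mk_eq_zero P] at h7
      rw [← h7, ← Submodule.mkQ_apply, map_sum]
      refine Finset.sum_congr rfl fun k _ => ?_
      rw [map_smul, Submodule.mkQ_apply, Module.Basis.sumQuot_inr]
    exact Fintype.linearIndependent_iff.mp bQ.linearIndependent c h8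
  have h7 := one_le_GZ _ h6
  have h8 : (1 : ℝ) ≤ G ℝ (fun k => toR (cutZ W1 (B (Sum.inr k) : AddMonoidAlgebra ℤ Λ))) := h7
  have h9 : cv I W1 = G ℝ (fun i => toR (bas I W1 i)) := rfl
  have h10 := one_le_cv I W1
  rw [h9] at h10 ⊢
  nlinarith

end H44.Tys
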