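import Pool.Agent.H44.Tys.Thin3
import Pool.Agent.H44.Tys.Idx

/-!
# Structure of the grading group
-/

set_option linter.all false

namespace H44.Tys

open Module

/-- structure theorem -/
theorem str (Λ : Type*) [AddCommGroup Λ] [AddGroup.FG Λ] :
    ∃ (m : ℕ) (G : Type) (_ : AddCommGroup G) (_ : Fintype G),
      Nonempty (Λ ≃+ (Fin m → ℤ) × G) := by
  obtain ⟨n, ι, hι, p, hp, e, ⟨φ⟩⟩ := AddCommGroup.equiv_free_prod_directSum_zmod Λ
  haveI : ∀ i, NeZero (p i ^ e i) := fun i => ⟨(pow_pos (hp i).pos _).ne'⟩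
  haveI : ∀ i, Fintype (ZMod (p i ^ e i)) := fun i => ZMod.fintype _
  classical
  refine ⟨n, (∀ i, ZMod (p i ^ e i)), inferInstance, inferInstance, ⟨?_⟩⟩
  exact φ.trans (AddEquiv.prodCongr
    (Finsupp.linearEquivFunOnFinite ℤ ℤ (Fin n)).toAddEquiv
    (DirectSum.addEquivProd (fun i => ZMod (p i ^ e i))))

/-- the rank -/
lemma rank_of_equiv {Λ : Type*} [AddCommGroup Λ] [Module.Finite ℤ Λ] {m : ℕ} {G : Type*}
    [AddCommGroup G] [Fintype G] (φ : Λ ≃+ (Fin m → ℤ) × G) : finrank ℤ Λ = m := by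
  let w : Λ →ₗ[ℤ] (Fin m → ℤ) := ((AddMonoidHom.fst _ _).comp φ.toAddMonoidHom).toIntLinearMap
  have hw : Function.Surjective w := by
    intro v
    exact ⟨φ.symm (v, 0), by
      show (φ (φ.symm (v, 0))).1 = v
      rw [φ.apply_symm_apply]⟩
  have h1 := Submodule.finrank_quotient_add_finrank (LinearMap.ker w)
  have h2 : finrank ℤ (Λ ⧸ LinearMap.ker w) = m := by
    rw [(w.quotKerEquivOfSurjective hw).finrank_eq, Module.finrank_fintype_fun_eq_card,
      Fintype.card_fin]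
  have h3 : finrank ℤ (LinearMap.ker w) = 0 := by
    rw [Module.finrank_eq_zero_iff]
    rintro ⟨x, hx⟩
    refine ⟨Fintype.card G, by
      have : 0 < Fintype.card G := Fintype.card_pos_iff.mpr ⟨0⟩
      exact_mod_cast this.ne', ?_⟩
    apply Subtype.ext
    show ((Fintype.card G : ℕ) : ℤ) • x = 0
    rw [natCast_zsmul]
    apply φ.injective
    rw [map_nsmul, map_zero]
    have h4 : (φ x).1 = 0 := hx
    refine Prod.ext ?_ ?_
    · rw [Prod.smul_fst, h4, smul_zero]; rfl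
    · rw [Prod.smul_snd]
      exact card_nsmul_eq_zero
  omega

lemma surj_of_equiv {Λ : Type*} [AddCommGroup Λ] {m : ℕ} {G : Type*}
    [AddCommGroup G] (φ : Λ ≃+ (Fin m → ℤ) × G) :
    Function.Surjective ((AddMonoidHom.fst (Fin m → ℤ) G).comp φ.toAddMonoidHom) := by
  intro v
  exact ⟨φ.symm (v, 0), by
    show (φ (φ.symm (v, 0))).1 = v
    rw [φ.apply_symm_apply]⟩

/-- a finitely generated group which is not torsion has a nonzero homomorphism to the integers -/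
lemma exists_hom {Λ : Type*} [AddCommGroup Λ] [AddGroup.FG Λ]
    (hnt : ∃ x : Λ, ∀ n : ℤ, n ≠ 0 → n • x ≠ 0) : ∃ (h : Λ →+ ℤ) (x : Λ), h x ≠ 0 := by
  obtain ⟨m, G, _, _, ⟨φ⟩⟩ := str Λ
  obtain ⟨x, hx⟩ := hnt
  by_contra hcon
  push Not at hcon
  have h1 : (φ x).1 = 0 := by
    funext l
    exact hcon (((Pi.evalAddMonoidHom (fun _ : Fin m => ℤ) l).comp
      (AddMonoidHom.fst (Fin m → ℤ) G)).comp φ.toAddMonoidHom) x
  apply hx (Fintype.card G) (by
    have : 0 < Fintype.card G := Fintype.card_pos_iff.mpr ⟨0⟩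
    exact_mod_cast this.ne')
  rw [natCast_zsmul]
  apply φ.injective
  rw [map_nsmul, map_zero]
  refine Prod.ext ?_ ?_
  · rw [Prod.smul_fst, h1, smul_zero]; rfl
  · rw [Prod.smul_snd]
    exact card_nsmul_eq_zero

section twist

variable {Λ : Type*} [AddCommGroup Λ]

/-- the point as a monoid homomorphism -/
noncomputable def Xe (ev : AddMonoidAlgebra ℤ Λ →+* ℂ) : Multiplicative Λ →* ℂ where
  toFun x := ev (AddMonoidAlgebra.single x.toAdd 1)
  map_one' := by rw [toAdd_one, ← AddMonoidAlgebra.one_def, map_one]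
  map_mul' x y := by
    rw [toAdd_mul, ← map_mul, AddMonoidAlgebra.single_mul_single, one_mul]

lemma Xe_ne (ev : AddMonoidAlgebra ℤ Λ →+* ℂ) (μ : Λ) :
    ev (AddMonoidAlgebra.single μ 1) ≠ 0 := by
  intro h
  have h1 : ev (AddMonoidAlgebra.single μ 1) * ev (AddMonoidAlgebra.single (-μ) 1) = 1 := by
    rw [← map_mul, AddMonoidAlgebra.single_mul_single, add_neg_cancel, one_mul,
      ← AddMonoidAlgebra.one_def, map_one]
  rw [h, zero_mul] at h1
  exact zero_ne_one h1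

lemma ev_eq_sum (ev : AddMonoidAlgebra ℤ Λ →+* ℂ) (a : AddMonoidAlgebra ℤ Λ) :
    ev a = ∑ μ ∈ a.coeff.support, (a.coeff μ : ℂ) * ev (AddMonoidAlgebra.single μ 1) := by
  conv_lhs => rw [← AddMonoidAlgebra.sum_coeff_single a]
  rw [Finsupp.sum, map_sum]
  refine Finset.sum_congr rfl fun μ _ => ?_
  have h1 : (AddMonoidAlgebra.single μ (a.coeff μ) : AddMonoidAlgebra ℤ Λ) =
      (a.coeff μ) • AddMonoidAlgebra.single μ (1 : ℤ) := by
    rw [AddMonoidAlgebra.smul_single]; simp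
  rw [h1, map_zsmul, zsmul_eq_mul]

/-- no one-parameter subgroup preserves the relations -/
theorem no_twist (𝓕 : Set (AddMonoidAlgebra ℤ Λ)) (ev : AddMonoidAlgebra ℤ Λ →+* ℂ)
    (hev : ∀ f ∈ 𝓕, ev f = 0)
    (hfin : {ψ : AddMonoidAlgebra ℤ Λ →+* ℂ | ∀ f ∈ 𝓕, ψ f = 0}.Finite)
    (h : Λ →+ ℤ) (hc : ∀ f ∈ 𝓕, ∀ μ ∈ f.coeff.support, ∀ ν ∈ f.coeff.support, h μ = h ν)
    (x : Λ) : h x = 0 := by
  by_contra hx
  have h2 : (2 : ℂ) ≠ 0 := two_ne_zero
  let U : ℕ → Multiplicative Λ →* ℂ := fun n =>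
    { toFun := fun y => ev (AddMonoidAlgebra.single y.toAdd 1) * ((2 : ℂ) ^ n) ^ (h y.toAdd)
      map_one' := by
        rw [toAdd_one, map_zero, zpow_zero, mul_one, ← AddMonoidAlgebra.one_def, map_one]
      map_mul' := by
        intro y z
        rw [toAdd_mul, map_add, zpow_add₀ (pow_ne_zero n h2)]
        have : ev (AddMonoidAlgebra.single (y.toAdd + z.toAdd) 1) =
            ev (AddMonoidAlgebra.single y.toAdd 1) * ev (AddMonoidAlgebra.single z.toAdd 1) := by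
          rw [← map_mul, AddMonoidAlgebra.single_mul_single, one_mul]
        rw [this]; ring }
  have hU : ∀ n μ, U n (.ofAdd μ) =
      ev (AddMonoidAlgebra.single μ 1) * ((2 : ℂ) ^ n) ^ (h μ) := fun n μ => rfl
  have hmem : ∀ n, liftZ (U n) ∈ {ψ : AddMonoidAlgebra ℤ Λ →+* ℂ | ∀ f ∈ 𝓕, ψ f = 0} := by
    intro n f hf
    rw [liftZ_eq]
    by_cases hs : f.coeff.support = ∅
    · rw [hs, Finset.sum_empty]
    · obtain ⟨μ0, hμ0⟩ := Finset.nonempty_iff_ne_empty.mpr hs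
      have h3 : ∑ μ ∈ f.coeff.support, (f.coeff μ : ℂ) * U n (.ofAdd μ) =
          ((2 : ℂ) ^ n) ^ (h μ0) * ev f := by
        rw [ev_eq_sum ev f, Finset.mul_sum]
        refine Finset.sum_congr rfl fun μ hμ => ?_
        rw [hU, hc f hf μ hμ μ0 hμ0]
        ring
      rw [h3, hev f hf, mul_zero]
  have hinj : Function.Injective (fun n => liftZ (U n)) := by
    intro m n hmn
    have h3 := congrArg (fun ψ : AddMonoidAlgebra ℤ Λ →+* ℂ => ψ (AddMonoidAlgebra.single x 1)) hmn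
    simp only [liftZ_single, hU] at h3
    have h4 := mul_left_cancel₀ (Xe_ne ev x) h3
    have h5 : ‖((2 : ℂ) ^ m) ^ (h x)‖ = ‖((2 : ℂ) ^ n) ^ (h x)‖ := by rw [h4]
    rw [norm_zpow, norm_zpow, norm_pow, norm_pow, Complex.norm_ofNat, ← zpow_natCast,
      ← zpow_natCast, ← zpow_mul, ← zpow_mul] at h5
    have h6 := zpow_right_injective₀ (by norm_num : (0 : ℝ) < 2) (by norm_num) h5
    have h7 := mul_right_cancel₀ hx h6
    exact_mod_cast h7
  exact Set.infinite_of_injective_forall_mem hinj hmem hfin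

/-- torsion elements have absolute value one -/
lemma norm_torsion (ev : AddMonoidAlgebra ℤ Λ →+* ℂ) (μ : Λ) (n : ℕ) (hn : n ≠ 0)
    (h : n • μ = 0) : ‖ev (AddMonoidAlgebra.single μ 1)‖ = 1 := by
  have h1 : ev (AddMonoidAlgebra.single μ 1) ^ n = 1 := by
    rw [← map_pow, AddMonoidAlgebra.single_pow, h, one_pow, ← AddMonoidAlgebra.one_def, map_one]
  exact Complex.norm_eq_one_of_pow_eq_one h1 hn

end twist

end H44.Tys
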