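import Pool.Agent.H44.Tys.LA
import Pool.Agent.H44.Tys.Bez
import Pool.Agent.H44.Tys.JL
import Pool.Agent.H44.Tys.Step2
import Pool.Agent.H44.Tys.Nzd

/-!
# The thin window argument in rank two
-/

set_option linter.all false

namespace H44.Tys

open Polynomial Module

/-- data for the thin window -/
structure Th (Λ G J : Type*) [AddCommGroup Λ] [AddCommGroup G] where
  φ : Λ ≃+ ℤ × ℤ × G
  f : J → AddMonoidAlgebra ℤ Λ
  d : J → ℕ
  D : ℕ
  hD : 1 ≤ D
  hd : ∀ j, d j ≤ D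
  hy : ∀ j, ∀ μ ∈ (f j).coeff.support, 0 ≤ (φ μ).1
  hz : ∀ j, ∀ μ ∈ (f j).coeff.support, 0 ≤ (φ μ).2.1 ∧ (φ μ).2.1 ≤ d j
  ev : AddMonoidAlgebra ℤ Λ →+* ℂ
  hev : ∀ j, ev (f j) = 0
  hfin : {ψ : AddMonoidAlgebra ℤ Λ →+* ℂ | ∀ j, ψ (f j) = 0}.Finite

namespace Th

variable {Λ G J : Type*} [AddCommGroup Λ] [AddCommGroup G] [Fintype G] [DecidableEq G]
  (T : Th Λ G J)

def pt (i c : ℤ) (g : G) : Λ := T.φ.symm (i, c, g)

omit [Fintype G] [DecidableEq G] in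
lemma φ_pt (i c : ℤ) (g : G) : T.φ (T.pt i c g) = (i, c, g) := T.φ.apply_symm_apply _

omit [Fintype G] [DecidableEq G] in
lemma pt_φ (μ : Λ) : T.pt (T.φ μ).1 (T.φ μ).2.1 (T.φ μ).2.2 = μ := T.φ.symm_apply_apply _

omit [Fintype G] [DecidableEq G] in
lemma pt_add (i c i' c' : ℤ) (g g' : G) :
    T.pt i c g + T.pt i' c' g' = T.pt (i + i') (c + c') (g + g') := by
  unfold pt
  rw [← map_add]; rfl

omit [Fintype G] [DecidableEq G] in
lemma nsmul_pt (n : ℕ) (i c : ℤ) (g : G) : n • T.pt i c g = T.pt (n * i) (n * c) (n • g) := by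
  unfold pt
  rw [← map_nsmul]
  congr 1

omit [Fintype G] [DecidableEq G] in
lemma pt_inj {i c i' c' : ℤ} {g g' : G} (h : T.pt i c g = T.pt i' c' g') :
    i = i' ∧ c = c' ∧ g = g' := by
  have := congrArg T.φ h
  rw [φ_pt, φ_pt] at this
  simpa using this

abbrev Cols := Fin (2 * T.D) × G

/-- the row of a shifted relation -/
noncomputable def row (j : J) (c : ℕ) (g : G) (κ : T.Cols) : ℤ[X] :=
  ∑ μ ∈ (T.f j).coeff.support,
    if (T.φ μ).2.1 + c = (κ.1 : ℤ) ∧ (T.φ μ).2.2 + g = κ.2 then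
      monomial (T.φ μ).1.toNat ((T.f j).coeff μ) else 0

omit [Fintype G] in
lemma row_coeff (j : J) (c : ℕ) (g : G) (κ : T.Cols) (i : ℕ) :
    (T.row j c g κ).coeff i = (T.f j).coeff (T.pt i ((κ.1 : ℤ) - c) (κ.2 - g)) := by
  classical
  unfold row
  rw [finset_sum_coeff]
  set μ0 := T.pt i ((κ.1 : ℤ) - c) (κ.2 - g) with hμ0
  rw [Finset.sum_eq_single μ0]
  · rw [hμ0, φ_pt]
    rw [if_pos ⟨by simp, by simp⟩, coeff_monomial, if_pos (by simp)]
  · intro μ hμ hne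
    split_ifs with h
    · rw [coeff_monomial, if_neg]
      intro h1
      apply hne
      rw [hμ0, ← T.pt_φ μ]
      have h2 := T.hy j μ hμ
      have h3 : (T.φ μ).1 = i := by omega
      have h4 : (T.φ μ).2.1 = (κ.1 : ℤ) - c := by omega
      have h5 : (T.φ μ).2.2 = κ.2 - g := by rw [← h.2]; abel
      rw [h3, h4, h5]
    · exact coeff_zero _
  · intro h
    rw [Finsupp.notMem_support_iff.mp h]
    simp

/-- norms of the rows -/
lemma nrm_row_le (j : J) (c : ℕ) (g : G) : nrm (T.row j c g) ≤ l2 (T.f j) := by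
  classical
  unfold nrm l2
  rw [norm_sq_eq (toR (T.f j)) (T.f j).coeff.support (by rw [supp_toR])]
  rw [Finset.sum_sigma']
  let F : (Σ _ : T.Cols, ℕ) → Λ := fun x => T.pt x.2 ((x.1.1 : ℤ) - c) (x.1.2 - g)
  have h1 : ∀ x ∈ (Finset.univ : Finset T.Cols).sigma (fun κ => (T.row j c g κ).support),
      (((T.row j c g x.1).coeff x.2 : ℤ) : ℝ) ^ 2 = ((toR (T.f j)).coeff (F x)) ^ 2 := by
    intro x _
    rw [row_coeff, toR_coeff]
  rw [Finset.sum_congr rfl h1]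
  have hinj : Set.InjOn F ((Finset.univ : Finset T.Cols).sigma
      (fun κ => (T.row j c g κ).support) : Set (Σ _ : T.Cols, ℕ)) := by
    rintro ⟨⟨κ, g1⟩, i⟩ _ ⟨⟨κ', g1'⟩, i'⟩ _ h
    obtain ⟨h2, h3, h4⟩ := T.pt_inj h
    simp only at h2 h3 h4
    have h5 : i = i' := by exact_mod_cast h2
    have h6 : κ = κ' := by ext; omega
    have h7 : g1 = g1' := sub_left_injective h4
    subst h5 h6 h7
    rfl
  rw [← Finset.sum_image (f := fun μ => ((toR (T.f j)).coeff μ) ^ 2) hinj]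
  refine Finset.sum_le_sum_of_subset_of_nonneg ?_ fun _ _ _ => sq_nonneg _
  intro μ hμ
  obtain ⟨x, hx, rfl⟩ := Finset.mem_image.mp hμ
  rw [Finset.mem_sigma] at hx
  have h8 := mem_support_iff.mp hx.2
  rw [row_coeff] at h8
  exact Finsupp.mem_support_iff.mpr h8

/-- the generating identity of the rows -/
lemma star {B : Type*} [CommRing B] (U : Multiplicative Λ →* B) (j : J) (c : ℕ) (g : G)
    (hc : c + T.d j < 2 * T.D) :
    ∑ κ : T.Cols, (T.row j c g κ).eval₂ (Int.castRingHom B) (U (.ofAdd (T.pt 1 0 0))) *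
      U (.ofAdd (T.pt 0 κ.1 κ.2)) =
    U (.ofAdd (T.pt 0 c g)) *
      ∑ μ ∈ (T.f j).coeff.support, ((T.f j).coeff μ : B) * U (.ofAdd μ) := by
  classical
  have hU : ∀ a b : Λ, U (.ofAdd (a + b)) = U (.ofAdd a) * U (.ofAdd b) := by
    intro a b; rw [ofAdd_add, map_mul]
  have hUn : ∀ (n : ℕ) (a : Λ), U (.ofAdd (n • a)) = U (.ofAdd a) ^ n := by
    intro n a; rw [ofAdd_nsmul, map_pow]
  have h1 : ∀ κ : T.Cols,
      (T.row j c g κ).eval₂ (Int.castRingHom B) (U (.ofAdd (T.pt 1 0 0))) *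
        U (.ofAdd (T.pt 0 κ.1 κ.2)) =
      ∑ μ ∈ (T.f j).coeff.support,
        if (T.φ μ).2.1 + c = (κ.1 : ℤ) ∧ (T.φ μ).2.2 + g = κ.2 then
          U (.ofAdd (T.pt 0 c g)) * (((T.f j).coeff μ : B) * U (.ofAdd μ)) else 0 := by
    intro κ
    unfold row
    rw [eval₂_finset_sum, Finset.sum_mul]
    refine Finset.sum_congr rfl fun μ hμ => ?_
    split_ifs with h
    · rw [eval₂_monomial, ← hUn]
      have h2 : T.pt 0 c g + μ = ((T.φ μ).1.toNat • T.pt 1 0 0) + T.pt 0 κ.1 κ.2 := by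
        have h3 := T.hy j μ hμ
        rw [nsmul_pt, pt_add]
        conv_lhs => rw [← T.pt_φ μ]
        rw [pt_add]
        have h4 : (0 : ℤ) + (T.φ μ).1 = ((T.φ μ).1.toNat : ℤ) * 1 + 0 := by omega
        have h5 : (c : ℤ) + (T.φ μ).2.1 = ((T.φ μ).1.toNat : ℤ) * 0 + κ.1 := by
          have := h.1
          omega
        have h6 : g + (T.φ μ).2.2 = (T.φ μ).1.toNat • (0 : G) + κ.2 := by
          rw [smul_zero, zero_add, ← h.2, add_comm]
        rw [h4, h5, h6]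
      have h7 : U (.ofAdd (T.pt 0 c g)) * U (.ofAdd μ) =
          U (.ofAdd ((T.φ μ).1.toNat • T.pt 1 0 0)) * U (.ofAdd (T.pt 0 κ.1 κ.2)) := by
        rw [← hU, ← hU, h2]
      rw [eq_intCast]
      calc ((T.f j).coeff μ : B) * U (.ofAdd ((T.φ μ).1.toNat • T.pt 1 0 0)) *
            U (.ofAdd (T.pt 0 κ.1 κ.2)) =
          ((T.f j).coeff μ : B) * (U (.ofAdd ((T.φ μ).1.toNat • T.pt 1 0 0)) *
            U (.ofAdd (T.pt 0 κ.1 κ.2))) := by ring
        _ = _ := by rw [← h7]; ring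
    · rw [eval₂_zero, zero_mul]
  rw [Finset.sum_congr rfl fun κ _ => h1 κ, Finset.sum_comm, Finset.mul_sum]
  refine Finset.sum_congr rfl fun μ hμ => ?_
  have h3 := T.hz j μ hμ
  have h4 : ((T.φ μ).2.1 + c).toNat < 2 * T.D := by omega
  rw [Finset.sum_eq_single (⟨⟨((T.φ μ).2.1 + c).toNat, h4⟩, (T.φ μ).2.2 + g⟩ : T.Cols)]
  · rw [if_pos]
    refine ⟨?_, rfl⟩
    simp only
    omega
  · rintro ⟨κ, g'⟩ _ hne
    rw [if_neg]
    rintro ⟨h5, h6⟩
    apply hne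
    simp only at h5 h6
    refine Prod.ext ?_ h6.symm
    ext
    simp only
    omega
  · intro h; exact absurd (Finset.mem_univ _) h

/-- evaluation at the point as a monoid homomorphism -/
noncomputable def Xm : Multiplicative Λ →* ℂ where
  toFun x := T.ev (AddMonoidAlgebra.single x.toAdd 1)
  map_one' := by rw [toAdd_one, ← AddMonoidAlgebra.one_def, map_one]
  map_mul' x y := by
    rw [toAdd_mul, ← map_mul, AddMonoidAlgebra.single_mul_single, one_mul]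

omit [Fintype G] [DecidableEq G] in
lemma sum_ev (a : AddMonoidAlgebra ℤ Λ) :
    ∑ μ ∈ a.coeff.support, (a.coeff μ : ℂ) * T.Xm (.ofAdd μ) = T.ev a := by
  conv_rhs => rw [← AddMonoidAlgebra.sum_coeff_single a]
  rw [Finsupp.sum, map_sum]
  refine Finset.sum_congr rfl fun μ _ => ?_
  have h1 : (AddMonoidAlgebra.single μ (a.coeff μ) : AddMonoidAlgebra ℤ Λ) =
      (a.coeff μ) • AddMonoidAlgebra.single μ (1 : ℤ) := by
    rw [AddMonoidAlgebra.smul_single]; simp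
  rw [h1, map_zsmul, zsmul_eq_mul]
  rfl

/-- the base coordinate -/
noncomputable def y0 : ℂ := T.Xm (.ofAdd (T.pt 1 0 0))

omit [Fintype G] [DecidableEq G] in
lemma Xm_ne (μ : Λ) : T.Xm (.ofAdd μ) ≠ 0 := by
  intro h
  have h1 : T.Xm (.ofAdd μ) * T.Xm (.ofAdd (-μ)) = 1 := by
    rw [← map_mul, ← ofAdd_add, add_neg_cancel, ofAdd_zero, map_one]
  rw [h, zero_mul] at h1
  exact zero_ne_one h1

lemma Φ_row (j : J) (c : ℕ) (g : G) (hc : c + T.d j < 2 * T.D) :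
    ∑ κ : T.Cols, (castC (T.row j c g κ)).eval T.y0 * T.Xm (.ofAdd (T.pt 0 κ.1 κ.2)) = 0 := by
  have h := T.star T.Xm j c g hc
  rw [T.sum_ev, T.hev, mul_zero] at h
  rw [← h]
  refine Finset.sum_congr rfl fun κ _ => ?_
  congr 1
  show ((T.row j c g κ).map (Int.castRingHom ℂ)).eval _ = _
  rw [eval_map]
  rfl

end Th

end H44.Tys
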