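import Pool.Agent.H44.Tys.Thin

/-!
# The thin window argument in rank two, second part
-/

set_option linter.all false

namespace H44.Tys

open Polynomial Module

namespace Th

variable {Λ G J : Type*} [AddCommGroup Λ] [AddCommGroup G] [Fintype G] [DecidableEq G]
  (T : Th Λ G J)

noncomputable def toC : AddMonoidAlgebra ℤ Λ →+* AddMonoidAlgebra ℂ Λ :=
  AddMonoidAlgebra.mapRingHom Λ (Int.castRingHom ℂ)

omit [AddCommGroup Λ] in
lemma toC_coeff [AddCommGroup Λ] (a : AddMonoidAlgebra ℤ Λ) (i : Λ) :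
    (toC a).coeff i = (a.coeff i : ℂ) := by
  simp [toC]

/-- the group elements in the complex group ring -/
noncomputable def Sg (Λ : Type*) [AddCommGroup Λ] : Multiplicative Λ →* AddMonoidAlgebra ℂ Λ where
  toFun x := AddMonoidAlgebra.single x.toAdd 1
  map_one' := by rw [toAdd_one, ← AddMonoidAlgebra.one_def]
  map_mul' x y := by rw [toAdd_mul, AddMonoidAlgebra.single_mul_single, one_mul]

lemma Sg_apply (μ : Λ) : Sg Λ (.ofAdd μ) = AddMonoidAlgebra.single μ 1 := rfl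

lemma sum_Sg (a : AddMonoidAlgebra ℤ Λ) :
    ∑ μ ∈ a.coeff.support, (a.coeff μ : AddMonoidAlgebra ℂ Λ) * Sg Λ (.ofAdd μ) = toC a := by
  conv_rhs => rw [← AddMonoidAlgebra.sum_coeff_single a]
  rw [Finsupp.sum, map_sum]
  refine Finset.sum_congr rfl fun μ _ => ?_
  have h1 : (AddMonoidAlgebra.single μ (a.coeff μ) : AddMonoidAlgebra ℤ Λ) =
      (a.coeff μ) • AddMonoidAlgebra.single μ (1 : ℤ) := by
    rw [AddMonoidAlgebra.smul_single]; simp
  rw [h1, map_zsmul, zsmul_eq_mul]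
  congr 1
  simp [toC, Sg]

omit [Fintype G] in
/-- coefficients of the combination of the shifts -/
lemma coeff_eval_mul (p : ℂ[X]) (c c' : ℤ) (g g' : G) (i : ℕ) :
    (p.eval₂ (algebraMap ℂ (AddMonoidAlgebra ℂ Λ)) (Sg Λ (.ofAdd (T.pt 1 0 0))) *
      Sg Λ (.ofAdd (T.pt 0 c g))).coeff (T.pt i c' g') =
      if c = c' ∧ g = g' then p.coeff i else 0 := by
  classical
  rw [eval₂_eq_sum_range, Finset.sum_mul, AddMonoidAlgebra.coeff_sum, Finsupp.finset_sum_apply]
  have h1 : ∀ n : ℕ, (algebraMap ℂ (AddMonoidAlgebra ℂ Λ)) (p.coeff n) *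
      Sg Λ (.ofAdd (T.pt 1 0 0)) ^ n * Sg Λ (.ofAdd (T.pt 0 c g)) =
      AddMonoidAlgebra.single (T.pt n c g) (p.coeff n) := by
    intro n
    rw [mul_assoc, ← map_pow, ← map_mul, ← ofAdd_nsmul, ← ofAdd_add, nsmul_pt, pt_add, Sg_apply]
    rw [← Algebra.smul_def, AddMonoidAlgebra.smul_single]
    simp
  have h2 : ∀ n ∈ Finset.range (p.natDegree + 1),
      ((algebraMap ℂ (AddMonoidAlgebra ℂ Λ)) (p.coeff n) *
      Sg Λ (.ofAdd (T.pt 1 0 0)) ^ n * Sg Λ (.ofAdd (T.pt 0 c g))).coeff (T.pt i c' g') =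
      if n = i then (if c = c' ∧ g = g' then p.coeff n else 0) else 0 := by
    intro n _
    rw [h1, AddMonoidAlgebra.coeff_single, Finsupp.single_apply]
    by_cases h3 : T.pt (n : ℤ) c g = T.pt i c' g'
    · rw [if_pos h3]
      obtain ⟨h4, h5, h6⟩ := T.pt_inj h3
      rw [if_pos (by exact_mod_cast h4), if_pos ⟨h5, h6⟩]
    · rw [if_neg h3]
      split_ifs with h4 h5
      · exfalso
        apply h3
        rw [h4, h5.1, h5.2]
      · rfl
      · rfl
  rw [Finset.sum_congr rfl h2]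
  by_cases hi : i ∈ Finset.range (p.natDegree + 1)
  · rw [Finset.sum_ite_eq' _ i, if_pos hi]
  · rw [Finset.sum_ite_eq' _ i, if_neg hi]
    rw [Finset.mem_range] at hi
    rw [coeff_eq_zero_of_natDegree_lt (by omega)]
    simp

/-- the row of an index, zero if it does not fit -/
noncomputable def rw0 (a : J × ℕ × G) (κ : T.Cols) : ℤ[X] :=
  if a.2.1 + T.d a.1 < 2 * T.D then T.row a.1 a.2.1 a.2.2 κ else 0

/-- the rows of one relation which is not a zero divisor are independent -/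
lemma indep (jT : J) (hnz : ∀ a : AddMonoidAlgebra ℂ Λ, toC (T.f jT) * a = 0 → a = 0) :
    LinearIndepOn (FractionRing ℂ[X]) (fun a κ => castF (T.rw0 a κ))
      ((({jT} : Finset J) ×ˢ (Finset.range (2 * T.D - T.d jT) ×ˢ (Finset.univ : Finset G)) :
        Finset (J × ℕ × G)) : Set (J × ℕ × G)) := by
  classical
  set S0 := (({jT} : Finset J) ×ˢ (Finset.range (2 * T.D - T.d jT) ×ˢ (Finset.univ : Finset G)) :
        Finset (J × ℕ × G)) with hS0
  show LinearIndependent (FractionRing ℂ[X]) _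
  rw [← LinearIndependent.iff_fractionRing ℂ[X] (FractionRing ℂ[X])]
  show LinearIndepOn ℂ[X] (fun a κ => castF (T.rw0 a κ)) (S0 : Set (J × ℕ × G))
  rw [linearIndepOn_finset_iff]
  intro α hα
  have hmem : ∀ a ∈ S0, a.1 = jT ∧ a.2.1 + T.d jT < 2 * T.D := by
    intro a ha
    rw [hS0, Finset.mem_product, Finset.mem_product, Finset.mem_singleton, Finset.mem_range] at ha
    exact ⟨ha.1, by omega⟩
  -- the polynomial identity in each column
  have h1 : ∀ κ : T.Cols, ∑ a ∈ S0, α a * castC (T.row jT a.2.1 a.2.2 κ) = 0 := by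
    intro κ
    have h2 := congrFun hα κ
    rw [Finset.sum_apply] at h2
    apply IsFractionRing.injective ℂ[X] (FractionRing ℂ[X])
    rw [map_sum, map_zero]
    rw [Pi.zero_apply] at h2
    rw [← h2]
    refine Finset.sum_congr rfl fun a ha => ?_
    rw [map_mul, Pi.smul_apply, Algebra.smul_def]
    congr 1
    obtain ⟨h3, h4⟩ := hmem a ha
    show _ = castF (T.rw0 a κ)
    unfold rw0
    rw [h3, if_pos h4]
    rfl
  -- the combination
  let σ : ℂ[X] → AddMonoidAlgebra ℂ Λ := fun p =>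
    p.eval₂ (algebraMap ℂ (AddMonoidAlgebra ℂ Λ)) (Sg Λ (.ofAdd (T.pt 1 0 0)))
  let P : AddMonoidAlgebra ℂ Λ := ∑ a ∈ S0, σ (α a) * Sg Λ (.ofAdd (T.pt 0 a.2.1 a.2.2))
  have hσmul : ∀ p q, σ (p * q) = σ p * σ q := fun p q => eval₂_mul _ _
  have hσsum : ∀ (s : Finset (J × ℕ × G)) (u : J × ℕ × G → ℂ[X]),
      σ (∑ a ∈ s, u a) = ∑ a ∈ s, σ (u a) := fun s u => eval₂_finset_sum _ _ _ _
  have hσcast : ∀ p : ℤ[X], σ (castC p) =
      p.eval₂ (Int.castRingHom _) (Sg Λ (.ofAdd (T.pt 1 0 0))) := by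
    intro p
    show (p.map (Int.castRingHom ℂ)).eval₂ _ _ = _
    rw [eval₂_map]
    congr 1
  have hP0 : toC (T.f jT) * P = 0 := by
    have h2 : ∀ a ∈ S0, toC (T.f jT) * (σ (α a) * Sg Λ (.ofAdd (T.pt 0 a.2.1 a.2.2))) =
        ∑ κ : T.Cols, σ (α a * castC (T.row jT a.2.1 a.2.2 κ)) *
          Sg Λ (.ofAdd (T.pt 0 κ.1 κ.2)) := by
      intro a ha
      obtain ⟨h3, h4⟩ := hmem a ha
      have h5 := T.star (Sg Λ) jT a.2.1 a.2.2 h4
      rw [sum_Sg] at h5
      calc toC (T.f jT) * (σ (α a) * Sg Λ (.ofAdd (T.pt 0 a.2.1 a.2.2))) =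
          σ (α a) * (Sg Λ (.ofAdd (T.pt 0 a.2.1 a.2.2)) * toC (T.f jT)) := by ring
        _ = _ := by
          rw [← h5, Finset.mul_sum]
          refine Finset.sum_congr rfl fun κ _ => ?_
          rw [hσmul, hσcast, mul_assoc]
    show toC (T.f jT) * (∑ a ∈ S0, σ (α a) * Sg Λ (.ofAdd (T.pt 0 a.2.1 a.2.2))) = 0
    rw [Finset.mul_sum, Finset.sum_congr rfl h2, Finset.sum_comm]
    refine Finset.sum_eq_zero fun κ _ => ?_
    rw [← Finset.sum_mul, ← hσsum, h1 κ]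
    show (0 : ℂ[X]).eval₂ _ _ * _ = 0
    rw [eval₂_zero, zero_mul]
  have hP := hnz P hP0
  intro a ha
  obtain ⟨h3, h4⟩ := hmem a ha
  ext i
  have h5 : P.coeff (T.pt i a.2.1 a.2.2) = (α a).coeff i := by
    show (∑ a ∈ S0, σ (α a) * Sg Λ (.ofAdd (T.pt 0 a.2.1 a.2.2))).coeff _ = _
    rw [AddMonoidAlgebra.coeff_sum, Finsupp.finset_sum_apply, Finset.sum_eq_single a]
    · exact (T.coeff_eval_mul (α a) a.2.1 a.2.1 a.2.2 a.2.2 i).trans (if_pos ⟨rfl, rfl⟩)
    · intro b hb hne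
      refine (T.coeff_eval_mul (α b) b.2.1 a.2.1 b.2.2 a.2.2 i).trans (if_neg ?_)
      rintro ⟨h6, h7⟩
      apply hne
      obtain ⟨h8, -⟩ := hmem b hb
      refine Prod.ext (by rw [h8, h3]) (Prod.ext (by exact_mod_cast h6) h7)
    · intro h; exact absurd ha h
  rw [← h5, hP]
  simp

end Th

end H44.Tys
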