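import Pool.Agent.H44.Tys.Thin2

/-!
# The thin window argument in rank two, third part
-/

set_option linter.all false

namespace H44.Tys

open Polynomial Module

lemma hom_intPoly {R : Type*} [CommRing R] (σ : ℤ[X] →+* R) (P : ℤ[X]) :
    σ P = P.eval₂ (Int.castRingHom R) (σ X) := by
  conv_lhs => rw [← Polynomial.eval₂_C_X (p := P)]
  rw [hom_eval₂]
  congr 1
  exact RingHom.ext_int _ _

lemma sum_lift {Λ : Type*} [AddCommGroup Λ] {B : Type*} [CommRing B] (U : Multiplicative Λ →* B)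
    (a : AddMonoidAlgebra ℤ Λ) :
    (AddMonoidAlgebra.lift ℤ B Λ U) a =
      ∑ μ ∈ a.coeff.support, (a.coeff μ : B) * U (.ofAdd μ) := by
  conv_lhs => rw [← AddMonoidAlgebra.sum_coeff_single a]
  rw [Finsupp.sum, map_sum]
  refine Finset.sum_congr rfl fun μ _ => ?_
  rw [AddMonoidAlgebra.lift_single, zsmul_eq_mul]

/-- the ring homomorphism of the integral group ring given by its values at the group elements -/
noncomputable def liftZ {Λ : Type*} [AddCommGroup Λ] {B : Type*} [CommRing B]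
    (U : Multiplicative Λ →* B) : AddMonoidAlgebra ℤ Λ →+* B :=
  (AddMonoidAlgebra.lift ℤ B Λ U).toRingHom

lemma liftZ_eq {Λ : Type*} [AddCommGroup Λ] {B : Type*} [CommRing B]
    (U : Multiplicative Λ →* B) (a : AddMonoidAlgebra ℤ Λ) :
    liftZ U a = ∑ μ ∈ a.coeff.support, (a.coeff μ : B) * U (.ofAdd μ) := sum_lift U a

lemma liftZ_single {Λ : Type*} [AddCommGroup Λ] {B : Type*} [CommRing B]
    (U : Multiplicative Λ →* B) (μ : Λ) :
    liftZ U (AddMonoidAlgebra.single μ 1) = U (.ofAdd μ) := by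
  show (AddMonoidAlgebra.lift ℤ B Λ U) (AddMonoidAlgebra.single μ 1) = _
  rw [AddMonoidAlgebra.lift_single, one_smul]

namespace Th

variable {Λ G J : Type*} [AddCommGroup Λ] [AddCommGroup G] [Fintype G] [DecidableEq G]
  (T : Th Λ G J)

noncomputable abbrev Fld : Type := FractionRing ℂ[X]

noncomputable abbrev ιF : ℂ →+* FractionRing ℂ[X] := (algebraMap ℂ[X] (FractionRing ℂ[X])).comp C

/-- the character of the torsion part -/
noncomputable def χ (g : G) : ℂ := T.Xm (.ofAdd (T.pt 0 0 g))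

omit [Fintype G] [DecidableEq G] in
lemma χ_add (g h : G) : T.χ (g + h) = T.χ g * T.χ h := by
  unfold χ
  rw [← map_mul, ← ofAdd_add, pt_add]; simp

omit [Fintype G] [DecidableEq G] in
lemma χ_ne (g : G) : T.χ g ≠ 0 := T.Xm_ne _

omit [Fintype G] [DecidableEq G] in
lemma χ_zero : T.χ 0 = 1 := by
  unfold χ
  have : T.pt 0 0 0 = 0 := by
    unfold pt
    exact map_zero T.φ.symm
  rw [this, ofAdd_zero, map_one]

noncomputable abbrev Yf : FractionRing ℂ[X] := algebraMap ℂ[X] (FractionRing ℂ[X]) X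

/-- the component of a relation at the point -/
noncomputable def fχ (j : J) : (FractionRing ℂ[X])[X] :=
  ∑ μ ∈ (T.f j).coeff.support, monomial (T.φ μ).2.1.toNat
    ((((T.f j).coeff μ : ℤ) : FractionRing ℂ[X]) * ιF (T.χ (T.φ μ).2.2) * Yf ^ (T.φ μ).1.toNat)

omit [Fintype G] [DecidableEq G] in
lemma natDegree_fχ (j : J) : (T.fχ j).natDegree ≤ T.D := by
  unfold fχ
  refine natDegree_sum_le_of_forall_le _ _ fun μ hμ => ?_
  refine (natDegree_monomial_le _).trans ?_
  have h1 := T.hz j μ hμ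
  have h2 := T.hd j
  omega

lemma castF_monomial (n : ℕ) (a : ℤ) :
    castF (monomial n a) = (a : FractionRing ℂ[X]) * Yf ^ n := by
  rw [hom_intPoly castF, eval₂_monomial, eq_intCast]
  congr 2
  show algebraMap ℂ[X] (FractionRing ℂ[X]) (X.map _) = _
  rw [map_X]

lemma fχ_row (j : J) (c : ℕ) (κ : T.Cols) :
    (ιF (T.χ κ.2))⁻¹ * (T.fχ j * X ^ c).coeff κ.1 =
      ∑ g : G, (ιF (T.χ g))⁻¹ * castF (T.row j c g κ) := by
  classical
  have h1 : (T.fχ j * X ^ c).coeff (κ.1 : ℕ) = ∑ μ ∈ (T.f j).coeff.support,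
      if (T.φ μ).2.1 + c = (κ.1 : ℤ) then
        ((((T.f j).coeff μ : ℤ) : FractionRing ℂ[X]) * ιF (T.χ (T.φ μ).2.2) *
          Yf ^ (T.φ μ).1.toNat) else 0 := by
    unfold fχ
    rw [Finset.sum_mul, finset_sum_coeff]
    refine Finset.sum_congr rfl fun μ hμ => ?_
    have h2 := T.hz j μ hμ
    rw [X_pow_eq_monomial, monomial_mul_monomial, mul_one, coeff_monomial]
    by_cases h3 : (T.φ μ).2.1 + c = (κ.1 : ℤ)
    · rw [if_pos h3, if_pos (by omega)]
    · rw [if_neg h3, if_neg (by omega)]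
  have h2 : ∀ g : G, (ιF (T.χ g))⁻¹ * castF (T.row j c g κ) = ∑ μ ∈ (T.f j).coeff.support,
      if g = κ.2 - (T.φ μ).2.2 then (if (T.φ μ).2.1 + c = (κ.1 : ℤ) then
        (ιF (T.χ (κ.2 - (T.φ μ).2.2)))⁻¹ *
        ((((T.f j).coeff μ : ℤ) : FractionRing ℂ[X]) * Yf ^ (T.φ μ).1.toNat) else 0) else 0 := by
    intro g
    unfold row
    rw [map_sum, Finset.mul_sum]
    refine Finset.sum_congr rfl fun μ hμ => ?_
    by_cases h3 : g = κ.2 - (T.φ μ).2.2
    · rw [if_pos h3]
      have h4 : (T.φ μ).2.2 + g = κ.2 := by rw [h3]; abel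
      by_cases h5 : (T.φ μ).2.1 + c = (κ.1 : ℤ)
      · rw [if_pos ⟨h5, h4⟩, if_pos h5, castF_monomial, h3]
      · rw [if_neg (fun h => h5 h.1), if_neg h5, map_zero, mul_zero]
    · rw [if_neg h3, if_neg, map_zero, mul_zero]
      rintro ⟨_, h4⟩
      apply h3
      rw [← h4]; abel
  rw [Finset.sum_congr rfl fun g _ => h2 g, Finset.sum_comm, h1, Finset.mul_sum]
  refine Finset.sum_congr rfl fun μ hμ => ?_
  rw [Finset.sum_ite_eq' Finset.univ (κ.2 - (T.φ μ).2.2), if_pos (Finset.mem_univ _)]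
  split_ifs with h3
  · have h4 : T.χ κ.2 = T.χ (κ.2 - (T.φ μ).2.2) * T.χ (T.φ μ).2.2 := by
      rw [← χ_add]; congr 1; abel
    rw [h4, map_mul]
    have h5 : ιF (T.χ (κ.2 - (T.φ μ).2.2)) ≠ 0 := by
      rw [Ne, map_eq_zero]; exact T.χ_ne _
    have h6 : ιF (T.χ (T.φ μ).2.2) ≠ 0 := by
      rw [Ne, map_eq_zero]; exact T.χ_ne _
    field_simp
  · rw [mul_zero]

lemma zpow_toNat' {K : Type*} [Field K] (x : K) (n : ℤ) (hn : 0 ≤ n) : x ^ n = x ^ n.toNat := by
  conv_lhs => rw [← Int.toNat_of_nonneg hn]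
  exact zpow_natCast x _

/-- there are no nonzero common roots of the components -/
lemma no_root [AddMonoid.FG Λ] (ζ : AlgebraicClosure (FractionRing ℂ[X]))
    (hζ : ∀ j, aeval ζ (T.fχ j) = 0) : ζ = 0 := by
  classical
  by_contra hζ0
  let Ω := AlgebraicClosure (FractionRing ℂ[X])
  let jΩ : FractionRing ℂ[X] →+* Ω := algebraMap _ _
  have hY0 : jΩ Yf ≠ 0 := by
    rw [Ne, map_eq_zero]
    intro h
    have := (IsFractionRing.injective ℂ[X] (FractionRing ℂ[X])) (h.trans (map_zero _).symm)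
    exact X_ne_zero this
  let U : Multiplicative Λ →* Ω :=
    { toFun := fun x => jΩ (ιF (T.χ (T.φ x.toAdd).2.2)) * (jΩ Yf) ^ (T.φ x.toAdd).1 *
        ζ ^ (T.φ x.toAdd).2.1
      map_one' := by
        rw [toAdd_one, map_zero]
        simp only [Prod.fst_zero, Prod.snd_zero, zpow_zero, mul_one]
        rw [T.χ_zero, map_one, map_one]
      map_mul' := by
        intro x y
        rw [toAdd_mul, map_add]
        simp only [Prod.fst_add, Prod.snd_add]
        rw [T.χ_add, map_mul, map_mul, zpow_add₀ hY0, zpow_add₀ hζ0]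
        ring }
  let ψ : AddMonoidAlgebra ℤ Λ →+* Ω := liftZ U
  have hψ : ∀ a, ψ a = ∑ μ ∈ a.coeff.support, (a.coeff μ : Ω) * U (.ofAdd μ) :=
    fun a => liftZ_eq U a
  have hψf : ∀ j, ψ (T.f j) = 0 := by
    intro j
    rw [hψ, ← hζ j]
    unfold fχ
    rw [map_sum]
    refine Finset.sum_congr rfl fun μ hμ => ?_
    rw [aeval_monomial, map_mul, map_mul, map_intCast, map_pow]
    show ((T.f j).coeff μ : Ω) * (jΩ (ιF (T.χ (T.φ μ).2.2)) * (jΩ Yf) ^ (T.φ μ).1 *
        ζ ^ (T.φ μ).2.1) = _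
    rw [zpow_toNat' _ _ (T.hy j μ hμ), zpow_toNat' _ _ (T.hz j μ hμ).1]
    ring
  haveI : (RingHom.ker ψ).IsPrime := RingHom.ker_isPrime ψ
  haveI : CharZero Ω := inferInstance
  have halg := prime_alg (RingHom.ker ψ) (by
    intro n hn
    rw [RingHom.mem_ker, map_intCast] at hn
    exact_mod_cast hn) (T.hfin.subset (by
      intro ψ' hψ' j
      exact hψ' (hψf j))) (AddMonoidAlgebra.single (T.pt 1 0 0) 1)
  obtain ⟨P, hP0, hP⟩ := halg
  have h2 : (Ideal.Quotient.mk (RingHom.ker ψ))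
      (P.eval₂ (Int.castRingHom _) (AddMonoidAlgebra.single (T.pt 1 0 0) 1)) = 0 := by
    rw [Polynomial.hom_eval₂]
    rw [Polynomial.aeval_def] at hP
    have h3 : (Ideal.Quotient.mk (RingHom.ker ψ)).comp (Int.castRingHom _) =
      algebraMap ℤ (AddMonoidAlgebra ℤ Λ ⧸ RingHom.ker ψ) := RingHom.ext_int _ _
    rw [h3]; exact hP
  rw [Ideal.Quotient.eq_zero_iff_mem, RingHom.mem_ker, Polynomial.hom_eval₂] at h2
  have h4 : ψ (AddMonoidAlgebra.single (T.pt 1 0 0) 1) = jΩ Yf := by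
    refine (liftZ_single U (T.pt 1 0 0)).trans ?_
    show jΩ (ιF (T.χ (T.φ (T.pt 1 0 0)).2.2)) * (jΩ Yf) ^ (T.φ (T.pt 1 0 0)).1 *
        ζ ^ (T.φ (T.pt 1 0 0)).2.1 = _
    rw [T.φ_pt]
    simp only [zpow_one, zpow_zero, mul_one]
    rw [T.χ_zero, map_one, map_one, one_mul]
  rw [h4] at h2
  have h5 : (jΩ.comp castF) P = P.eval₂ (Int.castRingHom Ω) (jΩ Yf) := by
    rw [hom_intPoly (jΩ.comp castF)]
    congr 1
    show jΩ (castF X) = _
    congr 1
    show algebraMap ℂ[X] (FractionRing ℂ[X]) (X.map _) = _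
    rw [map_X]
  have h6 : (jΩ.comp castF) P = 0 := by
    rw [h5, ← h2]
    congr 1
    exact (RingHom.ext_int _ _)
  have h7 : castF P = 0 := (map_eq_zero jΩ).mp h6
  exact hP0 (castF_injective (h7.trans (map_zero _).symm))

/-- **the thin theorem** -/
theorem thin_core [AddMonoid.FG Λ] [Fintype J] [DecidableEq J] (jT : J)
    (hnz : ∀ a : AddMonoidAlgebra ℂ Λ, toC (T.f jT) * a = 0 → a = 0)
    (h3 : l2 (T.f jT) ≤ 3) (h5 : ∀ j, l2 (T.f j) ≤ 5) :
    ‖T.y0‖ ^ 2 ≤ 15 ^ (T.D * Fintype.card G) := by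
  classical
  have hDd := T.hd jT
  -- the power of the variable in the span
  obtain ⟨ν, hνD, hν⟩ := bez (Ω := AlgebraicClosure (FractionRing ℂ[X])) T.hD
    (Finset.univ.image T.fχ) (by
      intro f hf
      obtain ⟨j, -, rfl⟩ := Finset.mem_image.mp hf
      exact T.natDegree_fχ j)
    (fun ζ hζ => T.no_root ζ fun j => hζ _ (Finset.mem_image_of_mem _ (Finset.mem_univ j)))
  let L : (FractionRing ℂ[X])[X] →ₗ[FractionRing ℂ[X]] (T.Cols → FractionRing ℂ[X]) :=
    { toFun := fun p κ => (ιF (T.χ κ.2))⁻¹ * p.coeff κ.1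
      map_add' := by intro p q; funext κ; simp [mul_add]
      map_smul' := by intro a p; funext κ; simp [mul_left_comm] }
  let v : T.Cols → ℂ[X] := fun κ => if (κ.1 : ℕ) = ν then C (T.χ κ.2)⁻¹ else 0
  have hνlt : ν < 2 * T.D := by
    have := T.hD
    omega
  have hLv : L (X ^ ν) = fun κ => algebraMap ℂ[X] (FractionRing ℂ[X]) (v κ) := by
    funext κ
    show (ιF (T.χ κ.2))⁻¹ * (X ^ ν : (FractionRing ℂ[X])[X]).coeff κ.1 =
      algebraMap ℂ[X] (FractionRing ℂ[X]) (if (κ.1 : ℕ) = ν then C (T.χ κ.2)⁻¹ else 0)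
    rw [coeff_X_pow]
    split_ifs with h
    · rw [mul_one]
      show _ = ιF ((T.χ κ.2)⁻¹)
      rw [map_inv₀]
    · rw [mul_zero, map_zero]
  have hspan : L (X ^ ν) ∈ Submodule.span (FractionRing ℂ[X])
      (Set.range (fun a κ => castF (T.rw0 a κ))) := by
    have h6 : (Us T.D ((Finset.univ.image T.fχ : Finset _) : Set (FractionRing ℂ[X])[X])).map L ≤
        Submodule.span (FractionRing ℂ[X]) (Set.range (fun a κ => castF (T.rw0 a κ))) := by
      unfold Us
      rw [Submodule.map_span, Submodule.span_le]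
      rintro _ ⟨_, ⟨f, hf, i, hi, rfl⟩, rfl⟩
      rw [Finset.mem_coe] at hf
      obtain ⟨j, -, rfl⟩ := Finset.mem_image.mp hf
      have h7 : L (T.fχ j * X ^ i) = ∑ g : G, (ιF (T.χ g))⁻¹ •
          (fun κ => castF (T.rw0 (j, i, g) κ)) := by
        funext κ
        show (ιF (T.χ κ.2))⁻¹ * (T.fχ j * X ^ i).coeff κ.1 = _
        rw [fχ_row, Finset.sum_apply]
        refine Finset.sum_congr rfl fun g _ => ?_
        rw [Pi.smul_apply, smul_eq_mul]
        congr 2
        unfold rw0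
        rw [if_pos]
        have := T.hd j
        simp only
        omega
      rw [h7]
      exact Submodule.sum_mem _ fun g _ =>
        Submodule.smul_mem _ _ (Submodule.subset_span ⟨(j, i, g), rfl⟩)
    exact h6 (Submodule.mem_map_of_mem hν)
  rw [hLv] at hspan
  have hv0 : ∑ κ : T.Cols, (v κ).eval T.y0 * T.Xm (.ofAdd (T.pt 0 κ.1 κ.2)) ≠ 0 := by
    have h6 : ∑ κ : T.Cols, (v κ).eval T.y0 * T.Xm (.ofAdd (T.pt 0 κ.1 κ.2)) =
        Fintype.card G * T.Xm (.ofAdd (T.pt 0 ν 0)) := by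
      rw [Fintype.sum_prod_type]
      rw [Finset.sum_eq_single (⟨ν, hνlt⟩ : Fin (2 * T.D))]
      · have h7 : ∀ g : G, (v (⟨ν, hνlt⟩, g)).eval T.y0 * T.Xm (.ofAdd (T.pt 0 (ν : ℤ) g)) =
            T.Xm (.ofAdd (T.pt 0 ν 0)) := by
          intro g
          show (if ν = ν then C (T.χ g)⁻¹ else 0).eval T.y0 * _ = _
          rw [if_pos rfl, eval_C]
          have h8 : T.pt 0 (ν : ℤ) g = T.pt 0 0 g + T.pt 0 ν 0 := by
            rw [pt_add]; simp
          rw [h8, ofAdd_add, map_mul]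
          have h9 := T.χ_ne g
          unfold χ at h9 ⊢
          field_simp
        rw [Finset.sum_congr rfl fun g _ => h7 g]
        simp
      · intro c _ hc
        refine Finset.sum_eq_zero fun g _ => ?_
        show (if (c : ℕ) = ν then C (T.χ g)⁻¹ else 0).eval T.y0 * _ = 0
        rw [if_neg, eval_zero, zero_mul]
        intro h
        apply hc
        ext; exact h
      · intro h; exact absurd (Finset.mem_univ _) h
    rw [h6]
    refine mul_ne_zero ?_ (T.Xm_ne _)
    have : 0 < Fintype.card G := Fintype.card_pos_iff.mpr ⟨0⟩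
    exact_mod_cast this.ne'
  obtain ⟨h6, h7⟩ := root_bound T.rw0
    (({jT} : Finset J) ×ˢ (Finset.range (2 * T.D - T.d jT) ×ˢ (Finset.univ : Finset G)))
    (T.indep jT hnz)
    (by
      intro a ha
      rw [Finset.mem_product, Finset.mem_product, Finset.mem_singleton, Finset.mem_range] at ha
      have h8 : T.rw0 a = T.row jT a.2.1 a.2.2 := by
        funext κ
        unfold rw0
        rw [ha.1, if_pos (by omega)]
      rw [h8]
      exact (T.nrm_row_le _ _ _).trans h3)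
    (by
      intro a
      by_cases ha : a.2.1 + T.d a.1 < 2 * T.D
      · have h8 : T.rw0 a = T.row a.1 a.2.1 a.2.2 := by
          funext κ
          unfold rw0
          rw [if_pos ha]
        rw [h8]
        exact (T.nrm_row_le _ _ _).trans (h5 _)
      · have h8 : T.rw0 a = fun κ => 0 := by
          funext κ
          unfold rw0
          rw [if_neg ha]
        rw [h8]
        unfold nrm
        simp)
    T.y0 (fun κ => T.Xm (.ofAdd (T.pt 0 κ.1 κ.2)))
    (by
      intro a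
      by_cases ha : a.2.1 + T.d a.1 < 2 * T.D
      · have h8 : ∀ κ, T.rw0 a κ = T.row a.1 a.2.1 a.2.2 κ := by
          intro κ
          unfold rw0
          rw [if_pos ha]
        simp only [h8]
        exact T.Φ_row _ _ _ ha
      · have h8 : ∀ κ, T.rw0 a κ = 0 := by
          intro κ
          unfold rw0
          rw [if_neg ha]
        simp only [h8]
        simp)
    v hv0 hspan
  refine h7.trans ?_
  have hcard : Fintype.card T.Cols = 2 * T.D * Fintype.card G := by
    rw [Fintype.card_prod, Fintype.card_fin]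
  have hS0 : (({jT} : Finset J) ×ˢ (Finset.range (2 * T.D - T.d jT) ×ˢ
      (Finset.univ : Finset G))).card = (2 * T.D - T.d jT) * Fintype.card G := by
    rw [Finset.card_product, Finset.card_product, Finset.card_singleton, Finset.card_range,
      one_mul]
    rfl
  rw [hS0, hcard]
  obtain ⟨r, hr⟩ : ∃ r, T.D = T.d jT + r := ⟨T.D - T.d jT, by omega⟩
  have e1 : 2 * T.D - T.d jT = T.D + r := by omega
  have e2 : 2 * T.D * Fintype.card G - (2 * T.D - T.d jT) * Fintype.card G =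
      T.d jT * Fintype.card G := by
    rw [← Nat.sub_mul]
    congr 1
    omega
  rw [e2, e1]
  have e3 : (15 : ℝ) ^ (T.D * Fintype.card G) =
      3 ^ (T.D * Fintype.card G) * (5 ^ (r * Fintype.card G) * 5 ^ (T.d jT * Fintype.card G)) := by
    rw [← pow_add, ← add_mul, add_comm r, ← hr, ← mul_pow]
    norm_num
  rw [e3, add_mul, pow_add]
  have e4 : (3 : ℝ) ^ (r * Fintype.card G) ≤ 5 ^ (r * Fintype.card G) := by
    gcongr; norm_num
  have e5 : (0 : ℝ) ≤ 3 ^ (T.D * Fintype.card G) := by positivity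
  have e6 : (0 : ℝ) ≤ 5 ^ (T.d jT * Fintype.card G) := by positivity
  rw [mul_assoc]
  gcongr

end Th

end H44.Tys
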