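import Mathlib

/-!
# Gram determinants of finite families (volumes squared)
-/

set_option linter.all false

namespace H44.Tys

open Module Matrix

section Vol

variable {𝕜 : Type*} [RCLike 𝕜] {E F : Type*} [NormedAddCommGroup E] [InnerProductSpace 𝕜 E]
  [NormedAddCommGroup F] [InnerProductSpace 𝕜 F]
variable {ι κ ι' : Type*} [Fintype ι] [DecidableEq ι] [Fintype κ] [DecidableEq κ]
  [Fintype ι'] [DecidableEq ι']

variable (𝕜) in
/-- Gram determinant of a finite family (a nonnegative real number). -/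
noncomputable def G (v : ι → E) : ℝ := ‖(Matrix.gram 𝕜 v).det‖

lemma G_nonneg (v : ι → E) : 0 ≤ G 𝕜 v := norm_nonneg _

lemma G_pos_iff (v : ι → E) : 0 < G 𝕜 v ↔ LinearIndependent 𝕜 v := by
  rw [G, norm_pos_iff, det_gram_ne_zero_iff_linearIndependent]

lemma G_reindex (e : κ ≃ ι) (v : ι → E) : G 𝕜 (v ∘ e) = G 𝕜 v := by
  unfold G
  have : Matrix.gram 𝕜 (v ∘ e) = (Matrix.gram 𝕜 v).submatrix e e := by
    ext i j; simp [Matrix.gram_apply]
  rw [this, Matrix.det_submatrix_equiv_self]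

lemma G_empty [IsEmpty ι] (v : ι → E) : G 𝕜 v = 1 := by
  simp [G]

lemma G_unique [Unique ι] (v : ι → E) : G 𝕜 v = ‖v default‖ ^ 2 := by
  unfold G
  rw [Matrix.det_unique, Matrix.gram_apply, inner_self_eq_norm_sq_to_K]
  simp

/-- change of family by a square matrix -/
lemma G_matrix (A : Matrix ι ι 𝕜) (v : ι → E) :
    G 𝕜 (fun i => ∑ j, A i j • v j) = ‖A.det‖ ^ 2 * G 𝕜 v := by
  have h : Matrix.gram 𝕜 (fun i => ∑ j, A i j • v j) =
      (A.map (starRingEnd 𝕜)) * Matrix.gram 𝕜 v * Aᵀ := by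
    ext i j
    simp only [Matrix.gram_apply, sum_inner, inner_sum, inner_smul_left, inner_smul_right,
      Matrix.mul_apply, Matrix.map_apply, Matrix.transpose_apply, Finset.sum_mul]
    refine Finset.sum_congr rfl fun k _ => ?_
    rw [Finset.mul_sum]
    refine Finset.sum_congr rfl fun l _ => ?_
    ring
  unfold G
  rw [h, Matrix.det_mul, Matrix.det_mul, Matrix.det_transpose, norm_mul, norm_mul]
  have h2 : (A.map (starRingEnd 𝕜)).det = starRingEnd 𝕜 A.det := by
    rw [RingHom.map_det]; rfl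
  rw [h2, RCLike.norm_conj]
  ring

instance instHOP (p : ι → E) : (Submodule.span 𝕜 (Set.range p)).HasOrthogonalProjection := by
  haveI : FiniteDimensional 𝕜 (Submodule.span 𝕜 (Set.range p)) :=
    FiniteDimensional.span_of_finite 𝕜 (Set.finite_range p)
  infer_instance

variable (𝕜) in
/-- the part of `w` orthogonal to the span of a finite family -/
noncomputable def orth (p : ι → E) (w : E) : E :=
  w - (Submodule.span 𝕜 (Set.range p)).starProjection w

lemma orth_sub_mem (p : ι → E) (w : E) :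
    w - orth 𝕜 p w ∈ Submodule.span 𝕜 (Set.range p) := by
  unfold orth
  simp

lemma orth_mem_orthogonal (p : ι → E) (w : E) :
    orth 𝕜 p w ∈ (Submodule.span 𝕜 (Set.range p))ᗮ := by
  unfold orth
  exact Submodule.sub_starProjection_mem_orthogonal w

lemma orth_of_mem (p : ι → E) {w : E} (hw : w ∈ Submodule.span 𝕜 (Set.range p)) :
    orth 𝕜 p w = 0 := by
  unfold orth
  rw [Submodule.starProjection_eq_self_iff.mpr hw, sub_self]

lemma orth_sub (p : ι → E) (w w' : E) :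
    orth 𝕜 p (w - w') = orth 𝕜 p w - orth 𝕜 p w' := by
  unfold orth
  rw [map_sub]; abel

lemma orth_add (p : ι → E) (w w' : E) :
    orth 𝕜 p (w + w') = orth 𝕜 p w + orth 𝕜 p w' := by
  unfold orth
  rw [map_add]; abel

lemma norm_orth_le (p : ι → E) (w : E) : ‖orth 𝕜 p w‖ ≤ ‖w‖ := by
  unfold orth
  have h := Submodule.norm_sq_eq_add_norm_sq_starProjection w (Submodule.span 𝕜 (Set.range p))
  have h2 : (Submodule.span 𝕜 (Set.range p))ᗮ.starProjection w =
      w - (Submodule.span 𝕜 (Set.range p)).starProjection w := by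
    have := (Submodule.span 𝕜 (Set.range p)).starProjection_add_starProjection_orthogonal w
    rw [← this]; simp
  rw [h2] at h
  nlinarith [norm_nonneg w, norm_nonneg (w - (Submodule.span 𝕜 (Set.range p)).starProjection w),
    sq_nonneg ‖(Submodule.span 𝕜 (Set.range p)).starProjection w‖]

/-- minimality of the orthogonal part -/
lemma norm_orth_le_sub (p : ι → E) (w u : E) (hu : u ∈ Submodule.span 𝕜 (Set.range p)) :
    ‖orth 𝕜 p w‖ ≤ ‖w - u‖ := by
  have : orth 𝕜 p w = orth 𝕜 p (w - u) := by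
    rw [orth_sub, orth_of_mem p hu, sub_zero]
  rw [this]
  exact norm_orth_le _ _

/-- block formula -/
lemma G_sum (p : ι → E) (q : κ → E) :
    G 𝕜 (Sum.elim p q) = G 𝕜 p * G 𝕜 (fun k => orth 𝕜 p (q k)) := by
  have hc : ∀ k, ∃ c : ι → 𝕜, ∑ i, c i • p i = q k - orth 𝕜 p (q k) := by
    intro k
    exact (Submodule.mem_span_range_iff_exists_fun 𝕜).mp (orth_sub_mem p (q k))
  choose c hc using hc
  let M : Matrix (ι ⊕ κ) (ι ⊕ κ) 𝕜 :=
    Matrix.fromBlocks 1 0 (Matrix.of fun k i => - c k i) 1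
  have hM : M.det = 1 := by
    have := Matrix.det_fromBlocks_zero₁₂ (1 : Matrix ι ι 𝕜) (Matrix.of fun k i => - c k i)
      (1 : Matrix κ κ 𝕜)
    simpa [M] using this
  have h1 : (fun s => ∑ t, M s t • Sum.elim p q t) =
      Sum.elim p (fun k => orth 𝕜 p (q k)) := by
    funext s
    rcases s with i | k
    · rw [Fintype.sum_sum_type]
      have e1 : ∀ j, M (Sum.inl i) (Sum.inl j) = if i = j then 1 else 0 := by
        intro j; simp [M, Matrix.one_apply]
      have e2 : ∀ l, M (Sum.inl i) (Sum.inr l) = 0 := by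
        intro l; simp [M]
      simp [e1, e2]
    · rw [Fintype.sum_sum_type]
      have e1 : ∀ j, M (Sum.inr k) (Sum.inl j) = - c k j := by
        intro j; simp [M]
      have e2 : ∀ l, M (Sum.inr k) (Sum.inr l) = if k = l then 1 else 0 := by
        intro l; simp [M, Matrix.one_apply]
      simp [e1, e2, hc k]
  have h2 := G_matrix (𝕜 := 𝕜) M (Sum.elim p q)
  rw [h1, hM] at h2
  have h3 : G 𝕜 (Sum.elim p (fun k => orth 𝕜 p (q k))) =
      G 𝕜 p * G 𝕜 (fun k => orth 𝕜 p (q k)) := by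
    unfold G
    have : Matrix.gram 𝕜 (Sum.elim p (fun k => orth 𝕜 p (q k))) =
        Matrix.fromBlocks (Matrix.gram 𝕜 p) 0 0
          (Matrix.gram 𝕜 (fun k => orth 𝕜 p (q k))) := by
      ext s t
      rcases s with i | k <;> rcases t with j | l
      · simp [Matrix.gram_apply]
      · simp only [Matrix.gram_apply, Sum.elim_inl, Sum.elim_inr, Matrix.fromBlocks_apply₁₂,
          Matrix.zero_apply]
        exact Submodule.inner_right_of_mem_orthogonal
          (Submodule.subset_span (Set.mem_range_self i)) (orth_mem_orthogonal p (q l))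
      · simp only [Matrix.gram_apply, Sum.elim_inl, Sum.elim_inr, Matrix.fromBlocks_apply₂₁,
          Matrix.zero_apply]
        exact Submodule.inner_left_of_mem_orthogonal
          (Submodule.subset_span (Set.mem_range_self j)) (orth_mem_orthogonal p (q k))
      · simp [Matrix.gram_apply]
    rw [this, Matrix.det_fromBlocks_zero₂₁, norm_mul]
  rw [← h3, h2]; simp

/-- splitting off the last vector -/
lemma G_snoc {n : ℕ} (v : Fin (n + 1) → E) :
    G 𝕜 v = G 𝕜 (fun i : Fin n => v i.castSucc) *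
      ‖orth 𝕜 (fun i : Fin n => v i.castSucc) (v (Fin.last n))‖ ^ 2 := by
  let e : Fin n ⊕ Unit ≃ Fin (n + 1) :=
    ((Equiv.refl (Fin n)).sumCongr (Equiv.ofUnique Unit (Fin 1))).trans finSumFinEquiv
  have h := G_reindex (𝕜 := 𝕜) e v
  have h2 : v ∘ e = Sum.elim (fun i : Fin n => v i.castSucc) (fun _ : Unit => v (Fin.last n)) := by
    funext s
    rcases s with i | k
    · simp [e]; rfl
    · simp [e]; rfl
  rw [← h, h2, G_sum]
  congr 1
  rw [G_unique]

lemma orth_comp_eq (S : E →ₗ[𝕜] F) (p : ι → E) (p' : ι' → F)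
    (hS : ∀ i, S (p i) ∈ Submodule.span 𝕜 (Set.range p')) (w : E) :
    orth 𝕜 p' (S w) = orth 𝕜 p' (S (orth 𝕜 p w)) := by
  have h1 : w = orth 𝕜 p w + (w - orth 𝕜 p w) := by abel
  have h2 : S (w - orth 𝕜 p w) ∈ Submodule.span 𝕜 (Set.range p') := by
    have h3 := orth_sub_mem (𝕜 := 𝕜) p w
    have h4 : Submodule.span 𝕜 (Set.range p) ≤ (Submodule.span 𝕜 (Set.range p')).comap S := by
      rw [Submodule.span_le]
      rintro _ ⟨i, rfl⟩
      exact hS i
    exact h4 h3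
  conv_lhs => rw [h1, map_add, orth_add, orth_of_mem p' h2, add_zero]

/-- contraction principle -/
lemma G_contract_fin (S : E →ₗ[𝕜] F) {C : ℝ} (hC : 0 ≤ C) (hS : ∀ u, ‖S u‖ ≤ C * ‖u‖) :
    ∀ {n : ℕ} (v : Fin n → E), G 𝕜 (fun i => S (v i)) ≤ (C ^ 2) ^ n * G 𝕜 v := by
  intro n
  induction n with
  | zero => intro v; simp [G_empty]
  | succ n ih =>
    intro v
    rw [G_snoc, G_snoc v, orth_comp_eq S (fun i : Fin n => v i.castSucc)
      (fun i : Fin n => S (v i.castSucc)) (fun i => Submodule.subset_span ⟨i, rfl⟩)]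
    have h1 := ih (fun i => v i.castSucc)
    have h2 : ‖orth 𝕜 (fun i : Fin n => S (v i.castSucc))
        (S (orth 𝕜 (fun i : Fin n => v i.castSucc) (v (Fin.last n))))‖ ≤
        C * ‖orth 𝕜 (fun i : Fin n => v i.castSucc) (v (Fin.last n))‖ :=
      (norm_orth_le _ _).trans (hS _)
    have h0 : 0 ≤ (C ^ 2) ^ n * G 𝕜 (fun i : Fin n => v i.castSucc) :=
      mul_nonneg (by positivity) (G_nonneg _)
    calc _ ≤ ((C ^ 2) ^ n * G 𝕜 (fun i : Fin n => v i.castSucc)) *
          (C * ‖orth 𝕜 (fun i : Fin n => v i.castSucc) (v (Fin.last n))‖) ^ 2 := by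
          gcongr
      _ = _ := by ring

lemma G_contract (S : E →ₗ[𝕜] F) {C : ℝ} (hC : 0 ≤ C) (hS : ∀ u, ‖S u‖ ≤ C * ‖u‖)
    (v : ι → E) : G 𝕜 (fun i => S (v i)) ≤ (C ^ 2) ^ (Fintype.card ι) * G 𝕜 v := by
  have e := (Fintype.equivFin ι).symm
  have h := G_contract_fin S hC hS (v ∘ e)
  rw [G_reindex] at h
  have h2 := G_reindex (𝕜 := 𝕜) e (fun i => S (v i))
  rw [← h2]
  exact h

/-- Hadamard's inequality, relative version -/
lemma G_sum_le_fin (p : ι → E) : ∀ {n : ℕ} (q : Fin n → E),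
    G 𝕜 (fun k => orth 𝕜 p (q k)) ≤ ∏ k, ‖q k‖ ^ 2 := by
  intro n
  induction n with
  | zero => intro q; simp [G_empty]
  | succ n ih =>
    intro q
    rw [G_snoc, Fin.prod_univ_castSucc]
    have h2 : ‖orth 𝕜 (fun i : Fin n => orth 𝕜 p (q i.castSucc)) (orth 𝕜 p (q (Fin.last n)))‖
        ≤ ‖q (Fin.last n)‖ := (norm_orth_le _ _).trans (norm_orth_le _ _)
    have h3 := ih (fun i => q i.castSucc)
    have : 0 ≤ ∏ i : Fin n, ‖q i.castSucc‖ ^ 2 := Finset.prod_nonneg fun _ _ => by positivity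
    gcongr

lemma G_sum_le (p : ι → E) (q : κ → E) :
    G 𝕜 (Sum.elim p q) ≤ G 𝕜 p * ∏ k, ‖q k‖ ^ 2 := by
  rw [G_sum]
  have e := (Fintype.equivFin κ).symm
  have h := G_sum_le_fin (𝕜 := 𝕜) p (q ∘ e)
  have h2 := G_reindex (𝕜 := 𝕜) e (fun k => orth 𝕜 p (q k))
  have h3 : ∏ k, ‖(q ∘ e) k‖ ^ 2 = ∏ k, ‖q k‖ ^ 2 := by
    rw [← Equiv.prod_comp e]; rfl
  have h4 : G 𝕜 (fun k => orth 𝕜 p (q k)) ≤ ∏ k, ‖q k‖ ^ 2 := by
    rw [← h2, ← h3]; exact h
  exact mul_le_mul_of_nonneg_left h4 (G_nonneg p)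

lemma G_le_prod (q : κ → E) : G 𝕜 q ≤ ∏ k, ‖q k‖ ^ 2 := by
  have h := G_sum_le (𝕜 := 𝕜) (fun i : Empty => (i.elim : E)) q
  rw [G_empty (fun i : Empty => (i.elim : E)), one_mul] at h
  have h2 := G_reindex (𝕜 := 𝕜) (Equiv.emptySum Empty κ).symm
    (Sum.elim (fun i : Empty => (i.elim : E)) q)
  have h3 : Sum.elim (fun i : Empty => (i.elim : E)) q ∘ (Equiv.emptySum Empty κ).symm = q := by
    funext k; rfl
  rw [h3] at h2
  rw [h2]; exact h

/-- relative contraction -/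
lemma G_rel_contract (p' : ι' → E) (p : ι → F) (q : κ → E) (S : E →ₗ[𝕜] F) {C : ℝ}
    (hC : 0 ≤ C) (hS : ∀ u, ‖S u‖ ≤ C * ‖u‖)
    (hp : ∀ i, S (p' i) ∈ Submodule.span 𝕜 (Set.range p)) :
    G 𝕜 (Sum.elim p (fun k => S (q k))) * G 𝕜 p' ≤
      (C ^ 2) ^ (Fintype.card κ) * G 𝕜 p * G 𝕜 (Sum.elim p' q) := by
  rw [G_sum, G_sum]
  have h1 : (fun k => orth 𝕜 p (S (q k))) = fun k => orth 𝕜 p (S (orth 𝕜 p' (q k))) := by
    funext k; exact orth_comp_eq S p' p hp (q k)
  have h2 : G 𝕜 (fun k => orth 𝕜 p (S (q k))) ≤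
      (C ^ 2) ^ (Fintype.card κ) * G 𝕜 (fun k => orth 𝕜 p' (q k)) := by
    rw [h1]
    let S' : E →ₗ[𝕜] F := (LinearMap.id -
      (Submodule.span 𝕜 (Set.range p)).starProjection.toLinearMap) ∘ₗ S
    have hS' : ∀ u, S' u = orth 𝕜 p (S u) := fun u => by simp [S', orth]
    have := G_contract S' hC (fun u => by rw [hS']; exact (norm_orth_le _ _).trans (hS u))
      (fun k => orth 𝕜 p' (q k))
    simpa [hS'] using this
  have hp1 := G_nonneg (𝕜 := 𝕜) p
  have hp2 := G_nonneg (𝕜 := 𝕜) p'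
  calc G 𝕜 p * G 𝕜 (fun k => orth 𝕜 p (S (q k))) * G 𝕜 p' ≤
      G 𝕜 p * ((C ^ 2) ^ (Fintype.card κ) * G 𝕜 (fun k => orth 𝕜 p' (q k))) * G 𝕜 p' := by
        gcongr
    _ = _ := by ring

/-- killing the first block by a contraction -/
lemma G_sum_ge (p : ι → E) (q : κ → E) (S : E →ₗ[𝕜] F) (hS : ∀ u, ‖S u‖ ≤ ‖u‖)
    (hp : ∀ i, S (p i) = 0) :
    G 𝕜 p * G 𝕜 (fun k => S (q k)) ≤ G 𝕜 (Sum.elim p q) := by
  rw [G_sum]
  have h := G_rel_contract (𝕜 := 𝕜) p (fun i : Empty => (i.elim : F)) q S zero_le_one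
    (fun u => by rw [one_mul]; exact hS u) (fun i => by rw [hp i]; exact Submodule.zero_mem _)
  rw [G_sum p q, G_sum, G_empty, one_pow, one_pow] at h
  have h3 : ∀ w : F, orth 𝕜 (fun i : Empty => (i.elim : F)) w = w := by
    intro w
    have := orth_sub_mem (𝕜 := 𝕜) (fun i : Empty => (i.elim : F)) w
    have h4 : Set.range (fun i : Empty => (i.elim : F)) = ∅ := Set.range_eq_empty _
    rw [h4, Submodule.span_empty, Submodule.mem_bot, sub_eq_zero] at this
    exact this.symm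
  simp only [h3] at h
  linarith

end Vol

end H44.Tys
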