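import Pool.Agent.H44.Tys.Lat

/-!
# Windows and lattices cut out by ideals
-/

set_option linter.all false

namespace H44.Tys

open Module

variable {Λ : Type*} [AddCommGroup Λ]

/-- integer vectors supported on `W` -/
def Sp (W : Finset Λ) : Submodule ℤ (AddMonoidAlgebra ℤ Λ) where
  carrier := {a | ∀ i ∉ W, a.coeff i = 0}
  add_mem' := by
    intro a b ha hb i hi
    rw [AddMonoidAlgebra.coeff_add, Finsupp.add_apply, ha i hi, hb i hi, add_zero]
  zero_mem' := by intro i _; simp
  smul_mem' := by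
    intro c a ha i hi
    rw [AddMonoidAlgebra.coeff_smul_apply, ha i hi, smul_zero]

lemma mem_Sp {W : Finset Λ} {a : AddMonoidAlgebra ℤ Λ} :
    a ∈ Sp W ↔ ∀ i ∉ W, a.coeff i = 0 := Iff.rfl

lemma Sp_mono {W W' : Finset Λ} (h : W ⊆ W') : Sp W ≤ Sp W' :=
  fun a ha i hi => ha i fun hi' => hi (h hi')

/-- the lattice of the vectors of the ideal supported on `W` -/
noncomputable def Lt (I : Ideal (AddMonoidAlgebra ℤ Λ)) (W : Finset Λ) :
    Submodule ℤ (AddMonoidAlgebra ℤ Λ) := I.restrictScalars ℤ ⊓ Sp W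

lemma mem_Lt {I : Ideal (AddMonoidAlgebra ℤ Λ)} {W : Finset Λ} {a : AddMonoidAlgebra ℤ Λ} :
    a ∈ Lt I W ↔ a ∈ I ∧ ∀ i ∉ W, a.coeff i = 0 := Iff.rfl

noncomputable def spEquiv (W : Finset Λ) : Sp W ≃ₗ[ℤ] (W → ℤ) where
  toFun a i := (a : AddMonoidAlgebra ℤ Λ).coeff i
  map_add' a b := by
    funext i
    simp [AddMonoidAlgebra.coeff_add]
  map_smul' c a := by
    funext i
    simp only [Submodule.coe_smul, RingHom.id_apply, Pi.smul_apply]
    rw [AddMonoidAlgebra.coeff_smul_apply]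
  invFun f := ⟨∑ i : W, AddMonoidAlgebra.single (i : Λ) (f i), by
    classical
    intro j hj
    rw [AddMonoidAlgebra.coeff_sum, Finsupp.finsetSum_apply]
    refine Finset.sum_eq_zero fun i _ => ?_
    rw [AddMonoidAlgebra.coeff_single, Finsupp.single_apply, if_neg]
    rintro rfl
    exact hj i.2⟩
  left_inv a := by
    classical
    apply Subtype.ext
    ext j
    rw [AddMonoidAlgebra.coeff_sum, Finsupp.finsetSum_apply]
    by_cases hj : j ∈ W
    · rw [Finset.sum_eq_single (⟨j, hj⟩ : W)]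
      · simp [AddMonoidAlgebra.coeff_single]
      · intro i _ hi
        rw [AddMonoidAlgebra.coeff_single, Finsupp.single_apply, if_neg]
        rintro rfl
        exact hi rfl
      · simp
    · rw [a.2 j hj]
      refine Finset.sum_eq_zero fun i _ => ?_
      rw [AddMonoidAlgebra.coeff_single, Finsupp.single_apply, if_neg]
      rintro rfl
      exact hj i.2
  right_inv f := by
    classical
    funext j
    simp only
    rw [AddMonoidAlgebra.coeff_sum, Finsupp.finsetSum_apply, Finset.sum_eq_single j]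
    · simp [AddMonoidAlgebra.coeff_single]
    · intro i _ hi
      rw [AddMonoidAlgebra.coeff_single, Finsupp.single_apply, if_neg]
      intro h
      exact hi (Subtype.ext h)
    · simp

noncomputable def spBasis (W : Finset Λ) : Basis W ℤ (Sp W) := Basis.ofEquivFun (spEquiv W)

lemma spBasis_apply [DecidableEq Λ] (W : Finset Λ) (i : W) :
    (spBasis W i : AddMonoidAlgebra ℤ Λ) = AddMonoidAlgebra.single (i : Λ) 1 := by
  unfold spBasis
  rw [Basis.coe_ofEquivFun]
  show ((spEquiv W).symm (Pi.single i 1) : AddMonoidAlgebra ℤ Λ) = _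
  show ∑ j : W, AddMonoidAlgebra.single (j : Λ) ((Pi.single i 1 : W → ℤ) j) = _
  rw [Finset.sum_eq_single i]
  · simp
  · intro j _ hj
    rw [Pi.single_eq_of_ne hj]; simp
  · simp

instance instFinSp (W : Finset Λ) : Module.Finite ℤ (Sp W) := Module.Finite.of_basis (spBasis W)

lemma finite_of_le_Sp {L : Submodule ℤ (AddMonoidAlgebra ℤ Λ)} {W : Finset Λ} (h : L ≤ Sp W) :
    Module.Finite ℤ L :=
  Module.Finite.of_injective (Submodule.inclusion h) (Submodule.inclusion_injective h)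

instance instFinLt (I : Ideal (AddMonoidAlgebra ℤ Λ)) (W : Finset Λ) :
    Module.Finite ℤ (Lt I W) := finite_of_le_Sp (W := W) inf_le_right

lemma finrank_Sp (W : Finset Λ) : finrank ℤ (Sp W) = W.card := by
  rw [finrank_eq_card_basis (spBasis W)]; simp

lemma ipZ_single (i j : Λ) [DecidableEq Λ] :
    ipZ (AddMonoidAlgebra.single i 1) (AddMonoidAlgebra.single j 1) = if i = j then 1 else 0 := by
  unfold ipZ
  rw [AddMonoidAlgebra.coeff_single, Finsupp.sum_single_index (by simp)]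
  rw [AddMonoidAlgebra.coeff_single, Finsupp.single_apply, one_mul]
  simp only [eq_comm]

lemma cov_Sp (W : Finset Λ) : cov (Sp W) = 1 := by
  classical
  rw [← cov_eq (Sp W) (spBasis W), GZ_eq]
  have : (Matrix.of fun i j : W => ipZ (spBasis W i : AddMonoidAlgebra ℤ Λ)
      (spBasis W j : AddMonoidAlgebra ℤ Λ)) = 1 := by
    ext i j
    rw [Matrix.of_apply, spBasis_apply, spBasis_apply, ipZ_single, Matrix.one_apply]
    by_cases h : i = j
    · subst h; simp
    · rw [if_neg h, if_neg (fun h' => h (Subtype.ext h'))]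
  rw [this]; simp

lemma toR_mem_span {L : Submodule ℤ (AddMonoidAlgebra ℤ Λ)} {S : Set (AddMonoidAlgebra ℤ Λ)}
    (hLS : L ≤ Submodule.span ℤ S) (U : Submodule ℝ (AddMonoidAlgebra ℝ Λ))
    (hU : ∀ s ∈ S, toR s ∈ U) : ∀ x ∈ L, toR x ∈ U := by
  let N : Submodule ℤ (AddMonoidAlgebra ℤ Λ) :=
    (U.restrictScalars ℤ).comap (toR (Λ := Λ)).toAddMonoidHom.toIntLinearMap
  have h1 : Submodule.span ℤ S ≤ N := by
    rw [Submodule.span_le]
    intro s hs
    exact hU s hs
  intro x hx
  exact h1 (hLS hx)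

/-- extension of an independent family by short vectors -/
lemma cov_le_extend {κ : Type*} [Fintype κ] [DecidableEq κ]
    (L : Submodule ℤ (AddMonoidAlgebra ℤ Λ)) [Module.Finite ℤ L]
    (v : κ → AddMonoidAlgebra ℤ Λ) (hvL : ∀ k, v k ∈ L) (hv : LinearIndependent ℤ v)
    (S : Set (AddMonoidAlgebra ℤ Λ)) (hSL : S ⊆ L) (hLS : L ≤ Submodule.span ℤ S) (C : ℝ)
    (hC : ∀ s ∈ S, ‖toR s‖ ^ 2 ≤ C) (hC0 : 0 ≤ C) :
    Fintype.card κ ≤ finrank ℤ L ∧
      cov L ≤ GZ v * C ^ (finrank ℤ L - Fintype.card κ) := by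
  classical
  set V := AddMonoidAlgebra ℝ Λ
  let u : κ ⊕ S → AddMonoidAlgebra ℤ Λ := Sum.elim v (fun s => (s : AddMonoidAlgebra ℤ Λ))
  have huL : ∀ x, u x ∈ L := by
    rintro (k | s)
    · exact hvL k
    · exact hSL s.2
  let w : κ ⊕ S → V := fun x => toR (u x)
  have hs0 : LinearIndepOn ℝ w (Set.range (Sum.inl : κ → κ ⊕ S)) := by
    rw [linearIndepOn_range_iff Sum.inl_injective]
    exact linInd_real v hv
  obtain ⟨b, -, hsb, htb, hbi⟩ := exists_linearIndepOn_extension hs0 (Set.subset_univ _)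
  let B := Module.finBasis ℤ L
  let g : Fin (finrank ℤ L) → V := fun i => toR (B i : AddMonoidAlgebra ℤ Λ)
  have hgi : LinearIndependent ℝ g :=
    linInd_real _ (B.linearIndependent.map' L.subtype (Submodule.ker_subtype L))
  have hLB : L ≤ Submodule.span ℤ (Set.range fun i => (B i : AddMonoidAlgebra ℤ Λ)) := by
    intro x hx
    have h1 := B.sum_repr ⟨x, hx⟩
    have h2 : x = ∑ l, (B.repr ⟨x, hx⟩ l) • (B l : AddMonoidAlgebra ℤ Λ) := by
      have := congrArg (fun y : L => (y : AddMonoidAlgebra ℤ Λ)) h1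
      push_cast at this
      exact this.symm
    rw [h2]
    exact Submodule.sum_mem _ fun l _ =>
      Submodule.smul_mem _ _ (Submodule.subset_span ⟨l, rfl⟩)
  have hLg : ∀ x ∈ L, toR x ∈ Submodule.span ℝ (Set.range g) :=
    toR_mem_span hLB _ (by rintro _ ⟨l, rfl⟩; exact Submodule.subset_span ⟨l, rfl⟩)
  have hLb : ∀ x ∈ L, toR x ∈ Submodule.span ℝ (w '' b) :=
    toR_mem_span hLS _ (fun s hs => htb ⟨Sum.inr ⟨s, hs⟩, Set.mem_univ _, rfl⟩)
  -- index set
  let b' : Set S := {s | Sum.inr s ∈ b}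
  let φ : κ ⊕ b' → κ ⊕ S := Sum.map id Subtype.val
  have hφ : Function.Injective φ := Sum.map_injective.mpr ⟨Function.injective_id, Subtype.val_injective⟩
  have hφb : ∀ x, φ x ∈ b := by
    rintro (k | s)
    · exact hsb ⟨k, rfl⟩
    · exact s.2
  have hφr : ∀ y ∈ b, ∃ x, φ x = y := by
    rintro (k | s) hy
    · exact ⟨Sum.inl k, rfl⟩
    · exact ⟨Sum.inr ⟨s, hy⟩, rfl⟩
  have hli : LinearIndependent ℝ (w ∘ φ) := by
    have : w ∘ φ = (fun x : b => w x) ∘ (fun x => (⟨φ x, hφb x⟩ : b)) := rfl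
    rw [this]
    exact LinearIndependent.comp hbi _ (fun x y h => hφ (congrArg Subtype.val h))
  have hspan : Submodule.span ℝ (Set.range (w ∘ φ)) = Submodule.span ℝ (Set.range g) := by
    apply le_antisymm
    · rw [Submodule.span_le]
      rintro _ ⟨x, rfl⟩
      exact hLg _ (huL _)
    · rw [Submodule.span_le]
      rintro _ ⟨i, rfl⟩
      have h1 := hLb _ (B i).2
      refine Submodule.span_mono ?_ h1
      rintro _ ⟨y, hy, rfl⟩
      obtain ⟨x, rfl⟩ := hφr y hy
      exact ⟨x, rfl⟩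
  have hfin : Finite (κ ⊕ b') := by
    refine hli.finite_of_le_span_finite _ (Set.range g) ?_
    rw [← hspan]
    exact Submodule.subset_span
  have hfinb : Finite b' := Finite.of_injective (Sum.inr : b' → κ ⊕ b') Sum.inr_injective
  letI : Fintype b' := Fintype.ofFinite b'
  have hcard : Fintype.card (κ ⊕ b') = finrank ℤ L := by
    have h1 := finrank_span_eq_card hli
    have h2 := finrank_span_eq_card hgi
    rw [hspan, h2, Fintype.card_fin] at h1
    exact h1.symm
  have hcard' : Fintype.card b' = finrank ℤ L - Fintype.card κ := by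
    rw [Fintype.card_sum] at hcard; omega
  refine ⟨by rw [Fintype.card_sum] at hcard; omega, ?_⟩
  have hliZ : LinearIndependent ℤ (u ∘ φ) := linInd_int _ hli
  have h1 := cov_le L (u ∘ φ) (fun x => huL _) hcard hliZ
  refine h1.trans ?_
  have h2 : (fun x => toR ((u ∘ φ) x)) =
      Sum.elim (fun k => toR (v k)) (fun s : b' => toR ((s : S) : AddMonoidAlgebra ℤ Λ)) := by
    funext x
    rcases x with k | s <;> rfl
  unfold GZ
  rw [h2]
  refine (G_sum_le _ _).trans ?_
  have h3 : ∏ s : b', ‖toR ((s : S) : AddMonoidAlgebra ℤ Λ)‖ ^ 2 ≤ ∏ s : b', C :=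
    Finset.prod_le_prod (fun _ _ => by positivity) (fun s _ => hC _ s.1.2)
  rw [Finset.prod_const, Finset.card_univ, hcard'] at h3
  exact mul_le_mul_of_nonneg_left h3 (G_nonneg _)

end H44.Tys
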